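import Mathlib

/-!
# Bounded complexes of `R G`-modules as graded modules, tensor product, homotopy, Picard groups
-/

set_option linter.unusedVariables false
set_option linter.unusedSectionVars false

open TensorProduct

namespace PicInd

universe u

/-- The axioms of a bounded complex of representations of `G` over `R` with underlying module `V`,
action `ρ`, differential `d` and projections `π i` onto the homogeneous parts (`i : ℤ`): the `π i`
are orthogonal idempotents, zero for `i` outside the finite set `s`, with sum the identity, and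
commute with `ρ`; `d` is `G`-equivariant of degree `-1` with square zero. -/
structure IsCx {R : Type u} [CommRing R] {G : Type} [Group G] {V : Type u} [AddCommGroup V]
    [Module R V] (ρ : Representation R G V) (d : V →ₗ[R] V) (π : ℤ → V →ₗ[R] V)
    (s : Finset ℤ) : Prop where
  π_zero : ∀ i, i ∉ s → ∀ x, π i x = 0
  π_sum : ∀ x, ∑ i ∈ s, π i x = x
  π_self : ∀ i x, π i (π i x) = π i x
  π_ne : ∀ i j, i ≠ j → ∀ x, π i (π j x) = 0
  π_d : ∀ i x, π i (d x) = d (π (i + 1) x)
  d_d : ∀ x, d (d x) = 0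
  π_ρ : ∀ g i x, π i (ρ g x) = ρ g (π i x)
  d_ρ : ∀ g x, d (ρ g x) = ρ g (d x)

/-- A bounded complex of representations of `G` over `R`, written as one module `V` with commuting
projections `π i` onto the homogeneous parts (`i : ℤ`), finitely many of them nonzero and with sum
the identity, and a `G`-equivariant differential `d` of degree `-1` with square zero. -/
structure Cx (R : Type u) [CommRing R] (G : Type) [Group G] where
  V : Type u
  [acg : AddCommGroup V]
  [mod : Module R V]
  ρ : Representation R G V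
  d : V →ₗ[R] V
  π : ℤ → V →ₗ[R] V
  s : Finset ℤ
  ax : IsCx ρ d π s

attribute [instance] Cx.acg Cx.mod

variable {R : Type u} [CommRing R] {G : Type} [Group G]

namespace Cx

theorem π_zero (X : Cx R G) : ∀ i, i ∉ X.s → ∀ x, X.π i x = 0 := X.ax.π_zero
theorem π_sum (X : Cx R G) : ∀ x, ∑ i ∈ X.s, X.π i x = x := X.ax.π_sum
theorem π_self (X : Cx R G) : ∀ i x, X.π i (X.π i x) = X.π i x := X.ax.π_self
theorem π_ne (X : Cx R G) : ∀ i j, i ≠ j → ∀ x, X.π i (X.π j x) = 0 := X.ax.π_ne
theorem π_d (X : Cx R G) : ∀ i x, X.π i (X.d x) = X.d (X.π (i + 1) x) := X.ax.π_d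
theorem d_d (X : Cx R G) : ∀ x, X.d (X.d x) = 0 := X.ax.d_d
theorem π_ρ (X : Cx R G) : ∀ g i x, X.π i (X.ρ g x) = X.ρ g (X.π i x) := X.ax.π_ρ
theorem d_ρ (X : Cx R G) : ∀ g x, X.d (X.ρ g x) = X.ρ g (X.d x) := X.ax.d_ρ

end Cx

/-- The sign `(-1)^i`, an integer. -/
def eps (i : ℤ) : ℤ := if Even i then 1 else -1

lemma eps_zero : eps 0 = 1 := by simp [eps]

lemma eps_succ (i : ℤ) : eps (i + 1) = - eps i := by
  unfold eps
  by_cases h : Even i
  · have : ¬ Even (i + 1) := by rw [Int.even_add_one]; simpa using h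
    simp [h, this]
  · have : Even (i + 1) := by rw [Int.even_add_one]; exact h
    simp [h, this]

lemma eps_add (i j : ℤ) : eps (i + j) = eps i * eps j := by
  unfold eps
  by_cases h : Even i <;> by_cases h' : Even j <;> simp [Int.even_add, h, h']

lemma eps_mul_self (i : ℤ) : eps i * eps i = 1 := by
  unfold eps; split_ifs <;> simp

lemma eps_neg (i : ℤ) : eps (-i) = eps i := by
  unfold eps; simp

namespace Cx

/-- Morphisms of complexes: linear, equivariant, homogeneous of degree `0`, commuting with `d`. -/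
structure Hom (X Y : Cx R G) where
  f : X.V →ₗ[R] Y.V
  f_ρ : ∀ g x, f (X.ρ g x) = Y.ρ g (f x)
  f_π : ∀ i x, f (X.π i x) = Y.π i (f x)
  f_d : ∀ x, f (X.d x) = Y.d (f x)

/-- Identity morphism. -/
def Hom.id (X : Cx R G) : Hom X X := ⟨LinearMap.id, fun _ _ => rfl, fun _ _ => rfl, fun _ => rfl⟩

/-- Composition `g ∘ f`. -/
def Hom.comp {X Y Z : Cx R G} (g : Hom Y Z) (f : Hom X Y) : Hom X Z :=
  ⟨g.f ∘ₗ f.f, fun a x => by simp [f.f_ρ, g.f_ρ], fun a x => by simp [f.f_π, g.f_π],
    fun x => by simp [f.f_d, g.f_d]⟩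

/-- Two morphisms are chain homotopic: `f - g = d h + h d` with `h` linear, equivariant and
homogeneous of degree `1`. -/
def Htpy {X Y : Cx R G} (f g : Hom X Y) : Prop :=
  ∃ h : X.V →ₗ[R] Y.V, (∀ a x, h (X.ρ a x) = Y.ρ a (h x)) ∧
    (∀ i x, h (X.π i x) = Y.π (i + 1) (h x)) ∧
    (∀ x, f.f x - g.f x = Y.d (h x) + h (X.d x))

/-- `X` is a retract of `Y` in the homotopy category. -/
def Retr (X Y : Cx R G) : Prop :=
  ∃ (f : Hom X Y) (g : Hom Y X), Htpy (g.comp f) (Hom.id X)

/-- `X` and `Y` are homotopy equivalent. -/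
def Heq (X Y : Cx R G) : Prop :=
  ∃ (f : Hom X Y) (g : Hom Y X), Htpy (g.comp f) (Hom.id X) ∧ Htpy (f.comp g) (Hom.id Y)

/-- `X` and `Y` are isomorphic complexes. -/
def Iso (X Y : Cx R G) : Prop :=
  ∃ (f : Hom X Y) (g : Hom Y X), (∀ x, g.f (f.f x) = x) ∧ (∀ y, f.f (g.f y) = y)

/-- The sign operator `x ↦ (-1)^(deg x) x`. -/
noncomputable def sgn (X : Cx R G) : X.V →ₗ[R] X.V := ∑ i ∈ X.s, eps i • X.π i

lemma π_π (X : Cx R G) (i j : ℤ) (x : X.V) : X.π i (X.π j x) = if i = j then X.π i x else 0 := by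
  split_ifs with h
  · subst h; exact X.π_self i x
  · exact X.π_ne i j h x

lemma d_π (X : Cx R G) (i : ℤ) (x : X.V) : X.d (X.π i x) = X.π (i - 1) (X.d x) := by
  rw [X.π_d]; simp

lemma sgn_apply (X : Cx R G) (x : X.V) : X.sgn x = ∑ i ∈ X.s, eps i • X.π i x := by
  simp [sgn, LinearMap.sum_apply]

lemma π_sgn (X : Cx R G) (i : ℤ) (x : X.V) : X.π i (X.sgn x) = eps i • X.π i x := by
  rw [sgn_apply, map_sum]
  simp only [map_zsmul, π_π]
  by_cases hi : i ∈ X.s
  · rw [Finset.sum_eq_single i]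
    · simp
    · intro b _ hb; simp [Ne.symm hb]
    · intro h; exact absurd hi h
  · rw [Finset.sum_eq_zero, X.π_zero i hi, smul_zero]
    intro b hb
    have : i ≠ b := by rintro rfl; exact hi hb
    simp [this]

lemma sgn_π (X : Cx R G) (i : ℤ) (x : X.V) : X.sgn (X.π i x) = eps i • X.π i x := by
  rw [sgn_apply]
  simp only [π_π]
  by_cases hi : i ∈ X.s
  · rw [Finset.sum_eq_single i]
    · simp
    · intro b _ hb; simp [hb]
    · intro h; exact absurd hi h
  · rw [Finset.sum_eq_zero, X.π_zero i hi, smul_zero]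
    intro b hb
    have : b ≠ i := by rintro rfl; exact hi hb
    simp [this]

/-- two elements with the same homogeneous parts are equal -/
lemma ext_π (X : Cx R G) {x y : X.V} (h : ∀ i, X.π i x = X.π i y) : x = y := by
  rw [← X.π_sum x, ← X.π_sum y]
  exact Finset.sum_congr rfl (fun i _ => h i)

lemma sgn_sgn (X : Cx R G) (x : X.V) : X.sgn (X.sgn x) = x := by
  apply X.ext_π
  intro i
  rw [π_sgn, π_sgn, smul_smul]
  rw [eps_mul_self, one_smul]

lemma sgn_d (X : Cx R G) (x : X.V) : X.sgn (X.d x) = - X.d (X.sgn x) := by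
  apply X.ext_π
  intro i
  rw [π_sgn, X.π_d, map_neg, X.π_d, π_sgn, map_zsmul, eps_succ, neg_smul, neg_neg]

lemma sgn_ρ (X : Cx R G) (g : G) (x : X.V) : X.sgn (X.ρ g x) = X.ρ g (X.sgn x) := by
  apply X.ext_π
  intro i
  rw [π_sgn, X.π_ρ, X.π_ρ, π_sgn, map_zsmul]

lemma eps_tmul {M N : Type*} [AddCommGroup M] [Module R M] [AddCommGroup N] [Module R N]
    (i : ℤ) (x : M) (y : N) : (eps i • x) ⊗ₜ[R] y = eps i • (x ⊗ₜ[R] y) := by
  unfold eps; split_ifs <;> simp [TensorProduct.neg_tmul]

lemma tmul_eps {M N : Type*} [AddCommGroup M] [Module R M] [AddCommGroup N] [Module R N]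
    (i : ℤ) (x : M) (y : N) : x ⊗ₜ[R] (eps i • y) = eps i • (x ⊗ₜ[R] y) := by
  unfold eps; split_ifs <;> simp [TensorProduct.tmul_neg]

/-- linear maps out of a tensor product agree if they agree on tensors of homogeneous elements -/
lemma tensor_ext (X Y : Cx R G) {Z : Type*} [AddCommGroup Z] [Module R Z]
    {f g : X.V ⊗[R] Y.V →ₗ[R] Z}
    (h : ∀ i j x y, f (X.π i x ⊗ₜ Y.π j y) = g (X.π i x ⊗ₜ Y.π j y)) : f = g := by
  apply TensorProduct.ext'
  intro x y
  rw [← X.π_sum x, ← Y.π_sum y]
  simp only [TensorProduct.sum_tmul, TensorProduct.tmul_sum, map_sum]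
  exact Finset.sum_congr rfl fun j _ => Finset.sum_congr rfl fun i _ => h i j x y

/-- the projection onto degree `n` of the tensor product -/
noncomputable def tπ (X Y : Cx R G) (n : ℤ) : X.V ⊗[R] Y.V →ₗ[R] X.V ⊗[R] Y.V :=
  ∑ i ∈ X.s, TensorProduct.map (X.π i) (Y.π (n - i))

/-- the differential of the tensor product: `d (x ⊗ y) = dx ⊗ y + (-1)^(deg x) x ⊗ dy` -/
noncomputable def td (X Y : Cx R G) : X.V ⊗[R] Y.V →ₗ[R] X.V ⊗[R] Y.V :=
  TensorProduct.map X.d LinearMap.id + TensorProduct.map X.sgn Y.d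

lemma tπ_tmul (X Y : Cx R G) (n i j : ℤ) (x : X.V) (y : Y.V) :
    tπ X Y n (X.π i x ⊗ₜ Y.π j y) = if i + j = n then X.π i x ⊗ₜ Y.π j y else 0 := by
  rw [tπ, LinearMap.sum_apply]
  simp only [TensorProduct.map_tmul, π_π]
  by_cases hi : i ∈ X.s
  · rw [Finset.sum_eq_single i]
    · simp only [if_true]
      by_cases h : i + j = n
      · subst h; simp
      · rw [if_neg h, if_neg (by omega)]; simp
    · intro b _ hb; rw [if_neg hb]; simp
    · intro h; exact absurd hi h
  · rw [X.π_zero i hi]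
    simp only [TensorProduct.zero_tmul, ite_self]
    apply Finset.sum_eq_zero
    intro b hb
    rw [if_neg (by rintro rfl; exact hi hb)]; simp

lemma td_tmul (X Y : Cx R G) (x : X.V) (y : Y.V) :
    td X Y (x ⊗ₜ y) = X.d x ⊗ₜ y + X.sgn x ⊗ₜ Y.d y := by
  simp [td]

/-- The tensor product of complexes over `R` with the diagonal action and the usual sign. -/
noncomputable def tensor (X Y : Cx R G) : Cx R G where
  V := X.V ⊗[R] Y.V
  ρ := X.ρ.tprod Y.ρ
  d := td X Y
  π := tπ X Y
  s := Finset.image₂ (· + ·) X.s Y.s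
  ax := {
    π_zero n hn x := by
      have : tπ X Y n = 0 := by
        apply tensor_ext
        intro i j x y
        rw [tπ_tmul]
        split_ifs with h
        · by_cases hi : i ∈ X.s
          · by_cases hj : j ∈ Y.s
            · exact absurd (Finset.mem_image₂.2 ⟨i, hi, j, hj, h⟩) hn
            · rw [Y.π_zero j hj]; simp
          · rw [X.π_zero i hi]; simp
        · simp
      rw [this]; rfl
    π_sum x := by
      have : ∑ n ∈ Finset.image₂ (· + ·) X.s Y.s, tπ X Y n = LinearMap.id := by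
        apply tensor_ext
        intro i j x y
        rw [LinearMap.sum_apply]
        simp only [tπ_tmul, LinearMap.id_apply]
        by_cases hi : i ∈ X.s
        · by_cases hj : j ∈ Y.s
          · rw [Finset.sum_ite_eq]
            rw [if_pos (Finset.mem_image₂.2 ⟨i, hi, j, hj, rfl⟩)]
          · rw [Y.π_zero j hj]; simp
        · rw [X.π_zero i hi]; simp
      conv_rhs => rw [← LinearMap.id_apply (R := R) x, ← this]
      rw [LinearMap.sum_apply]
    π_self n x := by
      have : tπ X Y n ∘ₗ tπ X Y n = tπ X Y n := by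
        apply tensor_ext
        intro i j x y
        rw [LinearMap.comp_apply, tπ_tmul]
        split_ifs with h
        · rw [tπ_tmul, if_pos h]
        · simp
      exact LinearMap.congr_fun this x
    π_ne n m hnm x := by
      have : tπ X Y n ∘ₗ tπ X Y m = 0 := by
        apply tensor_ext
        intro i j x y
        rw [LinearMap.comp_apply, tπ_tmul]
        split_ifs with h
        · rw [tπ_tmul, if_neg (by omega)]; simp
        · simp
      exact LinearMap.congr_fun this x
    π_d n x := by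
      have : tπ X Y n ∘ₗ td X Y = td X Y ∘ₗ tπ X Y (n + 1) := by
        apply tensor_ext
        intro i j x y
        rw [LinearMap.comp_apply, LinearMap.comp_apply, tπ_tmul, td_tmul, d_π, d_π, sgn_π, map_add,
          tπ_tmul, eps_tmul, map_zsmul, tπ_tmul]
        split_ifs with h1 h2 h3 h4 <;> try omega
        · rw [td_tmul, d_π, d_π, sgn_π, eps_tmul]
        · simp
      exact LinearMap.congr_fun this x
    d_d x := by
      have : td X Y ∘ₗ td X Y = 0 := by
        apply TensorProduct.ext'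
        intro x y
        rw [LinearMap.comp_apply, td_tmul, map_add, td_tmul, td_tmul, X.d_d, Y.d_d, sgn_d, sgn_sgn]
        simp [TensorProduct.neg_tmul]
      exact LinearMap.congr_fun this x
    π_ρ g n x := by
      have : tπ X Y n ∘ₗ (X.ρ.tprod Y.ρ) g = (X.ρ.tprod Y.ρ) g ∘ₗ tπ X Y n := by
        apply tensor_ext
        intro i j x y
        rw [LinearMap.comp_apply, LinearMap.comp_apply, tπ_tmul, Representation.tprod_apply,
          TensorProduct.map_tmul, ← X.π_ρ, ← Y.π_ρ, tπ_tmul]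
        split_ifs with h
        · rw [TensorProduct.map_tmul, X.π_ρ, Y.π_ρ]
        · simp
      exact LinearMap.congr_fun this x
    d_ρ g x := by
      have : td X Y ∘ₗ (X.ρ.tprod Y.ρ) g = (X.ρ.tprod Y.ρ) g ∘ₗ td X Y := by
        apply TensorProduct.ext'
        intro x y
        rw [LinearMap.comp_apply, LinearMap.comp_apply, Representation.tprod_apply,
          TensorProduct.map_tmul, td_tmul, td_tmul, map_add, TensorProduct.map_tmul,
          TensorProduct.map_tmul, X.d_ρ, Y.d_ρ, sgn_ρ]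
      exact LinearMap.congr_fun this x }

/-- The complex `R[n]`: the trivial representation `R` placed in degree `n`. -/
noncomputable def sph (R : Type u) [CommRing R] (G : Type) [Group G] (n : ℤ) : Cx R G where
  V := R
  ρ := Representation.trivial R G R
  d := 0
  π i := if i = n then LinearMap.id else 0
  s := {n}
  ax := {
    π_zero i hi x := by simp at hi; simp [hi]
    π_sum x := by simp
    π_self i x := by split_ifs <;> simp
    π_ne i j h x := by
      by_cases h1 : i = n
      · have : j ≠ n := by rintro rfl; exact h h1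
        simp [h1, this]
      · simp [h1]
    π_d i x := by simp
    d_d x := by simp
    π_ρ g i x := by simp [Representation.trivial]
    d_ρ g x := by simp }

/-- The unit complex `R = R[0]`. -/
noncomputable abbrev one (R : Type u) [CommRing R] (G : Type) [Group G] : Cx R G := sph R G 0

/-- Restriction of a complex along a homomorphism of groups. -/
def res {G' : Type} [Group G'] (α : G' →* G) (X : Cx R G) : Cx R G' where
  V := X.V
  ρ := X.ρ.comp α
  d := X.d
  π := X.π
  s := X.s
  ax := {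
    π_zero := X.π_zero
    π_sum := X.π_sum
    π_self := X.π_self
    π_ne := X.π_ne
    π_d := X.π_d
    d_d := X.d_d
    π_ρ g i x := X.π_ρ (α g) i x
    d_ρ g x := X.d_ρ (α g) x }

/-- A bounded complex of finitely generated permutation modules: the module `V` has a finite
basis of homogeneous elements which is permuted by `G`. -/
def IsPerm (X : Cx R G) : Prop :=
  ∃ (ι : Type) (_ : Finite ι) (_ : MulAction G ι) (b : Module.Basis ι R X.V) (deg : ι → ℤ),
    (∀ g i, X.ρ g (b i) = b (g • i)) ∧ ∀ i, X.π (deg i) (b i) = b i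

/-- Objects of the idempotent completion of the homotopy category of bounded complexes of finitely
generated permutation modules: the bounded complexes which are retracts, up to homotopy, of bounded
complexes of finitely generated permutation modules. -/
def InK (X : Cx R G) : Prop := ∃ P : Cx R G, IsPerm P ∧ Retr X P

lemma Htpy.refl {X Y : Cx R G} (f : Hom X Y) : Htpy f f :=
  ⟨0, by simp, by simp, by simp⟩

lemma Htpy.symm {X Y : Cx R G} {f g : Hom X Y} (h : Htpy f g) : Htpy g f := by
  obtain ⟨h, h1, h2, h3⟩ := h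
  refine ⟨-h, by simp [h1], by simp [h2], fun x => ?_⟩
  have := h3 x
  simp only [LinearMap.neg_apply, map_neg]
  rw [← neg_sub, this]; abel

lemma Htpy.trans {X Y : Cx R G} {f g k : Hom X Y} (h : Htpy f g) (h' : Htpy g k) : Htpy f k := by
  obtain ⟨a, a1, a2, a3⟩ := h
  obtain ⟨b, b1, b2, b3⟩ := h'
  refine ⟨a + b, by simp [a1, b1], by simp [a2, b2], fun x => ?_⟩
  have e1 := a3 x
  have e2 := b3 x
  simp only [LinearMap.add_apply, map_add]
  have : f.f x - k.f x = (f.f x - g.f x) + (g.f x - k.f x) := by abel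
  rw [this, e1, e2]; abel

lemma Htpy.comp_left {X Y Z : Cx R G} {f g : Hom X Y} (h : Htpy f g) (k : Hom Y Z) :
    Htpy (k.comp f) (k.comp g) := by
  obtain ⟨a, a1, a2, a3⟩ := h
  refine ⟨k.f ∘ₗ a, by simp [a1, k.f_ρ], by simp [a2, k.f_π], fun x => ?_⟩
  simp only [Hom.comp, LinearMap.comp_apply]
  rw [← map_sub, a3, map_add, k.f_d]

lemma Htpy.comp_right {X Y Z : Cx R G} {f g : Hom Y Z} (h : Htpy f g) (k : Hom X Y) :
    Htpy (f.comp k) (g.comp k) := by
  obtain ⟨a, a1, a2, a3⟩ := h
  refine ⟨a ∘ₗ k.f, by simp [a1, k.f_ρ], by simp [a2, k.f_π], fun x => ?_⟩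
  simp only [Hom.comp, LinearMap.comp_apply]
  rw [a3, k.f_d]

/-- homotopic from pointwise equality -/
lemma Htpy.of_eq {X Y : Cx R G} {f g : Hom X Y} (h : ∀ x, f.f x = g.f x) : Htpy f g :=
  ⟨0, by simp, by simp, by simp [h]⟩

lemma Heq.refl (X : Cx R G) : Heq X X :=
  ⟨Hom.id X, Hom.id X, Htpy.of_eq fun _ => rfl, Htpy.of_eq fun _ => rfl⟩

lemma Heq.symm {X Y : Cx R G} (h : Heq X Y) : Heq Y X := by
  obtain ⟨f, g, h1, h2⟩ := h
  exact ⟨g, f, h2, h1⟩

lemma Retr.trans {X Y Z : Cx R G} (h : Retr X Y) (h' : Retr Y Z) : Retr X Z := by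
  obtain ⟨f, g, h1⟩ := h
  obtain ⟨f', g', h1'⟩ := h'
  refine ⟨f'.comp f, g.comp g', ?_⟩
  have e1 := (h1'.comp_left g).comp_right f
  exact Htpy.trans (Htpy.trans (Htpy.of_eq fun _ => rfl) e1)
    (Htpy.trans (Htpy.of_eq fun _ => rfl) h1)

lemma Heq.trans {X Y Z : Cx R G} (h : Heq X Y) (h' : Heq Y Z) : Heq X Z := by
  obtain ⟨f, g, h1, h2⟩ := h
  obtain ⟨f', g', h1', h2'⟩ := h'
  refine ⟨f'.comp f, g.comp g', ?_, ?_⟩
  · have e1 := (h1'.comp_left g).comp_right f
    exact Htpy.trans (Htpy.trans (Htpy.of_eq fun _ => rfl) e1)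
      (Htpy.trans (Htpy.of_eq fun _ => rfl) h1)
  · have e1 := (h2.comp_left f').comp_right g'
    exact Htpy.trans (Htpy.trans (Htpy.of_eq fun _ => rfl) e1)
      (Htpy.trans (Htpy.of_eq fun _ => rfl) h2')

lemma Heq.retr {X Y : Cx R G} (h : Heq X Y) : Retr X Y := by
  obtain ⟨f, g, h1, _⟩ := h
  exact ⟨f, g, h1⟩

lemma Iso.heq {X Y : Cx R G} (h : Iso X Y) : Heq X Y := by
  obtain ⟨f, g, h1, h2⟩ := h
  exact ⟨f, g, Htpy.of_eq fun x => h1 x, Htpy.of_eq fun x => h2 x⟩

lemma Iso.symm {X Y : Cx R G} (h : Iso X Y) : Iso Y X := by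
  obtain ⟨f, g, h1, h2⟩ := h
  exact ⟨g, f, h2, h1⟩

/-- isomorphism from one morphism that is bijective -/
lemma Iso.of_bij {X Y : Cx R G} (f : Hom X Y) (hf : Function.Bijective f.f) : Iso X Y := by
  let e := LinearEquiv.ofBijective f.f hf
  have he : ∀ x, e x = f.f x := fun _ => rfl
  refine ⟨f, ⟨e.symm.toLinearMap, ?_, ?_, ?_⟩, ?_, ?_⟩
  · intro g x
    apply e.injective
    simp [he, f.f_ρ]
    rw [← he, ← he]; simp
  · intro g x
    apply e.injective
    simp [he, f.f_π]
    rw [← he, ← he]; simp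
  · intro x
    apply e.injective
    simp [he, f.f_d]
    rw [← he, ← he]; simp
  · intro x; exact e.symm_apply_apply x
  · intro x; exact e.apply_symm_apply x

lemma InK.of_retr {X Y : Cx R G} (h : Retr X Y) (hY : InK Y) : InK X := by
  obtain ⟨P, hP, hr⟩ := hY
  exact ⟨P, hP, h.trans hr⟩

lemma InK.of_heq {X Y : Cx R G} (h : Heq X Y) (hY : InK Y) : InK X := InK.of_retr h.retr hY

lemma IsPerm.inK {X : Cx R G} (h : IsPerm X) : InK X := ⟨X, h, (Heq.refl X).retr⟩

end Cx

end PicInd
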