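import Mathlib
import Pool.Agent.Lib_MP_8744b5_al.Base

/-! Piece MON1: the tensor product of complexes respects retracts and homotopy equivalences. -/

set_option linter.unusedVariables false

open TensorProduct

namespace PicInd

universe u

variable {R : Type u} [CommRing R] {G : Type} [Group G]

namespace Cx

/-- morphisms commute with the sign operators -/
lemma Hom.f_sgn {X Y : Cx R G} (f : Hom X Y) (x : X.V) : f.f (X.sgn x) = Y.sgn (f.f x) := by
  apply Y.ext_π
  intro i
  rw [← f.f_π, π_sgn, map_zsmul, π_sgn, f.f_π]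

/-- tensor product of morphisms -/
noncomputable def Hom.tensor {X X' Y Y' : Cx R G} (f : Hom X X') (g : Hom Y Y') :
    Hom (X.tensor Y) (X'.tensor Y') where
  f := TensorProduct.map f.f g.f
  f_ρ a x := by
    have : TensorProduct.map f.f g.f ∘ₗ (X.ρ.tprod Y.ρ) a =
        (X'.ρ.tprod Y'.ρ) a ∘ₗ TensorProduct.map f.f g.f := by
      apply TensorProduct.ext'
      intro x y
      simp [f.f_ρ, g.f_ρ]
    exact LinearMap.congr_fun this x
  f_π n x := by
    have : TensorProduct.map f.f g.f ∘ₗ tπ X Y n = tπ X' Y' n ∘ₗ TensorProduct.map f.f g.f := by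
      apply tensor_ext
      intro i j x y
      rw [LinearMap.comp_apply, LinearMap.comp_apply, tπ_tmul, TensorProduct.map_tmul, f.f_π,
        g.f_π, tπ_tmul]
      split_ifs with h
      · rw [TensorProduct.map_tmul, f.f_π, g.f_π]
      · simp
    exact LinearMap.congr_fun this x
  f_d x := by
    have : TensorProduct.map f.f g.f ∘ₗ td X Y = td X' Y' ∘ₗ TensorProduct.map f.f g.f := by
      apply TensorProduct.ext'
      intro x y
      rw [LinearMap.comp_apply, LinearMap.comp_apply, td_tmul, TensorProduct.map_tmul, td_tmul,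
        map_add, TensorProduct.map_tmul, TensorProduct.map_tmul, f.f_d, g.f_d, f.f_sgn]
    exact LinearMap.congr_fun this x

/-- homotopic morphisms have homotopic tensor products, first factor -/
lemma Htpy.tensor_left {X X' Y Y' : Cx R G} {f f' : Hom X X'} (h : Htpy f f') (g : Hom Y Y') :
    Htpy (f.tensor g) (f'.tensor g) := by
  obtain ⟨a, a1, a2, a3⟩ := h
  refine ⟨TensorProduct.map a g.f, ?_, ?_, ?_⟩
  · intro b x
    have : TensorProduct.map a g.f ∘ₗ (X.ρ.tprod Y.ρ) b =
        (X'.ρ.tprod Y'.ρ) b ∘ₗ TensorProduct.map a g.f := by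
      apply TensorProduct.ext'
      intro x y
      simp [a1, g.f_ρ]
    exact LinearMap.congr_fun this x
  · intro n x
    have : TensorProduct.map a g.f ∘ₗ tπ X Y n =
        tπ X' Y' (n + 1) ∘ₗ TensorProduct.map a g.f := by
      apply tensor_ext
      intro i j x y
      rw [LinearMap.comp_apply, LinearMap.comp_apply, tπ_tmul, TensorProduct.map_tmul, a2,
        g.f_π, tπ_tmul]
      split_ifs with h h' h'
      · rw [TensorProduct.map_tmul, a2, g.f_π]
      · omega
      · omega
      · simp
    exact LinearMap.congr_fun this x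
  · intro x
    have : (TensorProduct.map f.f g.f - TensorProduct.map f'.f g.f) =
        td X' Y' ∘ₗ TensorProduct.map a g.f + TensorProduct.map a g.f ∘ₗ td X Y := by
      apply tensor_ext
      intro i j x y
      simp only [LinearMap.sub_apply, LinearMap.add_apply, LinearMap.comp_apply,
        TensorProduct.map_tmul, td_tmul, map_add]
      rw [← TensorProduct.sub_tmul, a3, TensorProduct.add_tmul, a2, sgn_π, sgn_π, eps_succ,
        map_zsmul, a2, g.f_d, eps_tmul, neg_smul, TensorProduct.neg_tmul, eps_tmul]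
      abel
    exact LinearMap.congr_fun this x

/-- homotopic morphisms have homotopic tensor products, second factor -/
lemma Htpy.tensor_right {X X' Y Y' : Cx R G} (f : Hom X X') {g g' : Hom Y Y'} (h : Htpy g g') :
    Htpy (f.tensor g) (f.tensor g') := by
  obtain ⟨a, a1, a2, a3⟩ := h
  refine ⟨TensorProduct.map (X'.sgn ∘ₗ f.f) a, ?_, ?_, ?_⟩
  · intro b x
    have : TensorProduct.map (X'.sgn ∘ₗ f.f) a ∘ₗ (X.ρ.tprod Y.ρ) b =
        (X'.ρ.tprod Y'.ρ) b ∘ₗ TensorProduct.map (X'.sgn ∘ₗ f.f) a := by
      apply TensorProduct.ext'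
      intro x y
      simp [a1, f.f_ρ, sgn_ρ]
    exact LinearMap.congr_fun this x
  · intro n x
    have : TensorProduct.map (X'.sgn ∘ₗ f.f) a ∘ₗ tπ X Y n =
        tπ X' Y' (n + 1) ∘ₗ TensorProduct.map (X'.sgn ∘ₗ f.f) a := by
      apply tensor_ext
      intro i j x y
      rw [LinearMap.comp_apply, LinearMap.comp_apply, tπ_tmul, TensorProduct.map_tmul, a2,
        LinearMap.comp_apply, f.f_π, sgn_π, eps_tmul, map_zsmul, tπ_tmul]
      split_ifs with h h' h'
      · rw [TensorProduct.map_tmul, a2, LinearMap.comp_apply, f.f_π, sgn_π, eps_tmul]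
      · omega
      · omega
      · simp
    exact LinearMap.congr_fun this x
  · intro x
    have : (TensorProduct.map f.f g.f - TensorProduct.map f.f g'.f) =
        td X' Y' ∘ₗ TensorProduct.map (X'.sgn ∘ₗ f.f) a +
          TensorProduct.map (X'.sgn ∘ₗ f.f) a ∘ₗ td X Y := by
      apply TensorProduct.ext'
      intro x y
      simp only [LinearMap.sub_apply, LinearMap.add_apply, LinearMap.comp_apply,
        TensorProduct.map_tmul, td_tmul, map_add]
      rw [← TensorProduct.tmul_sub, a3, TensorProduct.tmul_add, f.f_d, sgn_d, f.f_sgn, sgn_sgn]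
      simp only [TensorProduct.neg_tmul]
      abel
    exact LinearMap.congr_fun this x

lemma Hom.tensor_comp {X X' X'' Y Y' Y'' : Cx R G} (f : Hom X X') (f' : Hom X' X'')
    (g : Hom Y Y') (g' : Hom Y' Y'') (z : X.V ⊗[R] Y.V) :
    ((f'.tensor g').comp (f.tensor g)).f z = ((f'.comp f).tensor (g'.comp g)).f z := by
  have : TensorProduct.map f'.f g'.f ∘ₗ TensorProduct.map f.f g.f =
      TensorProduct.map (f'.comp f).f (g'.comp g).f := by
    apply TensorProduct.ext'
    intro x y
    simp [Hom.comp]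
  exact LinearMap.congr_fun this z

lemma Hom.tensor_id {X Y : Cx R G} (z : X.V ⊗[R] Y.V) :
    ((Hom.id X).tensor (Hom.id Y)).f z = z := by
  have : TensorProduct.map (Hom.id X).f (Hom.id Y).f = LinearMap.id := by
    apply TensorProduct.ext'
    intro x y
    simp [Hom.id]
  exact LinearMap.congr_fun this z

/-- the tensor product of two homotopy-split pairs -/
lemma Htpy.tensor_pair {X X' Y Y' : Cx R G} {f : Hom X X'} {f' : Hom X' X} {g : Hom Y Y'}
    {g' : Hom Y' Y} (h : Htpy (f'.comp f) (Hom.id X)) (h' : Htpy (g'.comp g) (Hom.id Y)) :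
    Htpy ((f'.tensor g').comp (f.tensor g)) (Hom.id (X.tensor Y)) := by
  refine Htpy.trans (Htpy.of_eq (Hom.tensor_comp f f' g g')) ?_
  refine Htpy.trans (h.tensor_left _) ?_
  refine Htpy.trans (h'.tensor_right _) ?_
  exact Htpy.of_eq Hom.tensor_id

theorem Retr.tensor {X X' Y Y' : Cx R G} (h : Retr X X') (h' : Retr Y Y') :
    Retr (X.tensor Y) (X'.tensor Y') := by
  obtain ⟨f, g, h1⟩ := h
  obtain ⟨f', g', h1'⟩ := h'
  exact ⟨f.tensor f', g.tensor g', Htpy.tensor_pair h1 h1'⟩

theorem Heq.tensor {X X' Y Y' : Cx R G} (h : Heq X X') (h' : Heq Y Y') :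
    Heq (X.tensor Y) (X'.tensor Y') := by
  obtain ⟨f, g, h1, h2⟩ := h
  obtain ⟨f', g', h1', h2'⟩ := h'
  exact ⟨f.tensor f', g.tensor g', Htpy.tensor_pair h1 h1', Htpy.tensor_pair h2 h2'⟩

end Cx

end PicInd
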