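import Mathlib
import Pool.Agent.Lib_MP_8744b5_al.Base

/-! Piece MON2: commutativity (with the sign `(-1)^(pq)`), unit and spheres. -/

set_option linter.unusedVariables false

open TensorProduct

namespace PicInd

universe u

variable {R : Type u} [CommRing R] {G : Type} [Group G]

namespace Cx

/-- the symmetry with the Koszul sign -/
noncomputable def braid (X Y : Cx R G) : X.V ⊗[R] Y.V →ₗ[R] Y.V ⊗[R] X.V :=
  ∑ i ∈ X.s, ∑ j ∈ Y.s, eps (i * j) •
    ((TensorProduct.comm R X.V Y.V).toLinearMap ∘ₗ TensorProduct.map (X.π i) (Y.π j))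

lemma braid_tmul (X Y : Cx R G) (i j : ℤ) (x : X.V) (y : Y.V) :
    braid X Y (X.π i x ⊗ₜ Y.π j y) = eps (i * j) • (Y.π j y ⊗ₜ[R] X.π i x) := by
  simp only [braid, LinearMap.sum_apply, LinearMap.smul_apply, LinearMap.comp_apply,
    TensorProduct.map_tmul, π_π, LinearEquiv.coe_coe, TensorProduct.comm_tmul]
  by_cases hi : i ∈ X.s
  · rw [Finset.sum_eq_single i]
    · by_cases hj : j ∈ Y.s
      · rw [Finset.sum_eq_single j]
        · simp
        · intro b _ hb; simp [hb]
        · intro h; exact absurd hj h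
      · rw [Finset.sum_eq_zero, Y.π_zero j hj]
        · simp
        · intro b hb
          have : b ≠ j := by rintro rfl; exact hj hb
          simp [this]
    · intro b _ hb; simp [hb]
    · intro h; exact absurd hi h
  · rw [Finset.sum_eq_zero, X.π_zero i hi]
    · simp
    · intro b hb
      have : b ≠ i := by rintro rfl; exact hi hb
      simp [this]

lemma eps_mul_succ (i j : ℤ) : eps (i * (j - 1)) = eps (i * j) * eps i := by
  have : i * (j - 1) = i * j + -i := by ring
  rw [this, eps_add, eps_neg]

/-- the symmetry as a morphism -/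
noncomputable def braidHom (X Y : Cx R G) : Hom (X.tensor Y) (Y.tensor X) where
  f := braid X Y
  f_ρ g x := by
    have : braid X Y ∘ₗ (X.ρ.tprod Y.ρ) g = (Y.ρ.tprod X.ρ) g ∘ₗ braid X Y := by
      apply tensor_ext
      intro i j x y
      simp only [LinearMap.comp_apply, Representation.tprod_apply, TensorProduct.map_tmul]
      rw [← X.π_ρ, ← Y.π_ρ, braid_tmul, braid_tmul, map_zsmul, TensorProduct.map_tmul, X.π_ρ,
        Y.π_ρ]
    exact LinearMap.congr_fun this x
  f_π n x := by
    have : braid X Y ∘ₗ tπ X Y n = tπ Y X n ∘ₗ braid X Y := by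
      apply tensor_ext
      intro i j x y
      simp only [LinearMap.comp_apply]
      rw [tπ_tmul, braid_tmul, map_zsmul, tπ_tmul]
      split_ifs with h h' h'
      · rw [braid_tmul]
      · omega
      · omega
      · simp
    exact LinearMap.congr_fun this x
  f_d x := by
    have : braid X Y ∘ₗ td X Y = td Y X ∘ₗ braid X Y := by
      apply tensor_ext
      intro i j x y
      simp only [LinearMap.comp_apply]
      rw [td_tmul, sgn_π, d_π, d_π, map_add, braid_tmul, eps_tmul, map_zsmul, braid_tmul,
        braid_tmul, map_zsmul, td_tmul, sgn_π, d_π, d_π, eps_tmul, smul_add, smul_smul, smul_smul]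
      rw [show (i - 1) * j = j * (i - 1) by ring, eps_mul_succ, eps_mul_succ,
        show j * i = i * j by ring]
      rw [show eps i * (eps (i * j) * eps i) = eps (i * j) * (eps i * eps i) by ring,
        eps_mul_self, mul_one, add_comm]
    exact LinearMap.congr_fun this x

lemma braid_braid (X Y : Cx R G) (z : X.V ⊗[R] Y.V) : braid Y X (braid X Y z) = z := by
  have : braid Y X ∘ₗ braid X Y = LinearMap.id := by
    apply tensor_ext
    intro i j x y
    simp only [LinearMap.comp_apply, LinearMap.id_apply]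
    rw [braid_tmul, map_zsmul, braid_tmul, smul_smul, mul_comm j i, eps_mul_self, one_smul]
  exact LinearMap.congr_fun this z

theorem tensor_comm (X Y : Cx R G) : Iso (X.tensor Y) (Y.tensor X) :=
  ⟨braidHom X Y, braidHom Y X, braid_braid X Y, braid_braid Y X⟩

/-- the underlying module of `R[n]` is `R` -/
noncomputable def toR (R : Type u) [CommRing R] (G : Type) [Group G] (n : ℤ) :
    (sph R G n).V ≃ₗ[R] R := LinearEquiv.refl R R

lemma sph_π_eq (n : ℤ) (x : (sph R G n).V) : (sph R G n).π n x = x := by
  change (if n = n then LinearMap.id else 0 : R →ₗ[R] R) x = x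
  rw [if_pos rfl]; rfl

lemma sph_π_ne' (n i : ℤ) (h : i ≠ n) (x : (sph R G n).V) : (sph R G n).π i x = 0 := by
  change (if i = n then LinearMap.id else 0 : R →ₗ[R] R) x = 0
  rw [if_neg h]; rfl

lemma sph_d (n : ℤ) (x : (sph R G n).V) : (sph R G n).d x = 0 := rfl

lemma sph_ρ (n : ℤ) (g : G) (x : (sph R G n).V) : (sph R G n).ρ g x = x := rfl

lemma sph_sgn (n : ℤ) (x : (sph R G n).V) : (sph R G n).sgn x = eps n • x := by
  rw [sgn_apply]
  have : (sph R G n).s = {n} := rfl
  rw [this, Finset.sum_singleton, sph_π_eq]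

lemma sph_tπ (m : ℤ) (X : Cx R G) (n : ℤ) (r : (sph R G m).V) (x : X.V) :
    tπ (sph R G m) X n (r ⊗ₜ x) = r ⊗ₜ X.π (n - m) x := by
  rw [tπ, LinearMap.sum_apply]
  have : (sph R G m).s = {m} := rfl
  rw [this, Finset.sum_singleton, TensorProduct.map_tmul, sph_π_eq]

/-- `R[m] ⊗ X → X` on modules -/
noncomputable def lidM (m : ℤ) (X : Cx R G) : (sph R G m).V ⊗[R] X.V ≃ₗ[R] X.V :=
  (TensorProduct.congr (toR R G m) (LinearEquiv.refl R X.V)).trans (TensorProduct.lid R X.V)

lemma lidM_tmul (m : ℤ) (X : Cx R G) (r : (sph R G m).V) (x : X.V) :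
    lidM m X (r ⊗ₜ x) = toR R G m r • x := by
  simp [lidM]

/-- `r ⊗ x ↦ r x` -/
theorem one_tensor (X : Cx R G) : Iso ((one R G).tensor X) X := by
  refine Iso.of_bij (X := (one R G).tensor X) (Y := X) ⟨(lidM 0 X).toLinearMap,
    ?_, ?_, ?_⟩ (lidM 0 X).bijective
  · intro g x
    have : (lidM 0 X).toLinearMap ∘ₗ ((one R G).ρ.tprod X.ρ) g =
        X.ρ g ∘ₗ (lidM 0 X).toLinearMap := by
      apply TensorProduct.ext'
      intro r x
      simp only [LinearMap.comp_apply, Representation.tprod_apply, TensorProduct.map_tmul,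
        LinearEquiv.coe_coe, lidM_tmul, sph_ρ, map_smul]
    exact LinearMap.congr_fun this x
  · intro n x
    have : (lidM 0 X).toLinearMap ∘ₗ tπ (one R G) X n =
        X.π n ∘ₗ (lidM 0 X).toLinearMap := by
      apply TensorProduct.ext'
      intro r x
      simp only [LinearMap.comp_apply, sph_tπ, LinearEquiv.coe_coe, lidM_tmul, map_smul, sub_zero]
    exact LinearMap.congr_fun this x
  · intro x
    have : (lidM 0 X).toLinearMap ∘ₗ td (one R G) X =
        X.d ∘ₗ (lidM 0 X).toLinearMap := by
      apply TensorProduct.ext'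
      intro r x
      simp only [LinearMap.comp_apply, td_tmul, sph_d, sph_sgn, eps_zero, one_smul,
        TensorProduct.zero_tmul, zero_add, LinearEquiv.coe_coe, lidM_tmul, map_smul]
    exact LinearMap.congr_fun this x

theorem sph_tensor (m n : ℤ) : Iso ((sph R G m).tensor (sph R G n)) (sph R G (m + n)) := by
  let e : (sph R G m).V ⊗[R] (sph R G n).V ≃ₗ[R] (sph R G (m + n)).V :=
    ((lidM m (sph R G n)).trans (toR R G n)).trans (toR R G (m + n)).symm
  have he : ∀ r x, e (r ⊗ₜ x) = (toR R G (m + n)).symm (toR R G m r * toR R G n x) := by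
    intro r x
    simp [e, lidM_tmul]
  refine Iso.of_bij (X := (sph R G m).tensor (sph R G n)) (Y := sph R G (m + n))
    ⟨e.toLinearMap, ?_, ?_, ?_⟩ e.bijective
  · intro g x
    have : e.toLinearMap ∘ₗ ((sph R G m).ρ.tprod (sph R G n).ρ) g =
        (sph R G (m + n)).ρ g ∘ₗ e.toLinearMap := by
      apply TensorProduct.ext'
      intro r x
      simp only [LinearMap.comp_apply, Representation.tprod_apply, TensorProduct.map_tmul,
        LinearEquiv.coe_coe, sph_ρ]
    exact LinearMap.congr_fun this x
  · intro k x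
    have : e.toLinearMap ∘ₗ tπ (sph R G m) (sph R G n) k =
        (sph R G (m + n)).π k ∘ₗ e.toLinearMap := by
      apply TensorProduct.ext'
      intro r x
      rw [LinearMap.comp_apply, LinearMap.comp_apply, sph_tπ]
      by_cases h : k = m + n
      · subst h
        rw [show m + n - m = n by ring, sph_π_eq, sph_π_eq]
      · rw [sph_π_ne' _ _ (by omega : k - m ≠ n), TensorProduct.tmul_zero, map_zero,
          sph_π_ne' _ _ h]
    exact LinearMap.congr_fun this x
  · intro x
    have : e.toLinearMap ∘ₗ td (sph R G m) (sph R G n) =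
        (sph R G (m + n)).d ∘ₗ e.toLinearMap := by
      apply TensorProduct.ext'
      intro r x
      rw [LinearMap.comp_apply, LinearMap.comp_apply, td_tmul, sph_d, sph_d, sph_d,
        TensorProduct.zero_tmul, TensorProduct.tmul_zero, zero_add, map_zero]
    exact LinearMap.congr_fun this x

end Cx

end PicInd
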