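import Mathlib
import Pool.Agent.Lib_MP_8744b5_al.Base

/-! Piece MON3: associativity of the tensor product. -/

set_option linter.unusedVariables false

open TensorProduct

namespace PicInd

universe u

variable {R : Type u} [CommRing R] {G : Type} [Group G]

namespace Cx

/-- linear maps out of a triple tensor product agree if they agree on tensors of homogeneous
elements -/
lemma tensor_ext3 (X Y Z : Cx R G) {M : Type*} [AddCommGroup M] [Module R M]
    {f g : (X.V ⊗[R] Y.V) ⊗[R] Z.V →ₗ[R] M}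
    (h : ∀ i j k x y z, f ((X.π i x ⊗ₜ Y.π j y) ⊗ₜ Z.π k z) = g ((X.π i x ⊗ₜ Y.π j y) ⊗ₜ Z.π k z)) :
    f = g := by
  apply TensorProduct.ext_threefold
  intro x y z
  rw [← X.π_sum x, ← Y.π_sum y, ← Z.π_sum z]
  simp only [TensorProduct.sum_tmul, TensorProduct.tmul_sum, map_sum]
  exact Finset.sum_congr rfl fun j _ => Finset.sum_congr rfl fun i _ =>
    Finset.sum_congr rfl fun k _ => h _ _ _ x y z

lemma tensor_pi_tmul (X Y : Cx R G) (n i j : ℤ) (x : X.V) (y : Y.V) :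
    (X.tensor Y).π n (X.π i x ⊗ₜ Y.π j y) = if i + j = n then X.π i x ⊗ₜ Y.π j y else 0 :=
  tπ_tmul X Y n i j x y

lemma tensor_d_tmul (X Y : Cx R G) (x : X.V) (y : Y.V) :
    (X.tensor Y).d (x ⊗ₜ y) = X.d x ⊗ₜ y + X.sgn x ⊗ₜ Y.d y := td_tmul X Y x y

lemma tensor_pi_tmul' (X Y : Cx R G) (n i j : ℤ) (x : X.V) (y : Y.V) (hx : X.π i x = x)
    (hy : Y.π j y = y) :
    (X.tensor Y).π n (x ⊗ₜ y) = if i + j = n then x ⊗ₜ y else 0 := by
  have := tensor_pi_tmul X Y n i j x y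
  rwa [hx, hy] at this

lemma sgn_of_hom (X : Cx R G) (i : ℤ) (x : X.V) (hx : X.π i x = x) : X.sgn x = eps i • x := by
  rw [← hx, sgn_π, hx]

theorem tensor_assoc (X Y Z : Cx R G) :
    Iso ((X.tensor Y).tensor Z) (X.tensor (Y.tensor Z)) := by
  refine Iso.of_bij ⟨(TensorProduct.assoc R X.V Y.V Z.V).toLinearMap, ?_, ?_, ?_⟩
    (TensorProduct.assoc R X.V Y.V Z.V).bijective
  · intro g t
    have : (TensorProduct.assoc R X.V Y.V Z.V).toLinearMap ∘ₗ ((X.tensor Y).tensor Z).ρ g =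
        (X.tensor (Y.tensor Z)).ρ g ∘ₗ (TensorProduct.assoc R X.V Y.V Z.V).toLinearMap := by
      apply TensorProduct.ext_threefold
      intro x y z
      rfl
    exact LinearMap.congr_fun this t
  · intro n t
    have : (TensorProduct.assoc R X.V Y.V Z.V).toLinearMap ∘ₗ ((X.tensor Y).tensor Z).π n =
        (X.tensor (Y.tensor Z)).π n ∘ₗ (TensorProduct.assoc R X.V Y.V Z.V).toLinearMap := by
      apply tensor_ext3
      intro i j k x y z
      have hx := X.π_self i x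
      have hy := Y.π_self j y
      have hz := Z.π_self k z
      generalize X.π i x = x at *
      generalize Y.π j y = y at *
      generalize Z.π k z = z at *
      have h1 : (X.tensor Y).π (i + j) (x ⊗ₜ[R] y) = x ⊗ₜ[R] y := by
        rw [tensor_pi_tmul' X Y _ i j x y hx hy, if_pos rfl]
      have h2 : (Y.tensor Z).π (j + k) (y ⊗ₜ[R] z) = y ⊗ₜ[R] z := by
        rw [tensor_pi_tmul' Y Z _ j k y z hy hz, if_pos rfl]
      have h3 := tensor_pi_tmul' (X.tensor Y) Z n (i + j) k (x ⊗ₜ[R] y) z h1 hz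
      have h4 := tensor_pi_tmul' X (Y.tensor Z) n i (j + k) x (y ⊗ₜ[R] z) hx h2
      change (TensorProduct.assoc R X.V Y.V Z.V)
        ((((X.tensor Y).tensor Z).π n) ((x ⊗ₜ[R] y) ⊗ₜ[R] z)) =
        (X.tensor (Y.tensor Z)).π n (x ⊗ₜ[R] (y ⊗ₜ[R] z))
      refine (congrArg (TensorProduct.assoc R X.V Y.V Z.V) h3).trans (Eq.trans ?_ h4.symm)
      by_cases h : i + j + k = n
      · rw [if_pos h, if_pos (by omega)]
        rfl
      · rw [if_neg h, if_neg (by omega)]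
        rfl
    exact LinearMap.congr_fun this t
  · intro t
    have : (TensorProduct.assoc R X.V Y.V Z.V).toLinearMap ∘ₗ ((X.tensor Y).tensor Z).d =
        (X.tensor (Y.tensor Z)).d ∘ₗ (TensorProduct.assoc R X.V Y.V Z.V).toLinearMap := by
      apply tensor_ext3
      intro i j k x y z
      have hx := X.π_self i x
      have hy := Y.π_self j y
      have hz := Z.π_self k z
      generalize X.π i x = x at *
      generalize Y.π j y = y at *
      generalize Z.π k z = z at *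
      have h1 : (X.tensor Y).π (i + j) (x ⊗ₜ[R] y) = x ⊗ₜ[R] y := by
        rw [tensor_pi_tmul' X Y _ i j x y hx hy, if_pos rfl]
      have e1 : ((X.tensor Y).tensor Z).d ((x ⊗ₜ[R] y) ⊗ₜ[R] z) =
          (((X.d x ⊗ₜ[R] y) ⊗ₜ[R] z + eps i • ((x ⊗ₜ[R] Y.d y) ⊗ₜ[R] z)) +
            (eps i * eps j) • ((x ⊗ₜ[R] y) ⊗ₜ[R] Z.d z) : (X.V ⊗[R] Y.V) ⊗[R] Z.V) := by
        refine (tensor_d_tmul (X.tensor Y) Z (x ⊗ₜ[R] y) z).trans ?_
        have a1 := tensor_d_tmul X Y x y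
        have a2 := sgn_of_hom (X.tensor Y) (i + j) _ h1
        rw [a1, a2, sgn_of_hom X i x hx, eps_add]
        change ((X.d x ⊗ₜ[R] y + (eps i • x) ⊗ₜ[R] Y.d y : X.V ⊗[R] Y.V) ⊗ₜ[R] z +
          ((eps i * eps j) • (x ⊗ₜ[R] y) : X.V ⊗[R] Y.V) ⊗ₜ[R] Z.d z :
            (X.V ⊗[R] Y.V) ⊗[R] Z.V) = _
        rw [eps_tmul, TensorProduct.add_tmul, eps_tmul, mul_smul, eps_tmul, eps_tmul, mul_smul]
      have e2 : (X.tensor (Y.tensor Z)).d (x ⊗ₜ[R] (y ⊗ₜ[R] z)) =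
          (X.d x ⊗ₜ[R] (y ⊗ₜ[R] z) + (eps i • (x ⊗ₜ[R] (Y.d y ⊗ₜ[R] z)) +
            (eps i * eps j) • (x ⊗ₜ[R] (y ⊗ₜ[R] Z.d z))) : X.V ⊗[R] (Y.V ⊗[R] Z.V)) := by
        refine (tensor_d_tmul X (Y.tensor Z) x (y ⊗ₜ[R] z)).trans ?_
        have a1 := tensor_d_tmul Y Z y z
        rw [a1, sgn_of_hom X i x hx, sgn_of_hom Y j y hy]
        change (X.d x ⊗ₜ[R] (y ⊗ₜ[R] z) + (eps i • x) ⊗ₜ[R] (Y.d y ⊗ₜ[R] z +
          (eps j • y) ⊗ₜ[R] Z.d z : Y.V ⊗[R] Z.V) : X.V ⊗[R] (Y.V ⊗[R] Z.V)) = _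
        rw [TensorProduct.tmul_add, eps_tmul, eps_tmul, eps_tmul, mul_smul, tmul_eps]
      change (TensorProduct.assoc R X.V Y.V Z.V)
        ((((X.tensor Y).tensor Z).d) ((x ⊗ₜ[R] y) ⊗ₜ[R] z)) =
        (X.tensor (Y.tensor Z)).d (x ⊗ₜ[R] (y ⊗ₜ[R] z))
      refine (congrArg (TensorProduct.assoc R X.V Y.V Z.V) e1).trans (Eq.trans ?_ e2.symm)
      rw [map_add, map_add, map_zsmul, map_zsmul, TensorProduct.assoc_tmul,
        TensorProduct.assoc_tmul, TensorProduct.assoc_tmul, add_assoc]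
    exact LinearMap.congr_fun this t

end Cx

end PicInd
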