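import Mathlib
import Pool.Agent.Lib_MP_8744b5_al.Mon1

/-! Piece PERMA: permutation complexes, closure properties, restriction. -/

set_option linter.unusedVariables false

open TensorProduct

namespace PicInd

universe u

variable {R : Type u} [CommRing R] {G : Type} [Group G]

namespace Cx

theorem IsPerm.tensor {X Y : Cx R G} (hX : IsPerm X) (hY : IsPerm Y) : IsPerm (X.tensor Y) := by
  obtain ⟨ι, hι, aι, b, dg, hb, hd⟩ := hX
  obtain ⟨κ, hκ, aκ, c, dg', hc, hd'⟩ := hY
  refine ⟨ι × κ, inferInstance, inferInstance, Module.Basis.tensorProduct b c,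
    fun p => dg p.1 + dg' p.2, ?_, ?_⟩
  · rintro g ⟨i, j⟩
    change (X.ρ.tprod Y.ρ) g (Module.Basis.tensorProduct b c (i, j)) =
      Module.Basis.tensorProduct b c (g • (i, j))
    have e1 : Module.Basis.tensorProduct b c (i, j) = b i ⊗ₜ[R] c j :=
      Module.Basis.tensorProduct_apply b c i j
    have e2 : Module.Basis.tensorProduct b c (g • (i, j)) = b (g • i) ⊗ₜ[R] c (g • j) :=
      Module.Basis.tensorProduct_apply b c (g • i) (g • j)
    rw [e1, e2, ← hb, ← hc, Representation.tprod_apply, TensorProduct.map_tmul]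
  · rintro ⟨i, j⟩
    change tπ X Y (dg i + dg' j) (Module.Basis.tensorProduct b c (i, j)) =
      Module.Basis.tensorProduct b c (i, j)
    have e1 : Module.Basis.tensorProduct b c (i, j) = b i ⊗ₜ[R] c j :=
      Module.Basis.tensorProduct_apply b c i j
    rw [e1]
    have := tπ_tmul X Y (dg i + dg' j) (dg i) (dg' j) (b i) (c j)
    rw [hd, hd', if_pos rfl] at this
    exact this

theorem sph_isPerm (n : ℤ) : IsPerm (sph R G n) := by
  refine ⟨Unit, inferInstance, inferInstance, Module.Basis.singleton Unit R, fun _ => n, ?_, ?_⟩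
  · intro g i
    change (Representation.trivial R G R) g (Module.Basis.singleton Unit R i) =
      Module.Basis.singleton Unit R (g • i)
    rw [Representation.trivial_apply]
  · intro i
    change (if n = n then (LinearMap.id : R →ₗ[R] R) else 0) _ = _
    rw [if_pos rfl]
    rfl

theorem InK.tensor {X Y : Cx R G} (hX : InK X) (hY : InK Y) : InK (X.tensor Y) := by
  obtain ⟨P, hP, hr⟩ := hX
  obtain ⟨Q, hQ, hs⟩ := hY
  exact ⟨P.tensor Q, hP.tensor hQ, hr.tensor hs⟩

/-- restriction of a morphism -/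
def Hom.res {G' : Type} [Group G'] (α : G' →* G) {X Y : Cx R G} (f : Hom X Y) :
    Hom (X.res α) (Y.res α) where
  f := f.f
  f_ρ g x := f.f_ρ (α g) x
  f_π := f.f_π
  f_d := f.f_d

lemma Htpy.res {G' : Type} [Group G'] (α : G' →* G) {X Y : Cx R G} {f g : Hom X Y}
    (h : Htpy f g) : Htpy (f.res α) (g.res α) := by
  obtain ⟨a, a1, a2, a3⟩ := h
  exact ⟨a, fun g x => a1 (α g) x, a2, a3⟩

theorem Retr.res {G' : Type} [Group G'] (α : G' →* G) {X Y : Cx R G} (h : Retr X Y) :
    Retr (X.res α) (Y.res α) := by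
  obtain ⟨f, g, h1⟩ := h
  exact ⟨f.res α, g.res α, h1.res α⟩

theorem Heq.res {G' : Type} [Group G'] (α : G' →* G) {X Y : Cx R G} (h : Heq X Y) :
    Heq (X.res α) (Y.res α) := by
  obtain ⟨f, g, h1, h2⟩ := h
  exact ⟨f.res α, g.res α, h1.res α, h2.res α⟩

theorem IsPerm.res {G' : Type} [Group G'] (α : G' →* G) {X : Cx R G} (h : IsPerm X) :
    IsPerm (X.res α) := by
  obtain ⟨ι, hι, aι, b, dg, hb, hd⟩ := h
  exact ⟨ι, hι, MulAction.compHom ι α, b, dg, fun g i => hb (α g) i, hd⟩

theorem InK.res {G' : Type} [Group G'] (α : G' →* G) {X : Cx R G} (h : InK X) :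
    InK (X.res α) := by
  obtain ⟨P, hP, hr⟩ := h
  exact ⟨P.res α, hP.res α, hr.res α⟩

theorem res_tensor {G' : Type} [Group G'] (α : G' →* G) (X Y : Cx R G) :
    Iso ((X.tensor Y).res α) ((X.res α).tensor (Y.res α)) := by
  refine ⟨⟨LinearMap.id, fun _ _ => rfl, fun _ _ => rfl, fun _ => rfl⟩,
    ⟨LinearMap.id, fun _ _ => rfl, fun _ _ => rfl, fun _ => rfl⟩, fun _ => rfl, fun _ => rfl⟩

theorem res_one {G' : Type} [Group G'] (α : G' →* G) :
    Iso ((one R G).res α) (one R G') := by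
  refine ⟨⟨LinearMap.id, fun _ _ => rfl, fun _ _ => rfl, fun _ => rfl⟩,
    ⟨LinearMap.id, fun _ _ => rfl, fun _ _ => rfl, fun _ => rfl⟩, fun _ => rfl, fun _ => rfl⟩

end Cx

end PicInd
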