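import Mathlib
import Pool.Agent.Lib_MP_8744b5_al.Mon1
import Pool.Agent.Lib_MP_8744b5_al.Mon2
import Pool.Agent.Lib_MP_8744b5_al.Mon3
import Pool.Agent.Lib_MP_8744b5_al.PermC

/-!
# The monoid of isomorphism classes of `K(G;R)` and its group of units, the Picard group
-/

set_option linter.unusedVariables false
set_option linter.unusedSectionVars false

open TensorProduct

namespace PicInd

universe u

variable (R : Type u) [CommRing R] (G : Type) [Group G]

/-- Objects of `K(G;R)`. -/
def KObj : Type (u + 1) := {X : Cx R G // Cx.InK X}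

/-- Homotopy equivalence of objects of `K(G;R)`. -/
def kSetoid : Setoid (KObj R G) where
  r X Y := Cx.Heq X.1 Y.1
  iseqv := ⟨fun X => Cx.Heq.refl _, fun h => h.symm, fun h h' => h.trans h'⟩

/-- Isomorphism classes of objects of `K(G;R)`. -/
def KMon : Type (u + 1) := Quotient (kSetoid R G)

variable {R G}

/-- the class of an object -/
def KMon.mk (X : Cx R G) (h : Cx.InK X) : KMon R G := Quotient.mk (kSetoid R G) ⟨X, h⟩

lemma KMon.mk_eq {X Y : Cx R G} {h : Cx.InK X} {h' : Cx.InK Y} :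
    KMon.mk X h = KMon.mk Y h' ↔ Cx.Heq X Y :=
  ⟨fun e => Quotient.exact (s := kSetoid R G) e, fun e => Quotient.sound (s := kSetoid R G) e⟩

lemma KMon.exists_mk (a : KMon R G) : ∃ X h, a = KMon.mk X h := by
  obtain ⟨⟨X, h⟩, rfl⟩ := Quotient.exists_rep a
  exact ⟨X, h, rfl⟩

/-- The tensor product of isomorphism classes. -/
noncomputable def KMon.mul (a b : KMon R G) : KMon R G :=
  Quotient.map₂ (sa := kSetoid R G) (sb := kSetoid R G) (sc := kSetoid R G)
    (fun X Y => ⟨X.1.tensor Y.1, X.2.tensor Y.2⟩)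
    (fun _ _ h _ _ h' => Cx.Heq.tensor h h') a b

/-- Isomorphism classes of objects of `K(G;R)` form a commutative monoid under the tensor
product. -/
noncomputable instance : CommMonoid (KMon R G) where
  mul := KMon.mul
  one := KMon.mk (Cx.one R G) (Cx.sph_isPerm 0).inK
  mul_assoc a b c := by
    obtain ⟨X, hX, rfl⟩ := a.exists_mk
    obtain ⟨Y, hY, rfl⟩ := b.exists_mk
    obtain ⟨Z, hZ, rfl⟩ := c.exists_mk
    exact KMon.mk_eq.2 (Cx.tensor_assoc X Y Z).heq
  one_mul a := by
    obtain ⟨X, hX, rfl⟩ := a.exists_mk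
    exact KMon.mk_eq.2 (Cx.one_tensor X).heq
  mul_one a := by
    obtain ⟨X, hX, rfl⟩ := a.exists_mk
    exact KMon.mk_eq.2 ((Cx.tensor_comm X _).heq.trans (Cx.one_tensor X).heq)
  mul_comm a b := by
    obtain ⟨X, hX, rfl⟩ := a.exists_mk
    obtain ⟨Y, hY, rfl⟩ := b.exists_mk
    exact KMon.mk_eq.2 (Cx.tensor_comm X Y).heq

lemma KMon.mk_mul (X Y : Cx R G) (hX : Cx.InK X) (hY : Cx.InK Y) :
    KMon.mk X hX * KMon.mk Y hY = KMon.mk (X.tensor Y) (hX.tensor hY) := rfl

lemma KMon.one_def : (1 : KMon R G) = KMon.mk (Cx.one R G) (Cx.sph_isPerm 0).inK := rfl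

/-- Restriction of isomorphism classes along a homomorphism. -/
noncomputable def KMon.res {G' : Type} [Group G'] (α : G' →* G) : KMon R G →* KMon R G' where
  toFun a := Quotient.map (sa := kSetoid R G) (sb := kSetoid R G')
    (fun X => ⟨X.1.res α, X.2.res α⟩) (fun _ _ h => Cx.Heq.res α h) a
  map_one' := KMon.mk_eq.2 (Cx.res_one α).heq
  map_mul' a b := by
    obtain ⟨X, hX, rfl⟩ := a.exists_mk
    obtain ⟨Y, hY, rfl⟩ := b.exists_mk
    exact KMon.mk_eq.2 (Cx.res_tensor α X Y).heq

lemma KMon.res_mk {G' : Type} [Group G'] (α : G' →* G) (X : Cx R G) (hX : Cx.InK X) :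
    KMon.res α (KMon.mk X hX) = KMon.mk (X.res α) (hX.res α) := rfl

variable (R G) in
/-- The Picard group `Pic(K(G;R))`: the group of isomorphism classes of tensor-invertible
objects. -/
abbrev PicK : Type (u + 1) := (KMon R G)ˣ

/-- Restriction of Picard groups along a homomorphism. -/
noncomputable def PicK.res {G' : Type} [Group G'] (α : G' →* G) : PicK R G →* PicK R G' :=
  Units.map (KMon.res α)

end PicInd
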