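import Mathlib
import Pool.Agent.Lib_MP_8744b5_al.Base

/-! Piece EZ1: the complex of words in the letters `H`, `V`, `D` (lattice paths with diagonal
steps), which is the normalised complex of `Γ(X) ⊗ Γ(Y)`. -/

set_option linter.unusedVariables false

open TensorProduct

namespace PicInd

universe u

variable {R : Type u} [CommRing R] {G : Type} [Group G]

/-- letters: horizontal, vertical, diagonal step -/
inductive Letter
  | H
  | V
  | D
  deriving DecidableEq

namespace EZ

open Letter

/-- is it a horizontal or diagonal step -/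
def isH : Letter → Bool
  | H => true
  | V => false
  | D => true

/-- is it a vertical or diagonal step -/
def isV : Letter → Bool
  | H => false
  | V => true
  | D => true

/-- horizontal length -/
def hc : List Letter → ℕ
  | [] => 0
  | a :: w => (if isH a then 1 else 0) + hc w

/-- vertical length -/
def vc : List Letter → ℕ
  | [] => 0
  | a :: w => (if isV a then 1 else 0) + vc w

/-- merging two adjacent steps -/
def mg : Letter → Letter → Option Letter
  | H, V => some D
  | V, H => some D
  | _, _ => none

variable (X Y : Cx R G)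

/-- the operator of a letter on `X ⊗ Y` (no sign) -/
noncomputable def opL : Letter → X.V ⊗[R] Y.V →ₗ[R] X.V ⊗[R] Y.V
  | H => TensorProduct.map X.d LinearMap.id
  | V => TensorProduct.map LinearMap.id Y.d
  | D => TensorProduct.map X.d Y.d

/-- all words with coefficients in `X ⊗ Y` -/
abbrev Wd := List Letter →₀ (X.V ⊗[R] Y.V)

/-- put the letter `a` in front of all words -/
noncomputable def consL (a : Letter) : Wd X Y →ₗ[R] Wd X Y := Finsupp.lmapDomain _ R (List.cons a)

/-- the inner faces with signs: the merge of the positions `i - 1`, `i` has the sign `(-1)^i` -/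
noncomputable def inner : List Letter → X.V ⊗[R] Y.V →ₗ[R] Wd X Y
  | [] => 0
  | [_] => 0
  | a :: b :: w => (match mg a b with
      | some c => - Finsupp.lsingle (c :: w)
      | none => 0) - consL X Y a ∘ₗ inner (b :: w)

/-- the face `0` -/
noncomputable def face0 : List Letter → X.V ⊗[R] Y.V →ₗ[R] Wd X Y
  | [] => 0
  | a :: w => Finsupp.lsingle w ∘ₗ opL X Y a

/-- the differential on words -/
noncomputable def dW : Wd X Y →ₗ[R] Wd X Y :=
  Finsupp.lsum R (fun w => face0 X Y w + inner X Y w)

/-- the homogeneous part of `X ⊗ Y` belonging to the word `w` -/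
noncomputable def πw (w : List Letter) : X.V ⊗[R] Y.V →ₗ[R] X.V ⊗[R] Y.V :=
  TensorProduct.map (X.π (hc w)) (Y.π (vc w))

/-- the combinations of words such that the coefficient of `w` is homogeneous of bidegree
`(hc w, vc w)` -/
noncomputable def subW : Submodule R (Wd X Y) where
  carrier := {f | ∀ w, πw X Y w (f w) = f w}
  add_mem' := by
    intro f g hf hg w
    rw [Finsupp.add_apply, map_add, hf w, hg w]
  zero_mem' := by intro w; simp
  smul_mem' := by
    intro r f hf w
    rw [Finsupp.smul_apply, map_smul, hf w]

lemma mem_subW_aux (f : Wd X Y) : f ∈ subW X Y ↔ ∀ w, πw X Y w (f w) = f w := Iff.rfl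

lemma single_mem (w : List Letter) (z : X.V ⊗[R] Y.V) (h : πw X Y w z = z) :
    Finsupp.single w z ∈ subW X Y := by
  intro v
  by_cases hv : w = v
  · subst hv; rw [Finsupp.single_eq_same, h]
  · rw [Finsupp.single_eq_of_ne (Ne.symm hv), map_zero]

/-! ### the merging operator -/

/-- merge the letter `a` with the first letter of the words -/
noncomputable def PP (a : Letter) : Wd X Y →ₗ[R] Wd X Y :=
  Finsupp.lsum R (fun w => match w with
    | [] => 0
    | b :: w' => (match mg a b with
      | some c => - Finsupp.lsingle (c :: w')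
      | none => 0))

/-- the inner faces on combinations of words -/
noncomputable def II : Wd X Y →ₗ[R] Wd X Y := Finsupp.lsum R (fun w => inner X Y w)

/-- the face `0` on combinations of words -/
noncomputable def FF : Wd X Y →ₗ[R] Wd X Y := Finsupp.lsum R (fun w => face0 X Y w)

/-- apply an operator to the coefficients -/
noncomputable def MM (T : X.V ⊗[R] Y.V →ₗ[R] X.V ⊗[R] Y.V) : Wd X Y →ₗ[R] Wd X Y :=
  Finsupp.mapRange.linearMap T

lemma dW_eq_aux (f : Wd X Y) : dW X Y f = FF X Y f + II X Y f := by
  have : dW X Y = FF X Y + II X Y := by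
    apply Finsupp.lhom_ext
    intro w z
    simp [dW, FF, II]
  rw [this]; rfl

lemma dW_single_aux (w : List Letter) (z : X.V ⊗[R] Y.V) :
    dW X Y (Finsupp.single w z) = face0 X Y w z + inner X Y w z := by
  simp [dW]

lemma consL_single_aux (a : Letter) (w : List Letter) (z : X.V ⊗[R] Y.V) :
    consL X Y a (Finsupp.single w z) = Finsupp.single (a :: w) z := by
  simp [consL]

lemma II_single_aux (w : List Letter) (z : X.V ⊗[R] Y.V) :
    II X Y (Finsupp.single w z) = inner X Y w z := by
  simp [II]

lemma FF_single_aux (w : List Letter) (z : X.V ⊗[R] Y.V) :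
    FF X Y (Finsupp.single w z) = face0 X Y w z := by
  simp [FF]

lemma MM_single_aux (T : X.V ⊗[R] Y.V →ₗ[R] X.V ⊗[R] Y.V) (w : List Letter) (z : X.V ⊗[R] Y.V) :
    MM X Y T (Finsupp.single w z) = Finsupp.single w (T z) := by
  simp [MM]

lemma PP_nil_aux (a : Letter) (z : X.V ⊗[R] Y.V) : PP X Y a (Finsupp.single [] z) = 0 := by
  simp [PP]

lemma PP_cons_aux (a b : Letter) (w : List Letter) (z : X.V ⊗[R] Y.V) :
    PP X Y a (Finsupp.single (b :: w) z) =
      (match mg a b with
      | some c => - Finsupp.single (c :: w) z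
      | none => 0) := by
  simp only [PP, Finsupp.lsum_single]
  cases mg a b <;> rfl

lemma face0_cons_aux (a : Letter) (w : List Letter) (z : X.V ⊗[R] Y.V) :
    face0 X Y (a :: w) z = Finsupp.single w (opL X Y a z) := rfl

lemma inner_cons_aux (a : Letter) (w : List Letter) (z : X.V ⊗[R] Y.V) :
    inner X Y (a :: w) z = PP X Y a (Finsupp.single w z) - consL X Y a (inner X Y w z) := by
  cases w with
  | nil => simp [inner, PP_nil_aux]
  | cons b w =>
    rw [PP_cons_aux]
    rw [inner, LinearMap.sub_apply, LinearMap.comp_apply]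
    cases mg a b <;> rfl

lemma II_consL_aux (a : Letter) (g : Wd X Y) :
    II X Y (consL X Y a g) = PP X Y a g - consL X Y a (II X Y g) := by
  have : II X Y ∘ₗ consL X Y a = PP X Y a - consL X Y a ∘ₗ II X Y := by
    apply Finsupp.lhom_ext
    intro w z
    rw [LinearMap.comp_apply, LinearMap.sub_apply, LinearMap.comp_apply, consL_single_aux, II_single_aux,
      II_single_aux, inner_cons_aux]
  exact LinearMap.congr_fun this g

lemma FF_consL_aux (a : Letter) (g : Wd X Y) :
    FF X Y (consL X Y a g) = MM X Y (opL X Y a) g := by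
  have : FF X Y ∘ₗ consL X Y a = MM X Y (opL X Y a) := by
    apply Finsupp.lhom_ext
    intro w z
    rw [LinearMap.comp_apply, consL_single_aux, FF_single_aux, MM_single_aux, face0_cons_aux]
  exact LinearMap.congr_fun this g

lemma mg_D_right_aux (a : Letter) : mg a D = none := by cases a <;> rfl

lemma mg_D_left_aux (a : Letter) : mg D a = none := by cases a <;> rfl

lemma mg_some_aux (a b c : Letter) (h : mg a b = some c) : c = D := by
  cases a <;> cases b <;> simp [mg] at h <;> exact h.symm

lemma PP_D_aux (g : Wd X Y) : PP X Y D g = 0 := by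
  have : PP X Y D = 0 := by
    apply Finsupp.lhom_ext
    intro w z
    cases w with
    | nil => rw [PP_nil_aux]; rfl
    | cons b w => rw [PP_cons_aux, mg_D_left_aux]; rfl
  rw [this]; rfl

lemma PP_PP_aux (a b : Letter) (g : Wd X Y) : PP X Y a (PP X Y b g) = 0 := by
  have : PP X Y a ∘ₗ PP X Y b = 0 := by
    apply Finsupp.lhom_ext
    intro w z
    rw [LinearMap.comp_apply]
    cases w with
    | nil => rw [PP_nil_aux, map_zero]; rfl
    | cons c w =>
      rw [PP_cons_aux]
      cases h : mg b c with
      | none => simp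
      | some e =>
        have he := mg_some_aux _ _ _ h
        subst he
        rw [map_neg, PP_cons_aux, mg_D_right_aux]
        simp
  exact LinearMap.congr_fun this g

lemma PP_consL_aux (a b : Letter) (g : Wd X Y) :
    PP X Y a (consL X Y b g) =
      (match mg a b with
      | some c => - consL X Y c g
      | none => 0) := by
  have : PP X Y a ∘ₗ consL X Y b = (match mg a b with
      | some c => - consL X Y c
      | none => 0) := by
    apply Finsupp.lhom_ext
    intro w z
    rw [LinearMap.comp_apply, consL_single_aux, PP_cons_aux]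
    cases mg a b with
    | none => rfl
    | some c => rw [LinearMap.neg_apply, consL_single_aux]
  rw [← LinearMap.comp_apply, this]
  cases mg a b <;> rfl

lemma II_PP_aux (a : Letter) (w : List Letter) (z : X.V ⊗[R] Y.V) :
    II X Y (PP X Y a (Finsupp.single w z)) = PP X Y a (inner X Y w z) := by
  cases w with
  | nil => rw [PP_nil_aux, map_zero]; simp [inner]
  | cons b w =>
    rw [inner_cons_aux, map_sub, PP_PP_aux, PP_cons_aux, PP_consL_aux, zero_sub]
    cases h : mg a b with
    | none => simp
    | some e =>
      have he := mg_some_aux _ _ _ h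
      subst he
      simp only [map_neg, neg_neg]
      rw [II_single_aux, inner_cons_aux, PP_D_aux, zero_sub, neg_neg]

lemma II_inner_aux (w : List Letter) (z : X.V ⊗[R] Y.V) : II X Y (inner X Y w z) = 0 := by
  induction w with
  | nil => simp [inner]
  | cons a w ih =>
    rw [inner_cons_aux, map_sub, II_PP_aux, II_consL_aux, ih, map_zero, sub_zero, sub_self]

lemma MM_PP_aux (T : X.V ⊗[R] Y.V →ₗ[R] X.V ⊗[R] Y.V) (a : Letter) (g : Wd X Y) :
    MM X Y T (PP X Y a g) = PP X Y a (MM X Y T g) := by
  have : MM X Y T ∘ₗ PP X Y a = PP X Y a ∘ₗ MM X Y T := by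
    apply Finsupp.lhom_ext
    intro w z
    rw [LinearMap.comp_apply, LinearMap.comp_apply, MM_single_aux]
    cases w with
    | nil => rw [PP_nil_aux, PP_nil_aux, map_zero]
    | cons b w =>
      rw [PP_cons_aux, PP_cons_aux]
      cases mg a b with
      | none => simp
      | some e => simp only [map_neg, MM_single_aux]
  exact LinearMap.congr_fun this g

lemma MM_consL_aux (T : X.V ⊗[R] Y.V →ₗ[R] X.V ⊗[R] Y.V) (a : Letter) (g : Wd X Y) :
    MM X Y T (consL X Y a g) = consL X Y a (MM X Y T g) := by
  have : MM X Y T ∘ₗ consL X Y a = consL X Y a ∘ₗ MM X Y T := by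
    apply Finsupp.lhom_ext
    intro w z
    rw [LinearMap.comp_apply, LinearMap.comp_apply, MM_single_aux, consL_single_aux, consL_single_aux,
      MM_single_aux]
  exact LinearMap.congr_fun this g

lemma MM_inner_aux (T : X.V ⊗[R] Y.V →ₗ[R] X.V ⊗[R] Y.V) (w : List Letter) (z : X.V ⊗[R] Y.V) :
    MM X Y T (inner X Y w z) = inner X Y w (T z) := by
  induction w with
  | nil => simp [inner]
  | cons a w ih => rw [inner_cons_aux, inner_cons_aux, map_sub, MM_PP_aux, MM_single_aux, MM_consL_aux, ih]

lemma opL_comp_aux (a b : Letter) (z : X.V ⊗[R] Y.V) :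
    opL X Y b (opL X Y a z) = (match mg a b with
      | some c => opL X Y c z
      | none => 0) := by
  have hX : X.d ∘ₗ X.d = 0 := LinearMap.ext X.d_d
  have hY : Y.d ∘ₗ Y.d = 0 := LinearMap.ext Y.d_d
  cases a <;> cases b <;>
    simp only [opL, mg, ← LinearMap.comp_apply, ← TensorProduct.map_comp, hX, hY,
      LinearMap.comp_id, LinearMap.id_comp, TensorProduct.map_zero_left,
      TensorProduct.map_zero_right, LinearMap.zero_apply]

lemma dW_dW (f : Wd X Y) : dW X Y (dW X Y f) = 0 := by
  have : dW X Y ∘ₗ dW X Y = 0 := by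
    apply Finsupp.lhom_ext
    intro w z
    rw [LinearMap.comp_apply, dW_single_aux, map_add, dW_eq_aux, dW_eq_aux, II_inner_aux, add_zero]
    cases w with
    | nil => simp [face0, inner]
    | cons a w =>
      rw [face0_cons_aux, FF_single_aux, II_single_aux, inner_cons_aux, map_sub, FF_consL_aux, MM_inner_aux]
      have : face0 X Y w (opL X Y a z) + FF X Y (PP X Y a (Finsupp.single w z)) = 0 := by
        cases w with
        | nil => rw [PP_nil_aux, map_zero]; simp [face0]
        | cons b w =>
          rw [face0_cons_aux, opL_comp_aux, PP_cons_aux]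
          cases mg a b with
          | none => simp
          | some c =>
            simp only [map_neg]
            rw [FF_single_aux, face0_cons_aux, add_neg_cancel]
      rw [show face0 X Y w (opL X Y a z) + inner X Y w (opL X Y a z) +
        (FF X Y (PP X Y a (Finsupp.single w z)) - inner X Y w (opL X Y a z)) =
        face0 X Y w (opL X Y a z) + FF X Y (PP X Y a (Finsupp.single w z)) by abel, this]
      rfl
  exact LinearMap.congr_fun this f

/-! ### homogeneity -/

/-- the coefficient of `w` is homogeneous of bidegree `(p + hc w, q + vc w)` -/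
def Hom2 (p q : ℕ) (g : Wd X Y) : Prop :=
  ∀ w, TensorProduct.map (X.π ((p + hc w : ℕ) : ℤ)) (Y.π ((q + vc w : ℕ) : ℤ)) (g w) = g w

lemma Hom2.zero (p q : ℕ) : Hom2 X Y p q 0 := by intro w; simp

lemma Hom2.neg {p q : ℕ} {g : Wd X Y} (h : Hom2 X Y p q g) : Hom2 X Y p q (-g) := by
  intro w
  rw [Finsupp.neg_apply, map_neg, h w]

lemma Hom2.sub {p q : ℕ} {g g' : Wd X Y} (h : Hom2 X Y p q g) (h' : Hom2 X Y p q g') :
    Hom2 X Y p q (g - g') := by
  intro w
  rw [Finsupp.sub_apply, map_sub, h w, h' w]

lemma Hom2.single {p q : ℕ} {w : List Letter} {z : X.V ⊗[R] Y.V}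
    (h : TensorProduct.map (X.π ((p + hc w : ℕ) : ℤ)) (Y.π ((q + vc w : ℕ) : ℤ)) z = z) :
    Hom2 X Y p q (Finsupp.single w z) := by
  intro v
  by_cases hv : w = v
  · subst hv; rw [Finsupp.single_eq_same, h]
  · rw [Finsupp.single_eq_of_ne (Ne.symm hv), map_zero]

lemma consL_apply_nil_aux (a : Letter) (g : Wd X Y) : consL X Y a g [] = 0 := by
  rw [consL, Finsupp.lmapDomain_apply, Finsupp.mapDomain_of_notMem_range]
  rintro ⟨w, hw⟩
  exact List.cons_ne_nil _ _ hw

lemma consL_apply_cons_aux (a b : Letter) (w : List Letter) (g : Wd X Y) :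
    consL X Y a g (b :: w) = if b = a then g w else 0 := by
  split_ifs with h
  · subst h
    rw [consL, Finsupp.lmapDomain_apply, Finsupp.mapDomain_apply (List.cons_injective)]
  · rw [consL, Finsupp.lmapDomain_apply, Finsupp.mapDomain_of_notMem_range]
    rintro ⟨v, hv⟩
    exact h (List.cons_eq_cons.1 hv).1.symm

lemma Hom2.cons {p q : ℕ} {a : Letter} {g : Wd X Y}
    (h : Hom2 X Y (p + if isH a then 1 else 0) (q + if isV a then 1 else 0) g) :
    Hom2 X Y p q (consL X Y a g) := by
  intro w
  cases w with
  | nil => rw [consL_apply_nil_aux, map_zero]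
  | cons b w =>
    rw [consL_apply_cons_aux]
    split_ifs with hb
    · subst hb
      have := h w
      rw [hc, vc, ← add_assoc, ← add_assoc]
      exact this
    · rw [map_zero]

lemma inner_Hom2_aux (w : List Letter) : ∀ (p q : ℕ) (z : X.V ⊗[R] Y.V),
    TensorProduct.map (X.π ((p + hc w : ℕ) : ℤ)) (Y.π ((q + vc w : ℕ) : ℤ)) z = z →
    Hom2 X Y p q (inner X Y w z) := by
  induction w with
  | nil => intro p q z h; exact Hom2.zero X Y p q
  | cons a w ih =>
    intro p q z h
    rw [inner_cons_aux]
    apply Hom2.sub
    · cases w with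
      | nil => rw [PP_nil_aux]; exact Hom2.zero X Y p q
      | cons b w =>
        rw [PP_cons_aux]
        cases hm : mg a b with
        | none => exact Hom2.zero X Y p q
        | some c =>
          apply Hom2.neg
          apply Hom2.single
          have e1 : hc (c :: w) = hc (a :: b :: w) := by
            have := mg_some_aux _ _ _ hm
            subst this
            cases a <;> cases b <;> simp [mg] at hm <;> simp [hc, isH]
          have e2 : vc (c :: w) = vc (a :: b :: w) := by
            have := mg_some_aux _ _ _ hm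
            subst this
            cases a <;> cases b <;> simp [mg] at hm <;> simp [vc, isV]
          rw [e1, e2]
          exact h
    · apply Hom2.cons
      apply ih
      rw [hc, vc, ← add_assoc, ← add_assoc] at h
      exact h

lemma πw_opL_aux (a : Letter) (w : List Letter) (z : X.V ⊗[R] Y.V) (h : πw X Y (a :: w) z = z) :
    πw X Y w (opL X Y a z) = opL X Y a z := by
  have hX : ∀ i : ℤ, X.π i ∘ₗ X.d = X.d ∘ₗ X.π (i + 1) := fun i => LinearMap.ext (X.π_d i)
  have hY : ∀ i : ℤ, Y.π i ∘ₗ Y.d = Y.d ∘ₗ Y.π (i + 1) := fun i => LinearMap.ext (Y.π_d i)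
  have key : πw X Y w ∘ₗ opL X Y a = opL X Y a ∘ₗ πw X Y (a :: w) := by
    cases a <;>
      simp only [opL, πw, ← TensorProduct.map_comp, hX, hY, hc, vc, isH, isV,
        LinearMap.comp_id, LinearMap.id_comp, if_true, Bool.false_eq_true, if_false, zero_add,
        Nat.cast_add, Nat.cast_one, add_comm (1 : ℤ)]
  have := LinearMap.congr_fun key z
  rw [LinearMap.comp_apply, LinearMap.comp_apply, h] at this
  exact this

lemma Hom2_zero_zero_aux (g : Wd X Y) : Hom2 X Y 0 0 g ↔ g ∈ subW X Y := by
  rw [mem_subW_aux]
  unfold Hom2 πw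
  simp only [zero_add]

lemma dW_single_mem_aux (w : List Letter) (z : X.V ⊗[R] Y.V) (h : πw X Y w z = z) :
    dW X Y (Finsupp.single w z) ∈ subW X Y := by
  rw [dW_single_aux]
  apply Submodule.add_mem
  · cases w with
    | nil => exact Submodule.zero_mem _
    | cons a w =>
      rw [face0_cons_aux]
      exact single_mem X Y _ _ (πw_opL_aux X Y a w z h)
  · rw [← Hom2_zero_zero_aux]
    apply inner_Hom2_aux
    simpa [πw] using h

lemma dW_mem (f : Wd X Y) (hf : f ∈ subW X Y) : dW X Y f ∈ subW X Y := by
  have : dW X Y f = f.sum fun w z => dW X Y (Finsupp.single w z) := by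
    conv_lhs => rw [← Finsupp.sum_single f]
    rw [map_finsuppSum]
  rw [this]
  apply Submodule.sum_mem
  intro w _
  exact dW_single_mem_aux X Y w (f w) (hf w)

/-- the action of the group on words: on the coefficients -/
noncomputable def ρW (g : G) : Wd X Y →ₗ[R] Wd X Y :=
  Finsupp.mapRange.linearMap ((X.ρ.tprod Y.ρ) g)

/-- projection onto the words of length `n` -/
noncomputable def πW (n : ℤ) : Wd X Y →ₗ[R] Wd X Y :=
  Finsupp.lsum R (fun w => if (w.length : ℤ) = n then Finsupp.lsingle w else 0)

lemma ρW_apply_aux (g : G) (f : Wd X Y) (w : List Letter) :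
    ρW X Y g f w = (X.ρ.tprod Y.ρ) g (f w) := rfl

lemma πW_single_aux (n : ℤ) (w : List Letter) (z : X.V ⊗[R] Y.V) :
    πW X Y n (Finsupp.single w z) = if (w.length : ℤ) = n then Finsupp.single w z else 0 := by
  simp only [πW, Finsupp.lsum_single]
  split_ifs <;> rfl

lemma πW_apply_aux (n : ℤ) (f : Wd X Y) (w : List Letter) :
    πW X Y n f w = if (w.length : ℤ) = n then f w else 0 := by
  have : Finsupp.lapply w ∘ₗ πW X Y n =
      (if (w.length : ℤ) = n then Finsupp.lapply (R := R) w else 0) := by
    apply Finsupp.lhom_ext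
    intro v z
    rw [LinearMap.comp_apply, πW_single_aux]
    by_cases hv : v = w
    · subst hv
      split_ifs <;> simp
    · split_ifs <;> simp [Finsupp.single_eq_of_ne (Ne.symm hv)]
  have h := LinearMap.congr_fun this f
  rw [LinearMap.comp_apply, Finsupp.lapply_apply] at h
  rw [h]
  split_ifs <;> rfl

lemma ρW_mem (g : G) (f : Wd X Y) (hf : f ∈ subW X Y) : ρW X Y g f ∈ subW X Y := by
  intro w
  rw [ρW_apply_aux]
  have key : πw X Y w ∘ₗ (X.ρ.tprod Y.ρ) g = (X.ρ.tprod Y.ρ) g ∘ₗ πw X Y w := by
    apply TensorProduct.ext'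
    intro x y
    simp only [πw, LinearMap.comp_apply, Representation.tprod_apply, TensorProduct.map_tmul,
      X.π_ρ, Y.π_ρ]
  have := LinearMap.congr_fun key (f w)
  rw [LinearMap.comp_apply, LinearMap.comp_apply, hf w] at this
  exact this

lemma πW_mem (n : ℤ) (f : Wd X Y) (hf : f ∈ subW X Y) : πW X Y n f ∈ subW X Y := by
  intro w
  rw [πW_apply_aux]
  split_ifs
  · exact hf w
  · rw [map_zero]

/-- an upper bound for the degrees of `X` -/
def bnd (X : Cx R G) : ℕ := X.s.sup Int.natAbs

lemma pi_eq_zero_of_bnd_aux (Z : Cx R G) (n : ℕ) (h : bnd Z < n) (x : Z.V) : Z.π (n : ℤ) x = 0 := by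
  apply Z.π_zero
  intro hn
  have : Int.natAbs (n : ℤ) ≤ bnd Z := Finset.le_sup (f := Int.natAbs) hn
  simp at this
  omega

lemma length_le_aux (w : List Letter) : w.length ≤ hc w + vc w := by
  induction w with
  | nil => simp
  | cons a w ih =>
    rw [List.length_cons, hc, vc]
    cases a <;> simp [isH, isV] <;> omega

lemma apply_eq_zero_aux (f : Wd X Y) (hf : f ∈ subW X Y) (w : List Letter)
    (hw : bnd X + bnd Y < w.length) : f w = 0 := by
  have h1 := length_le_aux w
  have h2 : bnd X < hc w ∨ bnd Y < vc w := by omega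
  rw [← hf w]
  rcases h2 with h2 | h2
  · have : X.π (hc w : ℤ) = 0 := LinearMap.ext (pi_eq_zero_of_bnd_aux X _ h2)
    rw [πw, this, TensorProduct.map_zero_left]; rfl
  · have : Y.π (vc w : ℤ) = 0 := LinearMap.ext (pi_eq_zero_of_bnd_aux Y _ h2)
    rw [πw, this, TensorProduct.map_zero_right]; rfl

lemma πW_consL_aux (n : ℤ) (a : Letter) (g : Wd X Y) :
    πW X Y n (consL X Y a g) = consL X Y a (πW X Y (n - 1) g) := by
  have : πW X Y n ∘ₗ consL X Y a = consL X Y a ∘ₗ πW X Y (n - 1) := by
    apply Finsupp.lhom_ext
    intro w z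
    rw [LinearMap.comp_apply, LinearMap.comp_apply, consL_single_aux, πW_single_aux, πW_single_aux,
      List.length_cons]
    by_cases h : ((w.length + 1 : ℕ) : ℤ) = n
    · rw [if_pos h, if_pos (by push_cast at h; omega), consL_single_aux]
    · rw [if_neg h, if_neg (by push_cast at h; omega), map_zero]
  exact LinearMap.congr_fun this g

lemma πW_inner_aux (w : List Letter) : ∀ (n : ℤ) (z : X.V ⊗[R] Y.V),
    πW X Y n (inner X Y w z) = if (w.length : ℤ) = n + 1 then inner X Y w z else 0 := by
  induction w with
  | nil => intro n z; simp [inner]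
  | cons a w ih =>
    intro n z
    rw [inner_cons_aux, map_sub, πW_consL_aux, ih]
    have e : πW X Y n (PP X Y a (Finsupp.single w z)) =
        if ((a :: w).length : ℤ) = n + 1 then PP X Y a (Finsupp.single w z) else 0 := by
      cases w with
      | nil => rw [PP_nil_aux]; simp
      | cons b w =>
        rw [PP_cons_aux]
        cases mg a b with
        | none => simp
        | some c =>
          simp only [map_neg, πW_single_aux, List.length_cons]
          by_cases h : ((w.length + 1 : ℕ) : ℤ) = n
          · rw [if_pos h, if_pos (by push_cast at h ⊢; omega)]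
          · rw [if_neg h, if_neg (by push_cast at h ⊢; omega), neg_zero]
    rw [e, List.length_cons]
    by_cases h : ((w.length + 1 : ℕ) : ℤ) = n + 1
    · rw [if_pos h, if_pos h, if_pos (by push_cast at h; omega)]
    · rw [if_neg h, if_neg h, if_neg (by push_cast at h; omega), map_zero, sub_zero]

lemma πW_dW_aux (n : ℤ) (f : Wd X Y) : πW X Y n (dW X Y f) = dW X Y (πW X Y (n + 1) f) := by
  have : πW X Y n ∘ₗ dW X Y = dW X Y ∘ₗ πW X Y (n + 1) := by
    apply Finsupp.lhom_ext
    intro w z
    rw [LinearMap.comp_apply, LinearMap.comp_apply, dW_single_aux, map_add, πW_inner_aux, πW_single_aux]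
    cases w with
    | nil =>
      simp only [face0, inner, LinearMap.zero_apply, map_zero, ite_self, add_zero]
      split_ifs
      · rw [dW_single_aux]; simp [face0, inner]
      · rw [map_zero]
    | cons a w =>
      rw [face0_cons_aux, πW_single_aux, List.length_cons]
      by_cases h : (w.length : ℤ) = n
      · rw [if_pos h, if_pos (by push_cast; omega), if_pos (by push_cast; omega), dW_single_aux,
          face0_cons_aux]
      · rw [if_neg h, if_neg (by push_cast; omega), if_neg (by push_cast; omega), map_zero,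
          add_zero]
  exact LinearMap.congr_fun this f

lemma ρW_dW_aux (g : G) (f : Wd X Y) : dW X Y (ρW X Y g f) = ρW X Y g (dW X Y f) := by
  have : dW X Y ∘ₗ ρW X Y g = ρW X Y g ∘ₗ dW X Y := by
    apply Finsupp.lhom_ext
    intro w z
    have hM : ρW X Y g = MM X Y ((X.ρ.tprod Y.ρ) g) := rfl
    rw [LinearMap.comp_apply, LinearMap.comp_apply, hM, MM_single_aux, dW_single_aux, dW_single_aux, map_add,
      MM_inner_aux]
    congr 1
    cases w with
    | nil => simp [face0]
    | cons a w =>
      rw [face0_cons_aux, face0_cons_aux, MM_single_aux]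
      congr 1
      have key : opL X Y a ∘ₗ (X.ρ.tprod Y.ρ) g = (X.ρ.tprod Y.ρ) g ∘ₗ opL X Y a := by
        apply TensorProduct.ext'
        intro x y
        cases a <;>
          simp only [opL, LinearMap.comp_apply, Representation.tprod_apply,
            TensorProduct.map_tmul, X.d_ρ, Y.d_ρ, LinearMap.id_apply]
      exact LinearMap.congr_fun key z
  exact LinearMap.congr_fun this f

/-- The complex of words. -/
noncomputable def W : Cx R G where
  V := subW X Y
  ρ := {
    toFun := fun g => (ρW X Y g).restrict (ρW_mem X Y g)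
    map_one' := by
      apply LinearMap.ext
      rintro ⟨f, hf⟩
      apply Subtype.ext
      apply Finsupp.ext
      intro w
      change (X.ρ.tprod Y.ρ) 1 (f w) = f w
      rw [map_one]; rfl
    map_mul' := by
      intro g g'
      apply LinearMap.ext
      rintro ⟨f, hf⟩
      apply Subtype.ext
      apply Finsupp.ext
      intro w
      change (X.ρ.tprod Y.ρ) (g * g') (f w) = (X.ρ.tprod Y.ρ) g ((X.ρ.tprod Y.ρ) g' (f w))
      rw [map_mul]; rfl }
  d := (dW X Y).restrict (dW_mem X Y)
  π n := (πW X Y n).restrict (πW_mem X Y n)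
  s := (Finset.range (bnd X + bnd Y + 1)).map Nat.castEmbedding
  ax := {
    π_zero := by
      rintro i hi ⟨f, hf⟩
      apply Subtype.ext
      apply Finsupp.ext
      intro w
      change πW X Y i f w = 0
      rw [πW_apply_aux]
      split_ifs with h
      · apply apply_eq_zero_aux X Y f hf
        by_contra hc
        apply hi
        rw [Finset.mem_map]
        exact ⟨w.length, Finset.mem_range.2 (by omega), h⟩
      · rfl
    π_sum := by
      rintro ⟨f, hf⟩
      apply Subtype.ext
      apply Finsupp.ext
      intro w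
      rw [AddSubmonoidClass.coe_finsetSum, Finsupp.finsetSum_apply]
      change ∑ i ∈ (Finset.range (bnd X + bnd Y + 1)).map Nat.castEmbedding, πW X Y i f w = f w
      simp only [πW_apply_aux]
      rw [Finset.sum_ite_eq]
      split_ifs with h
      · rfl
      · symm
        apply apply_eq_zero_aux X Y f hf
        by_contra hc
        apply h
        rw [Finset.mem_map]
        exact ⟨w.length, Finset.mem_range.2 (by omega), rfl⟩
    π_self := by
      rintro i ⟨f, hf⟩
      apply Subtype.ext
      apply Finsupp.ext
      intro w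
      change πW X Y i (πW X Y i f) w = πW X Y i f w
      simp only [πW_apply_aux]
      split_ifs <;> rfl
    π_ne := by
      rintro i j hij ⟨f, hf⟩
      apply Subtype.ext
      apply Finsupp.ext
      intro w
      change πW X Y i (πW X Y j f) w = 0
      simp only [πW_apply_aux]
      split_ifs with h1 h2
      · exact absurd (h1.symm.trans h2) hij
      · rfl
      · rfl
    π_d := by
      rintro i ⟨f, hf⟩
      apply Subtype.ext
      exact πW_dW_aux X Y i f
    d_d := by
      rintro ⟨f, hf⟩
      apply Subtype.ext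
      exact dW_dW X Y f
    π_ρ := by
      rintro g i ⟨f, hf⟩
      apply Subtype.ext
      apply Finsupp.ext
      intro w
      change πW X Y i (ρW X Y g f) w = ρW X Y g (πW X Y i f) w
      rw [πW_apply_aux, ρW_apply_aux, ρW_apply_aux, πW_apply_aux]
      split_ifs
      · rfl
      · rw [map_zero]
    d_ρ := by
      rintro g ⟨f, hf⟩
      apply Subtype.ext
      exact ρW_dW_aux X Y g f }

end EZ

end PicInd
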