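import Mathlib
import Pool.Agent.Lib_MP_8744b5_al.Base

/-! Piece GAUSS: algebraic discrete Morse theory (Gaussian elimination) for complexes. -/

set_option linter.unusedVariables false

open TensorProduct

namespace PicInd

universe u

variable {R : Type u} [CommRing R] {G : Type} [Group G]

namespace Cx

/-- equivariant and homogeneous of degree `k` -/
def HE (X Y : Cx R G) (k : ℤ) (f : X.V →ₗ[R] Y.V) : Prop :=
  (∀ g x, f (X.ρ g x) = Y.ρ g (f x)) ∧ ∀ i x, f (X.π i x) = Y.π (i + k) (f x)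

lemma HE.comp {X Y Z : Cx R G} {k l m : ℤ} {f : X.V →ₗ[R] Y.V} {g : Y.V →ₗ[R] Z.V}
    (hg : HE Y Z l g) (hf : HE X Y k f) (h : k + l = m) : HE X Z m (g ∘ₗ f) := by
  refine ⟨fun a x => by simp [hf.1, hg.1], fun i x => ?_⟩
  rw [LinearMap.comp_apply, hf.2, hg.2, LinearMap.comp_apply, ← h, add_assoc]

lemma HE.add {X Y : Cx R G} {k : ℤ} {f g : X.V →ₗ[R] Y.V} (hf : HE X Y k f) (hg : HE X Y k g) :
    HE X Y k (f + g) :=
  ⟨fun a x => by simp [hf.1, hg.1], fun i x => by simp [hf.2, hg.2]⟩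

lemma HE.sub {X Y : Cx R G} {k : ℤ} {f g : X.V →ₗ[R] Y.V} (hf : HE X Y k f) (hg : HE X Y k g) :
    HE X Y k (f - g) :=
  ⟨fun a x => by simp [hf.1, hg.1], fun i x => by simp [hf.2, hg.2]⟩

lemma HE.neg {X Y : Cx R G} {k : ℤ} {f : X.V →ₗ[R] Y.V} (hf : HE X Y k f) :
    HE X Y k (-f) :=
  ⟨fun a x => by simp [hf.1], fun i x => by simp [hf.2]⟩

lemma HE.id (X : Cx R G) : HE X X 0 (LinearMap.id) :=
  ⟨fun a x => rfl, fun i x => by simp⟩

lemma HE.d (X : Cx R G) : HE X X (-1) X.d :=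
  ⟨fun a x => X.d_ρ a x, fun i x => by rw [X.d_π, sub_eq_add_neg]⟩

lemma HE.pow {X : Cx R G} {f : X.V →ₗ[R] X.V} (hf : HE X X 0 f) (n : ℕ) :
    HE X X 0 (f ^ n) := by
  induction n with
  | zero => exact HE.id X
  | succ n ih =>
    rw [pow_succ]
    exact HE.comp ih hf (add_zero 0)

lemma HE.sum {X Y : Cx R G} {k : ℤ} {ι : Type*} (t : Finset ι) {f : ι → (X.V →ₗ[R] Y.V)}
    (hf : ∀ i ∈ t, HE X Y k (f i)) : HE X Y k (∑ i ∈ t, f i) := by
  refine ⟨fun a x => ?_, fun i x => ?_⟩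
  · rw [LinearMap.sum_apply, LinearMap.sum_apply, map_sum]
    exact Finset.sum_congr rfl fun j hj => (hf j hj).1 a x
  · rw [LinearMap.sum_apply, LinearMap.sum_apply, map_sum]
    exact Finset.sum_congr rfl fun j hj => (hf j hj).2 i x

/-- `θ = ∑ (-1)^k (s r)^k s` with `r = eB d eA - u` is inverse to the component `A → B` of `d` -/
theorem gauss1 (W : Cx R G) (eA eB u s : W.V →ₗ[R] W.V) (hA : HE W W 0 eA) (hB : HE W W 0 eB)
    (hu : HE W W (-1) u) (hs : HE W W 1 s) (AA : ∀ x, eA (eA x) = eA x)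
    (BB : ∀ x, eB (eB x) = eB x) (AB : ∀ x, eA (eB x) = 0) (BA : ∀ x, eB (eA x) = 0)
    (us : ∀ x, u (s x) = eB x) (su : ∀ x, s (u x) = eA x)
    (sA : ∀ x, eA (s x) = s x) (sB : ∀ x, s (eB x) = s x)
    (uB : ∀ x, eB (u x) = u x) (uA : ∀ x, u (eA x) = u x)
    (N : ℕ) (nil : ∀ x, ((s ∘ₗ (eB ∘ₗ W.d ∘ₗ eA - u)) ^ N) x = 0) :
    ∃ θ : W.V →ₗ[R] W.V, HE W W 1 θ ∧ (∀ x, eA (θ x) = θ x) ∧ (∀ x, θ (eB x) = θ x) ∧
      (∀ x, eB (W.d (θ x)) = eB x) ∧ (∀ x, θ (W.d (eA x)) = eA x) := by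
  set r : W.V →ₗ[R] W.V := eB ∘ₗ W.d ∘ₗ eA - u with hr
  set T : Module.End R W.V := s ∘ₗ r with hT
  have hrd : HE W W (-1) r :=
    ((hB.comp ((HE.d W).comp hA (zero_add (-1))) (add_zero (-1)))).sub hu
  have hTd : HE W W 0 T := hs.comp hrd (by norm_num)
  have hTN : T ^ N = 0 := LinearMap.ext nil
  have hTN' : (-T) ^ N = 0 := by rw [neg_pow, hTN, mul_zero]
  set S : Module.End R W.V := ∑ i ∈ Finset.range N, (-T) ^ i with hS
  have hSd : HE W W 0 S := HE.sum _ fun i _ => HE.pow (HE.neg hTd) i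
  have e1 : S * (-T - 1) = (-T) ^ N - 1 := geom_sum_mul (-T) N
  have e2 : (-T - 1) * S = (-T) ^ N - 1 := mul_geom_sum (-T) N
  have f1 : ∀ x, S (T x) = x - S x := by
    intro x
    have h := LinearMap.congr_fun e1 x
    rw [hTN', zero_sub] at h
    simp only [Module.End.mul_apply, LinearMap.sub_apply, LinearMap.neg_apply,
      Module.End.one_apply, map_sub, map_neg] at h
    have h' : S (T x) = x - S x := by
      have : -(S (T x)) - S x = -x := h
      rw [← neg_inj, neg_sub, ← sub_eq_zero]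
      rw [← sub_eq_zero] at this
      rw [← this]
      abel
    exact h'
  have f2 : ∀ x, T (S x) = x - S x := by
    intro x
    have h := LinearMap.congr_fun e2 x
    rw [hTN', zero_sub] at h
    simp only [Module.End.mul_apply, LinearMap.sub_apply, LinearMap.neg_apply,
      Module.End.one_apply] at h
    have : -(T (S x)) - S x = -x := h
    rw [← neg_inj, neg_sub, ← sub_eq_zero]
    rw [← sub_eq_zero] at this
    rw [← this]
    abel
  have Tx : ∀ x, T x = s (r x) := fun _ => rfl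
  have rx : ∀ x, r x = eB (W.d (eA x)) - u x := fun _ => rfl
  have Br : ∀ x, eB (r x) = r x := fun x => by rw [rx, map_sub, BB, uB]
  have rA : ∀ x, r (eA x) = r x := fun x => by rw [rx, rx, AA, uA]
  have AS : ∀ x, eA (S (s x)) = S (s x) := by
    intro x
    have h : S (s x) = s x - T (S (s x)) := by rw [f2]; abel
    rw [h, map_sub, sA, Tx, sA]
  refine ⟨S ∘ₗ s, hSd.comp hs (add_zero 1), AS, fun x => ?_, fun x => ?_, fun x => ?_⟩
  · rw [LinearMap.comp_apply, LinearMap.comp_apply, sB]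
  · rw [LinearMap.comp_apply]
    have h1 : eB (W.d (S (s x))) = r (S (s x)) + u (S (s x)) := by
      rw [rx, AS]; abel
    have h2 : u (S (s x)) = eB x - r (S (s x)) := by
      have h : S (s x) = s x - T (S (s x)) := by rw [f2]; abel
      conv_lhs => rw [h]
      rw [map_sub, us, Tx, us, Br]
    rw [h1, h2]; abel
  · rw [LinearMap.comp_apply]
    have h1 : s (W.d (eA x)) = T x + eA x := by
      have h3 : eB (W.d (eA x)) = r x + u x := by rw [rx]; abel
      rw [← sB, h3, map_add, su, Tx]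
    rw [h1, map_add, f1]
    have h2 : S (eA x) = eA x - (x - S x) := by
      have h : T (eA x) = T x := by rw [Tx, Tx, rA]
      have h3 := f1 (eA x)
      rw [h, f1] at h3
      rw [h3]; abel
    rw [h2]; abel

/-- With `P = 1 - d θ - θ d` (a chain map homotopic to the identity, `P eA = 0`, `eB P = 0`,
`P P = P`), the map `P q` is a homotopy inverse of `p`. -/
theorem gauss2 (W Z : Cx R G) (eA eB eC : W.V →ₗ[R] W.V) (hA : HE W W 0 eA) (hB : HE W W 0 eB)
    (hC : HE W W 0 eC) (sum : ∀ x, eA x + eB x + eC x = x)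
    (AA : ∀ x, eA (eA x) = eA x) (BB : ∀ x, eB (eB x) = eB x) (CC : ∀ x, eC (eC x) = eC x)
    (AB : ∀ x, eA (eB x) = 0) (BA : ∀ x, eB (eA x) = 0) (AC : ∀ x, eA (eC x) = 0)
    (CA : ∀ x, eC (eA x) = 0) (BC : ∀ x, eB (eC x) = 0) (CB : ∀ x, eC (eB x) = 0)
    (θ : W.V →ₗ[R] W.V) (hθ : HE W W 1 θ) (θA : ∀ x, eA (θ x) = θ x) (θB : ∀ x, θ (eB x) = θ x)
    (h1 : ∀ x, eB (W.d (θ x)) = eB x) (h2 : ∀ x, θ (W.d (eA x)) = eA x)
    (p : Hom W Z) (q : Z.V →ₗ[R] W.V) (hq : HE Z W 0 q) (pA : ∀ x, p.f (eA x) = 0)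
    (pq : ∀ z, p.f (q z) = z) (qp : ∀ x, q (p.f (eC x)) = eC x) : Heq W Z := by
  set P : W.V →ₗ[R] W.V := LinearMap.id - W.d ∘ₗ θ - θ ∘ₗ W.d with hP
  have Px : ∀ x, P x = x - W.d (θ x) - θ (W.d x) := fun _ => rfl
  have hPd : HE W W 0 P :=
    ((HE.id W).sub ((HE.d W).comp hθ (by norm_num))).sub (hθ.comp (HE.d W) (by norm_num))
  have θA0 : ∀ x, θ (eA x) = 0 := fun x => by rw [← θB, BA, map_zero]
  have PA : ∀ x, P (eA x) = 0 := fun x => by rw [Px, θA0, h2, map_zero]; abel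
  have Pθ : ∀ x, P (θ x) = 0 := fun x => by rw [← θA, PA]
  have Pd : ∀ x, P (W.d x) = W.d (P x) := fun x => by
    rw [Px, Px, W.d_d, map_zero, map_sub, map_sub, W.d_d]; abel
  have pθ : ∀ x, p.f (θ x) = 0 := fun x => by rw [← θA, pA]
  have pdθ : ∀ x, p.f (W.d (θ x)) = 0 := fun x => by rw [p.f_d, pθ, map_zero]
  have Pdθ : ∀ x, P (W.d (θ x)) = 0 := fun x => by rw [Pd, Pθ, map_zero]
  have pP : ∀ x, p.f (P x) = p.f x := fun x => by
    rw [Px, map_sub, map_sub, pdθ, pθ]; abel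
  -- the kernel of `p` is contained in the kernel of `P`
  have key : ∀ w, p.f w = 0 → P w = 0 := by
    intro w hw
    set w' := w - W.d (θ w) with hw'
    have hB0 : eB w' = 0 := by rw [hw', map_sub, h1]; abel
    have hPw : P w' = P w := by rw [hw', map_sub, Pdθ]; abel
    have hpw : p.f w' = 0 := by rw [hw', map_sub, pdθ, hw]; abel
    have hs := sum w'
    rw [hB0, add_zero] at hs
    have hpC : p.f (eC w') = 0 := by
      have h := hpw
      rw [← hs, map_add, pA, zero_add] at h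
      exact h
    have hC0 : eC w' = 0 := by rw [← qp, hpC, map_zero]
    rw [hC0, add_zero] at hs
    rw [← hPw, ← hs, PA]
  have hPq : HE Z W 0 (P ∘ₗ q) := hPd.comp hq (add_zero 0)
  refine ⟨p, ⟨P ∘ₗ q, hPq.1, fun i x => ?_, fun x => ?_⟩, ⟨-θ, fun a x => ?_, fun i x => ?_,
    fun x => ?_⟩, Htpy.of_eq fun z => ?_⟩
  · rw [hPq.2, add_zero]
  · rw [LinearMap.comp_apply, LinearMap.comp_apply, ← Pd, ← sub_eq_zero, ← map_sub]
    apply key
    rw [map_sub, pq, p.f_d, pq, sub_self]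
  · rw [LinearMap.neg_apply, LinearMap.neg_apply, hθ.1, map_neg]
  · rw [LinearMap.neg_apply, LinearMap.neg_apply, hθ.2, map_neg]
  · change P (q (p.f x)) - x = W.d (-(θ x)) + -(θ (W.d x))
    have h : P (q (p.f x)) = P x := by
      rw [← sub_eq_zero, ← map_sub]
      apply key
      rw [map_sub, pq, sub_self]
    rw [h, Px, map_neg]; abel
  · change p.f (P (q z)) = z
    rw [pP, pq]

end Cx

end PicInd
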