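import Mathlib
import Pool.Agent.Lib_MP_8744b5_al.EZW
import Pool.Agent.Lib_MP_8744b5_al.Gauss

/-! Piece EZ2: the acyclic matching on words. -/

set_option linter.unusedVariables false

open TensorProduct

namespace PicInd

universe u

variable {R : Type u} [CommRing R] {G : Type} [Group G]

namespace EZ

open Letter

/-- classes of words: critical, upper (type `A`), lower (type `B`) -/
inductive Cls
  | C
  | A
  | B
  deriving DecidableEq

/-- The class is determined by the rightmost feature: `V H` (class `A`) or `D` (class `B`); the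
critical words are `H^p V^q`. -/
def cls : List Letter → Cls
  | [] => Cls.C
  | a :: w => match cls w with
    | Cls.A => Cls.A
    | Cls.B => Cls.B
    | Cls.C => match a with
      | D => Cls.B
      | H => Cls.C
      | V => if w.head? = some H then Cls.A else Cls.C

variable (X Y : Cx R G)

/-- projection onto the words of a class -/
noncomputable def prj (c : Cls) : Wd X Y →ₗ[R] Wd X Y :=
  Finsupp.lsum R (fun w => if cls w = c then Finsupp.lsingle w else 0)

/-- the linear map of a function on words with coefficients -/
noncomputable def LL (φ : List Letter → List Letter) (c : List Letter → R) :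
    Wd X Y →ₗ[R] Wd X Y :=
  Finsupp.lsum R (fun w => c w • Finsupp.lsingle (φ w))

lemma LL_single (φ : List Letter → List Letter) (c : List Letter → R) (w : List Letter)
    (z : X.V ⊗[R] Y.V) : LL X Y φ c (Finsupp.single w z) = c w • Finsupp.single (φ w) z := by
  simp [LL]

lemma prj_eq_LL (c : Cls) : prj X Y c = LL X Y id (fun w => if cls w = c then 1 else 0) := by
  apply Finsupp.lhom_ext
  intro w z
  rw [LL_single, prj, Finsupp.lsum_single]
  split_ifs <;> simp

lemma prj_single (c : Cls) (w : List Letter) (z : X.V ⊗[R] Y.V) :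
    prj X Y c (Finsupp.single w z) = if cls w = c then Finsupp.single w z else 0 := by
  rw [prj, Finsupp.lsum_single]
  split_ifs <;> simp

lemma LL_mem (φ : List Letter → List Letter) (c : List Letter → R)
    (hh : ∀ w, hc (φ w) = hc w) (hv : ∀ w, vc (φ w) = vc w) (f : Wd X Y) (hf : f ∈ subW X Y) :
    LL X Y φ c f ∈ subW X Y := by
  rw [LL, Finsupp.lsum_apply, Finsupp.sum]
  refine Submodule.sum_mem _ fun w _ => ?_
  rw [LinearMap.smul_apply, Finsupp.lsingle_apply]
  refine Submodule.smul_mem _ _ (single_mem X Y _ _ ?_)
  have := hf w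
  rw [πw] at this ⊢
  rw [hh, hv]
  exact this

lemma prj_mem (c : Cls) (f : Wd X Y) (hf : f ∈ subW X Y) : prj X Y c f ∈ subW X Y := by
  rw [prj_eq_LL]
  exact LL_mem X Y _ _ (fun _ => rfl) (fun _ => rfl) f hf

/-- the projection on the complex -/
noncomputable def eW (c : Cls) : (W X Y).V →ₗ[R] (W X Y).V :=
  (prj X Y c).restrict (prj_mem X Y c)

lemma ρW_single (g : G) (w : List Letter) (z : X.V ⊗[R] Y.V) :
    ρW X Y g (Finsupp.single w z) = Finsupp.single w ((X.ρ.tprod Y.ρ) g z) := by
  simp [ρW]

lemma πW_singleM (n : ℤ) (w : List Letter) (z : X.V ⊗[R] Y.V) :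
    πW X Y n (Finsupp.single w z) = if (w.length : ℤ) = n then Finsupp.single w z else 0 := by
  rw [πW, Finsupp.lsum_single]
  split_ifs <;> simp

/-- `LL φ c` is equivariant and homogeneous of degree `k` if `φ` shifts the length by `k` where
`c` is not zero -/
lemma LL_HE (φ : List Letter → List Letter) (c : List Letter → R)
    (hh : ∀ w, hc (φ w) = hc w) (hv : ∀ w, vc (φ w) = vc w) (k : ℤ)
    (hk : ∀ w, c w ≠ 0 → ((φ w).length : ℤ) = w.length + k) :
    Cx.HE (W X Y) (W X Y) k ((LL X Y φ c).restrict (LL_mem X Y φ c hh hv)) := by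
  refine ⟨fun g x => ?_, fun i x => ?_⟩
  · apply Subtype.ext
    change LL X Y φ c (ρW X Y g x.1) = ρW X Y g (LL X Y φ c x.1)
    have : LL X Y φ c ∘ₗ ρW X Y g = ρW X Y g ∘ₗ LL X Y φ c := by
      apply Finsupp.lhom_ext
      intro w z
      rw [LinearMap.comp_apply, LinearMap.comp_apply, ρW_single, LL_single, LL_single, map_smul,
        ρW_single]
    exact LinearMap.congr_fun this x.1
  · apply Subtype.ext
    change LL X Y φ c (πW X Y i x.1) = πW X Y (i + k) (LL X Y φ c x.1)
    have : LL X Y φ c ∘ₗ πW X Y i = πW X Y (i + k) ∘ₗ LL X Y φ c := by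
      apply Finsupp.lhom_ext
      intro w z
      rw [LinearMap.comp_apply, LinearMap.comp_apply, πW_singleM, LL_single, map_smul, πW_singleM]
      by_cases hc0 : c w = 0
      · rw [hc0, zero_smul]
        split_ifs
        · rw [LL_single, hc0, zero_smul]
        · simp
      · have h1 := hk w hc0
        by_cases h2 : (w.length : ℤ) = i
        · rw [if_pos h2, if_pos (by omega), LL_single]
        · rw [if_neg h2, if_neg (by omega)]; simp
    exact LinearMap.congr_fun this x.1

/-- the projections are equivariant and homogeneous of degree 0 -/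
theorem eW_HE (c : Cls) : Cx.HE (W X Y) (W X Y) 0 (eW X Y c) := by
  have h := LL_HE X Y id (fun w => if cls w = c then 1 else 0) (fun _ => rfl) (fun _ => rfl) 0
    (fun w _ => by simp)
  have : eW X Y c = (LL X Y id (fun w => if cls w = c then 1 else 0)).restrict
      (LL_mem X Y id (fun w => if cls w = c then 1 else 0) (fun _ => rfl) (fun _ => rfl)) := by
    apply LinearMap.ext
    intro x
    apply Subtype.ext
    change prj X Y c x.1 = LL X Y id (fun w => if cls w = c then 1 else 0) x.1
    rw [prj_eq_LL]
  rw [this]
  exact h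

theorem eW_self (c : Cls) (x : (W X Y).V) : eW X Y c (eW X Y c x) = eW X Y c x := by
  apply Subtype.ext
  change prj X Y c (prj X Y c x.1) = prj X Y c x.1
  have : prj X Y c ∘ₗ prj X Y c = prj X Y c := by
    apply Finsupp.lhom_ext
    intro w z
    rw [LinearMap.comp_apply, prj_single]
    split_ifs with h
    · rw [prj_single, if_pos h]
    · simp
  exact LinearMap.congr_fun this x.1

theorem eW_ne (c c' : Cls) (h : c ≠ c') (x : (W X Y).V) : eW X Y c (eW X Y c' x) = 0 := by
  apply Subtype.ext
  change prj X Y c (prj X Y c' x.1) = 0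
  have : prj X Y c ∘ₗ prj X Y c' = 0 := by
    apply Finsupp.lhom_ext
    intro w z
    rw [LinearMap.comp_apply, prj_single]
    split_ifs with h1
    · rw [prj_single, if_neg (by rw [h1]; exact fun h2 => h h2.symm)]; simp
    · simp
  exact LinearMap.congr_fun this x.1

theorem eW_sum (x : (W X Y).V) : eW X Y Cls.A x + eW X Y Cls.B x + eW X Y Cls.C x = x := by
  apply Subtype.ext
  change prj X Y Cls.A x.1 + prj X Y Cls.B x.1 + prj X Y Cls.C x.1 = x.1
  have : prj X Y Cls.A + prj X Y Cls.B + prj X Y Cls.C = LinearMap.id := by
    apply Finsupp.lhom_ext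
    intro w z
    rw [LinearMap.add_apply, LinearMap.add_apply, prj_single, prj_single, prj_single]
    cases h : cls w <;> simp
  exact LinearMap.congr_fun this x.1

/-- toggling the rightmost feature `D ↔ V H` -/
def tog : List Letter → List Letter
  | [] => []
  | a :: w => match cls w with
    | Cls.A => a :: tog w
    | Cls.B => a :: tog w
    | Cls.C => match a with
      | D => V :: H :: w
      | H => H :: w
      | V => if w.head? = some H then D :: w.tail else V :: w

/-- the sign of the toggling -/
def sg (R : Type*) [CommRing R] : List Letter → R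
  | [] => 1
  | a :: w => match cls w with
    | Cls.A => - sg R w
    | Cls.B => - sg R w
    | Cls.C => -1

/-- exchange of the classes `A` and `B` -/
def swp : Cls → Cls
  | Cls.A => Cls.B
  | Cls.B => Cls.A
  | Cls.C => Cls.C

lemma cls_tail_of_C {a : Letter} {w : List Letter} (h : cls (a :: w) = Cls.C) : cls w = Cls.C := by
  cases h1 : cls w <;> simp_all [cls]

lemma cls_H_of_C {w : List Letter} (h : cls w = Cls.C) : cls (H :: w) = Cls.C := by
  rw [cls, h]

lemma cls_D_of_C {w : List Letter} (h : cls w = Cls.C) : cls (D :: w) = Cls.B := by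
  rw [cls, h]

lemma cls_VH_of_C {w : List Letter} (h : cls w = Cls.C) : cls (V :: H :: w) = Cls.A := by
  rw [cls, cls_H_of_C h]; simp

lemma cls_of_A {a : Letter} {w : List Letter} (h : cls w = Cls.A) : cls (a :: w) = Cls.A := by
  cases a <;> simp [cls, h]

lemma cls_of_B {a : Letter} {w : List Letter} (h : cls w = Cls.B) : cls (a :: w) = Cls.B := by
  cases a <;> simp [cls, h]

lemma eq_of_head {w : List Letter} (h : w.head? = some H) : w = H :: w.tail := by
  cases w with
  | nil => simp at h
  | cons a w => simp at h; rw [h]; rfl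

/-- cases for the words of class `C` in front of a letter -/
lemma tog_cons_A {a : Letter} {w : List Letter} (h : cls w = Cls.A) :
    tog (a :: w) = a :: tog w := by
  cases a <;> simp [tog, h]

lemma tog_cons_B {a : Letter} {w : List Letter} (h : cls w = Cls.B) :
    tog (a :: w) = a :: tog w := by
  cases a <;> simp [tog, h]

lemma tog_D {w : List Letter} (h : cls w = Cls.C) : tog (D :: w) = V :: H :: w := by
  rw [tog, h]

lemma tog_H {w : List Letter} (h : cls w = Cls.C) : tog (H :: w) = H :: w := by
  rw [tog, h]

lemma tog_VH {w : List Letter} (h : cls w = Cls.C) : tog (V :: H :: w) = D :: w := by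
  rw [tog, cls_H_of_C h]; simp

lemma tog_V {w : List Letter} (h : cls w = Cls.C) (h' : w.head? ≠ some H) :
    tog (V :: w) = V :: w := by
  rw [tog, h]; simp [h']

lemma sg_C {a : Letter} {w : List Letter} (h : cls w = Cls.C) : sg R (a :: w) = -1 := by
  rw [sg, h]

lemma sg_A {a : Letter} {w : List Letter} (h : cls w = Cls.A) : sg R (a :: w) = - sg R w := by
  rw [sg, h]

lemma sg_B {a : Letter} {w : List Letter} (h : cls w = Cls.B) : sg R (a :: w) = - sg R w := by
  rw [sg, h]

/-- all facts about toggling -/
lemma tog_facts (w : List Letter) : cls (tog w) = swp (cls w) ∧ tog (tog w) = w ∧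
    sg R (tog w) = sg R w ∧ hc (tog w) = hc w ∧ vc (tog w) = vc w ∧ sg R w * sg R w = 1 ∧
    (cls w = Cls.A → w.length = (tog w).length + 1) ∧
    (cls w = Cls.B → (tog w).length = w.length + 1) := by
  induction w with
  | nil => simp [tog, cls, swp, sg]
  | cons a w ih =>
    obtain ⟨h1, h2, h3, h4, h5, h6, h7, h8⟩ := ih
    cases h : cls w with
    | A =>
      rw [h] at h1
      have hB : cls (tog w) = Cls.B := h1
      rw [tog_cons_A h, cls_of_B hB, cls_of_A h, tog_cons_B hB, h2, sg_B hB, sg_A h, h3, hc, hc, h4,
        vc, vc, h5]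
      refine ⟨rfl, rfl, rfl, rfl, rfl, by rw [neg_mul_neg, h6], fun _ => ?_, fun h' => by simp at h'⟩
      simp only [List.length_cons]
      rw [h7 h]
    | B =>
      rw [h] at h1
      have hA : cls (tog w) = Cls.A := h1
      rw [tog_cons_B h, cls_of_A hA, cls_of_B h, tog_cons_A hA, h2, sg_A hA, sg_B h, h3, hc, hc, h4,
        vc, vc, h5]
      refine ⟨rfl, rfl, rfl, rfl, rfl, by rw [neg_mul_neg, h6], fun h' => by simp at h', fun _ => ?_⟩
      simp only [List.length_cons]
      rw [h8 h]
    | C =>
      cases a with
      | D =>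
        rw [tog_D h, cls_VH_of_C h, cls_D_of_C h, tog_VH h, sg_C (cls_H_of_C h), sg_C h]
        simp [swp, hc, vc, isH, isV]
      | H =>
        rw [tog_H h, cls_H_of_C h, tog_H h, sg_C h]
        simp [swp]
      | V =>
        by_cases h' : w.head? = some H
        · obtain ⟨w', rfl⟩ : ∃ w', w = H :: w' := ⟨_, eq_of_head h'⟩
          have hw' := cls_tail_of_C h
          rw [tog_VH hw', cls_VH_of_C hw', cls_D_of_C hw', tog_D hw', sg_C hw', sg_C h]
          simp [swp, hc, vc, isH, isV]
        · have hC : cls (V :: w) = Cls.C := by rw [cls, h]; simp [h']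
          rw [tog_V h h', hC, tog_V h h', sg_C h]
          simp [swp]

lemma cls_tog (w : List Letter) : cls (tog w) = swp (cls w) := (tog_facts (R := ℤ) w).1

lemma tog_tog (w : List Letter) : tog (tog w) = w := (tog_facts (R := ℤ) w).2.1

/-- merging the rightmost `V H`, with sign -/
noncomputable def uL : Wd X Y →ₗ[R] Wd X Y :=
  LL X Y tog (fun w => if cls w = Cls.A then sg R w else 0)

/-- splitting the rightmost `D`, with sign -/
noncomputable def sL : Wd X Y →ₗ[R] Wd X Y :=
  LL X Y tog (fun w => if cls w = Cls.B then sg R w else 0)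

lemma uL_single (w : List Letter) (z : X.V ⊗[R] Y.V) :
    uL X Y (Finsupp.single w z) =
      if cls w = Cls.A then sg R w • Finsupp.single (tog w) z else 0 := by
  rw [uL, LL_single]; split_ifs <;> simp

lemma sL_single (w : List Letter) (z : X.V ⊗[R] Y.V) :
    sL X Y (Finsupp.single w z) =
      if cls w = Cls.B then sg R w • Finsupp.single (tog w) z else 0 := by
  rw [sL, LL_single]; split_ifs <;> simp

lemma consL_singleM (a : Letter) (w : List Letter) (z : X.V ⊗[R] Y.V) :
    consL X Y a (Finsupp.single w z) = Finsupp.single (a :: w) z := by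
  simp [consL, Finsupp.lmapDomain_apply, Finsupp.mapDomain_single]

/-- splitting and putting a letter in front -/
lemma sL_consL (a : Letter) (f : Wd X Y) :
    sL X Y (consL X Y a f) = - consL X Y a (sL X Y f) + sL X Y (consL X Y a (prj X Y Cls.C f)) := by
  have : sL X Y ∘ₗ consL X Y a = - (consL X Y a ∘ₗ sL X Y) +
      sL X Y ∘ₗ consL X Y a ∘ₗ prj X Y Cls.C := by
    apply Finsupp.lhom_ext
    intro w z
    simp only [LinearMap.comp_apply, LinearMap.add_apply, LinearMap.neg_apply, consL_singleM,
      prj_single, sL_single]
    cases h : cls w with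
    | A => simp [cls_of_A h]
    | B =>
      rw [cls_of_B h, if_pos rfl, if_pos rfl, if_neg (by simp), tog_cons_B h, sg_B h, map_smul,
        consL_singleM]
      simp
    | C =>
      simp [consL_singleM, sL_single]
  exact LinearMap.congr_fun this f

/-- a merged word is not critical -/
lemma prj_C_inner (w : List Letter) (z : X.V ⊗[R] Y.V) :
    prj X Y Cls.C (inner X Y w z) = 0 := by
  have hcons : ∀ (a : Letter) (f : Wd X Y), prj X Y Cls.C f = 0 →
      prj X Y Cls.C (consL X Y a f) = 0 := by
    intro a f hf
    have : prj X Y Cls.C ∘ₗ consL X Y a = prj X Y Cls.C ∘ₗ consL X Y a ∘ₗ prj X Y Cls.C := by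
      apply Finsupp.lhom_ext
      intro w z
      simp only [LinearMap.comp_apply, consL_singleM, prj_single]
      by_cases h : cls w = Cls.C
      · rw [if_pos h, consL_singleM, prj_single]
      · rw [if_neg h, if_neg (fun h' => h (cls_tail_of_C h'))]; simp
    have h2 := LinearMap.congr_fun this f
    simp only [LinearMap.comp_apply] at h2
    rw [h2, hf]; simp
  induction w with
  | nil => simp [inner]
  | cons a w ih =>
    cases w with
    | nil => simp [inner]
    | cons b w =>
      rw [inner, LinearMap.sub_apply, map_sub, LinearMap.comp_apply, hcons a _ ih, sub_zero]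
      have hD : prj X Y Cls.C (Finsupp.single (D :: w) z) = 0 := by
        rw [prj_single, if_neg]
        intro h
        have h1 := cls_tail_of_C h
        rw [cls_D_of_C h1] at h
        exact absurd h (by simp)
      cases a <;> cases b <;> simp [mg, hD]

/-- number of pairs `V … H` -/
def iv : List Letter → ℕ
  | [] => 0
  | a :: w => (if a = V then w.count H else 0) + iv w

/-- the span of the words with `h` letters `H` and `k` inversions -/
noncomputable def SS (h k : ℕ) : Submodule R (Wd X Y) :=
  Finsupp.supported _ R {v | v.count H = h ∧ iv v = k}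

lemma single_mem_SS {h k : ℕ} {v : List Letter} (z : X.V ⊗[R] Y.V) (h1 : v.count H = h)
    (h2 : iv v = k) : Finsupp.single v z ∈ SS X Y h k :=
  Finsupp.single_mem_supported R z ⟨h1, h2⟩

lemma consL_SS (a : Letter) {h k : ℕ} {f : Wd X Y} (hf : f ∈ SS X Y h k) :
    consL X Y a f ∈ SS X Y (h + if a = H then 1 else 0) (k + if a = V then h else 0) := by
  rw [consL, Finsupp.lmapDomain_apply, Finsupp.mapDomain]
  refine Submodule.sum_mem _ fun w hw => ?_
  have hw' : w.count H = h ∧ iv w = k := hf hw
  apply single_mem_SS
  · rw [List.count_cons, hw'.1]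
    congr 1
    cases a <;> rfl
  · rw [iv, hw'.1, hw'.2]; ring

/-- the main computation: `s` of the inner faces -/
lemma sL_inner (w : List Letter) (hw : cls w ≠ Cls.B) (z : X.V ⊗[R] Y.V) :
    sL X Y (inner X Y w z) - (if cls w = Cls.A then Finsupp.single w z else 0) ∈
      SS X Y (w.count H) (iv w + 1) := by
  induction w with
  | nil => simp [inner, cls]
  | cons a w ih =>
    cases w with
    | nil =>
      have : cls [a] ≠ Cls.A := by cases a <;> simp [cls]
      simp [inner, this]
    | cons b w =>
      have hb : cls (b :: w) ≠ Cls.B := fun h => hw (cls_of_B h)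
      have hw0 : cls w ≠ Cls.B := fun h => hb (cls_of_B h)
      have ih1 := consL_SS X Y a (ih hb)
      have hcount : (b :: w).count H + (if a = H then 1 else 0) = (a :: b :: w).count H := by
        rw [List.count_cons (b := a)]
        congr 1
        cases a <;> rfl
      have hiv : iv (b :: w) + 1 + (if a = V then (b :: w).count H else 0) =
          iv (a :: b :: w) + 1 := by
        rw [iv.eq_2 a]; ring
      rw [hcount, hiv, map_sub] at ih1
      -- the value of `s` on the merged word
      have hD : sL X Y (Finsupp.single (D :: w) z) =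
          if cls w = Cls.C then - Finsupp.single (V :: H :: w) z else 0 := by
        rw [sL_single]
        cases h : cls w with
        | A => simp [cls_of_A h]
        | B => exact absurd h hw0
        | C => rw [cls_D_of_C h, sg_C h, tog_D h]; simp
      have hsum : sL X Y (inner X Y (a :: b :: w) z) =
          sL X Y ((match mg a b with
            | some c => - Finsupp.lsingle (R := R) (c :: w)
            | none => 0) z) + consL X Y a (sL X Y (inner X Y (b :: w) z)) := by
        rw [inner, LinearMap.sub_apply, map_sub, LinearMap.comp_apply, sL_consL, prj_C_inner]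
        simp only [map_zero, add_zero, sub_neg_eq_add]
        cases a <;> cases b <;> rfl
      have hmg : sL X Y ((match mg a b with
            | some c => - Finsupp.lsingle (R := R) (c :: w)
            | none => 0) z) + consL X Y a (if cls (b :: w) = Cls.A then Finsupp.single (b :: w) z
              else 0) - (if cls (a :: b :: w) = Cls.A then Finsupp.single (a :: b :: w) z else 0) ∈
          SS X Y ((a :: b :: w).count H) (iv (a :: b :: w) + 1) := by
        cases h : cls w with
        | B => exact absurd h hw0
        | A =>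
          have h1 : cls (b :: w) = Cls.A := cls_of_A h
          have h2 : cls (a :: b :: w) = Cls.A := cls_of_A h1
          rw [if_pos h1, if_pos h2, consL_singleM, add_sub_cancel_right]
          rw [h, if_neg (by simp)] at hD
          cases a <;> cases b <;> simp [mg, hD]
        | C =>
          rw [h, if_pos rfl] at hD
          cases b with
          | D => exact absurd (cls_D_of_C h) hb
          | H =>
            have h1 : cls (H :: w) = Cls.C := cls_H_of_C h
            rw [h1, if_neg (by simp), map_zero, add_zero]
            cases a with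
            | D => exact absurd (cls_D_of_C h1) hw
            | H =>
              rw [cls_H_of_C h1]
              simp [mg]
            | V =>
              rw [cls_VH_of_C h]
              simp [mg, hD]
          | V =>
            -- the word `V :: w`
            have hiv' : iv (H :: V :: w) = w.count H + iv w := by simp [iv]
            have hin : Finsupp.single (V :: H :: w) z ∈
                SS X Y ((H :: V :: w).count H) (iv (H :: V :: w) + 1) := by
              apply single_mem_SS
              · simp
              · rw [hiv']; simp [iv]; ring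
            cases a with
            | D =>
              by_cases h' : w.head? = some H
              · have h1 : cls (V :: w) = Cls.A := by rw [cls, h]; simp [h']
                rw [if_pos h1, if_pos (cls_of_A h1), consL_singleM, add_sub_cancel_right]
                simp [mg]
              · have h1 : cls (V :: w) = Cls.C := by rw [cls, h]; simp [h']
                exact absurd (cls_D_of_C h1) hw
            | H =>
              by_cases h' : w.head? = some H
              · have h1 : cls (V :: w) = Cls.A := by rw [cls, h]; simp [h']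
                rw [if_pos h1, if_pos (cls_of_A h1), consL_singleM, add_sub_cancel_right]
                simpa [mg, hD] using hin
              · have h1 : cls (V :: w) = Cls.C := by rw [cls, h]; simp [h']
                rw [h1, cls_H_of_C h1]
                simpa [mg, hD] using hin
            | V =>
              by_cases h' : w.head? = some H
              · have h1 : cls (V :: w) = Cls.A := by rw [cls, h]; simp [h']
                rw [if_pos h1, if_pos (cls_of_A h1), consL_singleM, add_sub_cancel_right]
                simp [mg]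
              · have h1 : cls (V :: w) = Cls.C := by rw [cls, h]; simp [h']
                have h2 : cls (V :: V :: w) = Cls.C := by rw [cls, h1]; simp
                rw [h1, h2]
                simp [mg]
      rw [hsum]
      have := Submodule.add_mem _ hmg ih1
      convert this using 1
      abel

/-- the words with at least `k` inversions -/
noncomputable def TT (k : ℕ) : Submodule R (Wd X Y) :=
  Finsupp.supported _ R {v | k ≤ iv v}

/-- `s r` on all words -/
noncomputable def srL : Wd X Y →ₗ[R] Wd X Y :=
  sL X Y ∘ₗ (prj X Y Cls.B ∘ₗ dW X Y ∘ₗ prj X Y Cls.A - uL X Y)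

lemma sL_prj (f : Wd X Y) : sL X Y (prj X Y Cls.B f) = sL X Y f := by
  have : sL X Y ∘ₗ prj X Y Cls.B = sL X Y := by
    apply Finsupp.lhom_ext
    intro w z
    rw [LinearMap.comp_apply, prj_single, sL_single]
    split_ifs with h
    · rw [sL_single, if_pos h]
    · simp
  exact LinearMap.congr_fun this f

lemma sL_uL (f : Wd X Y) : sL X Y (uL X Y f) = prj X Y Cls.A f := by
  have : sL X Y ∘ₗ uL X Y = prj X Y Cls.A := by
    apply Finsupp.lhom_ext
    intro w z
    rw [LinearMap.comp_apply, uL_single, prj_single]
    split_ifs with h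
    · rw [map_smul, sL_single, if_pos (by rw [cls_tog, h]; rfl), tog_tog, smul_smul,
        (tog_facts (R := R) w).2.2.1, (tog_facts (R := R) w).2.2.2.2.2.1, one_smul]
    · simp
  exact LinearMap.congr_fun this f

lemma uL_sL (f : Wd X Y) : uL X Y (sL X Y f) = prj X Y Cls.B f := by
  have : uL X Y ∘ₗ sL X Y = prj X Y Cls.B := by
    apply Finsupp.lhom_ext
    intro w z
    rw [LinearMap.comp_apply, sL_single, prj_single]
    split_ifs with h
    · rw [map_smul, uL_single, if_pos (by rw [cls_tog, h]; rfl), tog_tog, smul_smul,
        (tog_facts (R := R) w).2.2.1, (tog_facts (R := R) w).2.2.2.2.2.1, one_smul]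
    · simp
  exact LinearMap.congr_fun this f

lemma sL_face0 (w : List Letter) (hw : cls w ≠ Cls.B) (z : X.V ⊗[R] Y.V) :
    sL X Y (face0 X Y w z) = 0 := by
  cases w with
  | nil => simp [face0]
  | cons a w =>
    rw [face0, LinearMap.comp_apply, Finsupp.lsingle_apply, sL_single,
      if_neg (fun h => hw (cls_of_B h))]

lemma dW_singleM (w : List Letter) (z : X.V ⊗[R] Y.V) :
    dW X Y (Finsupp.single w z) = face0 X Y w z + inner X Y w z := by
  rw [dW, Finsupp.lsum_single]; rfl

lemma srL_single (w : List Letter) (z : X.V ⊗[R] Y.V) :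
    srL X Y (Finsupp.single w z) ∈ TT X Y (iv w + 1) := by
  rw [srL, LinearMap.comp_apply, LinearMap.sub_apply, map_sub, sL_uL, LinearMap.comp_apply,
    LinearMap.comp_apply, sL_prj, prj_single]
  by_cases h : cls w = Cls.A
  · rw [if_pos h, dW_singleM, map_add, sL_face0 X Y w (by rw [h]; simp), zero_add]
    have h1 := sL_inner X Y w (by rw [h]; simp) z
    rw [if_pos h] at h1
    refine Finsupp.supported_mono ?_ h1
    rintro v ⟨_, hv⟩
    exact hv.ge
  · rw [if_neg h]; simp

lemma srL_TT (k : ℕ) (f : Wd X Y) (hf : f ∈ TT X Y k) : srL X Y f ∈ TT X Y (k + 1) := by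
  have : f = ∑ w ∈ f.support, Finsupp.single w (f w) := (Finsupp.sum_single f).symm
  rw [this, map_sum]
  refine Submodule.sum_mem _ fun w hw => ?_
  have hw' : k ≤ iv w := hf hw
  refine Finsupp.supported_mono ?_ (srL_single X Y w (f w))
  intro v hv
  exact le_trans (Nat.succ_le_succ hw') hv

lemma iv_le (w : List Letter) : iv w ≤ w.count V * w.count H := by
  induction w with
  | nil => simp [iv]
  | cons a w ih =>
    rw [iv]
    cases a <;> simp <;> nlinarith

lemma count_H_le (w : List Letter) : w.count H ≤ hc w := by
  induction w with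
  | nil => simp [hc]
  | cons a w ih => cases a <;> simp [hc, isH] <;> omega

lemma count_V_le (w : List Letter) : w.count V ≤ vc w := by
  induction w with
  | nil => simp [vc]
  | cons a w ih => cases a <;> simp [vc, isV] <;> omega

lemma hc_le (f : Wd X Y) (hf : f ∈ subW X Y) (w : List Letter) (hw : f w ≠ 0) :
    hc w ≤ bnd X ∧ vc w ≤ bnd Y := by
  have h := hf w
  rw [πw] at h
  constructor
  · by_contra hlt
    apply hw
    rw [← h]
    have : X.π (hc w) = 0 := by
      apply LinearMap.ext
      intro x
      apply X.π_zero
      intro hmem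
      apply hlt
      have := Finset.le_sup (f := Int.natAbs) hmem
      simpa [bnd] using this
    rw [this]; simp
  · by_contra hlt
    apply hw
    rw [← h]
    have : Y.π (vc w) = 0 := by
      apply LinearMap.ext
      intro x
      apply Y.π_zero
      intro hmem
      apply hlt
      have := Finset.le_sup (f := Int.natAbs) hmem
      simpa [bnd] using this
    rw [this]; simp

/-- The matching: toggle the rightmost feature `D ↔ V H` (`u` merges, with sign; `s` is its
inverse). Apply `Cx.gauss1`; every term of `s r` on a word of class `A` is a word in which one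
adjacent `H V` is replaced by `V H`, so the number of inversions increases: nilpotent. -/
theorem exists_theta : ∃ θ : (W X Y).V →ₗ[R] (W X Y).V, Cx.HE (W X Y) (W X Y) 1 θ ∧
    (∀ x, eW X Y Cls.A (θ x) = θ x) ∧ (∀ x, θ (eW X Y Cls.B x) = θ x) ∧
    (∀ x, eW X Y Cls.B ((W X Y).d (θ x)) = eW X Y Cls.B x) ∧
    (∀ x, θ ((W X Y).d (eW X Y Cls.A x)) = eW X Y Cls.A x) := by
  have hh : ∀ w, hc (tog w) = hc w := fun w => (tog_facts (R := ℤ) w).2.2.2.1
  have hv : ∀ w, vc (tog w) = vc w := fun w => (tog_facts (R := ℤ) w).2.2.2.2.1
  have humem : ∀ f ∈ subW X Y, uL X Y f ∈ subW X Y := LL_mem X Y _ _ hh hv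
  have hsmem : ∀ f ∈ subW X Y, sL X Y f ∈ subW X Y := LL_mem X Y _ _ hh hv
  let u : (W X Y).V →ₗ[R] (W X Y).V := (uL X Y).restrict humem
  let s : (W X Y).V →ₗ[R] (W X Y).V := (sL X Y).restrict hsmem
  have hu : Cx.HE (W X Y) (W X Y) (-1) u := LL_HE X Y tog _ hh hv (-1) (by
    intro w hw
    have hA : cls w = Cls.A := by
      by_contra h
      exact hw (by rw [if_neg h])
    have := (tog_facts (R := ℤ) w).2.2.2.2.2.2.1 hA
    rw [this]; push_cast; ring)
  have hs : Cx.HE (W X Y) (W X Y) 1 s := LL_HE X Y tog _ hh hv 1 (by
    intro w hw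
    have hB : cls w = Cls.B := by
      by_contra h
      exact hw (by rw [if_neg h])
    have := (tog_facts (R := ℤ) w).2.2.2.2.2.2.2 hB
    rw [this]; push_cast; ring)
  have hsr : ∀ x, ((s ∘ₗ (eW X Y Cls.B ∘ₗ (W X Y).d ∘ₗ eW X Y Cls.A - u)) x).1 =
      srL X Y x.1 := fun x => rfl
  refine Cx.gauss1 (W X Y) (eW X Y Cls.A) (eW X Y Cls.B) u s (eW_HE X Y _) (eW_HE X Y _) hu hs
    (eW_self X Y _) (eW_self X Y _) (eW_ne X Y _ _ (by simp)) (eW_ne X Y _ _ (by simp))
    (fun x => Subtype.ext (uL_sL X Y x.1)) (fun x => Subtype.ext (sL_uL X Y x.1))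
    ?_ ?_ ?_ ?_ (bnd Y * bnd X + 1) ?_
  · intro x
    apply Subtype.ext
    change prj X Y Cls.A (sL X Y x.1) = sL X Y x.1
    have : prj X Y Cls.A ∘ₗ sL X Y = sL X Y := by
      apply Finsupp.lhom_ext
      intro w z
      rw [LinearMap.comp_apply, sL_single]
      split_ifs with h
      · rw [map_smul, prj_single, if_pos (by rw [cls_tog, h]; rfl)]
      · simp
    exact LinearMap.congr_fun this x.1
  · intro x
    exact Subtype.ext (sL_prj X Y x.1)
  · intro x
    apply Subtype.ext
    change prj X Y Cls.B (uL X Y x.1) = uL X Y x.1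
    have : prj X Y Cls.B ∘ₗ uL X Y = uL X Y := by
      apply Finsupp.lhom_ext
      intro w z
      rw [LinearMap.comp_apply, uL_single]
      split_ifs with h
      · rw [map_smul, prj_single, if_pos (by rw [cls_tog, h]; rfl)]
      · simp
    exact LinearMap.congr_fun this x.1
  · intro x
    apply Subtype.ext
    change uL X Y (prj X Y Cls.A x.1) = uL X Y x.1
    have : uL X Y ∘ₗ prj X Y Cls.A = uL X Y := by
      apply Finsupp.lhom_ext
      intro w z
      rw [LinearMap.comp_apply, prj_single, uL_single]
      split_ifs with h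
      · rw [uL_single, if_pos h]
      · simp
    exact LinearMap.congr_fun this x.1
  · intro x
    have key : ∀ N : ℕ, (((s ∘ₗ (eW X Y Cls.B ∘ₗ (W X Y).d ∘ₗ eW X Y Cls.A - u)) ^ N) x).1 ∈
        TT X Y N := by
      intro N
      induction N with
      | zero => intro v _; exact Nat.zero_le _
      | succ N ih =>
        rw [pow_succ', Module.End.mul_apply, hsr]
        exact srL_TT X Y N _ ih
    apply Subtype.ext
    change (((s ∘ₗ (eW X Y Cls.B ∘ₗ (W X Y).d ∘ₗ eW X Y Cls.A - u)) ^ (bnd Y * bnd X + 1)) x).1 = 0
    apply Finsupp.ext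
    intro w
    by_contra hne
    have h1 : bnd Y * bnd X + 1 ≤ iv w := key _ (Finsupp.mem_support_iff.2 hne)
    have h2 := hc_le X Y _ (((s ∘ₗ (eW X Y Cls.B ∘ₗ (W X Y).d ∘ₗ eW X Y Cls.A - u)) ^
      (bnd Y * bnd X + 1)) x).2 w hne
    have h3 := iv_le w
    have h4 : w.count V * w.count H ≤ bnd Y * bnd X :=
      Nat.mul_le_mul ((count_V_le w).trans h2.2) ((count_H_le w).trans h2.1)
    omega

end EZ

end PicInd
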