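import Mathlib
import Pool.Agent.Lib_MP_8744b5_al.EZMatch

/-! Piece EZ3: the word complex is homotopy equivalent to the tensor product. -/

set_option linter.unusedVariables false

open TensorProduct

namespace PicInd

universe u

variable {R : Type u} [CommRing R] {G : Type} [Group G]

namespace EZ

open Letter

namespace Hq

/-- words `V^c` -/
def g0 : List Letter → Bool
  | [] => true
  | V :: w => g0 w
  | _ :: _ => false

/-- words `H^b V^c` -/
def g1 : List Letter → Bool
  | [] => true
  | H :: w => g1 w
  | V :: w => g0 w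
  | D :: _ => false

/-- words `H^a D H^b V^c` -/
def g2 : List Letter → Bool
  | [] => false
  | H :: w => g2 w
  | V :: _ => false
  | D :: w => g1 w

/-- the word `H^p V^q` -/
def hv (p q : ℕ) : List Letter := List.replicate p H ++ List.replicate q V

lemma hc_append (u v : List Letter) : hc (u ++ v) = hc u + hc v := by
  induction u with
  | nil => simp [hc]
  | cons a u ih => rw [List.cons_append, hc, hc, ih]; ring

lemma vc_append (u v : List Letter) : vc (u ++ v) = vc u + vc v := by
  induction u with
  | nil => simp [vc]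
  | cons a u ih => rw [List.cons_append, vc, vc, ih]; ring

lemma hc_repH (p : ℕ) : hc (List.replicate p H) = p := by
  induction p with
  | zero => rfl
  | succ p ih => rw [List.replicate_succ, hc, ih]; simp [isH]; ring

lemma vc_repH (p : ℕ) : vc (List.replicate p H) = 0 := by
  induction p with
  | zero => rfl
  | succ p ih => rw [List.replicate_succ, vc, ih]; simp [isV]

lemma hc_repV (p : ℕ) : hc (List.replicate p V) = 0 := by
  induction p with
  | zero => rfl
  | succ p ih => rw [List.replicate_succ, hc, ih]; simp [isH]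

lemma vc_repV (p : ℕ) : vc (List.replicate p V) = p := by
  induction p with
  | zero => rfl
  | succ p ih => rw [List.replicate_succ, vc, ih]; simp [isV]; ring

lemma hc_hv (p q : ℕ) : hc (hv p q) = p := by rw [hv, hc_append, hc_repH, hc_repV, add_zero]

lemma vc_hv (p q : ℕ) : vc (hv p q) = q := by rw [hv, vc_append, vc_repH, vc_repV, zero_add]

lemma length_hv (p q : ℕ) : (hv p q).length = p + q := by simp [hv]

lemma g0_repV (q : ℕ) : g0 (List.replicate q V) = true := by
  induction q with
  | zero => rfl
  | succ q ih => rw [List.replicate_succ, g0, ih]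

lemma g0_g1 (w : List Letter) (h : g0 w = true) : g1 w = true := by
  cases w with
  | nil => rfl
  | cons a w => cases a <;> simp_all [g0, g1]

lemma g1_hv (p q : ℕ) : g1 (hv p q) = true := by
  induction p with
  | zero => rw [hv, List.replicate_zero, List.nil_append]; exact g0_g1 _ (g0_repV q)
  | succ p ih =>
    rw [hv, List.replicate_succ, List.cons_append, g1]
    exact ih

lemma g0_eq (w : List Letter) (h : g0 w = true) : hc w = 0 ∧ w = List.replicate (vc w) V := by
  induction w with
  | nil => exact ⟨rfl, rfl⟩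
  | cons a w ih =>
    cases a with
    | H => simp [g0] at h
    | D => simp [g0] at h
    | V =>
      rw [g0] at h
      obtain ⟨h1, h2⟩ := ih h
      refine ⟨by rw [hc, h1]; simp [isH], ?_⟩
      conv_lhs => rw [h2]
      rw [vc, ← List.replicate_succ]
      simp [isV, add_comm]

lemma g1_eq (w : List Letter) (h : g1 w = true) : w = hv (hc w) (vc w) := by
  induction w with
  | nil => rfl
  | cons a w ih =>
    cases a with
    | H =>
      rw [g1] at h
      have := ih h
      conv_lhs => rw [this]
      rw [hc, vc]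
      simp only [isH, isV, if_true, Bool.false_eq_true, if_false, zero_add, hv]
      rw [add_comm 1, List.replicate_succ, List.cons_append]
    | D => simp [g1] at h
    | V =>
      have h' : g0 (V :: w) = true := h
      obtain ⟨h1, h2⟩ := g0_eq _ h'
      rw [h1, hv, List.replicate_zero, List.nil_append]
      exact h2

lemma g1_length (w : List Letter) (h : g1 w = true) : w.length = hc w + vc w := by
  conv_lhs => rw [g1_eq w h]
  exact length_hv _ _

lemma g2_length (w : List Letter) (h : g2 w = true) :
    w.length + 1 = hc w + vc w ∧ 1 ≤ vc w := by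
  induction w with
  | nil => simp [g2] at h
  | cons a w ih =>
    cases a with
    | H =>
      rw [g2] at h
      obtain ⟨h1, h2⟩ := ih h
      rw [List.length_cons, hc, vc]
      simp only [isH, isV, if_true, Bool.false_eq_true, if_false, zero_add]
      omega
    | D =>
      rw [g2] at h
      have := g1_length w h
      rw [List.length_cons, hc, vc]
      simp only [isH, isV, if_true]
      omega
    | V => simp [g2] at h

lemma g0_iff (w : List Letter) : g0 w = true ↔ g1 w = true ∧ w.head? ≠ some H := by
  cases w with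
  | nil => simp [g0, g1]
  | cons a w => cases a <;> simp [g0, g1]

lemma g1_iff_cls (w : List Letter) : g1 w = true ↔ cls w = Cls.C := by
  induction w with
  | nil => simp [g1, cls]
  | cons a w ih =>
    cases a with
    | H =>
      rw [g1, ih, cls]
      cases cls w <;> simp
    | D =>
      rw [g1, cls]
      cases cls w <;> simp
    | V =>
      rw [g1, g0_iff, ih, cls]
      cases cls w <;> simp

lemma g2_cls (w : List Letter) (h : g2 w = true) : cls w = Cls.B := by
  induction w with
  | nil => simp [g2] at h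
  | cons a w ih =>
    cases a with
    | H =>
      rw [g2] at h
      rw [cls, ih h]
    | D =>
      rw [g2, g1_iff_cls] at h
      rw [cls, h]
    | V => simp [g2] at h

/-- the coefficient of `1 ⊗ d` in the inner faces -/
def kap : List Letter → ℤ
  | [] => 0
  | D :: _ => 0
  | V :: H :: w => if g1 w then -1 else 0
  | V :: _ => 0
  | H :: V :: w => (if g1 w then -1 else 0) - kap (V :: w)
  | H :: w => - kap w

lemma kap_HV (w : List Letter) :
    kap (H :: V :: w) = (if g1 w then -1 else 0) - kap (V :: w) := by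
  conv_lhs => rw [kap]

lemma kap_H (w : List Letter) (h : vc w ≠ 0) :
    kap (H :: w) = if g1 w then (-1) ^ (1 + hc w) else 0 := by
  induction w with
  | nil => exact absurd rfl h
  | cons a w ih =>
    cases a with
    | D => simp [kap, g1]
    | H =>
      have h' : vc w ≠ 0 := by
        intro h0; apply h; rw [vc, h0]; simp [isV]
      have e : kap (H :: H :: w) = - kap (H :: w) := by rw [kap]; simp
      rw [e, ih h', g1, hc]
      simp only [isH, if_true]
      split_ifs
      · ring
      · ring
    | V =>
      cases w with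
      | nil => simp [kap, g1, g0, hc, isH]
      | cons b w =>
        cases b with
        | H =>
          rw [kap, kap]
          simp only [g1, g0, Bool.false_eq_true, if_false]
          split_ifs <;> rfl
        | D => simp [kap, g1, g0]
        | V =>
          rw [kap]
          have : kap (V :: V :: w) = 0 := by rw [kap]; simp
          rw [this, hc, hc]
          simp only [isH, Bool.false_eq_true, if_false, zero_add, sub_zero, g1, g0]
          split_ifs with h0
          · rw [(g0_eq w h0).1]; rfl
          · rfl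

lemma kap_V (w : List Letter) :
    (if g1 w then (1 : ℤ) else 0) + kap (V :: w) = if g0 w then 1 else 0 := by
  cases w with
  | nil => simp [g1, g0, kap]
  | cons b w =>
    cases b with
    | H => simp only [g1, g0, kap, Bool.false_eq_true, if_false]; split_ifs <;> simp
    | D => simp [g1, g0, kap]
    | V => simp [g1, g0, kap]

variable (X Y : Cx R G)

/-- sum of the coefficients of the words in a class -/
noncomputable def GG (g : List Letter → Bool) : Wd X Y →ₗ[R] X.V ⊗[R] Y.V :=
  Finsupp.lsum R (fun w => if g w then LinearMap.id else 0)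

lemma GG_single (g : List Letter → Bool) (w : List Letter) (z : X.V ⊗[R] Y.V) :
    GG X Y g (Finsupp.single w z) = if g w then z else 0 := by
  simp only [GG, Finsupp.lsum_single]
  split_ifs <;> rfl

lemma GG_consL (g h : List Letter → Bool) (a : Letter) (H : ∀ w, g (a :: w) = h w)
    (f : Wd X Y) : GG X Y g (consL X Y a f) = GG X Y h f := by
  have : GG X Y g ∘ₗ consL X Y a = GG X Y h := by
    apply Finsupp.lhom_ext
    intro w z
    rw [LinearMap.comp_apply, consL_single_aux, GG_single, GG_single, H]
  exact LinearMap.congr_fun this f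

lemma GG_consL_zero (g : List Letter → Bool) (a : Letter) (H : ∀ w, g (a :: w) = false)
    (f : Wd X Y) : GG X Y g (consL X Y a f) = 0 := by
  have : GG X Y g ∘ₗ consL X Y a = 0 := by
    apply Finsupp.lhom_ext
    intro w z
    rw [LinearMap.comp_apply, consL_single_aux, GG_single, H]
    rfl
  exact LinearMap.congr_fun this f

lemma GG_PP_zero (g : List Letter → Bool) (a : Letter) (H : ∀ w, g (D :: w) = false)
    (f : Wd X Y) : GG X Y g (PP X Y a f) = 0 := by
  have : GG X Y g ∘ₗ PP X Y a = 0 := by
    apply Finsupp.lhom_ext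
    intro w z
    rw [LinearMap.comp_apply]
    cases w with
    | nil => rw [PP_nil_aux, map_zero]; rfl
    | cons b w =>
      rw [PP_cons_aux]
      cases hm : mg a b with
      | none => simp
      | some c =>
        have := mg_some_aux _ _ _ hm
        subst this
        simp only [map_neg, GG_single, H]
        simp
  exact LinearMap.congr_fun this f

lemma g0_inner (w : List Letter) (z : X.V ⊗[R] Y.V) : GG X Y g0 (inner X Y w z) = 0 := by
  induction w with
  | nil => simp [inner]
  | cons a w ih =>
    rw [inner_cons_aux, map_sub, GG_PP_zero X Y g0 a (fun _ => rfl), zero_sub, neg_eq_zero]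
    cases a with
    | H => exact GG_consL_zero X Y g0 H (fun _ => rfl) _
    | D => exact GG_consL_zero X Y g0 D (fun _ => rfl) _
    | V => rw [GG_consL X Y g0 g0 V (fun _ => rfl), ih]

lemma g1_inner (w : List Letter) (z : X.V ⊗[R] Y.V) : GG X Y g1 (inner X Y w z) = 0 := by
  induction w with
  | nil => simp [inner]
  | cons a w ih =>
    rw [inner_cons_aux, map_sub, GG_PP_zero X Y g1 a (fun _ => rfl), zero_sub, neg_eq_zero]
    cases a with
    | H => rw [GG_consL X Y g1 g1 H (fun _ => rfl), ih]
    | D => exact GG_consL_zero X Y g1 D (fun _ => rfl) _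
    | V => rw [GG_consL X Y g1 g0 V (fun _ => rfl), g0_inner]

lemma g2_inner (w : List Letter) (z : X.V ⊗[R] Y.V) :
    GG X Y g2 (inner X Y w z) = kap w • z := by
  induction w with
  | nil => simp [inner, kap]
  | cons a w ih =>
    rw [inner_cons_aux, map_sub]
    cases a with
    | D =>
      rw [PP_D_aux, GG_consL X Y g2 g1 D (fun _ => rfl), g1_inner]
      simp [kap]
    | V =>
      rw [GG_consL_zero X Y g2 V (fun _ => rfl), sub_zero]
      cases w with
      | nil => rw [PP_nil_aux]; simp [kap]
      | cons b w =>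
        rw [PP_cons_aux]
        cases b with
        | H =>
          simp only [mg, map_neg, GG_single, g2, kap]
          split_ifs <;> simp
        | V => simp [mg, kap]
        | D => simp [mg, kap]
    | H =>
      rw [GG_consL X Y g2 g2 H (fun _ => rfl), ih]
      cases w with
      | nil => rw [PP_nil_aux]; simp [kap]
      | cons b w =>
        rw [PP_cons_aux]
        cases b with
        | V =>
          simp only [mg, map_neg, GG_single, g2]
          rw [kap_HV, sub_smul]
          split_ifs <;> simp
        | H => simp [mg, kap]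
        | D => simp [mg, kap]

/-- the map to the tensor product -/
noncomputable def pp : Wd X Y →ₗ[R] X.V ⊗[R] Y.V :=
  GG X Y g1 + opL X Y V ∘ₗ GG X Y g2

lemma pp_apply (f : Wd X Y) : pp X Y f = GG X Y g1 f + opL X Y V (GG X Y g2 f) := rfl

lemma pp_single (w : List Letter) (z : X.V ⊗[R] Y.V) :
    pp X Y (Finsupp.single w z) =
      (if g1 w then z else 0) + (if g2 w then opL X Y V z else 0) := by
  rw [pp_apply, GG_single, GG_single]
  congr 1
  split_ifs
  · rfl
  · rw [map_zero]

lemma opL_HH (z : X.V ⊗[R] Y.V) : opL X Y H (opL X Y H z) = 0 := by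
  rw [opL_comp_aux]; rfl

lemma opL_VV (z : X.V ⊗[R] Y.V) : opL X Y V (opL X Y V z) = 0 := by
  rw [opL_comp_aux]; rfl

lemma opL_HV (z : X.V ⊗[R] Y.V) : opL X Y V (opL X Y H z) = opL X Y D z := by
  rw [opL_comp_aux]; rfl

lemma opL_VH (z : X.V ⊗[R] Y.V) : opL X Y H (opL X Y V z) = opL X Y D z := by
  rw [opL_comp_aux]; rfl

lemma opL_DV (z : X.V ⊗[R] Y.V) : opL X Y V (opL X Y D z) = 0 := by
  rw [opL_comp_aux]; rfl

/-- the differential of the tensor product on elements of bidegree `(i, j)` -/
lemma td_bi (i j : ℤ) (z : X.V ⊗[R] Y.V) (h : TensorProduct.map (X.π i) (Y.π j) z = z) :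
    Cx.td X Y z = opL X Y H z + eps i • opL X Y V z := by
  have key : Cx.td X Y ∘ₗ TensorProduct.map (X.π i) (Y.π j) =
      (opL X Y H + eps i • opL X Y V) ∘ₗ TensorProduct.map (X.π i) (Y.π j) := by
    apply TensorProduct.ext'
    intro x y
    simp only [LinearMap.comp_apply, TensorProduct.map_tmul, Cx.td_tmul, LinearMap.add_apply,
      LinearMap.smul_apply, opL, LinearMap.id_apply, Cx.sgn_π, Cx.eps_tmul]
  have := LinearMap.congr_fun key z
  rw [LinearMap.comp_apply, LinearMap.comp_apply, h] at this
  exact this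

lemma opL_V_bi (i j : ℤ) (z : X.V ⊗[R] Y.V) (h : TensorProduct.map (X.π i) (Y.π j) z = z) :
    TensorProduct.map (X.π i) (Y.π (j - 1)) (opL X Y V z) = opL X Y V z := by
  have hY : Y.π (j - 1) ∘ₗ Y.d = Y.d ∘ₗ Y.π j := by
    apply LinearMap.ext
    intro y
    rw [LinearMap.comp_apply, LinearMap.comp_apply, Y.π_d, sub_add_cancel]
  have key : TensorProduct.map (X.π i) (Y.π (j - 1)) ∘ₗ opL X Y V =
      opL X Y V ∘ₗ TensorProduct.map (X.π i) (Y.π j) := by
    simp only [opL, ← TensorProduct.map_comp, hY, LinearMap.comp_id, LinearMap.id_comp]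
  have := LinearMap.congr_fun key z
  rw [LinearMap.comp_apply, LinearMap.comp_apply, h] at this
  exact this

lemma opL_H_bi (i j : ℤ) (z : X.V ⊗[R] Y.V) (h : TensorProduct.map (X.π i) (Y.π j) z = z) :
    TensorProduct.map (X.π (i - 1)) (Y.π j) (opL X Y H z) = opL X Y H z := by
  have hX : X.π (i - 1) ∘ₗ X.d = X.d ∘ₗ X.π i := by
    apply LinearMap.ext
    intro y
    rw [LinearMap.comp_apply, LinearMap.comp_apply, X.π_d, sub_add_cancel]
  have key : TensorProduct.map (X.π (i - 1)) (Y.π j) ∘ₗ opL X Y H =
      opL X Y H ∘ₗ TensorProduct.map (X.π i) (Y.π j) := by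
    simp only [opL, ← TensorProduct.map_comp, hX, LinearMap.comp_id, LinearMap.id_comp]
  have := LinearMap.congr_fun key z
  rw [LinearMap.comp_apply, LinearMap.comp_apply, h] at this
  exact this

lemma opL_V_zero (hY : ∀ i : ℤ, i < 0 → ∀ x, Y.π i x = 0) (i : ℤ) (z : X.V ⊗[R] Y.V)
    (h : TensorProduct.map (X.π i) (Y.π 0) z = z) : opL X Y V z = 0 := by
  rw [← opL_V_bi X Y i 0 z h]
  have : Y.π ((0 : ℤ) - 1) = 0 := LinearMap.ext (hY _ (by norm_num))
  rw [this, TensorProduct.map_zero_right]; rfl

lemma opL_H_zero (hX : ∀ i : ℤ, i < 0 → ∀ x, X.π i x = 0) (j : ℤ) (z : X.V ⊗[R] Y.V)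
    (h : TensorProduct.map (X.π 0) (Y.π j) z = z) : opL X Y H z = 0 := by
  rw [← opL_H_bi X Y 0 j z h]
  have : X.π ((0 : ℤ) - 1) = 0 := LinearMap.ext (hX _ (by norm_num))
  rw [this, TensorProduct.map_zero_left]; rfl

lemma eps_cast (n : ℕ) : eps (n : ℤ) = (-1) ^ n := by
  induction n with
  | zero => simp [eps]
  | succ n ih => rw [Nat.cast_add, Nat.cast_one, eps_succ, ih, pow_succ]; ring

/-- `pp` is a chain map on homogeneous words -/
lemma pp_dW_single (hX : ∀ i : ℤ, i < 0 → ∀ x, X.π i x = 0)
    (hY : ∀ i : ℤ, i < 0 → ∀ x, Y.π i x = 0) (w : List Letter) (z : X.V ⊗[R] Y.V)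
    (h : πw X Y w z = z) :
    pp X Y (dW X Y (Finsupp.single w z)) = Cx.td X Y (pp X Y (Finsupp.single w z)) := by
  rw [dW_single_aux, map_add, pp_apply X Y (inner X Y w z), g1_inner, g2_inner, zero_add,
    pp_single, map_add]
  have htd2 : Cx.td X Y (if g2 w then opL X Y V z else 0) =
      if g2 w then opL X Y D z else 0 := by
    split_ifs
    · have h2 := opL_V_bi X Y (hc w) (vc w) z h
      rw [td_bi X Y _ _ _ h2, opL_VH, opL_VV, smul_zero, add_zero]
    · rw [map_zero]
  rw [htd2]
  cases w with
  | nil =>
    have h1 : opL X Y H z = 0 := opL_H_zero X Y hX 0 z h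
    have h2 : opL X Y V z = 0 := opL_V_zero X Y hY 0 z h
    simp only [face0, g1, g2, kap, if_true, Bool.false_eq_true, if_false, zero_smul, map_zero,
      LinearMap.zero_apply, add_zero]
    rw [td_bi X Y _ _ _ h, h1, h2, smul_zero, add_zero]
  | cons a w =>
    rw [face0_cons_aux, pp_single]
    cases a with
    | D =>
      simp only [g1, g2, kap, Bool.false_eq_true, if_false, zero_smul, map_zero, add_zero,
        opL_DV, ite_self, zero_add]
      split_ifs <;> rfl
    | H =>
      have hk : kap (H :: w) • opL X Y V z =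
          if g1 w then eps (hc (H :: w)) • opL X Y V z else 0 := by
        by_cases hv : vc w = 0
        · have : opL X Y V z = 0 := by
            apply opL_V_zero X Y hY (hc (H :: w)) z
            have := h
            rw [πw, show vc (H :: w) = 0 by rw [vc, hv]; simp [isV]] at this
            exact this
          rw [this, smul_zero, smul_zero, ite_self]
        · rw [kap_H w hv, eps_cast, hc]
          simp only [isH, if_true]
          split_ifs
          · rfl
          · rw [zero_smul]
      rw [map_zsmul, hk, opL_HV]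
      simp only [g1, g2]
      split_ifs with c1 c2
      · rw [td_bi X Y _ _ _ h]; abel
      · rw [td_bi X Y _ _ _ h]; abel
      · simp
      · simp
    | V =>
      rw [map_zsmul, opL_VV, ite_self, add_zero]
      simp only [g1, g2, Bool.false_eq_true, if_false, add_zero]
      have e1 : (if g1 w then opL X Y V z else 0) = (if g1 w then (1 : ℤ) else 0) • opL X Y V z := by
        split_ifs <;> simp
      rw [e1, ← add_smul, kap_V]
      split_ifs with c
      · have h0 : hc (V :: w) = 0 := by rw [hc, (g0_eq w c).1]; simp [isH]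
        have h1 : opL X Y H z = 0 := by
          apply opL_H_zero X Y hX (vc (V :: w)) z
          have := h
          rw [πw, h0] at this
          exact this
        rw [td_bi X Y _ _ _ h, h1, h0, zero_add]
        simp [eps]
      · rw [zero_smul, map_zero]

/-- elements of `subW` are sums of homogeneous words -/
lemma sub_induction {M : Type*} [AddCommGroup M] [Module R M] (φ ψ : Wd X Y →ₗ[R] M)
    (h : ∀ w z, πw X Y w z = z → φ (Finsupp.single w z) = ψ (Finsupp.single w z))
    (f : Wd X Y) (hf : f ∈ subW X Y) : φ f = ψ f := by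
  have e : ∀ χ : Wd X Y →ₗ[R] M, χ f = f.sum fun w z => χ (Finsupp.single w z) := by
    intro χ
    conv_lhs => rw [← Finsupp.sum_single f]
    rw [map_finsuppSum]
  rw [e φ, e ψ]
  apply Finset.sum_congr rfl
  intro w _
  exact h w (f w) (hf w)

lemma tπ_bi (n i j : ℤ) (z : X.V ⊗[R] Y.V) (h : TensorProduct.map (X.π i) (Y.π j) z = z) :
    Cx.tπ X Y n z = if i + j = n then z else 0 := by
  have key : Cx.tπ X Y n ∘ₗ TensorProduct.map (X.π i) (Y.π j) =
      if i + j = n then TensorProduct.map (X.π i) (Y.π j) else 0 := by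
    apply TensorProduct.ext'
    intro x y
    rw [LinearMap.comp_apply, TensorProduct.map_tmul, Cx.tπ_tmul]
    split_ifs
    · rw [TensorProduct.map_tmul]
    · rfl
  have := LinearMap.congr_fun key z
  rw [LinearMap.comp_apply, h] at this
  rw [this]
  split_ifs
  · exact h
  · rfl

/-- the morphism to the tensor product -/
noncomputable def pHom (hX : ∀ i : ℤ, i < 0 → ∀ x, X.π i x = 0)
    (hY : ∀ i : ℤ, i < 0 → ∀ x, Y.π i x = 0) : Cx.Hom (W X Y) (X.tensor Y) where
  f := pp X Y ∘ₗ (subW X Y).subtype
  f_ρ := by
    rintro g ⟨f, hf⟩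
    have : pp X Y ∘ₗ ρW X Y g = (X.ρ.tprod Y.ρ) g ∘ₗ pp X Y := by
      apply Finsupp.lhom_ext
      intro w z
      have key : opL X Y V ∘ₗ (X.ρ.tprod Y.ρ) g = (X.ρ.tprod Y.ρ) g ∘ₗ opL X Y V := by
        apply TensorProduct.ext'
        intro x y
        simp only [opL, LinearMap.comp_apply, Representation.tprod_apply,
            TensorProduct.map_tmul, Y.d_ρ, LinearMap.id_apply]
      have key' := LinearMap.congr_fun key z
      rw [LinearMap.comp_apply, LinearMap.comp_apply] at key'
      rw [LinearMap.comp_apply, LinearMap.comp_apply, ρW_single, pp_single, pp_single, key',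
        map_add]
      congr 1
      · split_ifs
        · rfl
        · rw [map_zero]
      · split_ifs
        · rfl
        · rw [map_zero]
    exact LinearMap.congr_fun this f
  f_π := by
    rintro n ⟨f, hf⟩
    apply sub_induction X Y (pp X Y ∘ₗ πW X Y n) (Cx.tπ X Y n ∘ₗ pp X Y) ?_ f hf
    intro w z h
    rw [LinearMap.comp_apply, LinearMap.comp_apply, πW_single_aux, pp_single, map_add]
    have e1 : Cx.tπ X Y n (if g1 w then z else 0) =
        if (w.length : ℤ) = n then (if g1 w then z else 0) else 0 := by
      by_cases c : g1 w = true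
      · rw [if_pos c, tπ_bi X Y n _ _ z h, g1_length w c, Nat.cast_add]
      · rw [if_neg c, map_zero, ite_self]
    have e2 : Cx.tπ X Y n (if g2 w then opL X Y V z else 0) =
        if (w.length : ℤ) = n then (if g2 w then opL X Y V z else 0) else 0 := by
      by_cases c : g2 w = true
      · have h2 := opL_V_bi X Y (hc w) (vc w) z h
        have h3 := g2_length w c
        rw [if_pos c, tπ_bi X Y n _ _ _ h2]
        by_cases c' : (w.length : ℤ) = n
        · rw [if_pos c', if_pos (by omega)]
        · rw [if_neg c', if_neg (by omega)]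
      · rw [if_neg c, map_zero, ite_self]
    rw [e1, e2]
    split_ifs <;> simp_all [pp_single]
  f_d := by
    rintro ⟨f, hf⟩
    exact sub_induction X Y (pp X Y ∘ₗ dW X Y) (Cx.td X Y ∘ₗ pp X Y)
      (fun w z h => pp_dW_single X Y hX hY w z h) f hf

/-- the section -/
noncomputable def qq : X.V ⊗[R] Y.V →ₗ[R] Wd X Y :=
  ∑ p ∈ Finset.range (bnd X + 1), ∑ q ∈ Finset.range (bnd Y + 1),
    Finsupp.lsingle (hv p q) ∘ₗ TensorProduct.map (X.π (p : ℤ)) (Y.π (q : ℤ))

lemma qq_apply (z : X.V ⊗[R] Y.V) : qq X Y z =
    ∑ p ∈ Finset.range (bnd X + 1), ∑ q ∈ Finset.range (bnd Y + 1),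
      Finsupp.single (hv p q) (TensorProduct.map (X.π (p : ℤ)) (Y.π (q : ℤ)) z) := by
  simp [qq, LinearMap.sum_apply]

lemma map_π_self (i j : ℤ) (z : X.V ⊗[R] Y.V) :
    TensorProduct.map (X.π i) (Y.π j) (TensorProduct.map (X.π i) (Y.π j) z) =
      TensorProduct.map (X.π i) (Y.π j) z := by
  have hX : X.π i ∘ₗ X.π i = X.π i := LinearMap.ext (X.π_self i)
  have hY : Y.π j ∘ₗ Y.π j = Y.π j := LinearMap.ext (Y.π_self j)
  rw [← LinearMap.comp_apply, ← TensorProduct.map_comp, hX, hY]

lemma map_π_ne (i j i' j' : ℤ) (hne : ¬ (i = i' ∧ j = j')) (z : X.V ⊗[R] Y.V)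
    (h : TensorProduct.map (X.π i) (Y.π j) z = z) :
    TensorProduct.map (X.π i') (Y.π j') z = 0 := by
  rw [← h, ← LinearMap.comp_apply, ← TensorProduct.map_comp]
  by_cases hi : i = i'
  · have hj : j' ≠ j := fun e => hne ⟨hi, e.symm⟩
    have : Y.π j' ∘ₗ Y.π j = 0 := LinearMap.ext (Y.π_ne j' j hj)
    rw [this, TensorProduct.map_zero_right]; rfl
  · have : X.π i' ∘ₗ X.π i = 0 := LinearMap.ext (X.π_ne i' i (Ne.symm hi))
    rw [this, TensorProduct.map_zero_left]; rfl

lemma qq_mem (z : X.V ⊗[R] Y.V) : qq X Y z ∈ subW X Y := by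
  rw [qq_apply]
  apply Submodule.sum_mem
  intro p _
  apply Submodule.sum_mem
  intro q _
  apply single_mem
  rw [πw, hc_hv, vc_hv, map_π_self]

/-- the section on elements of bidegree `(p, q)` -/
lemma qq_bi (p q : ℕ) (z : X.V ⊗[R] Y.V)
    (h : TensorProduct.map (X.π (p : ℤ)) (Y.π (q : ℤ)) z = z) :
    qq X Y z = Finsupp.single (hv p q) z := by
  rw [qq_apply]
  by_cases hp : p < bnd X + 1
  · by_cases hq : q < bnd Y + 1
    · rw [Finset.sum_eq_single p, Finset.sum_eq_single q, h]
      · intro q' _ hne
        rw [map_π_ne X Y p q p q' (by rintro ⟨_, e⟩; exact hne (by exact_mod_cast e.symm)) z h,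
          Finsupp.single_zero]
      · intro hn; exact absurd (Finset.mem_range.2 hq) hn
      · intro p' _ hne
        apply Finset.sum_eq_zero
        intro q' _
        rw [map_π_ne X Y p q p' q' (by rintro ⟨e, _⟩; exact hne (by exact_mod_cast e.symm)) z h,
          Finsupp.single_zero]
      · intro hn; exact absurd (Finset.mem_range.2 hp) hn
    · have : z = 0 := by
        rw [← h]
        have : Y.π (q : ℤ) = 0 := LinearMap.ext (pi_eq_zero_of_bnd_aux Y q (by omega))
        rw [this, TensorProduct.map_zero_right]; rfl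
      subst this
      simp
  · have : z = 0 := by
      rw [← h]
      have : X.π (p : ℤ) = 0 := LinearMap.ext (pi_eq_zero_of_bnd_aux X p (by omega))
      rw [this, TensorProduct.map_zero_left]; rfl
    subst this
    simp

/-- extensionality on bihomogeneous elements of nonnegative degree -/
lemma bi_ext (hX : ∀ i : ℤ, i < 0 → ∀ x, X.π i x = 0)
    (hY : ∀ i : ℤ, i < 0 → ∀ x, Y.π i x = 0) {M : Type*} [AddCommGroup M] [Module R M]
    (φ ψ : X.V ⊗[R] Y.V →ₗ[R] M)
    (h : ∀ (p q : ℕ) z, TensorProduct.map (X.π (p : ℤ)) (Y.π (q : ℤ)) z = z → φ z = ψ z) :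
    φ = ψ := by
  apply Cx.tensor_ext
  intro i j x y
  by_cases hi : i < 0
  · rw [hX i hi]; simp
  · by_cases hj : j < 0
    · rw [hY j hj]; simp
    · obtain ⟨p, rfl⟩ := Int.eq_ofNat_of_zero_le (not_lt.1 hi)
      obtain ⟨q, rfl⟩ := Int.eq_ofNat_of_zero_le (not_lt.1 hj)
      apply h p q
      rw [TensorProduct.map_tmul, X.π_self, Y.π_self]

end Hq

open Hq

/-- Apply `Cx.gauss2` with `p : W → X ⊗ Y`, `p (w ⊗ z) = z` for `w = H^p V^q`,
`p (w ⊗ z) = (1 ⊗ d) z` (no sign) for `w = H^a D H^b V^c`, `p = 0` on all other words (in particular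
on class `A`); `q z = ∑ H^p V^q ⊗ (π_p ⊗ π_q) z`. -/
theorem W_heq (X Y : Cx R G) (hX : ∀ i : ℤ, i < 0 → ∀ x, X.π i x = 0)
    (hY : ∀ i : ℤ, i < 0 → ∀ x, Y.π i x = 0) : Cx.Heq (W X Y) (X.tensor Y) := by
  obtain ⟨θ, hθ, θA, θB, h1, h2⟩ := exists_theta X Y
  refine Cx.gauss2 (W X Y) (X.tensor Y) (eW X Y Cls.A) (eW X Y Cls.B) (eW X Y Cls.C)
    (eW_HE X Y _) (eW_HE X Y _) (eW_HE X Y _) (eW_sum X Y) (eW_self X Y _) (eW_self X Y _)
    (eW_self X Y _) (eW_ne X Y _ _ (by decide)) (eW_ne X Y _ _ (by decide))
    (eW_ne X Y _ _ (by decide)) (eW_ne X Y _ _ (by decide)) (eW_ne X Y _ _ (by decide))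
    (eW_ne X Y _ _ (by decide)) θ hθ θA θB h1 h2 (pHom X Y hX hY)
    ((qq X Y).codRestrict (subW X Y) (qq_mem X Y)) ?_ ?_ ?_ ?_
  · constructor
    · intro g z
      apply Subtype.ext
      have : qq X Y ∘ₗ (X.ρ.tprod Y.ρ) g = ρW X Y g ∘ₗ qq X Y := by
        apply LinearMap.ext
        intro z
        rw [LinearMap.comp_apply, LinearMap.comp_apply, qq_apply, qq_apply, map_sum]
        apply Finset.sum_congr rfl
        intro p _
        rw [map_sum]
        apply Finset.sum_congr rfl
        intro q _
        rw [ρW_single]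
        congr 1
        have key : TensorProduct.map (X.π (p : ℤ)) (Y.π (q : ℤ)) ∘ₗ (X.ρ.tprod Y.ρ) g =
            (X.ρ.tprod Y.ρ) g ∘ₗ TensorProduct.map (X.π (p : ℤ)) (Y.π (q : ℤ)) := by
          apply TensorProduct.ext'
          intro x y
          simp only [LinearMap.comp_apply, Representation.tprod_apply,
            TensorProduct.map_tmul, X.π_ρ, Y.π_ρ]
        exact LinearMap.congr_fun key z
      exact LinearMap.congr_fun this z
    · intro n z
      apply Subtype.ext
      have : qq X Y ∘ₗ Cx.tπ X Y n = πW X Y (n + 0) ∘ₗ qq X Y := by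
        apply bi_ext X Y hX hY
        intro p q z h
        rw [LinearMap.comp_apply, LinearMap.comp_apply, tπ_bi X Y n _ _ z h, qq_bi X Y p q z h,
          πW_single_aux, length_hv, add_zero, Nat.cast_add]
        split_ifs
        · rw [qq_bi X Y p q z h]
        · rw [map_zero]
      exact LinearMap.congr_fun this z
  · rintro ⟨f, hf⟩
    have : pp X Y ∘ₗ prj X Y Cls.A = 0 := by
      apply Finsupp.lhom_ext
      intro w z
      rw [LinearMap.comp_apply, prj_single]
      split_ifs with c
      · rw [pp_single, if_neg, if_neg]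
        · simp
        · intro c'; rw [g2_cls w c'] at c; exact absurd c (by decide)
        · intro c'; rw [(g1_iff_cls w).1 c'] at c; exact absurd c (by decide)
      · simp
    exact LinearMap.congr_fun this f
  · intro z
    have : pp X Y ∘ₗ qq X Y = LinearMap.id := by
      apply bi_ext X Y hX hY
      intro p q z h
      rw [LinearMap.comp_apply, qq_bi X Y p q z h, pp_single, g1_hv, if_pos rfl, if_neg]
      · simp
      · intro c
        have := g2_cls _ c
        rw [(g1_iff_cls _).1 (g1_hv p q)] at this
        exact absurd this (by decide)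
    exact LinearMap.congr_fun this z
  · rintro ⟨f, hf⟩
    apply Subtype.ext
    refine sub_induction X Y (qq X Y ∘ₗ pp X Y ∘ₗ prj X Y Cls.C) (prj X Y Cls.C) ?_ f hf
    intro w z h
    rw [LinearMap.comp_apply, LinearMap.comp_apply, prj_single]
    split_ifs with c
    · have c1 := (g1_iff_cls w).2 c
      rw [pp_single, if_pos c1, if_neg, add_zero, qq_bi X Y (hc w) (vc w) z h, ← g1_eq w c1]
      intro c'
      rw [g2_cls w c'] at c; exact absurd c (by decide)
    · simp

end EZ

end PicInd
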