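import Mathlib
import Pool.Agent.Lib_MP_8744b5_al.Base

/-! Piece CONE1: the cone of the identity, direct sums. -/

set_option linter.unusedVariables false

open TensorProduct

namespace PicInd

universe u

variable {R : Type u} [CommRing R] {G : Type} [Group G]

namespace Cx

/-- the sum of the homogeneous parts over a larger index set -/
lemma sum_of_subset (X : Cx R G) {t : Finset ℤ} (h : X.s ⊆ t) (x : X.V) :
    ∑ i ∈ t, X.π i x = x := by
  rw [← Finset.sum_subset h (fun i _ hi => X.π_zero i hi x)]
  exact X.π_sum x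

/-- the sum of the shifted homogeneous parts over a larger index set -/
lemma sum_shift_of_subset (X : Cx R G) {t : Finset ℤ} (h : X.s.map (addRightEmbedding 1) ⊆ t)
    (x : X.V) : ∑ i ∈ t, X.π (i - 1) x = x := by
  rw [← Finset.sum_subset h]
  · rw [Finset.sum_map]
    simpa using X.π_sum x
  · intro i _ hi
    apply X.π_zero
    intro h'
    apply hi
    rw [Finset.mem_map]
    exact ⟨i - 1, h', by simp⟩

lemma pi_shift_zero (X : Cx R G) {i : ℤ} (hi : i ∉ X.s.map (addRightEmbedding 1)) (x : X.V) :
    X.π (i - 1) x = 0 := by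
  apply X.π_zero
  intro h'
  apply hi
  rw [Finset.mem_map]
  exact ⟨i - 1, h', by simp⟩

/-- the cone of the identity of `X`: degree `n` part `X_n × X_{n-1}`, `d (x, y) = (dx + y, -dy)` -/
noncomputable def cone (X : Cx R G) : Cx R G where
  V := X.V × X.V
  ρ := {
    toFun := fun g => (X.ρ g).prodMap (X.ρ g)
    map_one' := by ext <;> simp
    map_mul' := by intro g g'; ext <;> simp }
  d := LinearMap.prod (X.d ∘ₗ LinearMap.fst R _ _ + LinearMap.snd R _ _)
    (-(X.d ∘ₗ LinearMap.snd R _ _))
  π n := (X.π n).prodMap (X.π (n - 1))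
  s := X.s ∪ X.s.map (addRightEmbedding 1)
  ax := {
    π_zero := by
      rintro i hi ⟨x, y⟩
      rw [Finset.mem_union, not_or] at hi
      rw [LinearMap.prodMap_apply, X.π_zero i hi.1, X.pi_shift_zero hi.2]
      rfl
    π_sum := by
      rintro ⟨x, y⟩
      simp only [LinearMap.prodMap_apply]
      rw [Prod.ext_iff, Prod.fst_sum, Prod.snd_sum]
      exact ⟨X.sum_of_subset Finset.subset_union_left x,
        X.sum_shift_of_subset Finset.subset_union_right y⟩
    π_self := by
      rintro i ⟨x, y⟩
      simp only [LinearMap.prodMap_apply, X.π_self]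
    π_ne := by
      rintro i j h ⟨x, y⟩
      simp only [LinearMap.prodMap_apply]
      rw [X.π_ne i j h, X.π_ne (i - 1) (j - 1) (by omega)]
      rfl
    π_d := by
      rintro i ⟨x, y⟩
      have e : i - 1 + 1 = i + 1 - 1 := by ring
      apply Prod.ext
      · change X.π i (X.d x + y) = X.d (X.π (i + 1) x) + X.π (i + 1 - 1) y
        rw [map_add, X.π_d, add_sub_cancel_right]
      · change X.π (i - 1) (-X.d y) = -X.d (X.π (i + 1 - 1) y)
        rw [map_neg, X.π_d, e]
    d_d := by
      rintro ⟨x, y⟩
      apply Prod.ext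
      · change X.d (X.d x + y) + -X.d y = 0
        rw [map_add, X.d_d, zero_add, add_neg_cancel]
      · change -X.d (-X.d y) = 0
        rw [map_neg, X.d_d, neg_zero, neg_zero]
    π_ρ := by
      rintro g i ⟨x, y⟩
      exact Prod.ext (X.π_ρ g i x) (X.π_ρ g (i - 1) y)
    d_ρ := by
      rintro g ⟨x, y⟩
      apply Prod.ext
      · change X.d (X.ρ g x) + X.ρ g y = X.ρ g (X.d x + y)
        rw [X.d_ρ, map_add]
      · change -X.d (X.ρ g y) = X.ρ g (-X.d y)
        rw [X.d_ρ, map_neg] }

/-- the complex `X[1]`: degrees raised by one, differential `-d` -/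
noncomputable def sh (X : Cx R G) : Cx R G where
  V := X.V
  ρ := X.ρ
  d := -X.d
  π n := X.π (n - 1)
  s := X.s.map (addRightEmbedding 1)
  ax := {
    π_zero := by
      intro i hi x
      exact X.pi_shift_zero hi x
    π_sum := by
      intro x
      exact X.sum_shift_of_subset subset_rfl x
    π_self := by
      intro i x
      exact X.π_self _ x
    π_ne := by
      intro i j h x
      exact X.π_ne _ _ (by omega) x
    π_d := by
      intro i x
      have e : i - 1 + 1 = i + 1 - 1 := by ring
      rw [LinearMap.neg_apply, LinearMap.neg_apply, map_neg, X.π_d, e]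
    d_d := by
      intro x
      rw [LinearMap.neg_apply, LinearMap.neg_apply, map_neg, X.d_d]
      simp
    π_ρ := by
      intro g i x
      exact X.π_ρ g _ x
    d_ρ := by
      intro g x
      rw [LinearMap.neg_apply, LinearMap.neg_apply, map_neg, X.d_ρ] }

/-- the direct sum of two complexes -/
noncomputable def dsum (X Y : Cx R G) : Cx R G where
  V := X.V × Y.V
  ρ := {
    toFun := fun g => (X.ρ g).prodMap (Y.ρ g)
    map_one' := by ext <;> simp
    map_mul' := by intro g g'; ext <;> simp }
  d := X.d.prodMap Y.d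
  π n := (X.π n).prodMap (Y.π n)
  s := X.s ∪ Y.s
  ax := {
    π_zero := by
      rintro i hi ⟨x, y⟩
      rw [Finset.mem_union, not_or] at hi
      rw [LinearMap.prodMap_apply, X.π_zero i hi.1, Y.π_zero i hi.2]
      rfl
    π_sum := by
      rintro ⟨x, y⟩
      simp only [LinearMap.prodMap_apply]
      rw [Prod.ext_iff, Prod.fst_sum, Prod.snd_sum]
      exact ⟨X.sum_of_subset Finset.subset_union_left x,
        Y.sum_of_subset Finset.subset_union_right y⟩
    π_self := by
      rintro i ⟨x, y⟩
      simp only [LinearMap.prodMap_apply, X.π_self, Y.π_self]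
    π_ne := by
      rintro i j h ⟨x, y⟩
      simp only [LinearMap.prodMap_apply]
      rw [X.π_ne i j h, Y.π_ne i j h]
      rfl
    π_d := by
      rintro i ⟨x, y⟩
      simp only [LinearMap.prodMap_apply, X.π_d, Y.π_d]
    d_d := by
      rintro ⟨x, y⟩
      simp only [LinearMap.prodMap_apply, X.d_d, Y.d_d]
      rfl
    π_ρ := by
      rintro g i ⟨x, y⟩
      exact Prod.ext (X.π_ρ g i x) (Y.π_ρ g i y)
    d_ρ := by
      rintro g ⟨x, y⟩
      exact Prod.ext (X.d_ρ g x) (Y.d_ρ g y) }

end Cx

end PicInd
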