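import Mathlib
import Pool.Agent.Lib_MP_8744b5_al.Base

/-!
# Simplicial representations and their normalised complexes
-/

set_option linter.unusedVariables false
set_option linter.unusedSectionVars false

open CategoryTheory TensorProduct Opposite Simplicial

namespace PicInd

universe u

variable {R : Type u} [CommRing R] {G : Type} [Group G]

/-- Simplicial representations. -/
abbrev SR (R : Type u) [CommRing R] (G : Type) [Group G] := SimplicialObject (Rep.{u} R G)

namespace SR

/-- the module of `m`-simplices -/
abbrev V (A : SR R G) (m : ℕ) : Type u := (A.obj (op ⦋m⦌)).V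

/-- the action on the `m`-simplices -/
abbrev ρ (A : SR R G) (m : ℕ) : Representation R G (A.V m) := (A.obj (op ⦋m⦌)).ρ

/-- faces, as linear maps -/
noncomputable def fa (A : SR R G) (m : ℕ) (i : Fin (m + 2)) : A.V (m + 1) →ₗ[R] A.V m :=
  (A.δ i).hom.toLinearMap

/-- degeneracies, as linear maps -/
noncomputable def dg (A : SR R G) (m : ℕ) (i : Fin (m + 1)) : A.V m →ₗ[R] A.V (m + 1) :=
  (A.σ i).hom.toLinearMap

/-- a morphism of simplicial objects, as linear maps -/
noncomputable def ev {A B : SR R G} (F : A ⟶ B) (m : ℕ) : A.V m →ₗ[R] B.V m :=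
  (F.app (op ⦋m⦌)).hom.toLinearMap

/-- the alternating sum of the faces -/
noncomputable def bd (A : SR R G) (m : ℕ) : A.V (m + 1) →ₗ[R] A.V m :=
  ∑ i : Fin (m + 2), ((-1 : ℤ) ^ (i : ℕ)) • A.fa m i

/-- the span of the degenerate simplices -/
noncomputable def Deg (A : SR R G) (m : ℕ) : Submodule R (A.V m) :=
  match m with
  | 0 => (⊥ : Submodule R _)
  | Nat.succ n => (⨆ i : Fin (n + 1), LinearMap.range (A.dg n i))

/-- the projector onto the normalised part (Mathlib's `PInfty`) -/
noncomputable def PI (A : SR R G) (m : ℕ) : A.V m →ₗ[R] A.V m :=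
  ((AlgebraicTopology.DoldKan.PInfty (X := A)).f m).hom.toLinearMap

/-- apply a functor levelwise -/
noncomputable def ap {H : Type} [Group H] (F : Rep.{u} R H ⥤ Rep.{u} R G) (A : SR R H) : SR R G :=
  ((SimplicialObject.whiskering _ _).obj F).obj A

end SR

/-- tensor product of two representations -/
noncomputable def rtens (V W : Rep.{u} R G) : Rep.{u} R G := Rep.of (V.ρ.tprod W.ρ)

/-- tensor product of two morphisms of representations -/
noncomputable def rtmap {V W V' W' : Rep.{u} R G} (f : V ⟶ V') (g : W ⟶ W') :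
    rtens V W ⟶ rtens V' W' :=
  Rep.ofHom ⟨TensorProduct.map f.hom.toLinearMap g.hom.toLinearMap, fun a => by
    apply TensorProduct.ext'
    intro x y
    have h1 := Rep.hom_comm_apply f a x
    have h2 := Rep.hom_comm_apply g a y
    simp only [LinearMap.comp_apply, Representation.tprod_apply, TensorProduct.map_tmul]
    exact congrArg₂ (fun p q => p ⊗ₜ[R] q) h1 h2⟩

/-- levelwise tensor product of two functors with values in representations -/
noncomputable def tensF {C : Type*} [Category C] (A B : C ⥤ Rep.{u} R G) : C ⥤ Rep.{u} R G where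
  obj c := rtens (A.obj c) (B.obj c)
  map f := rtmap (A.map f) (B.map f)
  map_id c := by
    apply Rep.hom_ext
    apply Representation.IntertwiningMap.ext
    apply TensorProduct.ext'
    intro x y
    simp [rtmap, rtens]
  map_comp f g := by
    apply Rep.hom_ext
    apply Representation.IntertwiningMap.ext
    apply TensorProduct.ext'
    intro x y
    simp [rtmap, rtens]
    rfl

/-- levelwise tensor product of simplicial representations -/
noncomputable def SR.tens (A B : SR R G) : SR R G := tensF (C := SimplexCategoryᵒᵖ) A B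

/-- `NQ A X`: the complex `X` is the normalised complex (quotient by degenerate simplices) of the
simplicial representation `A`. -/
structure NQ (A : SR R G) (X : Cx R G) where
  φ : ∀ m : ℕ, A.V m →ₗ[R] X.V
  φ_ρ : ∀ m g a, φ m (A.ρ m g a) = X.ρ g (φ m a)
  φ_π : ∀ (m : ℕ) a, X.π (m : ℤ) (φ m a) = φ m a
  surj : ∀ (m : ℕ) x, X.π (m : ℤ) x = x → ∃ a, φ m a = x
  ker : ∀ m a, φ m a = 0 ↔ a ∈ A.Deg m
  comm : ∀ m a, φ m (A.bd m a) = X.d (φ (m + 1) a)
  nonneg : ∀ i : ℤ, i < 0 → ∀ x, X.π i x = 0

end PicInd
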