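import Mathlib
import Pool.Agent.Lib_MP_8744b5_al.Simp

/-! Piece SB: transport of the Dold-Kan machinery of Mathlib (`PInfty`, `N₁`, `N₂`, simplicial
homotopies) to linear maps. -/

set_option linter.unusedVariables false

open CategoryTheory TensorProduct Opposite Simplicial

namespace PicInd

universe u

variable {R : Type u} [CommRing R] {G : Type} [Group G]

/-- The linear map of a morphism of representations. -/
noncomputable def sbLin {V W : Rep.{u} R G} (f : V ⟶ W) : V.V →ₗ[R] W.V := f.hom.toLinearMap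

theorem sbLin_comp {V W Z : Rep.{u} R G} (f : V ⟶ W) (g : W ⟶ Z) (x : V.V) :
    sbLin (f ≫ g) x = sbLin g (sbLin f x) := rfl

theorem sbLin_id (V : Rep.{u} R G) (x : V.V) : sbLin (𝟙 V) x = x := rfl

theorem sbLin_ρ {V W : Rep.{u} R G} (f : V ⟶ W) (g : G) (x : V.V) :
    sbLin f (V.ρ g x) = W.ρ g (sbLin f x) := Rep.hom_comm_apply f g x

theorem sbLin_add {V W : Rep.{u} R G} (f g : V ⟶ W) : sbLin (f + g) = sbLin f + sbLin g := rfl

theorem sbLin_zero {V W : Rep.{u} R G} : sbLin (0 : V ⟶ W) = 0 := rfl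

/-- `sbLin` is additive. -/
noncomputable def sbLinHom (V W : Rep.{u} R G) : (V ⟶ W) →+ (V.V →ₗ[R] W.V) where
  toFun := sbLin
  map_zero' := rfl
  map_add' _ _ := rfl

theorem sbLin_neg {V W : Rep.{u} R G} (f : V ⟶ W) : sbLin (-f) = - sbLin f :=
  map_neg (sbLinHom V W) f

theorem sbLin_zsmul {V W : Rep.{u} R G} (n : ℤ) (f : V ⟶ W) : sbLin (n • f) = n • sbLin f :=
  map_zsmul (sbLinHom V W) n f

theorem sbLin_sum {V W : Rep.{u} R G} {ι : Type*} (s : Finset ι) (f : ι → (V ⟶ W)) :
    sbLin (∑ i ∈ s, f i) = ∑ i ∈ s, sbLin (f i) :=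
  map_sum (sbLinHom V W) f s

theorem sbLin_inj {V W : Rep.{u} R G} {f g : V ⟶ W} (h : ∀ x, sbLin f x = sbLin g x) : f = g := by
  apply Rep.hom_ext
  apply Representation.IntertwiningMap.ext
  exact LinearMap.ext h

namespace SR

variable {A B C : SR R G}

theorem fa_ρ (A : SR R G) (m : ℕ) (i : Fin (m + 2)) (g : G) (a : A.V (m + 1)) :
    A.fa m i (A.ρ (m + 1) g a) = A.ρ m g (A.fa m i a) :=
  sbLin_ρ (A.δ i) g a

theorem dg_ρ (A : SR R G) (m : ℕ) (i : Fin (m + 1)) (g : G) (a : A.V m) :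
    A.dg m i (A.ρ m g a) = A.ρ (m + 1) g (A.dg m i a) :=
  sbLin_ρ (A.σ i) g a

theorem bd_eq (A : SR R G) (m : ℕ) :
    A.bd m = sbLin (AlgebraicTopology.AlternatingFaceMapComplex.objD A m) := by
  unfold AlgebraicTopology.AlternatingFaceMapComplex.objD
  rw [sbLin_sum]
  unfold bd
  apply Finset.sum_congr rfl
  intro i _
  rw [sbLin_zsmul]
  rfl

theorem bd_ρ (A : SR R G) (m : ℕ) (g : G) (a : A.V (m + 1)) :
    A.bd m (A.ρ (m + 1) g a) = A.ρ m g (A.bd m a) := by
  rw [bd_eq]
  exact sbLin_ρ _ g a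

theorem PI_ρ (A : SR R G) (m : ℕ) (g : G) (a : A.V m) :
    A.PI m (A.ρ m g a) = A.ρ m g (A.PI m a) :=
  sbLin_ρ ((AlgebraicTopology.DoldKan.PInfty (X := A)).f m) g a

theorem PI_idem (A : SR R G) (m : ℕ) (a : A.V m) : A.PI m (A.PI m a) = A.PI m a := by
  have h := AlgebraicTopology.DoldKan.PInfty_f_idem (X := A) m
  exact congrArg (fun f => sbLin f a) h

/-- `K[A]` is a complex (`alternatingFaceMapComplex`) -/
theorem bd_bd (A : SR R G) (m : ℕ) (a : A.V (m + 2)) : A.bd m (A.bd (m + 1) a) = 0 := by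
  have h := AlgebraicTopology.AlternatingFaceMapComplex.d_squared A m
  rw [bd_eq, bd_eq]
  exact congrArg (fun f => sbLin f a) h

/-- `PInfty` is a chain map -/
theorem PI_bd (A : SR R G) (m : ℕ) (a : A.V (m + 1)) :
    A.PI m (A.bd m a) = A.bd m (A.PI (m + 1) a) := by
  have h := (AlgebraicTopology.DoldKan.PInfty (X := A)).comm (m + 1) m
  have e : (AlgebraicTopology.AlternatingFaceMapComplex.obj A).d (m + 1) m =
      AlgebraicTopology.AlternatingFaceMapComplex.objD A m :=
    AlgebraicTopology.AlternatingFaceMapComplex.obj_d_eq A m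
  rw [bd_eq]
  have h2 := congrArg (fun f => sbLin f a) h
  change sbLin ((AlgebraicTopology.AlternatingFaceMapComplex.obj A).d (m + 1) m)
    (A.PI (m + 1) a) = A.PI m (sbLin ((AlgebraicTopology.AlternatingFaceMapComplex.obj A).d
      (m + 1) m) a) at h2
  rw [e] at h2
  exact h2.symm

/-- the complementary projector `QInfty` -/
noncomputable def sbQ (A : SR R G) (m : ℕ) : A.V m →ₗ[R] A.V m :=
  ((AlgebraicTopology.DoldKan.QInfty (X := A)).f m).hom.toLinearMap

theorem PI_add_sbQ (A : SR R G) (m : ℕ) (a : A.V m) : A.PI m a + sbQ A m a = a := by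
  have h := AlgebraicTopology.DoldKan.PInfty_f_add_QInfty_f (X := A) m
  exact congrArg (fun f => sbLin f a) h

/-- kernel of `PInfty`: `σ_comp_PInfty` and `decomposition_Q` (or `QInfty`) -/
theorem PI_eq_zero_iff (A : SR R G) (m : ℕ) (a : A.V m) : A.PI m a = 0 ↔ a ∈ A.Deg m := by
  have hadd := PI_add_sbQ A m a
  cases m with
  | zero =>
    constructor
    · intro h
      have hq : sbQ A 0 = 0 := by
        have h2 := AlgebraicTopology.DoldKan.QInfty_f_0 (X := A)
        exact congrArg (fun f => sbLin f) h2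
      rw [hq, h] at hadd
      have : a = 0 := by
        rw [← hadd]
        simp
      rw [this]
      exact Submodule.zero_mem _
    · intro h
      have h' : a = 0 := h
      rw [h', map_zero]
  | succ n =>
    constructor
    · intro h
      have hq : sbQ A (n + 1) a = ∑ i : Fin (n + 1) with i.val < n + 1,
          sbLin ((AlgebraicTopology.DoldKan.P (X := A) i).f (n + 1) ≫ A.δ i.rev.succ ≫
            A.σ (Fin.rev i)) a := by
        have h2 := AlgebraicTopology.DoldKan.decomposition_Q (X := A) n (n + 1)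
        have h3 := congrArg (fun f => sbLin f a) h2
        refine Eq.trans h3 ?_
        rw [sbLin_sum, LinearMap.sum_apply]
      rw [h, zero_add, hq] at hadd
      rw [← hadd]
      apply Submodule.sum_mem
      intro i _
      exact Submodule.mem_iSup_of_mem (Fin.rev i) ⟨_, rfl⟩
    · intro h
      have h' : a ∈ (⨆ i : Fin (n + 1), LinearMap.range (A.dg n i)) := h
      have hle : (⨆ i : Fin (n + 1), LinearMap.range (A.dg n i)) ≤
          LinearMap.ker (A.PI (n + 1)) := by
        apply iSup_le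
        rintro i _ ⟨y, rfl⟩
        rw [LinearMap.mem_ker]
        have h2 := AlgebraicTopology.DoldKan.σ_comp_PInfty A i
        exact congrArg (fun f => sbLin f y) h2
      exact LinearMap.mem_ker.1 (hle h')

theorem ev_ρ (F : A ⟶ B) (m : ℕ) (g : G) (a : A.V m) :
    ev F m (A.ρ m g a) = B.ρ m g (ev F m a) :=
  sbLin_ρ (F.app (op ⦋m⦌)) g a

theorem ev_id (A : SR R G) (m : ℕ) (a : A.V m) : ev (𝟙 A) m a = a := rfl

theorem ev_comp (F : A ⟶ B) (F' : B ⟶ C) (m : ℕ) (a : A.V m) :
    ev (F ≫ F') m a = ev F' m (ev F m a) := rfl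

theorem ev_fa (F : A ⟶ B) (m : ℕ) (i : Fin (m + 2)) (a : A.V (m + 1)) :
    ev F m (A.fa m i a) = B.fa m i (ev F (m + 1) a) := by
  have h := SimplicialObject.δ_naturality F i
  exact congrArg (fun f => sbLin f a) h

theorem ev_dg (F : A ⟶ B) (m : ℕ) (i : Fin (m + 1)) (a : A.V m) :
    ev F (m + 1) (A.dg m i a) = B.dg m i (ev F m a) := by
  have h := SimplicialObject.σ_naturality F i
  exact congrArg (fun f => sbLin f a) h

theorem ev_bd (F : A ⟶ B) (m : ℕ) (a : A.V (m + 1)) :
    ev F m (A.bd m a) = B.bd m (ev F (m + 1) a) := by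
  unfold bd
  rw [LinearMap.sum_apply, LinearMap.sum_apply, map_sum]
  apply Finset.sum_congr rfl
  intro i _
  rw [LinearMap.smul_apply, LinearMap.smul_apply, map_zsmul, ev_fa]

theorem ev_PI (F : A ⟶ B) (m : ℕ) (a : A.V m) : ev F m (A.PI m a) = B.PI m (ev F m a) := by
  have h := AlgebraicTopology.DoldKan.PInfty_f_naturality m F
  exact (congrArg (fun f => sbLin f a) h).symm

theorem hom_ext_ev {F F' : A ⟶ B} (h : ∀ m a, ev F m a = ev F' m a) : F = F' := by
  apply SimplicialObject.hom_ext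
  intro n
  apply sbLin_inj
  intro x
  induction n using Opposite.rec with
  | op n =>
    obtain ⟨m⟩ := n
    exact h m x

end SR

end PicInd
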