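import Mathlib
import Pool.Agent.Lib_MP_8744b5_al.SimpBase

/-! Piece GAM1: an explicit simplicial representation with given normalised complex. -/

set_option linter.unusedVariables false

open CategoryTheory TensorProduct Opposite Simplicial

namespace PicInd

universe u

variable {R : Type u} [CommRing R] {G : Type} [Group G]

namespace Gam

/-- the number of elements `j` of `σ` with `a ≤ j < b`; the element `j` of `Fin m` is the edge from
the vertex `j` to the vertex `j + 1` of the simplex `[m]` -/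
def cnt {m : ℕ} (σ : Finset (Fin m)) (a b : ℕ) : ℕ := (σ.filter fun j => a ≤ j.1 ∧ j.1 < b).card

lemma cnt_self {m : ℕ} (σ : Finset (Fin m)) (a : ℕ) : cnt σ a a = 0 := by
  unfold cnt
  rw [Finset.card_eq_zero, Finset.filter_eq_empty_iff]
  intro j _ h
  omega

lemma cnt_add {m : ℕ} (σ : Finset (Fin m)) {a b c : ℕ} (hab : a ≤ b) (hbc : b ≤ c) :
    cnt σ a c = cnt σ a b + cnt σ b c := by
  unfold cnt
  rw [← Finset.card_union_of_disjoint]
  · congr 1
    ext j
    simp only [Finset.mem_filter, Finset.mem_union]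
    constructor
    · rintro ⟨h1, h2, h3⟩
      rcases Nat.lt_or_ge j.1 b with h | h
      · exact Or.inl ⟨h1, h2, h⟩
      · exact Or.inr ⟨h1, h, h3⟩
    · rintro (⟨h1, h2, h3⟩ | ⟨h1, h2, h3⟩)
      · exact ⟨h1, h2, by omega⟩
      · exact ⟨h1, by omega, h3⟩
  · rw [Finset.disjoint_left]
    intro j h1 h2
    rw [Finset.mem_filter] at h1 h2
    omega

lemma cnt_mono {m : ℕ} (σ : Finset (Fin m)) {a b a' b' : ℕ} (h : a' ≤ a) (h' : b ≤ b') :
    cnt σ a b ≤ cnt σ a' b' := by
  unfold cnt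
  apply Finset.card_le_card
  intro j hj
  rw [Finset.mem_filter] at hj ⊢
  exact ⟨hj.1, by omega, by omega⟩

lemma cnt_all {m : ℕ} (σ : Finset (Fin m)) : cnt σ 0 m = σ.card := by
  unfold cnt
  congr 1
  rw [Finset.filter_eq_self]
  intro j _
  exact ⟨Nat.zero_le _, j.2⟩

lemma cnt_succ {m : ℕ} (σ : Finset (Fin m)) (j : Fin m) :
    cnt σ j (j.1 + 1) = if j ∈ σ then 1 else 0 := by
  unfold cnt
  split_ifs with h
  · rw [Finset.card_eq_one]
    refine ⟨j, ?_⟩
    ext i
    rw [Finset.mem_filter, Finset.mem_singleton]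
    constructor
    · rintro ⟨_, h1, h2⟩
      apply Fin.ext
      omega
    · rintro rfl
      exact ⟨h, le_rfl, Nat.lt_succ_self _⟩
  · rw [Finset.card_eq_zero, Finset.filter_eq_empty_iff]
    intro i hi h1
    have : i = j := by
      apply Fin.ext
      omega
    exact h (this ▸ hi)

/-- all edges of `[n]` are mapped by `t` to paths with at most one edge in `σ`, and no edge of `σ`
lies after the image of `t` -/
def ok {m n : ℕ} (t : Fin (n + 1) → Fin (m + 1)) (σ : Finset (Fin m)) : Prop :=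
  (∀ j : Fin n, cnt σ (t j.castSucc) (t j.succ) ≤ 1) ∧ cnt σ (t (Fin.last n)) m = 0

/-- the edges of `[n]` whose image contains an edge in `σ` -/
def shp {m n : ℕ} (t : Fin (n + 1) → Fin (m + 1)) (σ : Finset (Fin m)) : Finset (Fin n) :=
  Finset.univ.filter fun j : Fin n => cnt σ (t j.castSucc) (t j.succ) = 1

instance {m n : ℕ} (t : Fin (n + 1) → Fin (m + 1)) (σ : Finset (Fin m)) : Decidable (ok t σ) := by
  unfold ok; infer_instance

lemma mem_shp {m n : ℕ} (t : Fin (n + 1) → Fin (m + 1)) (σ : Finset (Fin m)) (j : Fin n) :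
    j ∈ shp t σ ↔ cnt σ (t j.castSucc) (t j.succ) = 1 := by
  unfold shp
  rw [Finset.mem_filter]
  exact ⟨fun h => h.2, fun h => ⟨Finset.mem_univ _, h⟩⟩

lemma cnt_shp {m n : ℕ} (t : Fin (n + 1) → Fin (m + 1)) (ht : Monotone t) (σ : Finset (Fin m))
    (hok : ∀ j : Fin n, cnt σ (t j.castSucc) (t j.succ) ≤ 1) (a b : Fin (n + 1)) (hab : a ≤ b) :
    cnt (shp t σ) a b = cnt σ (t a) (t b) := by
  induction b using Fin.induction with
  | zero =>
    have : a = 0 := le_antisymm hab (Fin.zero_le a)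
    rw [this, cnt_self, cnt_self]
  | succ b ih =>
    by_cases h : a = b.succ
    · rw [h, cnt_self, cnt_self]
    · have h1 : a ≤ b.castSucc := by
        rw [Fin.le_def] at hab ⊢
        have : a.1 ≠ b.succ.1 := fun h' => h (Fin.ext h')
        rw [Fin.val_succ] at hab this
        rw [Fin.val_castSucc]
        omega
      have h2 : cnt (shp t σ) a b.succ = cnt (shp t σ) a b.castSucc +
          cnt (shp t σ) b.castSucc b.succ :=
        cnt_add _ (Fin.le_def.mp h1) (by rw [Fin.val_castSucc, Fin.val_succ]; omega)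
      have h3 : cnt σ (t a) (t b.succ) = cnt σ (t a) (t b.castSucc) +
          cnt σ (t b.castSucc) (t b.succ) :=
        cnt_add _ (ht h1) (ht (Fin.castSucc_lt_succ).le)
      have h4 : cnt (shp t σ) b.castSucc b.succ = if b ∈ shp t σ then 1 else 0 := by
        rw [Fin.val_castSucc, Fin.val_succ]
        exact cnt_succ _ b
      rw [h2, h3, ih h1, h4]
      congr 1
      have h5 := hok b
      split_ifs with h6
      · exact ((mem_shp t σ b).mp h6).symm
      · rw [mem_shp] at h6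
        omega

lemma card_eq_of_ok {m n : ℕ} (t : Fin (n + 1) → Fin (m + 1)) (ht : Monotone t)
    (σ : Finset (Fin m)) (h : ok t σ) : σ.card = (shp t σ).card + cnt σ 0 (t 0) := by
  have h1 : cnt (shp t σ) (0 : Fin (n + 1)) (Fin.last n) = cnt σ (t 0) (t (Fin.last n)) :=
    cnt_shp t ht σ h.1 0 (Fin.last n) (Fin.zero_le _)
  have h2 : cnt (shp t σ) (0 : Fin (n + 1)) (Fin.last n) = (shp t σ).card := by
    rw [Fin.val_zero, Fin.val_last]
    exact cnt_all _
  have h3 := cnt_all σ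
  have h4 : cnt σ 0 m = cnt σ 0 (t 0) + cnt σ (t 0) m := cnt_add σ (Nat.zero_le _)
    (Nat.lt_succ_iff.mp (t 0).2)
  have h5 : cnt σ (t 0) m = cnt σ (t 0) (t (Fin.last n)) + cnt σ (t (Fin.last n)) m :=
    cnt_add σ (ht (Fin.zero_le _)) (Nat.lt_succ_iff.mp (t (Fin.last n)).2)
  have h6 := h.2
  omega

lemma ok_comp_iff {m n p : ℕ} (t : Fin (n + 1) → Fin (m + 1)) (ht : Monotone t)
    (s : Fin (p + 1) → Fin (n + 1)) (hs : Monotone s) (σ : Finset (Fin m)) (h : ok t σ) :
    ok s (shp t σ) ↔ ok (fun i => t (s i)) σ := by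
  have h1 : ∀ j : Fin p, cnt (shp t σ) (s j.castSucc) (s j.succ) =
      cnt σ (t (s j.castSucc)) (t (s j.succ)) := fun j =>
    cnt_shp t ht σ h.1 _ _ (hs (Fin.castSucc_lt_succ).le)
  have h2 : cnt (shp t σ) (s (Fin.last p)) n = cnt σ (t (s (Fin.last p))) m := by
    have h3 := cnt_shp t ht σ h.1 (s (Fin.last p)) (Fin.last n) (Fin.le_last _)
    rw [Fin.val_last] at h3
    have h4 : cnt σ (t (s (Fin.last p))) m = cnt σ (t (s (Fin.last p))) (t (Fin.last n)) +
        cnt σ (t (Fin.last n)) m := cnt_add σ (ht (Fin.le_last _))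
      (Nat.lt_succ_iff.mp (t (Fin.last n)).2)
    rw [h.2] at h4
    omega
  unfold ok
  rw [h2]
  simp only [h1]

lemma shp_comp {m n p : ℕ} (t : Fin (n + 1) → Fin (m + 1)) (ht : Monotone t)
    (s : Fin (p + 1) → Fin (n + 1)) (hs : Monotone s) (σ : Finset (Fin m)) (h : ok t σ) :
    shp s (shp t σ) = shp (fun i => t (s i)) σ := by
  ext j
  rw [mem_shp, mem_shp, cnt_shp t ht σ h.1 _ _ (hs (Fin.castSucc_lt_succ).le)]

lemma cnt_comp {m n p : ℕ} (t : Fin (n + 1) → Fin (m + 1)) (ht : Monotone t)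
    (s : Fin (p + 1) → Fin (n + 1)) (hs : Monotone s) (σ : Finset (Fin m)) (h : ok t σ) :
    cnt (shp t σ) 0 (s 0) + cnt σ 0 (t 0) = cnt σ 0 (t (s 0)) := by
  have h1 := cnt_shp t ht σ h.1 0 (s 0) (Fin.zero_le _)
  rw [Fin.val_zero] at h1
  rw [h1, cnt_add σ (Nat.zero_le (t 0).1) (ht (Fin.zero_le (s 0)))]
  omega

/-- position of an edge with respect to a monotone map -/
lemma edge_cases {n p : ℕ} (s : Fin (p + 1) → Fin (n + 1)) (j : Fin n) :
    j.succ ≤ s 0 ∨ s (Fin.last p) ≤ j.castSucc ∨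
      ∃ i : Fin p, s i.castSucc ≤ j.castSucc ∧ j.succ ≤ s i.succ := by
  by_contra hcon
  push Not at hcon
  obtain ⟨h1, h2, h3⟩ := hcon
  have key : ∀ i : Fin (p + 1), s i ≤ j.castSucc := by
    intro i
    induction i using Fin.induction with
    | zero =>
      rw [Fin.lt_def, Fin.val_succ] at h1
      rw [Fin.le_def, Fin.val_castSucc]
      omega
    | succ i ih =>
      have := h3 i ih
      rw [Fin.lt_def, Fin.val_succ] at this
      rw [Fin.le_def, Fin.val_castSucc]
      omega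
  exact absurd (key (Fin.last p)) (not_le.mpr h2)

lemma two_le_of_not_ok {m n p : ℕ} (t : Fin (n + 1) → Fin (m + 1)) (ht : Monotone t)
    (s : Fin (p + 1) → Fin (n + 1)) (hs : Monotone s) (σ : Finset (Fin m)) (h : ¬ ok t σ)
    (h' : ok (fun i => t (s i)) σ) : 2 ≤ cnt σ 0 (t (s 0)) := by
  unfold ok at h
  rw [not_and_or] at h
  rcases h with h | h
  · push Not at h
    obtain ⟨j, hj⟩ := h
    rcases edge_cases s j with h1 | h1 | ⟨i, h1, h2⟩
    · have : cnt σ (t j.castSucc) (t j.succ) ≤ cnt σ 0 (t (s 0)) :=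
        cnt_mono σ (Nat.zero_le _) (ht h1)
      omega
    · have h3 : cnt σ (t j.castSucc) (t j.succ) ≤ cnt σ (t (s (Fin.last p))) m :=
        cnt_mono σ (ht h1) (Nat.lt_succ_iff.mp (t j.succ).2)
      have h4 : cnt σ (t (s (Fin.last p))) m = 0 := h'.2
      omega
    · have h3 : cnt σ (t j.castSucc) (t j.succ) ≤ cnt σ (t (s i.castSucc)) (t (s i.succ)) :=
        cnt_mono σ (ht h1) (ht h2)
      have h4 : cnt σ (t (s i.castSucc)) (t (s i.succ)) ≤ 1 := h'.1 i
      omega
  · have h3 : cnt σ (t (Fin.last n)) m ≤ cnt σ (t (s (Fin.last p))) m :=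
      cnt_mono σ (ht (Fin.le_last _)) le_rfl
    have h4 : cnt σ (t (s (Fin.last p))) m = 0 := h'.2
    omega

lemma ok_id {m : ℕ} (σ : Finset (Fin m)) : ok (fun i : Fin (m + 1) => i) σ := by
  refine ⟨fun j => ?_, ?_⟩
  · rw [Fin.val_castSucc, Fin.val_succ, cnt_succ]
    split_ifs <;> omega
  · rw [Fin.val_last, cnt_self]

lemma shp_id {m : ℕ} (σ : Finset (Fin m)) : shp (fun i : Fin (m + 1) => i) σ = σ := by
  ext j
  rw [mem_shp, Fin.val_castSucc, Fin.val_succ, cnt_succ]
  split_ifs with h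
  · simp [h]
  · simp [h]

/-- functions `f` on the subsets of `Fin m` with `f σ` in `X_{|σ|}` -/
def sub (X : Cx R G) (m : ℕ) : Submodule R (Finset (Fin m) → X.V) where
  carrier := {f | ∀ σ, X.π σ.card (f σ) = f σ}
  add_mem' := by
    intro f g hf hg σ
    rw [Pi.add_apply, map_add, hf σ, hg σ]
  zero_mem' := by intro σ; simp
  smul_mem' := by
    intro r f hf σ
    rw [Pi.smul_apply, map_smul, hf σ]

/-- the action -/
def rep (X : Cx R G) (m : ℕ) : Representation R G (sub X m) where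
  toFun g := (LinearMap.pi (fun σ => X.ρ g ∘ₗ LinearMap.proj σ)).restrict (by
    intro f hf σ
    simp [X.π_ρ, hf σ])
  map_one' := by ext; simp
  map_mul' g g' := by ext; simp

/-- powers of the differential -/
lemma π_pow (X : Cx R G) (e : ℕ) (n : ℤ) (x : X.V) (h : X.π (n + e) x = x) :
    X.π n ((X.d ^ e) x) = (X.d ^ e) x := by
  induction e generalizing x n with
  | zero =>
    simp only [Nat.cast_zero, add_zero] at h
    simpa using h
  | succ e ih =>
    have h1 : X.π (n + e) (X.d x) = X.d x := by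
      rw [X.π_d]
      have : n + (e : ℤ) + 1 = n + ((e + 1 : ℕ) : ℤ) := by push_cast; ring
      rw [this, h]
    have h2 : (X.d ^ (e + 1)) x = (X.d ^ e) (X.d x) := by
      rw [pow_succ]; rfl
    rw [h2]
    exact ih n (X.d x) h1

lemma d_pow_ρ (X : Cx R G) (e : ℕ) (g : G) (x : X.V) :
    (X.d ^ e) (X.ρ g x) = X.ρ g ((X.d ^ e) x) := by
  induction e generalizing x with
  | zero => rfl
  | succ e ih =>
    have h2 : ∀ y, (X.d ^ (e + 1)) y = (X.d ^ e) (X.d y) := fun y => by
      rw [pow_succ]; rfl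
    rw [h2, h2, X.d_ρ, ih]

lemma d_pow_eq_zero (X : Cx R G) (e : ℕ) (he : 2 ≤ e) (x : X.V) : (X.d ^ e) x = 0 := by
  obtain ⟨e, rfl⟩ := Nat.exists_eq_add_of_le' he
  have h2 : (X.d ^ (e + 2)) x = (X.d ^ e) (X.d (X.d x)) := by
    rw [pow_add]; rfl
  rw [h2, X.d_d, map_zero]

/-- the structure map attached to `t : [n] → [m]` -/
def op' (X : Cx R G) {m n : ℕ} (t : Fin (n + 1) → Fin (m + 1)) (ht : Monotone t) :
    sub X m →ₗ[R] sub X n :=
  (LinearMap.pi (fun τ : Finset (Fin n) =>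
    ∑ σ ∈ Finset.univ.filter (fun σ : Finset (Fin m) => ok t σ ∧ shp t σ = τ),
      (X.d ^ cnt σ 0 (t 0)) ∘ₗ LinearMap.proj σ)).restrict (by
    intro f hf τ
    rw [LinearMap.pi_apply, LinearMap.sum_apply, map_sum]
    refine Finset.sum_congr rfl fun σ hσ => ?_
    rw [Finset.mem_filter] at hσ
    obtain ⟨_, h1, h2⟩ := hσ
    rw [LinearMap.comp_apply, LinearMap.proj_apply]
    apply π_pow
    have h3 := card_eq_of_ok t ht σ h1
    rw [h2] at h3
    have h4 : (τ.card : ℤ) + ((cnt σ 0 (t 0) : ℕ) : ℤ) = (σ.card : ℤ) := by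
      rw [h3]; push_cast; ring
    rw [h4]
    exact hf σ)

lemma op'_apply (X : Cx R G) {m n : ℕ} (t : Fin (n + 1) → Fin (m + 1)) (ht : Monotone t)
    (f : sub X m) (τ : Finset (Fin n)) :
    (op' X t ht f).1 τ = ∑ σ ∈ Finset.univ.filter (fun σ : Finset (Fin m) => ok t σ ∧ shp t σ = τ),
      (X.d ^ cnt σ 0 (t 0)) (f.1 σ) := by
  show (LinearMap.pi (fun τ : Finset (Fin n) =>
    ∑ σ ∈ Finset.univ.filter (fun σ : Finset (Fin m) => ok t σ ∧ shp t σ = τ),
      (X.d ^ cnt σ 0 (t 0)) ∘ₗ LinearMap.proj σ)) f.1 τ = _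
  rw [LinearMap.pi_apply, LinearMap.sum_apply]
  rfl

lemma rep_apply (X : Cx R G) (m : ℕ) (g : G) (f : sub X m) (σ : Finset (Fin m)) :
    (rep X m g f).1 σ = X.ρ g (f.1 σ) := rfl

lemma op'_rep (X : Cx R G) {m n : ℕ} (t : Fin (n + 1) → Fin (m + 1)) (ht : Monotone t) (g : G)
    (f : sub X m) : op' X t ht (rep X m g f) = rep X n g (op' X t ht f) := by
  apply Subtype.ext
  funext τ
  rw [op'_apply, rep_apply, op'_apply, map_sum]
  refine Finset.sum_congr rfl fun σ _ => ?_
  rw [rep_apply, d_pow_ρ]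

lemma op'_id (X : Cx R G) {m : ℕ} (t : Fin (m + 1) → Fin (m + 1)) (ht : Monotone t)
    (h : ∀ i, t i = i) (f : sub X m) : op' X t ht f = f := by
  have h' : t = fun i => i := funext h
  subst h'
  apply Subtype.ext
  funext τ
  rw [op'_apply, Finset.sum_eq_single τ]
  · rw [Fin.val_zero, cnt_self, pow_zero]
    rfl
  · intro σ hσ hne
    rw [Finset.mem_filter, shp_id] at hσ
    exact absurd hσ.2.2 hne
  · intro h1
    exfalso
    apply h1
    rw [Finset.mem_filter]
    exact ⟨Finset.mem_univ _, ok_id τ, shp_id τ⟩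

lemma op'_comp (X : Cx R G) {m n p : ℕ} (t : Fin (n + 1) → Fin (m + 1)) (ht : Monotone t)
    (s : Fin (p + 1) → Fin (n + 1)) (hs : Monotone s) (r : Fin (p + 1) → Fin (m + 1))
    (hr : Monotone r) (h : ∀ i, r i = t (s i)) (f : sub X m) :
    op' X s hs (op' X t ht f) = op' X r hr f := by
  have h' : r = fun i => t (s i) := funext h
  subst h'
  apply Subtype.ext
  funext ρ
  rw [op'_apply, op'_apply]
  have h1 : ∀ τ : Finset (Fin n), (X.d ^ cnt τ 0 (s 0)) ((op' X t ht f).1 τ) =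
      ∑ σ ∈ Finset.univ.filter (fun σ : Finset (Fin m) => ok t σ ∧ shp t σ = τ),
        (X.d ^ (cnt σ 0 (t (s 0)))) (f.1 σ) := by
    intro τ
    rw [op'_apply, map_sum]
    refine Finset.sum_congr rfl fun σ hσ => ?_
    rw [Finset.mem_filter] at hσ
    obtain ⟨_, h2, h3⟩ := hσ
    rw [← cnt_comp t ht s hs σ h2, h3, pow_add]
    rfl
  simp only [h1]
  -- both sides as sums over all `σ`
  have h4 : ∑ σ ∈ Finset.univ.filter (fun σ : Finset (Fin m) =>
      ok (fun i => t (s i)) σ ∧ shp (fun i => t (s i)) σ = ρ), (X.d ^ (cnt σ 0 (t (s 0)))) (f.1 σ) =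
      ∑ σ ∈ Finset.univ.filter (fun σ : Finset (Fin m) =>
      ok t σ ∧ ok s (shp t σ) ∧ shp s (shp t σ) = ρ), (X.d ^ (cnt σ 0 (t (s 0)))) (f.1 σ) := by
    symm
    apply Finset.sum_subset
    · intro σ hσ
      rw [Finset.mem_filter] at hσ ⊢
      obtain ⟨_, h5, h6, h7⟩ := hσ
      exact ⟨Finset.mem_univ _, (ok_comp_iff t ht s hs σ h5).mp h6,
        by rw [← shp_comp t ht s hs σ h5]; exact h7⟩
    · intro σ hσ hσ'
      rw [Finset.mem_filter] at hσ hσ'
      obtain ⟨_, h5, h6⟩ := hσ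
      apply d_pow_eq_zero
      apply two_le_of_not_ok t ht s hs σ ?_ h5
      intro h7
      exact hσ' ⟨Finset.mem_univ _, h7, (ok_comp_iff t ht s hs σ h7).mpr h5,
        by rw [shp_comp t ht s hs σ h7]; exact h6⟩
  rw [h4]
  rw [← Finset.sum_fiberwise_of_maps_to (s := Finset.univ.filter (fun σ : Finset (Fin m) =>
      ok t σ ∧ ok s (shp t σ) ∧ shp s (shp t σ) = ρ)) (t := Finset.univ.filter
      (fun τ : Finset (Fin n) => ok s τ ∧ shp s τ = ρ)) (g := fun σ => shp t σ)]
  · refine Finset.sum_congr rfl fun τ hτ => ?_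
    rw [Finset.mem_filter] at hτ
    refine Finset.sum_congr ?_ fun σ _ => rfl
    ext σ
    simp only [Finset.mem_filter, Finset.mem_univ, true_and]
    constructor
    · rintro ⟨h5, h6⟩
      exact ⟨⟨h5, by rw [h6]; exact hτ.2.1, by rw [h6]; exact hτ.2.2⟩, h6⟩
    · rintro ⟨⟨h5, _⟩, h6⟩
      exact ⟨h5, h6⟩
  · intro σ hσ
    rw [Finset.mem_filter] at hσ ⊢
    exact ⟨Finset.mem_univ _, hσ.2.2.1, hσ.2.2.2⟩

end Gam

/-- the simplicial representation `Γ(X)` -/
def gam (X : Cx R G) : SR R G where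
  obj n := Rep.of (Gam.rep X n.unop.len)
  map θ := Rep.ofHom ⟨Gam.op' X (fun i => θ.unop.toOrderHom i) θ.unop.toOrderHom.monotone, by
    intro g
    apply LinearMap.ext
    intro f
    exact Gam.op'_rep X _ _ g f⟩
  map_id n := by
    apply Rep.hom_ext
    apply Representation.IntertwiningMap.ext
    apply LinearMap.ext
    intro f
    exact Gam.op'_id X (fun i => (𝟙 n : n ⟶ n).unop.toOrderHom i)
      (𝟙 n : n ⟶ n).unop.toOrderHom.monotone (fun i => rfl) f
  map_comp θ θ' := by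
    apply Rep.hom_ext
    apply Representation.IntertwiningMap.ext
    apply LinearMap.ext
    intro f
    exact (Gam.op'_comp X (fun i => θ.unop.toOrderHom i) θ.unop.toOrderHom.monotone
      (fun i => θ'.unop.toOrderHom i) θ'.unop.toOrderHom.monotone
      (fun i => (θ ≫ θ').unop.toOrderHom i) (θ ≫ θ').unop.toOrderHom.monotone
      (fun i => rfl) f).symm

end PicInd
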