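import Mathlib
import Pool.Agent.Lib_MP_8744b5_al.GamDef

/-! Piece GAM2: coordinates, faces and degeneracies of `gam X`. -/

set_option linter.unusedVariables false

open CategoryTheory TensorProduct Opposite Simplicial

namespace PicInd

universe u

variable {R : Type u} [CommRing R] {G : Type} [Group G]

namespace Gam

/-- the inclusion of the summand `σ` (composed with the projection onto degree `|σ|`) -/
def inn (X : Cx R G) (m : ℕ) (σ : Finset (Fin m)) : X.V →ₗ[R] (gam X).V m :=
  LinearMap.codRestrict (sub X m) (LinearMap.pi (fun τ => if τ = σ then X.π σ.card else 0)) (by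
    intro x τ
    by_cases h : τ = σ
    · subst h; simp [X.π_self]
    · simp [h])

/-- the coordinate `σ` -/
def evv (X : Cx R G) (m : ℕ) (σ : Finset (Fin m)) : (gam X).V m →ₗ[R] X.V :=
  LinearMap.proj σ ∘ₗ (sub X m).subtype

variable (X : Cx R G)

theorem evv_inn (m : ℕ) (σ : Finset (Fin m)) (x : X.V) :
    evv X m σ (inn X m σ x) = X.π σ.card x := by
  show (if σ = σ then X.π σ.card else 0) x = _
  rw [if_pos rfl]

theorem evv_inn_ne (m : ℕ) {σ τ : Finset (Fin m)} (h : σ ≠ τ) (x : X.V) :
    evv X m σ (inn X m τ x) = 0 := by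
  show (if σ = τ then X.π τ.card else 0) x = _
  rw [if_neg h]
  rfl

theorem ext_evv (m : ℕ) {a b : (gam X).V m} (h : ∀ σ, evv X m σ a = evv X m σ b) : a = b := by
  apply Subtype.ext
  funext σ
  exact h σ

theorem π_evv (m : ℕ) (σ : Finset (Fin m)) (a : (gam X).V m) :
    X.π σ.card (evv X m σ a) = evv X m σ a :=
  (show sub X m from a).2 σ

theorem sum_inn_evv (m : ℕ) (a : (gam X).V m) : ∑ σ, inn X m σ (evv X m σ a) = a := by
  apply ext_evv
  intro τ
  rw [map_sum, Finset.sum_eq_single τ]
  · rw [evv_inn, π_evv]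
  · intro σ _ hne
    exact evv_inn_ne X m (Ne.symm hne) _
  · intro h
    exact absurd (Finset.mem_univ _) h

theorem inn_π (m : ℕ) (σ : Finset (Fin m)) (x : X.V) :
    inn X m σ (X.π σ.card x) = inn X m σ x := by
  apply ext_evv
  intro τ
  by_cases h : τ = σ
  · subst h
    rw [evv_inn, evv_inn, X.π_self]
  · rw [evv_inn_ne X m h, evv_inn_ne X m h]

theorem evv_ρ (m : ℕ) (σ : Finset (Fin m)) (g : G) (a : (gam X).V m) :
    evv X m σ ((gam X).ρ m g a) = X.ρ g (evv X m σ a) := rfl

theorem inn_ρ (m : ℕ) (σ : Finset (Fin m)) (g : G) (x : X.V) :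
    inn X m σ (X.ρ g x) = (gam X).ρ m g (inn X m σ x) := by
  apply ext_evv
  intro τ
  rw [evv_ρ]
  by_cases h : τ = σ
  · subst h
    rw [evv_inn, evv_inn, X.π_ρ]
  · rw [evv_inn_ne X m h, evv_inn_ne X m h, map_zero]

/-- the structure maps on `inn` -/
theorem op'_inn {m n : ℕ} (t : Fin (n + 1) → Fin (m + 1)) (ht : Monotone t)
    (σ : Finset (Fin m)) (x : X.V) :
    op' X t ht (inn X m σ x) = if ok t σ then
      (inn X n (shp t σ) ((X.d ^ cnt σ 0 (t 0)) (X.π σ.card x)) : sub X n) else (0 : sub X n) := by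
  apply ext_evv
  intro τ
  have h0 : evv X n τ (op' X t ht (inn X m σ x)) =
      ∑ σ' ∈ Finset.univ.filter (fun σ' : Finset (Fin m) => ok t σ' ∧ shp t σ' = τ),
        (X.d ^ cnt σ' 0 (t 0)) (evv X m σ' (inn X m σ x)) := op'_apply X t ht _ τ
  rw [h0]
  by_cases hok : ok t σ
  · rw [if_pos hok]
    by_cases hτ : shp t σ = τ
    · rw [Finset.sum_eq_single σ]
      · rw [evv_inn]
        subst hτ
        have h1 := evv_inn X n (shp t σ) ((X.d ^ cnt σ 0 (t 0)) (X.π σ.card x))
        rw [h1]
        symm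
        apply π_pow
        have h3 := card_eq_of_ok t ht σ hok
        have h4 : ((shp t σ).card : ℤ) + ((cnt σ 0 (t 0) : ℕ) : ℤ) = (σ.card : ℤ) := by
          rw [h3]; push_cast; ring
        rw [h4, X.π_self]
      · intro σ' _ hne
        rw [evv_inn_ne X m hne, map_zero]
      · intro h
        exact absurd (Finset.mem_filter.mpr ⟨Finset.mem_univ _, hok, hτ⟩) h
    · have h1 := evv_inn_ne X n (Ne.symm hτ) ((X.d ^ cnt σ 0 (t 0)) (X.π σ.card x))
      rw [h1]
      apply Finset.sum_eq_zero
      intro σ' hσ'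
      rw [Finset.mem_filter] at hσ'
      have hne : σ' ≠ σ := by
        rintro rfl
        exact hτ hσ'.2.2
      rw [evv_inn_ne X m hne, map_zero]
  · rw [if_neg hok]
    have h1 : evv X n τ (0 : sub X n) = 0 := rfl
    rw [h1]
    apply Finset.sum_eq_zero
    intro σ' hσ'
    rw [Finset.mem_filter] at hσ'
    have hne : σ' ≠ σ := by
      rintro rfl
      exact hok hσ'.2.1
    rw [evv_inn_ne X m hne, map_zero]

theorem dg_eq (m : ℕ) (i : Fin (m + 1)) (a : (gam X).V m) :
    (gam X).dg m i a = op' X (fun j => Fin.predAbove i j) (Fin.predAbove_right_monotone i) a := rfl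

theorem fa_eq (m : ℕ) (i : Fin (m + 2)) (a : (gam X).V (m + 1)) :
    (gam X).fa m i a = op' X (fun j => Fin.succAbove i j) (Fin.strictMono_succAbove i).monotone a :=
  rfl

lemma cnt_nat {m : ℕ} (σ : Finset (Fin m)) (j : Fin m) (a b : ℕ) (ha : a = j.1)
    (hb : b = j.1 + 1) : cnt σ a b = if j ∈ σ then 1 else 0 := by
  subst ha hb
  exact cnt_succ σ j

theorem dg_inn (m : ℕ) (i : Fin (m + 1)) (σ : Finset (Fin m)) (x : X.V) :
    (gam X).dg m i (inn X m σ x) = inn X (m + 1) (σ.map i.succAboveEmb) x := by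
  have hstep : ∀ j : Fin (m + 1), cnt σ (Fin.predAbove i j.castSucc) (Fin.predAbove i j.succ) =
      if j ∈ σ.map i.succAboveEmb then 1 else 0 := by
    intro j
    by_cases hj : j = i
    · subst hj
      rw [Fin.predAbove_castSucc_self, Fin.predAbove_succ_self, cnt_self, if_neg]
      rw [Finset.mem_map]
      rintro ⟨k, _, hk⟩
      exact Fin.succAbove_ne j k hk
    · obtain ⟨k, hk⟩ := Fin.exists_succAbove_eq hj
      have h1 : (Fin.predAbove i j.castSucc : Fin (m + 1)) = k.castSucc := by
        rw [← hk]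
        rcases Fin.lt_or_ge k.castSucc i with h | h
        · rw [Fin.succAbove_of_castSucc_lt _ _ h]
          rw [Fin.predAbove_of_le_castSucc]
          · apply Fin.ext; simp
          · rw [Fin.le_def]; rw [Fin.lt_def] at h; simpa using h.le
        · rw [Fin.succAbove_of_le_castSucc _ _ h]
          rw [Fin.predAbove_of_castSucc_lt]
          · apply Fin.ext; simp
          · rw [Fin.lt_def]; rw [Fin.le_def] at h
            simp at h ⊢; omega
      have h2 : (Fin.predAbove i j.succ : Fin (m + 1)) = k.succ := by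
        rw [← hk]
        rcases Fin.lt_or_ge k.castSucc i with h | h
        · rw [Fin.succAbove_of_castSucc_lt _ _ h]
          rw [Fin.predAbove_of_le_castSucc]
          · apply Fin.ext; simp
          · rw [Fin.le_def]; rw [Fin.lt_def] at h; simp at h ⊢; omega
        · rw [Fin.succAbove_of_le_castSucc _ _ h]
          rw [Fin.predAbove_of_castSucc_lt]
          · apply Fin.ext; simp
          · rw [Fin.lt_def]; rw [Fin.le_def] at h
            simp at h ⊢; omega
      rw [h1, h2, cnt_nat σ k _ _ (Fin.val_castSucc k) (Fin.val_succ k)]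
      congr 1
      rw [Finset.mem_map, eq_iff_iff]
      constructor
      · intro h
        exact ⟨k, h, hk⟩
      · rintro ⟨k', h, hk'⟩
        have : k' = k := Fin.succAbove_right_injective (hk'.trans hk.symm)
        exact this ▸ h
  have hlast : Fin.predAbove i (Fin.last (m + 1)) = Fin.last m := by
    apply Fin.ext
    rw [Fin.predAbove_of_castSucc_lt]
    · simp
    · rw [Fin.lt_def]; simp; omega
  have hzero : Fin.predAbove i (0 : Fin (m + 2)) = 0 := by
    rw [Fin.predAbove_of_le_castSucc _ _ (Fin.zero_le _)]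
    apply Fin.ext; simp
  have hok : ok (fun j => Fin.predAbove i j) σ := by
    refine ⟨fun j => ?_, ?_⟩
    · show cnt σ (Fin.predAbove i j.castSucc) (Fin.predAbove i j.succ) ≤ 1
      rw [hstep]
      split_ifs <;> omega
    · show cnt σ (Fin.predAbove i (Fin.last (m + 1))) m = 0
      rw [hlast, Fin.val_last, cnt_self]
  have hshp : shp (fun j => Fin.predAbove i j) σ = σ.map i.succAboveEmb := by
    ext j
    rw [mem_shp, hstep]
    split_ifs with h <;> simp [h]
  rw [dg_eq, op'_inn, if_pos hok, hshp, hzero]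
  rw [show ((0 : Fin (m + 1)) : ℕ) = 0 from rfl, cnt_self, pow_zero]
  have h3 : (σ.map i.succAboveEmb).card = σ.card := Finset.card_map _
  have h4 := inn_π X (m + 1) (σ.map i.succAboveEmb) x
  rw [h3] at h4
  exact h4

theorem shp_fa_zero (m : ℕ) (σ : Finset (Fin (m + 1))) :
    ok (fun j => Fin.succAbove (0 : Fin (m + 2)) j) σ ∧
      shp (fun j => Fin.succAbove (0 : Fin (m + 2)) j) σ =
        Finset.univ.filter fun j => j.succ ∈ σ := by
  have hstep : ∀ j : Fin m, cnt σ (Fin.succAbove (0 : Fin (m + 2)) j.castSucc)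
      (Fin.succAbove (0 : Fin (m + 2)) j.succ) = if j.succ ∈ σ then 1 else 0 := by
    intro j
    exact cnt_nat σ j.succ _ _ (by simp) (by simp)
  refine ⟨⟨fun j => ?_, ?_⟩, ?_⟩
  · show cnt σ (Fin.succAbove (0 : Fin (m + 2)) j.castSucc)
      (Fin.succAbove (0 : Fin (m + 2)) j.succ) ≤ 1
    rw [hstep]
    split_ifs <;> omega
  · show cnt σ (Fin.succAbove (0 : Fin (m + 2)) (Fin.last m)) (m + 1) = 0
    have : ((Fin.succAbove (0 : Fin (m + 2)) (Fin.last m) : Fin (m + 2)) : ℕ) = m + 1 := by simp
    rw [this, cnt_self]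
  · ext j
    rw [mem_shp, hstep, Finset.mem_filter]
    split_ifs with h <;> simp [h]

theorem fa_zero_inn_mem (m : ℕ) (σ : Finset (Fin (m + 1))) (h : 0 ∈ σ) (x : X.V) :
    (gam X).fa m 0 (inn X (m + 1) σ x) =
      inn X m (Finset.univ.filter fun j => j.succ ∈ σ) (X.d (X.π σ.card x)) := by
  obtain ⟨h1, h2⟩ := shp_fa_zero m σ
  have h3 : cnt σ 0 (Fin.succAbove (0 : Fin (m + 2)) (0 : Fin (m + 1))) = 1 := by
    rw [cnt_nat σ 0 _ _ (by simp) (by simp), if_pos h]
  rw [fa_eq, op'_inn, if_pos h1, h2, h3, pow_one]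

theorem fa_zero_inn_not_mem (m : ℕ) (σ : Finset (Fin (m + 1))) (h : 0 ∉ σ) (x : X.V) :
    (gam X).fa m 0 (inn X (m + 1) σ x) =
      inn X m (Finset.univ.filter fun j => j.succ ∈ σ) x := by
  obtain ⟨h1, h2⟩ := shp_fa_zero m σ
  have h3 : cnt σ 0 (Fin.succAbove (0 : Fin (m + 2)) (0 : Fin (m + 1))) = 0 := by
    rw [cnt_nat σ 0 _ _ (by simp) (by simp), if_neg h]
  have h4 := card_eq_of_ok _ (Fin.strictMono_succAbove (0 : Fin (m + 2))).monotone σ h1
  rw [h2] at h4
  have h4' : σ.card = (Finset.univ.filter fun j : Fin m => j.succ ∈ σ).card := by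
    rw [h4]
    have : cnt σ 0 (Fin.succAbove (0 : Fin (m + 2)) (0 : Fin (m + 1))) = 0 := h3
    rw [this, add_zero]
  rw [fa_eq, op'_inn, if_pos h1, h2, h3, pow_zero, h4']
  exact inn_π X m _ x

theorem fa_last_inn_mem (m : ℕ) (σ : Finset (Fin (m + 1))) (h : Fin.last m ∈ σ) (x : X.V) :
    (gam X).fa m (Fin.last (m + 1)) (inn X (m + 1) σ x) = 0 := by
  have hno : ¬ ok (fun j => Fin.succAbove (Fin.last (m + 1)) j) σ := by
    intro hok
    have h1 : cnt σ (Fin.succAbove (Fin.last (m + 1)) (Fin.last m)) (m + 1) = 0 := hok.2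
    rw [cnt_nat σ (Fin.last m) _ _ (by simp) (by simp), if_pos h] at h1
    omega
  rw [fa_eq, op'_inn, if_neg hno]
  rfl

theorem fa_last_inn_not_mem (m : ℕ) (σ : Finset (Fin (m + 1))) (h : Fin.last m ∉ σ) (x : X.V) :
    (gam X).fa m (Fin.last (m + 1)) (inn X (m + 1) σ x) =
      inn X m (Finset.univ.filter fun j => j.castSucc ∈ σ) x := by
  have hstep : ∀ j : Fin m, cnt σ (Fin.succAbove (Fin.last (m + 1)) j.castSucc)
      (Fin.succAbove (Fin.last (m + 1)) j.succ) = if j.castSucc ∈ σ then 1 else 0 := by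
    intro j
    exact cnt_nat σ j.castSucc _ _ (by simp) (by simp)
  have hok : ok (fun j => Fin.succAbove (Fin.last (m + 1)) j) σ := by
    refine ⟨fun j => ?_, ?_⟩
    · show cnt σ (Fin.succAbove (Fin.last (m + 1)) j.castSucc)
        (Fin.succAbove (Fin.last (m + 1)) j.succ) ≤ 1
      rw [hstep]
      split_ifs <;> omega
    · show cnt σ (Fin.succAbove (Fin.last (m + 1)) (Fin.last m)) (m + 1) = 0
      rw [cnt_nat σ (Fin.last m) _ _ (by simp) (by simp), if_neg h]
  have hshp : shp (fun j => Fin.succAbove (Fin.last (m + 1)) j) σ =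
      Finset.univ.filter fun j => j.castSucc ∈ σ := by
    ext j
    rw [mem_shp, hstep, Finset.mem_filter]
    split_ifs with h <;> simp [h]
  have h3 : cnt σ 0 (Fin.succAbove (Fin.last (m + 1)) (0 : Fin (m + 1))) = 0 := by
    have : ((Fin.succAbove (Fin.last (m + 1)) (0 : Fin (m + 1)) : Fin (m + 2)) : ℕ) = 0 := by simp
    rw [this, cnt_self]
  have h4 := card_eq_of_ok _ (Fin.strictMono_succAbove (Fin.last (m + 1))).monotone σ hok
  rw [hshp] at h4
  have h4' : σ.card = (Finset.univ.filter fun j : Fin m => j.castSucc ∈ σ).card := by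
    rw [h4]
    have : cnt σ 0 (Fin.succAbove (Fin.last (m + 1)) (0 : Fin (m + 1))) = 0 := h3
    rw [this, add_zero]
  rw [fa_eq, op'_inn, if_pos hok, hshp, h3, pow_zero, h4']
  exact inn_π X m _ x

theorem val_succAbove_mid (m : ℕ) (i : Fin m) (j : Fin (m + 1)) :
    ((Fin.succAbove i.succ.castSucc j : Fin (m + 2)) : ℕ) =
      if j.1 ≤ i.1 then j.1 else j.1 + 1 := by
  split_ifs with h
  · rw [Fin.succAbove_of_castSucc_lt]
    · simp
    · rw [Fin.lt_def]; simp; omega
  · rw [Fin.succAbove_of_le_castSucc]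
    · simp
    · rw [Fin.le_def]; simp; omega

theorem cnt_mid_lt (m : ℕ) (i : Fin m) (σ : Finset (Fin (m + 1))) (j : Fin m) (h : j.1 < i.1) :
    cnt σ (Fin.succAbove i.succ.castSucc j.castSucc : Fin (m + 2))
      (Fin.succAbove i.succ.castSucc j.succ : Fin (m + 2)) =
    if j.castSucc ∈ σ then 1 else 0 := by
  rw [val_succAbove_mid, val_succAbove_mid]
  rw [if_pos (by simp; omega), if_pos (by simp; omega)]
  exact cnt_nat σ j.castSucc _ _ (by simp) (by simp)

theorem cnt_mid_gt (m : ℕ) (i : Fin m) (σ : Finset (Fin (m + 1))) (j : Fin m) (h : i.1 < j.1) :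
    cnt σ (Fin.succAbove i.succ.castSucc j.castSucc : Fin (m + 2))
      (Fin.succAbove i.succ.castSucc j.succ : Fin (m + 2)) =
    if j.succ ∈ σ then 1 else 0 := by
  rw [val_succAbove_mid, val_succAbove_mid]
  rw [if_neg (by simp; omega), if_neg (by simp; omega)]
  exact cnt_nat σ j.succ _ _ (by simp) (by simp)

theorem cnt_mid_self (m : ℕ) (i : Fin m) (σ : Finset (Fin (m + 1))) :
    cnt σ (Fin.succAbove i.succ.castSucc i.castSucc : Fin (m + 2))
      (Fin.succAbove i.succ.castSucc i.succ : Fin (m + 2)) =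
    (if i.castSucc ∈ σ then 1 else 0) + (if i.succ ∈ σ then 1 else 0) := by
  rw [val_succAbove_mid, val_succAbove_mid]
  rw [if_pos (by simp), if_neg (by simp)]
  rw [cnt_add σ (b := i.1 + 1) (by simp) (by simp)]
  rw [cnt_nat σ i.castSucc _ _ (by simp) (by simp), cnt_nat σ i.succ _ _ (by simp) (by simp)]

/-- the inner face `i + 1` (for `i : Fin m`) merges the edges `i` and `i + 1` -/
theorem fa_mid_inn_mem (m : ℕ) (i : Fin m) (σ : Finset (Fin (m + 1)))
    (h : i.castSucc ∈ σ ∧ i.succ ∈ σ) (x : X.V) :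
    (gam X).fa m i.succ.castSucc (inn X (m + 1) σ x) = 0 := by
  have hno : ¬ ok (fun j => Fin.succAbove i.succ.castSucc j) σ := by
    intro hok
    have h1 : cnt σ (Fin.succAbove i.succ.castSucc i.castSucc : Fin (m + 2))
      (Fin.succAbove i.succ.castSucc i.succ : Fin (m + 2)) ≤ 1 := hok.1 i
    rw [cnt_mid_self, if_pos h.1, if_pos h.2] at h1
    omega
  rw [fa_eq, op'_inn, if_neg hno]
  rfl

theorem fa_mid_inn_not_mem (m : ℕ) (i : Fin m) (σ : Finset (Fin (m + 1)))
    (h : ¬ (i.castSucc ∈ σ ∧ i.succ ∈ σ)) (x : X.V) :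
    (gam X).fa m i.succ.castSucc (inn X (m + 1) σ x) =
      inn X m (σ.image (Fin.predAbove i)) x := by
  have hok : ok (fun j => Fin.succAbove i.succ.castSucc j) σ := by
    refine ⟨fun j => ?_, ?_⟩
    · show cnt σ (Fin.succAbove i.succ.castSucc j.castSucc : Fin (m + 2))
        (Fin.succAbove i.succ.castSucc j.succ : Fin (m + 2)) ≤ 1
      rcases lt_trichotomy j.1 i.1 with h1 | h1 | h1
      · rw [cnt_mid_lt m i σ j h1]
        split_ifs <;> omega
      · have : j = i := Fin.ext h1
        subst this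
        rw [cnt_mid_self]
        split_ifs with h2 h3
        · exact absurd ⟨h2, h3⟩ h
        all_goals omega
      · rw [cnt_mid_gt m i σ j h1]
        split_ifs <;> omega
    · show cnt σ (Fin.succAbove i.succ.castSucc (Fin.last m) : Fin (m + 2)) (m + 1) = 0
      rw [val_succAbove_mid, if_neg (by simp), Fin.val_last, cnt_self]
  have hshp : shp (fun j => Fin.succAbove i.succ.castSucc j) σ = σ.image (Fin.predAbove i) := by
    ext j
    rw [mem_shp, Finset.mem_image]
    have hpre : ∀ k : Fin (m + 1), Fin.predAbove i k = j ↔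
        (k.1 ≤ i.1 ∧ k.1 = j.1) ∨ (i.1 < k.1 ∧ k.1 = j.1 + 1) := by
      intro k
      rcases Nat.lt_or_ge i.1 k.1 with h1 | h1
      · rw [Fin.predAbove_of_castSucc_lt i k (by rw [Fin.lt_def]; simpa using h1), Fin.ext_iff]
        simp only [Fin.val_pred]
        omega
      · rw [Fin.predAbove_of_le_castSucc i k (by rw [Fin.le_def]; simpa using h1), Fin.ext_iff]
        simp only [Fin.coe_castPred]
        omega
    simp only [hpre]
    rcases lt_trichotomy j.1 i.1 with h1 | h1 | h1
    · rw [cnt_mid_lt m i σ j h1]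
      constructor
      · intro h2
        have h3 : j.castSucc ∈ σ := by
          by_contra h3
          rw [if_neg h3] at h2
          omega
        exact ⟨j.castSucc, h3, Or.inl ⟨by simp; omega, by simp⟩⟩
      · rintro ⟨k, hk, hk1 | hk1⟩
        · have : k = j.castSucc := Fin.ext (by simp; omega)
          rw [this] at hk
          rw [if_pos hk]
        · omega
    · have hji : j = i := Fin.ext h1
      subst hji
      rw [cnt_mid_self]
      constructor
      · intro h2
        by_cases h3 : j.castSucc ∈ σ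
        · exact ⟨j.castSucc, h3, Or.inl ⟨by simp, by simp⟩⟩
        · have h4 : j.succ ∈ σ := by
            by_contra h4
            rw [if_neg h3, if_neg h4] at h2
            omega
          exact ⟨j.succ, h4, Or.inr ⟨by simp, by simp⟩⟩
      · rintro ⟨k, hk, hk1 | hk1⟩
        · have : k = j.castSucc := Fin.ext (by simp; omega)
          rw [this] at hk
          have h4 : j.succ ∉ σ := fun h4 => h ⟨hk, h4⟩
          rw [if_pos hk, if_neg h4]
        · have : k = j.succ := Fin.ext (by simp; omega)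
          rw [this] at hk
          have h4 : j.castSucc ∉ σ := fun h4 => h ⟨h4, hk⟩
          rw [if_pos hk, if_neg h4]
    · rw [cnt_mid_gt m i σ j h1]
      constructor
      · intro h2
        have h3 : j.succ ∈ σ := by
          by_contra h3
          rw [if_neg h3] at h2
          omega
        exact ⟨j.succ, h3, Or.inr ⟨by simp; omega, by simp⟩⟩
      · rintro ⟨k, hk, hk1 | hk1⟩
        · omega
        · have : k = j.succ := Fin.ext (by simp; omega)
          rw [this] at hk
          rw [if_pos hk]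
  have h3 : cnt σ 0 (Fin.succAbove i.succ.castSucc (0 : Fin (m + 1)) : Fin (m + 2)) = 0 := by
    rw [val_succAbove_mid, if_pos (by simp), Fin.val_zero, cnt_self]
  have h4 := card_eq_of_ok _ (Fin.strictMono_succAbove i.succ.castSucc).monotone σ hok
  rw [hshp] at h4
  have h4' : σ.card = (σ.image (Fin.predAbove i)).card := by
    have h5 : cnt σ 0 (Fin.succAbove i.succ.castSucc (0 : Fin (m + 1)) : Fin (m + 2)) = 0 := h3
    omega
  have h6 := inn_π X m (σ.image (Fin.predAbove i)) x
  rw [← h4'] at h6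
  rw [fa_eq, op'_inn, if_pos hok, hshp, h3, pow_zero]
  exact h6

/-- a subset which is not everything comes from a degeneracy -/
theorem inn_mem_Deg (m : ℕ) (σ : Finset (Fin m)) (h : σ ≠ Finset.univ) (x : X.V) :
    inn X m σ x ∈ (gam X).Deg m := by
  obtain ⟨i, hi⟩ : ∃ i, i ∉ σ := by
    by_contra hcon
    push Not at hcon
    exact h (Finset.eq_univ_iff_forall.mpr hcon)
  match m, σ, h, i, hi with
  | n + 1, σ, h, i, hi =>
    have h1 : (Finset.univ.filter fun k : Fin n => i.succAbove k ∈ σ).map i.succAboveEmb = σ := by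
      ext j
      rw [Finset.mem_map]
      constructor
      · rintro ⟨k, hk, rfl⟩
        exact (Finset.mem_filter.mp hk).2
      · intro hj
        have hne : j ≠ i := by
          rintro rfl
          exact hi hj
        obtain ⟨k, hk⟩ := Fin.exists_succAbove_eq hne
        exact ⟨k, Finset.mem_filter.mpr ⟨Finset.mem_univ _, by rw [hk]; exact hj⟩, hk⟩
    have h2 := dg_inn X n i (Finset.univ.filter fun k : Fin n => i.succAbove k ∈ σ) x
    rw [h1] at h2
    rw [← h2]
    have h3 : LinearMap.range ((gam X).dg n i) ≤ (gam X).Deg (n + 1) :=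
      le_iSup (fun i : Fin (n + 1) => LinearMap.range ((gam X).dg n i)) i
    exact h3 ⟨_, rfl⟩

end Gam

end PicInd
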