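import Mathlib
import Pool.Agent.Lib_MP_8744b5_al.GamLem

/-! Piece GAM3: `X` is the normalised complex of `gam X`; levelwise permutation modules. -/

set_option linter.unusedVariables false

open CategoryTheory TensorProduct Opposite Simplicial

namespace PicInd

universe u

variable {R : Type u} [CommRing R] {G : Type} [Group G]

/-- degenerate elements have zero top coordinate -/
theorem gamNQ_evv_Deg (X : Cx R G) (m : ℕ) (a : (gam X).V m) (ha : a ∈ (gam X).Deg m) :
    Gam.evv X m Finset.univ a = 0 := by
  cases m with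
  | zero =>
    have h : a = 0 := ha
    rw [h, map_zero]
  | succ n =>
    have h : a ∈ (⨆ i : Fin (n + 1), LinearMap.range ((gam X).dg n i)) := ha
    have hle : (⨆ i : Fin (n + 1), LinearMap.range ((gam X).dg n i)) ≤
        LinearMap.ker (Gam.evv X (n + 1) Finset.univ) := by
      apply iSup_le
      rintro i _ ⟨y, rfl⟩
      rw [LinearMap.mem_ker, ← Gam.sum_inn_evv X n y, map_sum, map_sum]
      apply Finset.sum_eq_zero
      intro σ _
      rw [Gam.dg_inn]
      apply Gam.evv_inn_ne
      intro hcon
      have h1 : i ∈ σ.map i.succAboveEmb := by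
        rw [← hcon]
        exact Finset.mem_univ _
      rw [Finset.mem_map] at h1
      obtain ⟨j, _, hj⟩ := h1
      exact Fin.succAbove_ne i j hj
    exact LinearMap.mem_ker.1 (hle h)

theorem gamNQ_Deg_bd (A : SR R G) (m : ℕ) (a : A.V (m + 1)) (ha : a ∈ A.Deg (m + 1)) :
    A.bd m a ∈ A.Deg m := by
  rw [← SR.PI_eq_zero_iff] at ha ⊢
  rw [SR.PI_bd, ha, map_zero]

theorem gamNQ_bd_top (X : Cx R G) (m : ℕ) (x : X.V) :
    Gam.evv X m Finset.univ ((gam X).bd m (Gam.inn X (m + 1) Finset.univ x)) =
      X.d (Gam.evv X (m + 1) Finset.univ (Gam.inn X (m + 1) Finset.univ x)) := by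
  have h1 : (gam X).bd m (Gam.inn X (m + 1) Finset.univ x) =
      (gam X).fa m 0 (Gam.inn X (m + 1) Finset.univ x) := by
    unfold SR.bd
    rw [LinearMap.sum_apply, Fin.sum_univ_succ, Fin.sum_univ_castSucc]
    have h2 : ∀ i : Fin m, (((-1 : ℤ) ^ ((i.castSucc.succ : Fin (m + 2)) : ℕ)) •
        (gam X).fa m i.castSucc.succ) (Gam.inn X (m + 1) Finset.univ x) = 0 := by
      intro i
      rw [LinearMap.smul_apply, Fin.succ_castSucc,
        Gam.fa_mid_inn_mem X m i Finset.univ ⟨Finset.mem_univ _, Finset.mem_univ _⟩, smul_zero]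
    rw [Finset.sum_eq_zero (fun i _ => h2 i)]
    rw [LinearMap.smul_apply, LinearMap.smul_apply, Fin.succ_last,
      Gam.fa_last_inn_mem X m Finset.univ (Finset.mem_univ _)]
    simp
  rw [h1, Gam.fa_zero_inn_mem X m Finset.univ (Finset.mem_univ _)]
  have h3 : (Finset.univ.filter fun j : Fin m => j.succ ∈ (Finset.univ : Finset (Fin (m + 1)))) =
      Finset.univ := by
    ext j
    simp
  rw [h3, Gam.evv_inn, Gam.evv_inn, X.π_d]
  have h4 : (((Finset.univ : Finset (Fin m)).card : ℕ) : ℤ) + 1 =
      (((Finset.univ : Finset (Fin (m + 1))).card : ℕ) : ℤ) := by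
    simp
  rw [h4, X.π_self]

/-- `X` is the normalised complex of `Γ(X)`: `φ m a = evv X m univ a` (kernel: `sum_inn_evv` and
`inn_mem_Deg`; `comm`: check it on `inn X (m+1) univ x`, where only the face `0` is nonzero, and on
degenerate elements, where `bd` of a degenerate element is degenerate by `PI_bd`, `PI_eq_zero_iff`) -/
theorem gam_NQ (X : Cx R G) (hX : ∀ i : ℤ, i < 0 → ∀ x, X.π i x = 0) :
    ∃ n : NQ (gam X) X, ∀ m a, n.φ m a = Gam.evv X m Finset.univ a := by
  have hcard : ∀ m : ℕ, (((Finset.univ : Finset (Fin m)).card : ℕ) : ℤ) = (m : ℤ) := by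
    intro m
    simp
  refine ⟨{
    φ := fun m => Gam.evv X m Finset.univ
    φ_ρ := fun m g a => Gam.evv_ρ X m Finset.univ g a
    φ_π := ?_
    surj := ?_
    ker := ?_
    comm := ?_
    nonneg := hX }, fun m a => rfl⟩
  · intro m a
    have h := Gam.π_evv X m Finset.univ a
    rw [hcard] at h
    exact h
  · intro m x hx
    refine ⟨Gam.inn X m Finset.univ x, ?_⟩
    rw [Gam.evv_inn, hcard]
    exact hx
  · intro m a
    constructor
    · intro h
      rw [← Gam.sum_inn_evv X m a]
      apply Submodule.sum_mem
      intro σ _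
      by_cases hσ : σ = Finset.univ
      · subst hσ
        rw [h, map_zero]
        exact Submodule.zero_mem _
      · exact Gam.inn_mem_Deg X m σ hσ _
    · exact gamNQ_evv_Deg X m a
  · intro m a
    have hgen : ∀ σ : Finset (Fin (m + 1)), ∀ x : X.V,
        Gam.evv X m Finset.univ ((gam X).bd m (Gam.inn X (m + 1) σ x)) =
          X.d (Gam.evv X (m + 1) Finset.univ (Gam.inn X (m + 1) σ x)) := by
      intro σ x
      by_cases hσ : σ = Finset.univ
      · subst hσ
        exact gamNQ_bd_top X m x
      · rw [Gam.evv_inn_ne X (m + 1) (Ne.symm hσ), map_zero]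
        exact gamNQ_evv_Deg X m _ (gamNQ_Deg_bd (gam X) m _ (Gam.inn_mem_Deg X (m + 1) σ hσ x))
    conv_lhs => rw [← Gam.sum_inn_evv X (m + 1) a]
    conv_rhs => rw [← Gam.sum_inn_evv X (m + 1) a]
    rw [map_sum, map_sum, map_sum, map_sum]
    exact Finset.sum_congr rfl (fun σ _ => hgen σ _)

/-- if `X` is a permutation complex with basis `b` then `gam X` is levelwise a permutation
representation with basis the `inn X m σ (b i)`, `deg i = |σ|` -/
theorem gam_perm (X : Cx R G) (hX : Cx.IsPerm X) (m : ℕ) :
    ∃ (ι : Type) (_ : Finite ι) (_ : MulAction G ι) (b : Module.Basis ι R ((gam X).V m)),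
      ∀ g i, (gam X).ρ m g (b i) = b (g • i) := by
  obtain ⟨ι, hfin, hact, b, deg, hb, hdeg⟩ := hX
  rcases subsingleton_or_nontrivial R with hR | hR
  · have hsub : Subsingleton ((gam X).V m) := Module.subsingleton R _
    let act0 : MulAction G Empty :=
      { smul := fun _ e => e
        one_smul := fun e => rfl
        mul_smul := fun _ _ _ => rfl }
    exact ⟨Empty, inferInstance, act0, Module.Basis.empty _, fun g i => i.elim⟩
  · have hπb : ∀ (n : ℤ) (i : ι), X.π n (b i) = if n = deg i then b i else 0 := by
      intro n i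
      split_ifs with h
      · rw [h, hdeg]
      · rw [← hdeg i]
        exact X.π_ne _ _ h _
    have hdegg : ∀ (g : G) (i : ι), deg (g • i) = deg i := by
      intro g i
      by_contra hne
      have h1 : X.π (deg i) (b (g • i)) = b (g • i) := by
        rw [← hb, X.π_ρ, hdeg]
      rw [hπb, if_neg (Ne.symm hne)] at h1
      exact b.ne_zero _ h1.symm
    let J := {p : Finset (Fin m) × ι // deg p.2 = (p.1.card : ℤ)}
    let act : MulAction G J :=
      { smul := fun g p => ⟨(p.1.1, g • p.1.2), by
          have := p.2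
          rw [hdegg]
          exact this⟩
        one_smul := by
          rintro ⟨⟨σ, i⟩, hp⟩
          apply Subtype.ext
          exact Prod.ext rfl (one_smul G i)
        mul_smul := by
          rintro g g' ⟨⟨σ, i⟩, hp⟩
          apply Subtype.ext
          exact Prod.ext rfl (mul_smul g g' i) }
    let v : J → (gam X).V m := fun p => Gam.inn X m p.1.1 (b p.1.2)
    have : Finite J := Subtype.finite
    let _ : Fintype J := Fintype.ofFinite J
    classical
    have hdual : ∀ p q : J, b.coord p.1.2 (Gam.evv X m p.1.1 (v q)) = if q = p then 1 else 0 := by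
      rintro ⟨⟨σ, i⟩, hp⟩ ⟨⟨τ, j⟩, hq⟩
      change b.coord i (Gam.evv X m σ (Gam.inn X m τ (b j))) = _
      by_cases hστ : σ = τ
      · subst hστ
        have hq' : deg j = (σ.card : ℤ) := hq
        rw [Gam.evv_inn, hπb, if_pos hq'.symm, Module.Basis.coord_apply,
          Module.Basis.repr_self, Finsupp.single_apply]
        by_cases hij : j = i
        · subst hij
          rw [if_pos rfl, if_pos rfl]
        · rw [if_neg hij, if_neg]
          intro h
          exact hij (congrArg (fun z : J => z.1.2) h)
      · rw [Gam.evv_inn_ne X m hστ, map_zero, if_neg]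
        intro h
        exact hστ (congrArg (fun z : J => z.1.1) h).symm
    have hli : LinearIndependent R v := by
      rw [Fintype.linearIndependent_iff]
      intro c hc p
      have h1 := congrArg (fun z => b.coord p.1.2 (Gam.evv X m p.1.1 z)) hc
      simp only [map_sum, map_smul, map_zero, hdual, smul_eq_mul] at h1
      rw [Finset.sum_eq_single p] at h1
      · simpa using h1
      · intro q _ hq
        rw [if_neg hq, mul_zero]
      · intro h
        exact absurd (Finset.mem_univ _) h
    have hsp : ⊤ ≤ Submodule.span R (Set.range v) := by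
      intro a _
      rw [← Gam.sum_inn_evv X m a]
      apply Submodule.sum_mem
      intro σ _
      have h1 : Gam.inn X m σ (Gam.evv X m σ a) ∈
          Submodule.map (Gam.inn X m σ) (Submodule.span R (Set.range b)) := by
        refine ⟨_, ?_, rfl⟩
        rw [b.span_eq]
        exact Submodule.mem_top
      rw [Submodule.map_span] at h1
      refine (Submodule.span_le.2 ?_) h1
      rintro _ ⟨_, ⟨i, rfl⟩, rfl⟩
      by_cases hi : deg i = (σ.card : ℤ)
      · exact Submodule.subset_span ⟨⟨(σ, i), hi⟩, rfl⟩
      · have h2 : Gam.inn X m σ (b i) = 0 := by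
          rw [← Gam.inn_π, hπb, if_neg (fun h => hi h.symm), map_zero]
        rw [SetLike.mem_coe, h2]
        exact Submodule.zero_mem _
    refine ⟨J, inferInstance, act, Module.Basis.mk hli hsp, ?_⟩
    intro g p
    rw [Module.Basis.mk_apply, Module.Basis.mk_apply]
    change (gam X).ρ m g (Gam.inn X m p.1.1 (b p.1.2)) = Gam.inn X m p.1.1 (b (g • p.1.2))
    rw [← Gam.inn_ρ, hb]

end PicInd
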