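import Mathlib
import Pool.Agent.Lib_MP_8744b5_al.SimpBase

/-! Piece SL: `N₁` is fully faithful, in terms of linear maps. -/

set_option linter.unusedVariables false

open CategoryTheory TensorProduct Opposite Simplicial

namespace PicInd

universe u

variable {R : Type u} [CommRing R] {G : Type} [Group G]

open AlgebraicTopology AlgebraicTopology.DoldKan in
theorem sl_full : (N₁ (C := Rep.{u} R G)).Full := by
  have : (N₂ (C := Rep.{u} R G)).IsEquivalence :=
    (CategoryTheory.Preadditive.DoldKan.equivalence (C := Rep.{u} R G)).isEquivalence_functor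
  exact Functor.Full.of_iso (toKaroubiCompN₂IsoN₁ (C := Rep.{u} R G))

open AlgebraicTopology AlgebraicTopology.DoldKan in
theorem sl_faithful : (N₁ (C := Rep.{u} R G)).Faithful := by
  have : (N₂ (C := Rep.{u} R G)).IsEquivalence :=
    (CategoryTheory.Preadditive.DoldKan.equivalence (C := Rep.{u} R G)).isEquivalence_functor
  exact Functor.Faithful.of_iso (toKaroubiCompN₂IsoN₁ (C := Rep.{u} R G))

namespace SR

variable {A B C : SR R G}

open AlgebraicTopology AlgebraicTopology.DoldKan in
/-- fullness of `N₁` (`N₂` is an equivalence, `toKaroubi ⋙ N₂ ≅ N₁`) -/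
theorem exists_lift (g : ∀ m, A.V m →ₗ[R] B.V m) (hρ : ∀ m x a, g m (A.ρ m x a) = B.ρ m x (g m a))
    (hbd : ∀ m a, g m (A.bd m a) = B.bd m (g (m + 1) a))
    (hP : ∀ m a, B.PI m (g m (A.PI m a)) = g m a) :
    ∃ F : A ⟶ B, ∀ m a, B.PI m (ev F m a) = g m a := by
  -- the components
  let f : ∀ m : ℕ, A _⦋m⦌ ⟶ B _⦋m⦌ := fun m =>
    Rep.ofHom ⟨g m, fun x => LinearMap.ext fun a => hρ m x a⟩
  have hf : ∀ m a, sbLin (f m) a = g m a := fun m a => rfl
  let φ : AlternatingFaceMapComplex.obj A ⟶ AlternatingFaceMapComplex.obj B :=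
    { f := f
      comm' := by
        rintro i j (rfl : j + 1 = i)
        apply sbLin_inj
        intro x
        have e1 : (AlternatingFaceMapComplex.obj A).d (j + 1) j =
          AlternatingFaceMapComplex.objD A j := AlternatingFaceMapComplex.obj_d_eq A j
        have e2 : (AlternatingFaceMapComplex.obj B).d (j + 1) j =
          AlternatingFaceMapComplex.objD B j := AlternatingFaceMapComplex.obj_d_eq B j
        have h := hbd j x
        rw [bd_eq, bd_eq, ← e1, ← e2] at h
        exact h.symm }
  have := sl_full (R := R) (G := G)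
  let ψ : N₁.obj A ⟶ N₁.obj B :=
    { f := φ
      comm := by
        ext1 m
        apply sbLin_inj
        intro x
        exact hP m x }
  obtain ⟨F, hF⟩ := (N₁ (C := Rep.{u} R G)).map_surjective ψ
  refine ⟨F, fun m a => ?_⟩
  have h1 : (PInfty ≫ AlternatingFaceMapComplex.map F : AlternatingFaceMapComplex.obj A ⟶
      AlternatingFaceMapComplex.obj B) = φ := congrArg (fun t => t.f) hF
  have h2 : ev F m (A.PI m a) = g m a := by
    exact congrArg (fun t => sbLin (HomologicalComplex.Hom.f t m) a) h1
  rw [← ev_PI, h2]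

open AlgebraicTopology AlgebraicTopology.DoldKan in
/-- faithfulness of `N₁` -/
theorem eq_of_PI {F F' : A ⟶ B} (h : ∀ m a, B.PI m (ev F m a) = B.PI m (ev F' m a)) : F = F' := by
  have := sl_faithful (R := R) (G := G)
  apply (N₁ (C := Rep.{u} R G)).map_injective
  apply CategoryTheory.Idempotents.Karoubi.hom_ext
  ext1 m
  apply sbLin_inj
  intro x
  have h2 := h m x
  rw [← ev_PI, ← ev_PI] at h2
  exact h2

end SR

end PicInd
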