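import Mathlib
import Pool.Agent.Lib_MP_8744b5_al.SimpLift

/-! Piece NQA: sections, uniqueness, lifting and descending morphisms for `NQ`. -/

set_option linter.unusedVariables false

open CategoryTheory TensorProduct Opposite Simplicial

namespace PicInd

universe u

variable {R : Type u} [CommRing R] {G : Type} [Group G]

open SR

theorem NQ.PI_eq {A : SR R G} {X : Cx R G} (n : NQ A X) {m : ℕ} {a a' : A.V m}
    (h : n.φ m a = n.φ m a') : A.PI m a = A.PI m a' := by
  have h1 : n.φ m (a - a') = 0 := by rw [map_sub, h, sub_self]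
  have h2 := (PI_eq_zero_iff A m _).mpr ((n.ker m _).mp h1)
  rw [map_sub] at h2
  exact sub_eq_zero.mp h2

theorem NQ.φ_PI {A : SR R G} {X : Cx R G} (n : NQ A X) (m : ℕ) (a : A.V m) :
    n.φ m (A.PI m a) = n.φ m a := by
  have h1 : A.PI m (A.PI m a - a) = 0 := by rw [map_sub, PI_idem, sub_self]
  have h2 := (n.ker m _).mpr ((PI_eq_zero_iff A m _).mp h1)
  rw [map_sub] at h2
  exact sub_eq_zero.mp h2

theorem NQ.d_φ_zero {A : SR R G} {X : Cx R G} (n : NQ A X) (a : A.V 0) :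
    X.d (n.φ 0 a) = 0 := by
  have h1 := n.nonneg (-1) (by norm_num) (X.d (n.φ 0 a))
  rw [X.π_d] at h1
  have h2 := n.φ_π 0 a
  simp only [Nat.cast_zero] at h2
  rw [show (-1 : ℤ) + 1 = 0 by norm_num, h2] at h1
  exact h1

/-- the section of `φ` with image the range of `PI` -/
theorem NQ.exists_sec {A : SR R G} {X : Cx R G} (n : NQ A X) :
    ∃ ψ : ∀ m, X.V →ₗ[R] A.V m, (∀ m g x, ψ m (X.ρ g x) = A.ρ m g (ψ m x)) ∧
      (∀ m a, ψ m (n.φ m a) = A.PI m a) ∧ (∀ (m : ℕ) x, n.φ m (ψ m x) = X.π (m : ℤ) x) ∧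
      (∀ m x, A.PI m (ψ m x) = ψ m x) ∧ (∀ m x, A.bd m (ψ (m + 1) x) = ψ m (X.d x)) := by
  have hex : ∀ (m : ℕ) (x : X.V), ∃ a, n.φ m a = X.π (m : ℤ) x := fun m x =>
    n.surj m _ (X.π_self _ _)
  choose s hs using hex
  let ψ : ∀ m, X.V →ₗ[R] A.V m := fun m =>
    { toFun := fun x => A.PI m (s m x)
      map_add' := fun x y => by
        rw [← map_add]
        apply n.PI_eq
        rw [hs, map_add, map_add, hs, hs]
      map_smul' := fun r x => by
        rw [RingHom.id_apply, ← map_smul]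
        apply n.PI_eq
        rw [hs, map_smul, map_smul, hs] }
  have hψ : ∀ m x, ψ m x = A.PI m (s m x) := fun _ _ => rfl
  refine ⟨ψ, ?_, ?_, ?_, ?_, ?_⟩
  · intro m g x
    rw [hψ, hψ, ← PI_ρ]
    apply n.PI_eq
    rw [hs, n.φ_ρ, hs, X.π_ρ]
  · intro m a
    rw [hψ]
    apply n.PI_eq
    rw [hs, n.φ_π]
  · intro m x
    rw [hψ, n.φ_PI, hs]
  · intro m x
    rw [hψ, PI_idem]
  · intro m x
    rw [hψ, hψ, ← PI_bd]
    apply n.PI_eq
    rw [hs, n.comm, hs, X.π_d]
    simp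

/-- two linear maps out of the normalised complex agree if they agree on the images of `φ` -/
theorem NQ.ext {A : SR R G} {X : Cx R G} (n : NQ A X) {Z : Type*} [AddCommGroup Z] [Module R Z]
    {f g : X.V →ₗ[R] Z} (h : ∀ m a, f (n.φ m a) = g (n.φ m a)) : f = g := by
  ext x
  rw [← X.π_sum x, map_sum, map_sum]
  apply Finset.sum_congr rfl
  intro i _
  by_cases hi : i < 0
  · rw [n.nonneg i hi, map_zero, map_zero]
  · obtain ⟨m, rfl⟩ : ∃ m : ℕ, i = (m : ℤ) := ⟨i.toNat, by omega⟩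
    obtain ⟨a, ha⟩ := n.surj m (X.π (m : ℤ) x) (X.π_self _ _)
    rw [← ha, h]

/-- the universal property of the normalised complex -/
theorem NQ.desc {A : SR R G} {X Y : Cx R G} (n : NQ A X) (β : ∀ m, A.V m →ₗ[R] Y.V)
    (hρ : ∀ m g a, β m (A.ρ m g a) = Y.ρ g (β m a))
    (hπ : ∀ (m : ℕ) a, Y.π (m : ℤ) (β m a) = β m a)
    (hD : ∀ m a, a ∈ A.Deg m → β m a = 0) (h0 : ∀ a, Y.d (β 0 a) = 0)
    (hbd : ∀ m a, β m (A.bd m a) = Y.d (β (m + 1) a)) :
    ∃ f : Cx.Hom X Y, ∀ m a, f.f (n.φ m a) = β m a := by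
  obtain ⟨ψ, hψρ, hψφ, hφψ, hPψ, hbψ⟩ := n.exists_sec
  let f : X.V →ₗ[R] Y.V := ∑ i ∈ X.s, β i.toNat ∘ₗ ψ i.toNat ∘ₗ X.π i
  have hf : ∀ m a, f (n.φ m a) = β m a := by
    intro m a
    have h1 : β m (A.PI m a) = β m a := by
      have h2 : A.PI m (A.PI m a - a) = 0 := by rw [map_sub, PI_idem, sub_self]
      have h3 := hD m _ ((PI_eq_zero_iff A m _).mp h2)
      rw [map_sub] at h3
      exact sub_eq_zero.mp h3
    have h4 : ∀ i, X.π i (n.φ m a) = if i = (m : ℤ) then n.φ m a else 0 := by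
      intro i
      conv_lhs => rw [← n.φ_π m a]
      rw [X.π_π]
      split_ifs with hi
      · subst hi; exact n.φ_π m a
      · rfl
    rw [LinearMap.sum_apply]
    simp only [LinearMap.comp_apply, h4]
    by_cases hm : (m : ℤ) ∈ X.s
    · rw [Finset.sum_eq_single (m : ℤ)]
      · rw [if_pos rfl]
        simp only [Int.toNat_natCast]
        rw [hψφ, h1]
      · intro b _ hb
        rw [if_neg hb, map_zero, map_zero]
      · exact fun h => absurd hm h
    · have h5 : n.φ m a = 0 := by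
        rw [← n.φ_π m a]
        exact X.π_zero _ hm _
      rw [hD m a ((n.ker m a).mp h5)]
      apply Finset.sum_eq_zero
      intro i _
      rw [h5]
      simp
  refine ⟨⟨f, ?_, ?_, ?_⟩, hf⟩
  · intro g x
    have : f ∘ₗ X.ρ g = Y.ρ g ∘ₗ f := by
      apply n.ext
      intro m a
      simp only [LinearMap.comp_apply]
      rw [← n.φ_ρ, hf, hf, hρ]
    exact LinearMap.congr_fun this x
  · intro i x
    have : f ∘ₗ X.π i = Y.π i ∘ₗ f := by
      apply n.ext
      intro m a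
      simp only [LinearMap.comp_apply]
      have h1 : X.π i (n.φ m a) = if i = (m : ℤ) then n.φ m a else 0 := by
        conv_lhs => rw [← n.φ_π m a]
        rw [X.π_π]
        split_ifs with hi
        · subst hi; exact n.φ_π m a
        · rfl
      have h2 : Y.π i (β m a) = if i = (m : ℤ) then β m a else 0 := by
        conv_lhs => rw [← hπ m a]
        rw [Y.π_π]
        split_ifs with hi
        · subst hi; exact hπ m a
        · rfl
      rw [h1, hf, h2]
      split_ifs with hi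
      · rw [hf]
      · rw [map_zero]
    exact LinearMap.congr_fun this x
  · intro x
    have : f ∘ₗ X.d = Y.d ∘ₗ f := by
      apply n.ext
      intro m a
      simp only [LinearMap.comp_apply]
      rw [hf]
      cases m with
      | zero => rw [n.d_φ_zero, h0, map_zero]
      | succ m => rw [← n.comm, hf, hbd]
    exact LinearMap.congr_fun this x

theorem NQ.iso {A : SR R G} {X Y : Cx R G} (n : NQ A X) (n' : NQ A Y) : Cx.Iso X Y := by
  obtain ⟨f, hf⟩ := n.desc n'.φ n'.φ_ρ n'.φ_π (fun m a ha => (n'.ker m a).mpr ha) n'.d_φ_zero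
    n'.comm
  obtain ⟨g, hg⟩ := n'.desc n.φ n.φ_ρ n.φ_π (fun m a ha => (n.ker m a).mpr ha) n.d_φ_zero
    n.comm
  refine ⟨f, g, ?_, ?_⟩
  · intro x
    have : g.f ∘ₗ f.f = LinearMap.id := by
      apply n.ext
      intro m a
      simp only [LinearMap.comp_apply, LinearMap.id_apply]
      rw [hf, hg]
    exact LinearMap.congr_fun this x
  · intro x
    have : f.f ∘ₗ g.f = LinearMap.id := by
      apply n'.ext
      intro m a
      simp only [LinearMap.comp_apply, LinearMap.id_apply]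
      rw [hg, hf]
    exact LinearMap.congr_fun this x

theorem ev_mem_Deg {A B : SR R G} (F : A ⟶ B) {m : ℕ} {a : A.V m} (ha : a ∈ A.Deg m) :
    ev F m a ∈ B.Deg m := by
  rw [← PI_eq_zero_iff, ← ev_PI, (PI_eq_zero_iff A m a).mpr ha, map_zero]

theorem NQ.of_iso {A B : SR R G} {X : Cx R G} (n : NQ A X) (e : A ≅ B) : Nonempty (NQ B X) := by
  have h1 : ∀ m a, ev e.inv m (ev e.hom m a) = a := by
    intro m a
    rw [← ev_comp, e.hom_inv_id, ev_id]
  have h2 : ∀ m a, ev e.hom m (ev e.inv m a) = a := by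
    intro m a
    rw [← ev_comp, e.inv_hom_id, ev_id]
  refine ⟨⟨fun m => n.φ m ∘ₗ ev e.inv m, ?_, ?_, ?_, ?_, ?_, n.nonneg⟩⟩
  · intro m g a
    simp only [LinearMap.comp_apply]
    rw [ev_ρ, n.φ_ρ]
  · intro m a
    simp only [LinearMap.comp_apply]
    rw [n.φ_π]
  · intro m x hx
    obtain ⟨a, ha⟩ := n.surj m x hx
    refine ⟨ev e.hom m a, ?_⟩
    simp only [LinearMap.comp_apply]
    rw [h1, ha]
  · intro m a
    simp only [LinearMap.comp_apply]
    rw [n.ker]
    constructor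
    · intro h
      rw [← h2 m a]
      exact ev_mem_Deg e.hom h
    · exact fun h => ev_mem_Deg e.inv h
  · intro m a
    simp only [LinearMap.comp_apply]
    rw [ev_bd, n.comm]

theorem NQ.of_cxIso {A : SR R G} {X Y : Cx R G} (n : NQ A X) (e : Cx.Iso X Y) :
    Nonempty (NQ A Y) := by
  obtain ⟨f, g, hgf, hfg⟩ := e
  refine ⟨⟨fun m => f.f ∘ₗ n.φ m, ?_, ?_, ?_, ?_, ?_, ?_⟩⟩
  · intro m g a
    simp only [LinearMap.comp_apply]
    rw [n.φ_ρ, f.f_ρ]
  · intro m a
    simp only [LinearMap.comp_apply]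
    rw [← f.f_π, n.φ_π]
  · intro m y hy
    obtain ⟨a, ha⟩ := n.surj m (g.f y) (by rw [← g.f_π, hy])
    refine ⟨a, ?_⟩
    simp only [LinearMap.comp_apply]
    rw [ha, hfg]
  · intro m a
    simp only [LinearMap.comp_apply]
    rw [← n.ker]
    constructor
    · intro h
      rw [← hgf (n.φ m a), h, map_zero]
    · intro h
      rw [h, map_zero]
  · intro m a
    simp only [LinearMap.comp_apply]
    rw [n.comm, f.f_d]
  · intro i hi y
    rw [← hfg (Y.π i y), g.f_π, n.nonneg i hi, map_zero]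

/-- morphisms of complexes lift to simplicial morphisms -/
theorem NQ.lift {A B : SR R G} {X Y : Cx R G} (n : NQ A X) (n' : NQ B Y) (f : Cx.Hom X Y) :
    ∃ F : A ⟶ B, ∀ m a, n'.φ m (ev F m a) = f.f (n.φ m a) := by
  obtain ⟨ψ, hψρ, hψφ, hφψ, hPψ, hbψ⟩ := n'.exists_sec
  obtain ⟨F, hF⟩ := exists_lift (A := A) (B := B) (fun m => ψ m ∘ₗ f.f ∘ₗ n.φ m)
    (by
      intro m g a
      simp only [LinearMap.comp_apply]
      rw [n.φ_ρ, f.f_ρ, hψρ])
    (by
      intro m a
      simp only [LinearMap.comp_apply]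
      rw [n.comm, f.f_d, hbψ])
    (by
      intro m a
      simp only [LinearMap.comp_apply]
      rw [n.φ_PI, hPψ])
  refine ⟨F, ?_⟩
  intro m a
  rw [← n'.φ_PI, hF]
  simp only [LinearMap.comp_apply]
  rw [hφψ, ← f.f_π, n.φ_π]

theorem NQ.lift_unique {A B : SR R G} {X Y : Cx R G} (n : NQ A X) (n' : NQ B Y) {F F' : A ⟶ B}
    (h : ∀ m a, n'.φ m (ev F m a) = n'.φ m (ev F' m a)) : F = F' :=
  eq_of_PI fun m a => n'.PI_eq (h m a)

/-- simplicial morphisms descend to morphisms of complexes -/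
theorem NQ.ind {A B : SR R G} {X Y : Cx R G} (n : NQ A X) (n' : NQ B Y) (F : A ⟶ B) :
    ∃ f : Cx.Hom X Y, ∀ m a, f.f (n.φ m a) = n'.φ m (ev F m a) := by
  obtain ⟨f, hf⟩ := n.desc (Y := Y) (fun m => n'.φ m ∘ₗ ev F m)
    (by
      intro m g a
      simp only [LinearMap.comp_apply]
      rw [ev_ρ, n'.φ_ρ])
    (by
      intro m a
      simp only [LinearMap.comp_apply]
      rw [n'.φ_π])
    (by
      intro m a ha
      simp only [LinearMap.comp_apply]
      exact (n'.ker m _).mpr (ev_mem_Deg F ha))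
    (by
      intro a
      simp only [LinearMap.comp_apply]
      rw [n'.d_φ_zero])
    (by
      intro m a
      simp only [LinearMap.comp_apply]
      rw [ev_bd, n'.comm])
  exact ⟨f, hf⟩

theorem NQ.ind_unique {A : SR R G} {X Y : Cx R G} (n : NQ A X) {f f' : Cx.Hom X Y}
    (h : ∀ m a, f.f (n.φ m a) = f'.f (n.φ m a)) : ∀ x, f.f x = f'.f x := by
  intro x
  exact LinearMap.congr_fun (n.ext (f := f.f) (g := f'.f) h) x

/-- the simplicial object is determined by the normalised complex -/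
theorem NQ.isoSR {A B : SR R G} {X Y : Cx R G} (n : NQ A X) (n' : NQ B Y) (e : Cx.Iso X Y) :
    Nonempty (A ≅ B) := by
  obtain ⟨f, g, hgf, hfg⟩ := e
  obtain ⟨F, hF⟩ := n.lift n' f
  obtain ⟨F', hF'⟩ := n'.lift n g
  refine ⟨⟨F, F', ?_, ?_⟩⟩
  · apply n.lift_unique n
    intro m a
    rw [ev_comp, ev_id, hF', hF, hgf]
  · apply n'.lift_unique n'
    intro m a
    rw [ev_comp, ev_id, hF, hF', hfg]

end PicInd
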