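import Mathlib
import Pool.Agent.Lib_MP_8744b5_al.SimpBase

/-! Piece SH: simplicial homotopies: chain homotopy in terms of linear maps, sums, functors. -/

set_option linter.unusedVariables false

open CategoryTheory TensorProduct Opposite Simplicial

namespace PicInd

universe u

variable {R : Type u} [CommRing R] {G : Type} [Group G]

namespace SR

variable {A B C : SR R G}

/-- evaluation of a morphism of representations at an element, as an additive map -/
def shApp {V W : Rep.{u} R G} (b : V.V) : (V ⟶ W) →+ W.V where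
  toFun f := f.hom.toLinearMap b
  map_zero' := rfl
  map_add' _ _ := rfl

theorem shApp_comp {V W U : Rep.{u} R G} (b : V.V) (f : V ⟶ W) (g : W ⟶ U) :
    shApp b (f ≫ g) = shApp (shApp b f) g := rfl

theorem sh_d (A : SR R G) (m : ℕ) (a : A.V (m + 1)) :
    shApp (V := A.obj (op ⦋m + 1⦌)) (W := A.obj (op ⦋m⦌)) a
      (((AlgebraicTopology.alternatingFaceMapComplex (Rep.{u} R G)).obj A).d (m + 1) m) =
      A.bd m a := by
  rw [AlgebraicTopology.alternatingFaceMapComplex_obj_d]
  unfold AlgebraicTopology.AlternatingFaceMapComplex.objD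
  rw [map_sum]
  unfold bd
  rw [LinearMap.sum_apply]
  apply Finset.sum_congr rfl
  intro i _
  rw [map_zsmul]
  rfl

/-- sum of two simplicial homotopies -/
theorem homotopy_add {F F' K K' : A ⟶ B} (h : SimplicialObject.Homotopy F F')
    (h' : SimplicialObject.Homotopy K K') :
    Nonempty (SimplicialObject.Homotopy (F + K) (F' + K')) := by
  refine ⟨
    { h := fun i => h.h i + h'.h i
      h_zero_comp_δ_zero := ?_
      h_last_comp_δ_last := ?_
      h_succ_comp_δ_castSucc_of_lt := ?_
      h_succ_comp_δ_castSucc_succ := ?_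
      h_castSucc_comp_δ_succ_of_lt := ?_
      h_comp_σ_castSucc_of_le := ?_
      h_comp_σ_succ_of_lt := ?_ }⟩
  · intro n
    rw [Preadditive.add_comp, h.h_zero_comp_δ_zero, h'.h_zero_comp_δ_zero]
    rfl
  · intro n
    rw [Preadditive.add_comp, h.h_last_comp_δ_last, h'.h_last_comp_δ_last]
    rfl
  · intro n i j hij
    rw [Preadditive.add_comp, Preadditive.comp_add, h.h_succ_comp_δ_castSucc_of_lt i j hij,
      h'.h_succ_comp_δ_castSucc_of_lt i j hij]
  · intro n j
    rw [Preadditive.add_comp, Preadditive.add_comp, h.h_succ_comp_δ_castSucc_succ j,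
      h'.h_succ_comp_δ_castSucc_succ j]
  · intro n i j hij
    rw [Preadditive.add_comp, Preadditive.comp_add, h.h_castSucc_comp_δ_succ_of_lt i j hij,
      h'.h_castSucc_comp_δ_succ_of_lt i j hij]
  · intro n i j hij
    rw [Preadditive.add_comp, Preadditive.comp_add, h.h_comp_σ_castSucc_of_le i j hij,
      h'.h_comp_σ_castSucc_of_le i j hij]
  · intro n i j hij
    rw [Preadditive.add_comp, Preadditive.comp_add, h.h_comp_σ_succ_of_lt i j hij,
      h'.h_comp_σ_succ_of_lt i j hij]

/-- a simplicial homotopy gives a chain homotopy of the alternating face map complexes -/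
theorem exists_chain_htpy {F F' : A ⟶ B} (H : SimplicialObject.Homotopy F F') :
    ∃ h : ∀ m, A.V m →ₗ[R] B.V (m + 1), (∀ m g a, h m (A.ρ m g a) = B.ρ (m + 1) g (h m a)) ∧
      (∀ a, ev F 0 a - ev F' 0 a = B.bd 0 (h 0 a)) ∧
      ∀ m a, ev F (m + 1) a - ev F' (m + 1) a = B.bd (m + 1) (h (m + 1) a) + h m (A.bd m a) := by
  let K := H.toChainHomotopy
  let k : ∀ m, A.obj (op ⦋m⦌) ⟶ B.obj (op ⦋m + 1⦌) := fun m => K.hom m (m + 1)
  refine ⟨fun m => (k m).hom.toLinearMap, ?_, ?_, ?_⟩
  · intro m g a
    exact Rep.hom_comm_apply (k m) g a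
  · intro a
    have h1 := K.comm 0
    rw [prevD_eq (j' := 1) (w := by simp), dNext_eq_zero _ _ (by simp), zero_add] at h1
    have h2 := congrArg (shApp (V := A.obj (op ⦋0⦌)) (W := B.obj (op ⦋0⦌)) a) h1
    rw [map_add] at h2
    have h3 : shApp (V := A.obj (op ⦋0⦌)) (W := B.obj (op ⦋0⦌)) a
        (((AlgebraicTopology.alternatingFaceMapComplex (Rep.{u} R G)).map F).f 0) = ev F 0 a := rfl
    have h4 : shApp (V := A.obj (op ⦋0⦌)) (W := B.obj (op ⦋0⦌)) a
        (((AlgebraicTopology.alternatingFaceMapComplex (Rep.{u} R G)).map F').f 0) = ev F' 0 a := rfl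
    rw [h3, h4] at h2
    rw [h2, add_sub_cancel_right, ← sh_d B 0]
    rfl
  · intro m a
    have h1 := K.comm (m + 1)
    rw [prevD_eq (j' := m + 2) (w := by simp), dNext_eq (i' := m) (w := by simp)] at h1
    have h2 := congrArg (shApp (V := A.obj (op ⦋m + 1⦌)) (W := B.obj (op ⦋m + 1⦌)) a) h1
    rw [map_add, map_add] at h2
    have h3 : shApp (V := A.obj (op ⦋m + 1⦌)) (W := B.obj (op ⦋m + 1⦌)) a
        (((AlgebraicTopology.alternatingFaceMapComplex (Rep.{u} R G)).map F).f (m + 1)) =
        ev F (m + 1) a := rfl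
    have h4 : shApp (V := A.obj (op ⦋m + 1⦌)) (W := B.obj (op ⦋m + 1⦌)) a
        (((AlgebraicTopology.alternatingFaceMapComplex (Rep.{u} R G)).map F').f (m + 1)) =
        ev F' (m + 1) a := rfl
    rw [h3, h4] at h2
    rw [h2, add_sub_cancel_right, ← sh_d B (m + 1), ← sh_d A m]
    exact add_comm _ _

/-- functors preserve simplicial homotopies -/
theorem homotopy_ap {H : Type} [Group H] (T : Rep.{u} R G ⥤ Rep.{u} R H) {F F' : A ⟶ B}
    (h : SimplicialObject.Homotopy F F') :
    Nonempty (SimplicialObject.Homotopy (((SimplicialObject.whiskering _ _).obj T).map F)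
      (((SimplicialObject.whiskering _ _).obj T).map F')) :=
  ⟨h.whiskerRight T⟩

end SR

end PicInd
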