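import Mathlib
import Pool.Agent.Lib_MP_8744b5_al.SimpHtpy
import Pool.Agent.Lib_MP_8744b5_al.ConeDef
import Pool.Agent.Lib_MP_8744b5_al.GamNQ
import Pool.Agent.Lib_MP_8744b5_al.NQ1

/-! Piece CONE: the cone of a complex as the normalised complex of a decalage. -/

set_option linter.unusedVariables false

open CategoryTheory TensorProduct Opposite Simplicial

namespace PicInd

universe u

variable {R : Type u} [CommRing R] {G : Type} [Group G]

namespace Dec

/-- the map of the shift functor on functions -/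
def hom {a b : ℕ} (f : Fin (a + 1) →o Fin (b + 1)) : Fin (a + 1 + 1) →o Fin (b + 1 + 1) where
  toFun := Fin.cons 0 (fun j => (f j).succ)
  monotone' := by
    intro i j hij
    refine Fin.cases (fun _ => ?_) (fun i' hij => ?_) i hij
    · rw [Fin.cons_zero]; exact Fin.zero_le _
    · revert hij
      refine Fin.cases (fun hij => ?_) (fun j' hij => ?_) j
      · exact absurd (Fin.le_zero_iff.1 hij) (Fin.succ_ne_zero i')
      · rw [Fin.cons_succ, Fin.cons_succ]
        exact Fin.succ_le_succ_iff.2 (f.monotone (Fin.succ_le_succ_iff.1 hij))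

/-- the shift functor `[n] ↦ [n+1]` -/
def dec : SimplexCategory ⥤ SimplexCategory where
  obj n := ⦋n.len + 1⦌
  map θ := SimplexCategory.Hom.mk (hom θ.toOrderHom)
  map_id n := by
    ext j
    refine Fin.cases ?_ (fun j' => ?_) j
    · rfl
    · rfl
  map_comp θ θ' := by
    ext j
    refine Fin.cases ?_ (fun j' => ?_) j
    · rfl
    · rfl

theorem dec_δ (n : ℕ) (i : Fin (n + 2)) :
    dec.map (SimplexCategory.δ i) = SimplexCategory.δ i.succ := by
  ext j
  refine Fin.cases ?_ (fun j' => ?_) j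
  · show ((0 : Fin (n + 1 + 1 + 1)) : ℕ) = ((i.succ).succAbove 0 : Fin (n + 1 + 1 + 1))
    rw [Fin.succ_succAbove_zero]
  · exact congrArg (fun k : Fin (n + 1 + 1 + 1) => (k : ℕ))
      (Fin.succ_succAbove_succ i (j' : Fin (n + 1))).symm

theorem dec_σ (n : ℕ) (i : Fin (n + 1)) :
    dec.map (SimplexCategory.σ i) = SimplexCategory.σ i.succ := by
  ext j
  refine Fin.cases ?_ (fun j' => ?_) j
  · show ((0 : Fin (n + 1 + 1)) : ℕ) = ((i.succ).predAbove 0 : Fin (n + 1 + 1))
    rw [Fin.predAbove_of_le_castSucc _ _ (Fin.zero_le _)]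
    rfl
  · exact congrArg (fun k : Fin (n + 1 + 1) => (k : ℕ))
      (Fin.succ_predAbove_succ i (j' : Fin (n + 1 + 1))).symm

/-- morphisms of the simplex category from functions on the natural numbers -/
def mkN {a b : ℕ} (f : ℕ → ℕ) (hb : ∀ j, j ≤ a → f j ≤ b) (hm : ∀ j j', j ≤ j' → f j ≤ f j') :
    (⦋a⦌ : SimplexCategory) ⟶ ⦋b⦌ :=
  SimplexCategory.Hom.mk
    { toFun := fun j : Fin (a + 1) =>
        (⟨f j.1, Nat.lt_succ_of_le (hb j.1 (Nat.lt_succ_iff.1 j.2))⟩ : Fin (b + 1))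
      monotone' := fun j j' h => hm _ _ h }

theorem mkN_congr {a b : ℕ} {f f' : ℕ → ℕ} {hb : ∀ j, j ≤ a → f j ≤ b}
    {hm : ∀ j j', j ≤ j' → f j ≤ f j'} {hb' : ∀ j, j ≤ a → f' j ≤ b}
    {hm' : ∀ j j', j ≤ j' → f' j ≤ f' j'} (h : ∀ j, j ≤ a → f j = f' j) :
    mkN f hb hm = mkN f' hb' hm' := by
  ext j
  exact h j.1 (Nat.lt_succ_iff.1 j.2)

theorem mkN_comp {a b c : ℕ} {f g : ℕ → ℕ} (hb : ∀ j, j ≤ a → f j ≤ b)
    (hm : ∀ j j', j ≤ j' → f j ≤ f j') (hb' : ∀ j, j ≤ b → g j ≤ c)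
    (hm' : ∀ j j', j ≤ j' → g j ≤ g j') :
    mkN f hb hm ≫ mkN g hb' hm' = mkN (fun j => g (f j)) (fun j hj => hb' _ (hb j hj))
      (fun j j' h => hm' _ _ (hm _ _ h)) := rfl

theorem δ_eq (n : ℕ) (i : Fin (n + 2)) :
    SimplexCategory.δ i = mkN (fun j => if j < i.1 then j else j + 1)
      (fun j hj => by split_ifs <;> omega) (fun j j' h => by split_ifs <;> omega) := by
  ext j
  have key : ∀ j' : Fin (n + 1), (i.succAbove j').1 = if j'.1 < i.1 then j'.1 else j'.1 + 1 := by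
    intro j'
    unfold Fin.succAbove
    split_ifs with h1 h2 h2
    · rfl
    · exact absurd h1 h2
    · exact absurd h2 h1
    · rfl
  exact key j

theorem σ_eq (n : ℕ) (i : Fin (n + 1)) :
    SimplexCategory.σ i = mkN (fun j => if j ≤ i.1 then j else j - 1)
      (fun j hj => by have := i.2; split_ifs <;> omega)
      (fun j j' h => by split_ifs <;> omega) := by
  ext j
  have key : ∀ j' : Fin (n + 2), (i.predAbove j').1 = if j'.1 ≤ i.1 then j'.1 else j'.1 - 1 := by
    intro j'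
    unfold Fin.predAbove
    split_ifs with h1 h2 h2
    · exfalso
      have : i.1 < j'.1 := h1
      omega
    · rfl
    · rfl
    · exfalso
      have : ¬ i.1 < j'.1 := h1
      omega
  exact key j

/-- the map `φ_i : [n+2] → [n+1]`: `0` up to `i + 1`, then `j - 1` -/
def phi (n : ℕ) (i : Fin (n + 1)) : (⦋n + 1 + 1⦌ : SimplexCategory) ⟶ ⦋n + 1⦌ :=
  mkN (fun j => if j ≤ i.1 + 1 then 0 else j - 1) (fun j hj => by split_ifs <;> omega)
    (fun j j' h => by split_ifs <;> omega)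

theorem phi_zero (n : ℕ) : SimplexCategory.δ (0 : Fin (n + 2)).succ ≫ phi n 0 = 𝟙 _ := by
  rw [δ_eq]
  unfold phi
  rw [mkN_comp]
  ext j
  show (if (if (j : ℕ) < 1 then (j : ℕ) else j + 1) ≤ 0 + 1 then 0 else
    (if (j : ℕ) < 1 then (j : ℕ) else j + 1) - 1) = (j : ℕ)
  split_ifs <;> omega

theorem phi_last (n : ℕ) : SimplexCategory.δ (Fin.last (n + 1)).succ ≫ phi n (Fin.last n) =
    (mkN (fun _ => 0) (fun _ _ => le_refl 0) (fun _ _ _ => le_refl 0) :
      (⦋n + 1⦌ : SimplexCategory) ⟶ ⦋0⦌) ≫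
    (mkN (fun _ => 0) (fun _ _ => Nat.zero_le _) (fun _ _ _ => le_refl 0) :
      (⦋0⦌ : SimplexCategory) ⟶ ⦋n + 1⦌) := by
  rw [δ_eq]
  unfold phi
  rw [mkN_comp, mkN_comp]
  apply mkN_congr
  intro j hj
  rw [Fin.val_succ, Fin.val_last, Fin.val_last]
  split_ifs <;> omega

theorem phi_1 (n : ℕ) (i : Fin (n + 2)) (j : Fin (n + 1)) (hij : i ≤ j.castSucc) :
    SimplexCategory.δ i.castSucc.succ ≫ phi (n + 1) j.succ =
      phi n j ≫ SimplexCategory.δ i.succ := by
  have h : i.1 ≤ j.1 := hij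
  rw [δ_eq, δ_eq]
  unfold phi
  rw [mkN_comp, mkN_comp]
  apply mkN_congr
  intro k hk
  simp only [Fin.val_succ, Fin.val_castSucc]
  split_ifs <;> omega

theorem phi_2 (n : ℕ) (j : Fin (n + 1)) :
    SimplexCategory.δ j.castSucc.succ.succ ≫ phi (n + 1) j.succ =
      SimplexCategory.δ j.castSucc.succ.succ ≫ phi (n + 1) j.castSucc := by
  rw [δ_eq]
  unfold phi
  rw [mkN_comp, mkN_comp]
  apply mkN_congr
  intro k hk
  simp only [Fin.val_succ, Fin.val_castSucc]
  split_ifs <;> omega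

theorem phi_3 (n : ℕ) (i : Fin (n + 2)) (j : Fin (n + 1)) (hji : j.castSucc < i) :
    SimplexCategory.δ i.succ.succ ≫ phi (n + 1) j.castSucc =
      phi n j ≫ SimplexCategory.δ i.succ := by
  have h : j.1 < i.1 := hji
  rw [δ_eq, δ_eq]
  unfold phi
  rw [mkN_comp, mkN_comp]
  apply mkN_congr
  intro k hk
  simp only [Fin.val_succ, Fin.val_castSucc]
  split_ifs <;> omega

theorem phi_4 (n : ℕ) (i j : Fin (n + 1)) (hij : i ≤ j) :
    SimplexCategory.σ i.castSucc.succ ≫ phi n j =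
      phi (n + 1) j.succ ≫ SimplexCategory.σ i.succ := by
  have h : i.1 ≤ j.1 := hij
  rw [σ_eq, σ_eq]
  unfold phi
  rw [mkN_comp, mkN_comp]
  apply mkN_congr
  intro k hk
  simp only [Fin.val_succ, Fin.val_castSucc]
  split_ifs <;> omega

theorem phi_5 (n : ℕ) (i j : Fin (n + 1)) (hji : j ≤ i) :
    SimplexCategory.σ i.succ.succ ≫ phi n j =
      phi (n + 1) j.castSucc ≫ SimplexCategory.σ i.succ := by
  have h : j.1 ≤ i.1 := hji
  rw [σ_eq, σ_eq]
  unfold phi
  rw [mkN_comp, mkN_comp]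
  apply mkN_congr
  intro k hk
  simp only [Fin.val_succ, Fin.val_castSucc]
  split_ifs <;> omega

end Dec

/-- the decalage -/
noncomputable def decal (B : SR R G) : SR R G :=
  (Dec.dec.op ⋙ (B : SimplexCategoryᵒᵖ ⥤ Rep.{u} R G) : SimplexCategoryᵒᵖ ⥤ Rep.{u} R G)

theorem decal_δ (B : SR R G) (n : ℕ) (i : Fin (n + 2)) : (decal B).δ i = B.δ i.succ :=
  congrArg (fun f => B.map (Quiver.Hom.op f)) (Dec.dec_δ n i)

theorem decal_σ (B : SR R G) (n : ℕ) (i : Fin (n + 1)) : (decal B).σ i = B.σ i.succ :=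
  congrArg (fun f => B.map (Quiver.Hom.op f)) (Dec.dec_σ n i)

theorem decal_fa (B : SR R G) (n : ℕ) (i : Fin (n + 2)) (a : B.V (n + 1 + 1)) :
    (decal B).fa n i a = B.fa (n + 1) i.succ a :=
  congrArg (fun f => sbLin f a) (decal_δ B n i)

theorem decal_dg (B : SR R G) (n : ℕ) (i : Fin (n + 1)) (a : B.V (n + 1)) :
    (decal B).dg n i a = B.dg (n + 1) i.succ a :=
  congrArg (fun f => sbLin f a) (decal_σ B n i)

/-- the homotopy of the decalage when `B_0 = 0` -/
noncomputable def decalHtpy (B : SR R G) (h0 : ∀ a : B.V 0, a = 0) :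
    SimplicialObject.Homotopy (0 : decal B ⟶ decal B) (𝟙 (decal B)) where
  h {n} i := B.map (Dec.phi n i).op
  h_zero_comp_δ_zero n := by
    show B.map (Dec.phi n 0).op ≫ (decal B).δ 0 = 𝟙 _
    rw [decal_δ]
    have h := congrArg (fun f => B.map (Quiver.Hom.op f)) (Dec.phi_zero n)
    rw [op_comp, B.map_comp] at h
    refine h.trans ?_
    rw [op_id]
    exact B.map_id _
  h_last_comp_δ_last n := by
    have h := congrArg (fun f => B.map (Quiver.Hom.op f)) (Dec.phi_last n)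
    rw [op_comp, op_comp, B.map_comp, B.map_comp] at h
    refine (congrArg (fun f => B.map (Dec.phi n (Fin.last n)).op ≫ f)
      (decal_δ B n (Fin.last (n + 1)))).trans ?_
    refine h.trans ?_
    apply sbLin_inj
    intro x
    rw [sbLin_comp]
    have h1 := h0 (sbLin (B.map (Dec.mkN (fun _ => 0) (fun _ _ => Nat.zero_le _)
      (fun _ _ _ => le_refl 0) : (⦋0⦌ : SimplexCategory) ⟶ ⦋n + 1⦌).op) x)
    rw [h1, map_zero]
    rfl
  h_succ_comp_δ_castSucc_of_lt {n} i j hij := by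
    have h := congrArg (fun f => B.map (Quiver.Hom.op f)) (Dec.phi_1 n i j hij)
    rw [op_comp, op_comp, B.map_comp, B.map_comp] at h
    refine (congrArg (fun f => B.map (Dec.phi (n + 1) j.succ).op ≫ f)
      (decal_δ B (n + 1) i.castSucc)).trans ?_
    refine Eq.trans h ?_
    exact (congrArg (fun f => f ≫ B.map (Dec.phi n j).op) (decal_δ B n i)).symm
  h_succ_comp_δ_castSucc_succ {n} j := by
    have h := congrArg (fun f => B.map (Quiver.Hom.op f)) (Dec.phi_2 n j)
    rw [op_comp, op_comp, B.map_comp, B.map_comp] at h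
    refine (congrArg (fun f => B.map (Dec.phi (n + 1) j.succ).op ≫ f)
      (decal_δ B (n + 1) j.castSucc.succ)).trans ?_
    refine Eq.trans h ?_
    exact (congrArg (fun f => B.map (Dec.phi (n + 1) j.castSucc).op ≫ f)
      (decal_δ B (n + 1) j.castSucc.succ)).symm
  h_castSucc_comp_δ_succ_of_lt {n} i j hji := by
    have h := congrArg (fun f => B.map (Quiver.Hom.op f)) (Dec.phi_3 n i j hji)
    rw [op_comp, op_comp, B.map_comp, B.map_comp] at h
    refine (congrArg (fun f => B.map (Dec.phi (n + 1) j.castSucc).op ≫ f)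
      (decal_δ B (n + 1) i.succ)).trans ?_
    refine Eq.trans h ?_
    exact (congrArg (fun f => f ≫ B.map (Dec.phi n j).op) (decal_δ B n i)).symm
  h_comp_σ_castSucc_of_le {n} i j hij := by
    have h := congrArg (fun f => B.map (Quiver.Hom.op f)) (Dec.phi_4 n i j hij)
    rw [op_comp, op_comp, B.map_comp, B.map_comp] at h
    refine (congrArg (fun f => B.map (Dec.phi n j).op ≫ f)
      (decal_σ B (n + 1) i.castSucc)).trans ?_
    refine Eq.trans h ?_
    exact (congrArg (fun f => f ≫ B.map (Dec.phi (n + 1) j.succ).op) (decal_σ B n i)).symm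
  h_comp_σ_succ_of_lt {n} i j hji := by
    have h := congrArg (fun f => B.map (Quiver.Hom.op f)) (Dec.phi_5 n i j hji)
    rw [op_comp, op_comp, B.map_comp, B.map_comp] at h
    refine (congrArg (fun f => B.map (Dec.phi n j).op ≫ f)
      (decal_σ B (n + 1) i.succ)).trans ?_
    refine Eq.trans h ?_
    exact (congrArg (fun f => f ≫ B.map (Dec.phi (n + 1) j.castSucc).op) (decal_σ B n i)).symm

/-! ### identities -/

theorem fa_dg_self (B : SR R G) (m : ℕ) (a : B.V m) : B.fa m 0 (B.dg m 0 a) = a := by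
  have h := B.δ_comp_σ_self (n := m) (i := 0)
  exact congrArg (fun f => sbLin f a) h

theorem fa_dg_succ (B : SR R G) (m : ℕ) (i : Fin (m + 1)) (a : B.V (m + 1)) :
    B.fa (m + 1) 0 (B.dg (m + 1) i.succ a) = B.dg m i (B.fa m 0 a) := by
  have h := B.δ_comp_σ_of_le (n := m) (i := 0) (j := i) (Fin.zero_le _)
  exact congrArg (fun f => sbLin f a) h

theorem dg_dg_zero (B : SR R G) (m : ℕ) (i : Fin (m + 1)) (a : B.V m) :
    B.dg (m + 1) i.succ (B.dg m 0 a) = B.dg (m + 1) 0 (B.dg m i a) := by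
  have h := B.σ_comp_σ (n := m) (i := 0) (j := i) (Fin.zero_le _)
  exact (congrArg (fun f => sbLin f a) h).symm

theorem fa_fa_zero (B : SR R G) (m : ℕ) (i : Fin (m + 2)) (a : B.V (m + 1 + 1)) :
    B.fa m 0 (B.fa (m + 1) i.succ a) = B.fa m i (B.fa (m + 1) 0 a) := by
  have h := B.δ_comp_δ (n := m) (i := 0) (j := i) (Fin.zero_le _)
  exact congrArg (fun f => sbLin f a) h

theorem bd_decal (B : SR R G) (m : ℕ) (a : B.V (m + 1 + 1)) :
    (decal B).bd m a = B.fa (m + 1) 0 a - B.bd (m + 1) a := by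
  have e1 : (decal B).bd m a = ∑ i : Fin (m + 2), ((-1 : ℤ) ^ (i : ℕ)) • B.fa (m + 1) i.succ a := by
    unfold SR.bd
    refine (LinearMap.sum_apply _ _ _).trans (Finset.sum_congr rfl (fun i _ => ?_))
    exact congrArg (fun x => ((-1 : ℤ) ^ (i : ℕ)) • x) (decal_fa B m i a)
  have e2 : B.bd (m + 1) a = B.fa (m + 1) 0 a -
      ∑ i : Fin (m + 2), ((-1 : ℤ) ^ (i : ℕ)) • B.fa (m + 1) i.succ a := by
    unfold SR.bd
    refine (LinearMap.sum_apply _ _ _).trans ?_
    rw [Fin.sum_univ_succ, sub_eq_add_neg, ← Finset.sum_neg_distrib]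
    congr 1
    · simp
    · refine Finset.sum_congr rfl (fun i _ => ?_)
      rw [LinearMap.smul_apply, Fin.val_succ, pow_succ]
      simp
  rw [e1, e2]
  abel

theorem fa_bd_decal (B : SR R G) (m : ℕ) (a : B.V (m + 1 + 1)) :
    B.fa m 0 ((decal B).bd m a) = B.bd m (B.fa (m + 1) 0 a) := by
  have e1 : (decal B).bd m a = ∑ i : Fin (m + 2), ((-1 : ℤ) ^ (i : ℕ)) • B.fa (m + 1) i.succ a := by
    unfold SR.bd
    refine (LinearMap.sum_apply _ _ _).trans (Finset.sum_congr rfl (fun i _ => ?_))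
    exact congrArg (fun x => ((-1 : ℤ) ^ (i : ℕ)) • x) (decal_fa B m i a)
  rw [e1]
  refine (map_sum (B.fa m 0) _ _).trans ?_
  unfold SR.bd
  rw [LinearMap.sum_apply]
  refine Finset.sum_congr rfl (fun i _ => ?_)
  rw [map_zsmul, LinearMap.smul_apply, fa_fa_zero]

theorem mem_Deg_succ (B : SR R G) (m : ℕ) (a : B.V (m + 1)) :
    a ∈ B.Deg (m + 1) ↔ a ∈ ⨆ i : Fin (m + 1), LinearMap.range (B.dg m i) := Iff.rfl

theorem dg_mem_Deg (B : SR R G) (m : ℕ) (i : Fin (m + 1)) (a : B.V m) :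
    B.dg m i a ∈ B.Deg (m + 1) :=
  (le_iSup (fun i : Fin (m + 1) => LinearMap.range (B.dg m i)) i) ⟨a, rfl⟩

/-- the degenerate elements of the decalage are degenerate and their zeroth face is degenerate -/
theorem decal_Deg_le (B : SR R G) (m : ℕ) (b : B.V (m + 1)) (h : b ∈ (decal B).Deg m) :
    b ∈ B.Deg (m + 1) ∧ B.fa m 0 b ∈ B.Deg m := by
  cases m with
  | zero =>
    have h' : b = 0 := h
    rw [h', map_zero]
    exact ⟨Submodule.zero_mem _, Submodule.zero_mem _⟩
  | succ m =>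
    have key : (⨆ i : Fin (m + 1), LinearMap.range ((decal B).dg m i)) ≤
        B.Deg (m + 2) ⊓ (B.Deg (m + 1)).comap (B.fa (m + 1) 0) := by
      apply iSup_le
      rintro i _ ⟨a, rfl⟩
      have e : (decal B).dg m i a = B.dg (m + 1) i.succ a := decal_dg B m i a
      rw [e]
      refine ⟨dg_mem_Deg B (m + 1) i.succ a, ?_⟩
      show B.fa (m + 1) 0 (B.dg (m + 1) i.succ a) ∈ B.Deg (m + 1)
      rw [fa_dg_succ]
      exact dg_mem_Deg B m i _
    exact key h

/-- every degenerate element is `s_0 a` plus a degenerate element of the decalage -/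
theorem Deg_decomp (B : SR R G) (m : ℕ) (b : B.V (m + 1)) (h : b ∈ B.Deg (m + 1)) :
    ∃ (a : B.V m) (c : B.V (m + 1)), c ∈ (decal B).Deg m ∧ b = B.dg m 0 a + c := by
  have key : (⨆ i : Fin (m + 1), LinearMap.range (B.dg m i)) ≤
      LinearMap.range (B.dg m 0) ⊔ ((decal B).Deg m : Submodule R (B.V (m + 1))) := by
    apply iSup_le
    intro i
    cases m with
    | zero =>
      have : i = 0 := Fin.ext (by have := i.2; omega)
      rw [this]
      exact le_sup_left
    | succ m =>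
      refine Fin.cases le_sup_left (fun j => ?_) i
      refine le_trans ?_ le_sup_right
      rintro _ ⟨a, rfl⟩
      have e : (decal B).dg m j a = B.dg (m + 1) j.succ a := decal_dg B m j a
      have h1 := dg_mem_Deg (decal B) m j a
      rw [e] at h1
      exact h1
  obtain ⟨y, ⟨a, rfl⟩, z, hz, h2⟩ := Submodule.mem_sup.1 (key h)
  exact ⟨a, z, hz, h2.symm⟩

/-- degenerate elements are mapped by `s_0` to degenerate elements of the decalage -/
theorem dg_zero_Deg (B : SR R G) (m : ℕ) (a : B.V m) (h : a ∈ B.Deg m) :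
    (B.dg m 0 a) ∈ ((decal B).Deg m : Submodule R (B.V (m + 1))) := by
  cases m with
  | zero =>
    have h' : a = 0 := h
    rw [h', map_zero]
    exact Submodule.zero_mem _
  | succ m =>
    have key : (⨆ i : Fin (m + 1), LinearMap.range (B.dg m i)) ≤
        ((decal B).Deg (m + 1) : Submodule R (B.V (m + 2))).comap (B.dg (m + 1) 0) := by
      apply iSup_le
      rintro i _ ⟨a, rfl⟩
      show B.dg (m + 1) 0 (B.dg m i a) ∈ ((decal B).Deg (m + 1) : Submodule R (B.V (m + 2)))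
      rw [← dg_dg_zero]
      have e : (decal B).dg m i (B.dg m 0 a) = B.dg (m + 1) i.succ (B.dg m 0 a) :=
        decal_dg B m i _
      rw [← e]
      exact dg_mem_Deg (decal B) m i _
    exact key h

/-- the normalised complex of the decalage -/
noncomputable def decalNQ (X : Cx R G) (B : SR R G) (n : NQ B X.sh)
    (hX : ∀ i : ℤ, i < 0 → ∀ x, X.π i x = 0) : NQ (decal B) X.cone where
  φ m := LinearMap.prod (n.φ (m + 1)) (n.φ m ∘ₗ B.fa m 0)
  φ_ρ m g a := by
    apply Prod.ext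
    · exact n.φ_ρ (m + 1) g a
    · show n.φ m (B.fa m 0 (B.ρ (m + 1) g a)) = _
      rw [SR.fa_ρ]
      exact n.φ_ρ m g _
  φ_π m a := by
    apply Prod.ext
    · have h := n.φ_π (m + 1) a
      have e : ((m + 1 : ℕ) : ℤ) - 1 = (m : ℤ) := by push_cast; ring
      show X.π (m : ℤ) (n.φ (m + 1) a) = n.φ (m + 1) a
      rw [← e]
      exact h
    · exact n.φ_π m (B.fa m 0 a)
  surj m x hx := by
    have h1 : X.π (m : ℤ) x.1 = x.1 := congrArg Prod.fst hx
    have h2 : X.π ((m : ℤ) - 1) x.2 = x.2 := congrArg Prod.snd hx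
    obtain ⟨b, hb⟩ := n.surj (m + 1) x.1 (by
      have e : ((m + 1 : ℕ) : ℤ) - 1 = (m : ℤ) := by push_cast; ring
      show X.π (((m + 1 : ℕ) : ℤ) - 1) x.1 = x.1
      rw [e]; exact h1)
    have h4 : ∀ x y : X.V, X.π ((m : ℤ) - 1) x = x → X.π ((m : ℤ) - 1) y = y →
        X.π ((m : ℤ) - 1) (x - y) = x - y := by
      intro x y hx hy
      rw [map_sub, hx, hy]
    have h5 : ∀ x y z : X.V, z = x - y → y + z = x := by
      rintro x y z rfl
      abel
    let y : X.V := n.φ m (B.fa m 0 b)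
    have hy : X.π ((m : ℤ) - 1) y = y := n.φ_π m (B.fa m 0 b)
    obtain ⟨c, hc⟩ := n.surj m (x.2 - y) (h4 x.2 y h2 hy)
    refine ⟨(b + B.dg m 0 c : B.V (m + 1)), Prod.ext ?_ ?_⟩
    · show n.φ (m + 1) (b + B.dg m 0 c) = x.1
      rw [map_add, hb, (n.ker (m + 1) _).2 (dg_mem_Deg B m 0 c), add_zero]
    · show n.φ m (B.fa m 0 (b + B.dg m 0 c)) = x.2
      rw [map_add, fa_dg_self, map_add]
      exact h5 x.2 y _ hc
  ker m a := by
    constructor
    · intro h
      have h1 : n.φ (m + 1) a = 0 := congrArg Prod.fst h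
      have h2 : n.φ m (B.fa m 0 a) = 0 := congrArg Prod.snd h
      obtain ⟨b, c, hc, hbc⟩ := Deg_decomp B m a ((n.ker (m + 1) a).1 h1)
      have h3 : B.fa m 0 a = b + B.fa m 0 c := by
        rw [hbc, map_add, fa_dg_self]
      rw [h3, map_add, (n.ker m _).2 (decal_Deg_le B m c hc).2, add_zero] at h2
      rw [hbc]
      exact Submodule.add_mem _ (dg_zero_Deg B m b ((n.ker m b).1 h2)) hc
    · intro h
      have h1 := decal_Deg_le B m a h
      apply Prod.ext
      · exact (n.ker (m + 1) a).2 h1.1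
      · exact (n.ker m _).2 h1.2
  comm m a := by
    apply Prod.ext
    · have h1 : n.φ (m + 1) ((decal B).bd m a) =
          n.φ (m + 1) (B.fa (m + 1) 0 a) - X.sh.d (n.φ (m + 2) a) := by
        rw [bd_decal, map_sub, n.comm]
      refine Eq.trans h1 ?_
      have h2 : ∀ u v : X.V, v - (-(X.d u)) = X.d u + v := by
        intro u v
        rw [sub_neg_eq_add, add_comm]
      exact h2 _ _
    · show n.φ m (B.fa m 0 ((decal B).bd m a)) = -(X.d (n.φ (m + 1) (B.fa (m + 1) 0 a)))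
      rw [fa_bd_decal, n.comm]
      rfl
  nonneg i hi x := by
    apply Prod.ext
    · exact hX i hi x.1
    · exact hX (i - 1) (by omega) x.2

/-- Take for `E` the decalage `E_m = B_{m+1}` (faces `d_{i+1}`, degeneracies `s_{i+1}`) of
`B = Γ(X[1])`, where `X[1]` is `X` with degrees raised by one and differential `-d`.
`φ m b = (φ_B (m+1) b, φ_B m (d_0 b))`. Since `B_0 = 0`, the maps
`h_i = B(φ_i)`, `φ_i : [m+2] → [m+1]`, `φ_i j = 0` for `j ≤ i + 1` and `j - 1` otherwise, form a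
simplicial homotopy from `0` to `1` on `E`. -/
theorem exists_cone (X : Cx R G) (hX : ∀ i : ℤ, i < 0 → ∀ x, X.π i x = 0) :
    ∃ E : SR R G, Nonempty (NQ E X.cone) ∧
      Nonempty (SimplicialObject.Homotopy (0 : E ⟶ E) (𝟙 E)) := by
  obtain ⟨n, -⟩ := gam_NQ X.sh (fun i hi x => hX (i - 1) (by omega) x)
  refine ⟨decal (gam X.sh), ⟨decalNQ X (gam X.sh) n hX⟩, ⟨decalHtpy (gam X.sh) (fun a => ?_)⟩⟩
  have h1 := n.φ_π 0 a
  have h2 : X.sh.π ((0 : ℕ) : ℤ) (n.φ 0 a) = 0 := hX (((0 : ℕ) : ℤ) - 1) (by norm_num) _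
  rw [h2] at h1
  exact (n.ker 0 a).1 h1.symm

end PicInd
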