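import Mathlib
import Pool.Agent.Lib_MP_8744b5_al.ConeDec

/-! Piece HI: homotopy invariance of derived functors of non-additive functors. -/

set_option linter.unusedVariables false

open CategoryTheory TensorProduct Opposite Simplicial

namespace PicInd

universe u

variable {R : Type u} [CommRing R] {G H : Type} [Group G] [Group H]

open SR

namespace HI

theorem ev_add {A B : SR R G} (F F' : A ⟶ B) (m : ℕ) (a : A.V m) :
    ev (F + F') m a = ev F m a + ev F' m a := rfl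

theorem ev_zero {A B : SR R G} (m : ℕ) (a : A.V m) : ev (0 : A ⟶ B) m a = 0 := rfl

theorem π_φ {A : SR R G} {X : Cx R G} (n : NQ A X) (i : ℤ) (m : ℕ) (a : A.V m) :
    X.π i (n.φ m a) = if i = m then n.φ m a else 0 := by
  split_ifs with h
  · subst h; exact n.φ_π m a
  · rw [← n.φ_π m a]; exact X.π_ne i m h _

theorem ext_φ {A : SR R G} {X : Cx R G} (n : NQ A X) {Z : Type*} [AddCommGroup Z] [Module R Z]
    {f g : X.V →ₗ[R] Z} (h : ∀ m a, f (n.φ m a) = g (n.φ m a)) : f = g := by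
  ext x
  rw [← X.π_sum x, map_sum, map_sum]
  apply Finset.sum_congr rfl
  intro i _
  by_cases hi : i < 0
  · rw [n.nonneg i hi]; simp
  · obtain ⟨m, rfl⟩ := Int.eq_ofNat_of_zero_le (not_lt.1 hi)
    obtain ⟨a, ha⟩ := n.surj m (X.π m x) (X.π_self _ _)
    rw [← ha]; exact h m a

theorem φ_PI {A : SR R G} {X : Cx R G} (n : NQ A X) (m : ℕ) (a : A.V m) :
    n.φ m (A.PI m a) = n.φ m a := by
  have h : n.φ m (A.PI m a - a) = 0 := by
    rw [n.ker, ← PI_eq_zero_iff, map_sub, PI_idem, sub_self]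
  rw [map_sub] at h
  exact sub_eq_zero.1 h

theorem d_φ_zero {A : SR R G} {X : Cx R G} (n : NQ A X) (a : A.V 0) : X.d (n.φ 0 a) = 0 := by
  apply X.ext_π
  intro i
  rw [X.π_d, π_φ, map_zero]
  split_ifs with h
  · have h2 : X.π i (X.d (n.φ 0 a)) = 0 := n.nonneg i (by push_cast at h; omega) _
    rw [X.π_d, π_φ, if_pos h] at h2
    exact h2
  · simp

end HI

open HI

/-- simplicially homotopic maps induce homotopic maps of the normalised complexes -/
theorem NQ.htpy {A B : SR R G} {X X' : Cx R G} (nA : NQ A X) (nB : NQ B X') {P Q : A ⟶ B}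
    (h : SimplicialObject.Homotopy P Q) (p q : Cx.Hom X X')
    (hp : ∀ m a, p.f (nA.φ m a) = nB.φ m (ev P m a))
    (hq : ∀ m a, q.f (nA.φ m a) = nB.φ m (ev Q m a)) : Cx.Htpy p q := by
  obtain ⟨h', hρ, h0, hs⟩ := exists_chain_htpy h
  obtain ⟨ψ, ψρ, ψφ, φψ, Pψ, bψ⟩ := nA.exists_sec
  obtain ⟨N, hN⟩ : ∃ N : ℕ, ∀ m : ℕ, N ≤ m → ∀ a, nA.φ m a = 0 := by
    refine ⟨X.s.sup Int.toNat + 1, fun m hm a => ?_⟩
    rw [← nA.φ_π m a]
    apply X.π_zero
    intro hs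
    have h1 : Int.toNat (m : ℤ) ≤ X.s.sup Int.toNat := Finset.le_sup (f := Int.toNat) hs
    rw [Int.toNat_natCast] at h1
    omega
  have hψ : ∀ j x, ψ j (X.π (j : ℤ) x) = ψ j x := by
    intro j x
    rw [← φψ, ψφ, Pψ]
  let K : X.V →ₗ[R] X'.V := ∑ m ∈ Finset.range N, nB.φ (m + 1) ∘ₗ h' m ∘ₗ ψ m
  have hK : ∀ m a, K (nA.φ m a) = nB.φ (m + 1) (h' m (A.PI m a)) := by
    intro m a
    have e : K (nA.φ m a) = ∑ j ∈ Finset.range N, nB.φ (j + 1) (h' j (ψ j (nA.φ m a))) := by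
      simp only [K, LinearMap.sum_apply, LinearMap.comp_apply]
    rw [e, Finset.sum_eq_single m, ψφ]
    · intro j _ hj
      rw [← hψ, π_φ, if_neg (by exact_mod_cast hj), map_zero, map_zero, map_zero]
    · intro hm
      rw [hN m (by simpa using hm), map_zero, map_zero, map_zero]
  refine ⟨K, ?_, ?_, ?_⟩
  · intro g x
    have e : K ∘ₗ X.ρ g = X'.ρ g ∘ₗ K := by
      apply ext_φ nA
      intro m a
      rw [LinearMap.comp_apply, LinearMap.comp_apply, ← nA.φ_ρ, hK, hK, PI_ρ, hρ, nB.φ_ρ]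
    exact LinearMap.congr_fun e x
  · intro i x
    have e : K ∘ₗ X.π i = X'.π (i + 1) ∘ₗ K := by
      apply ext_φ nA
      intro m a
      rw [LinearMap.comp_apply, LinearMap.comp_apply, π_φ, hK, π_φ]
      by_cases him : i = m
      · rw [if_pos him, if_pos (by push_cast; omega), hK]
      · rw [if_neg him, if_neg (by push_cast; omega), map_zero]
    exact LinearMap.congr_fun e x
  · intro x
    have e : p.f - q.f = X'.d ∘ₗ K + K ∘ₗ X.d := by
      apply ext_φ nA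
      intro m a
      rw [LinearMap.sub_apply, LinearMap.add_apply, LinearMap.comp_apply, LinearMap.comp_apply, hK]
      have e1 : p.f (nA.φ m a) - q.f (nA.φ m a) =
          nB.φ m (ev P m (A.PI m a) - ev Q m (A.PI m a)) := by
        rw [← φ_PI nA, hp, hq, map_sub]
      rw [e1]
      cases m with
      | zero => rw [h0, nB.comm, d_φ_zero, map_zero, add_zero]
      | succ m => rw [hs, map_add, nB.comm, ← nA.comm, hK, PI_bd]
    exact LinearMap.congr_fun e x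

namespace HI

/-- `F` lifts the linear map `f` -/
def Lifts {A B : SR R G} {X Y : Cx R G} (n : NQ A X) (n' : NQ B Y) (f : X.V →ₗ[R] Y.V)
    (F : A ⟶ B) : Prop := ∀ m a, n'.φ m (ev F m a) = f (n.φ m a)

theorem Lifts.comp {A B C : SR R G} {X Y Z : Cx R G} {n : NQ A X} {n' : NQ B Y} {n'' : NQ C Z}
    {f : X.V →ₗ[R] Y.V} {f' : Y.V →ₗ[R] Z.V} {F : A ⟶ B} {F' : B ⟶ C} (h : Lifts n n' f F)
    (h' : Lifts n' n'' f' F') : Lifts n n'' (f' ∘ₗ f) (F ≫ F') := by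
  intro m a
  rw [ev_comp, h' m, h m, LinearMap.comp_apply]

theorem Lifts.add {A B : SR R G} {X Y : Cx R G} {n : NQ A X} {n' : NQ B Y}
    {f f' : X.V →ₗ[R] Y.V} {F F' : A ⟶ B} (h : Lifts n n' f F)
    (h' : Lifts n n' f' F') : Lifts n n' (f + f') (F + F') := by
  intro m a
  rw [ev_add, map_add, h' m, h m, LinearMap.add_apply]

theorem Lifts.zero {A B : SR R G} {X Y : Cx R G} {n : NQ A X} {n' : NQ B Y} :
    Lifts n n' 0 (0 : A ⟶ B) := by
  intro m a
  rw [ev_zero, map_zero, LinearMap.zero_apply]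

theorem Lifts.id {A : SR R G} {X : Cx R G} {n : NQ A X} : Lifts n n LinearMap.id (𝟙 A) := by
  intro m a
  rw [ev_id, LinearMap.id_apply]

theorem Lifts.uniq {A B : SR R G} {X Y : Cx R G} {n : NQ A X} {n' : NQ B Y}
    {f f' : X.V →ₗ[R] Y.V} {F F' : A ⟶ B} (h : Lifts n n' f F)
    (h' : Lifts n n' f' F') (e : f = f') : F = F' := by
  subst e
  apply NQ.lift_unique n n'
  intro m a
  rw [h m, h' m]

/-- inclusion of the first summand -/
noncomputable def inl (X Y : Cx R G) : Cx.Hom X (Cx.dsum X Y) where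
  f := LinearMap.inl R X.V Y.V
  f_ρ g x := by
    show (X.ρ g x, (0 : Y.V)) = (X.ρ g x, Y.ρ g 0)
    rw [map_zero]
  f_π i x := by
    show (X.π i x, (0 : Y.V)) = (X.π i x, Y.π i 0)
    rw [map_zero]
  f_d x := by
    show (X.d x, (0 : Y.V)) = (X.d x, Y.d 0)
    rw [map_zero]

/-- inclusion of the second summand -/
noncomputable def inr (X Y : Cx R G) : Cx.Hom Y (Cx.dsum X Y) where
  f := LinearMap.inr R X.V Y.V
  f_ρ g x := by
    show ((0 : X.V), Y.ρ g x) = (X.ρ g 0, Y.ρ g x)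
    rw [map_zero]
  f_π i x := by
    show ((0 : X.V), Y.π i x) = (X.π i 0, Y.π i x)
    rw [map_zero]
  f_d x := by
    show ((0 : X.V), Y.d x) = (X.d 0, Y.d x)
    rw [map_zero]

/-- first projection -/
noncomputable def fst (X Y : Cx R G) : Cx.Hom (Cx.dsum X Y) X where
  f := LinearMap.fst R X.V Y.V
  f_ρ g x := rfl
  f_π i x := rfl
  f_d x := rfl

/-- second projection -/
noncomputable def snd (X Y : Cx R G) : Cx.Hom (Cx.dsum X Y) Y where
  f := LinearMap.snd R X.V Y.V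
  f_ρ g x := rfl
  f_π i x := rfl
  f_d x := rfl

/-- the map `X → cone X` -/
noncomputable def toCone (X : Cx R G) : Cx.Hom X X.cone where
  f := LinearMap.inl R X.V X.V
  f_ρ g x := by
    show (X.ρ g x, (0 : X.V)) = (X.ρ g x, X.ρ g 0)
    rw [map_zero]
  f_π i x := by
    show (X.π i x, (0 : X.V)) = (X.π i x, X.π (i - 1) 0)
    rw [map_zero]
  f_d x := by
    show (X.d x, (0 : X.V)) = (X.d x + 0, - X.d 0)
    rw [map_zero, add_zero, neg_zero]

/-- the map `cone X → X'` given by a homotopy -/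
noncomputable def ofCone {X X' : Cx R G} (p q : Cx.Hom X X') (h : X.V →ₗ[R] X'.V)
    (h1 : ∀ a x, h (X.ρ a x) = X'.ρ a (h x)) (h2 : ∀ i x, h (X.π i x) = X'.π (i + 1) (h x))
    (h3 : ∀ x, p.f x - q.f x = X'.d (h x) + h (X.d x)) : Cx.Hom X.cone X' where
  f := (p.f - q.f) ∘ₗ LinearMap.fst R X.V X.V + h ∘ₗ LinearMap.snd R X.V X.V
  f_ρ g x := by
    obtain ⟨x, y⟩ := x
    show (p.f (X.ρ g x) - q.f (X.ρ g x)) + h (X.ρ g y) =
      X'.ρ g ((p.f x - q.f x) + h y)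
    rw [map_add, map_sub, p.f_ρ, q.f_ρ, h1]
  f_π i x := by
    obtain ⟨x, y⟩ := x
    show (p.f (X.π i x) - q.f (X.π i x)) + h (X.π (i - 1) y) =
      X'.π i ((p.f x - q.f x) + h y)
    rw [map_add, map_sub, p.f_π, q.f_π, h2, sub_add_cancel]
  f_d x := by
    obtain ⟨x, y⟩ := x
    show (p.f (X.d x + y) - q.f (X.d x + y)) + h (- X.d y) =
      X'.d ((p.f x - q.f x) + h y)
    rw [map_add, map_add, map_neg, map_add, map_sub, ← p.f_d, ← q.f_d]
    have := h3 y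
    have e : p.f (X.d x) + p.f y - (q.f (X.d x) + q.f y) + -h (X.d y) =
      p.f (X.d x) - q.f (X.d x) + ((p.f y - q.f y) - h (X.d y)) := by abel
    rw [e, this]
    abel

end HI

open HI

/-- If `p - q = d h + h d` then `p - q = b a` with `a : X → cone X`, `a x = (x, 0)`,
`b : cone X → X'`, `b (x, y) = (p - q) x + h y`. Let `E = gam (X ⊕ cone X)`, let `C` be the
simplicial representation of `exists_cone`, with `0 ~ 1` on `C`. The lifts of projections and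
inclusions give the idempotents `e = (E → A → E)` and `1 - e = (E → C → E)` of `E`, so `e ~ 1`
(`homotopy_add`, `precomp`, `postcomp`, `Homotopy.refl`). With `i0 = (1, 0)`, `i1 = (1, a)` from `A`
to `E` we get `i0 = e i1 ~ i1`, and `P = r i1`, `Q = r i0` with `r = (q, b) : E → B`. -/
theorem exists_simp_htpy {A B : SR R G} {X X' : Cx R G} (nA : NQ A X) (nB : NQ B X') {P Q : A ⟶ B}
    (p q : Cx.Hom X X') (hp : ∀ m a, p.f (nA.φ m a) = nB.φ m (ev P m a))
    (hq : ∀ m a, q.f (nA.φ m a) = nB.φ m (ev Q m a)) (hpq : Cx.Htpy p q) :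
    Nonempty (SimplicialObject.Homotopy Q P) := by
  obtain ⟨h, h1, h2, h3⟩ := hpq
  obtain ⟨C, ⟨nC⟩, ⟨hC⟩⟩ := exists_cone X nA.nonneg
  have hD : ∀ i : ℤ, i < 0 → ∀ x, (Cx.dsum X X.cone).π i x = 0 := by
    intro i hi x
    show (X.π i x.1, (X.π i x.2.1, X.π (i - 1) x.2.2)) = ((0 : X.V), ((0 : X.V), (0 : X.V)))
    rw [nA.nonneg i hi, nA.nonneg i hi, nA.nonneg (i - 1) (by omega)]
  obtain ⟨nE, -⟩ := gam_NQ (Cx.dsum X X.cone) hD
  set E := gam (Cx.dsum X X.cone) with hE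
  obtain ⟨iA, hiA⟩ := NQ.lift nA nE (inl X X.cone)
  obtain ⟨rA, hrA⟩ := NQ.lift nE nA (fst X X.cone)
  obtain ⟨iC, hiC⟩ := NQ.lift nC nE (inr X X.cone)
  obtain ⟨rC, hrC⟩ := NQ.lift nE nC (snd X X.cone)
  obtain ⟨a, ha⟩ := NQ.lift nA nC (toCone X)
  obtain ⟨b, hb⟩ := NQ.lift nC nB (ofCone p q h h1 h2 h3)
  have liA : Lifts nA nE (inl X X.cone).f iA := hiA
  have lrA : Lifts nE nA (fst X X.cone).f rA := hrA
  have liC : Lifts nC nE (inr X X.cone).f iC := hiC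
  have lrC : Lifts nE nC (snd X X.cone).f rC := hrC
  have la : Lifts nA nC (toCone X).f a := ha
  have lb : Lifts nC nB (ofCone p q h h1 h2 h3).f b := hb
  have lP : Lifts nA nB p.f P := fun m a => (hp m a).symm
  have lQ : Lifts nA nB q.f Q := fun m a => (hq m a).symm
  have e1 : rA ≫ iA + rC ≫ iC = 𝟙 E := by
    apply Lifts.uniq ((lrA.comp liA).add (lrC.comp liC)) Lifts.id
    apply LinearMap.ext
    intro x
    show (((x.1 + 0 : X.V), (0 + x.2 : X.cone.V)) : X.V × X.cone.V) = (x.1, x.2)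
    rw [add_zero, zero_add]
  -- `e ~ 1`
  obtain ⟨H1⟩ : Nonempty (SimplicialObject.Homotopy (rA ≫ iA) (𝟙 E)) := by
    have H0 := (hC.precomp rC).postcomp iC
    obtain ⟨H2⟩ := homotopy_add (SimplicialObject.Homotopy.refl (rA ≫ iA)) H0
    have e2 : rA ≫ iA + (rC ≫ 0) ≫ iC = rA ≫ iA := by
      rw [Limits.comp_zero, Limits.zero_comp, add_zero]
    have e3 : rA ≫ iA + (rC ≫ 𝟙 C) ≫ iC = 𝟙 E := by
      rw [Category.comp_id, e1]
    rw [e2, e3] at H2
    exact ⟨H2⟩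
  have H3 := (H1.precomp (iA + a ≫ iC)).postcomp (rA ≫ Q + rC ≫ b)
  have e4 : ((iA + a ≫ iC) ≫ rA ≫ iA) ≫ (rA ≫ Q + rC ≫ b) = Q := by
    apply Lifts.uniq ((((liA.add (la.comp liC)).comp (lrA.comp liA))).comp
      ((lrA.comp lQ).add (lrC.comp lb))) lQ
    ext x
    show q.f (x + 0) + ((p.f - q.f) (0 : X.V) + h (0 : X.V)) = q.f x
    rw [map_zero, map_zero, add_zero, add_zero, add_zero]
  have e5 : ((iA + a ≫ iC) ≫ 𝟙 E) ≫ (rA ≫ Q + rC ≫ b) = P := by
    rw [Category.comp_id]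
    apply Lifts.uniq ((liA.add (la.comp liC)).comp ((lrA.comp lQ).add (lrC.comp lb))) lP
    ext x
    show q.f (x + 0) + ((p.f (0 + x) - q.f (0 + x)) + h (0 + 0 : X.V)) = p.f x
    rw [add_zero, add_zero, zero_add, map_zero, add_zero]
    abel
  rw [e4, e5] at H3
  exact ⟨H3⟩

theorem htpy_inv (F : Rep.{u} R H ⥤ Rep.{u} R G) {A B : SR R H} {X X' : Cx R H} (nA : NQ A X)
    (nB : NQ B X') {Y Y' : Cx R G} (mA : NQ (SR.ap F A) Y) (mB : NQ (SR.ap F B) Y') {P Q : A ⟶ B}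
    (p q : Cx.Hom X X') (hp : ∀ m a, p.f (nA.φ m a) = nB.φ m (ev P m a))
    (hq : ∀ m a, q.f (nA.φ m a) = nB.φ m (ev Q m a)) (hpq : Cx.Htpy p q) (p' q' : Cx.Hom Y Y')
    (hp' : ∀ m a, p'.f (mA.φ m a) =
      mB.φ m (ev (((SimplicialObject.whiskering _ _).obj F).map P) m a))
    (hq' : ∀ m a, q'.f (mA.φ m a) =
      mB.φ m (ev (((SimplicialObject.whiskering _ _).obj F).map Q) m a)) : Cx.Htpy p' q' := by
  obtain ⟨h⟩ := exists_simp_htpy nA nB p q hp hq hpq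
  obtain ⟨h'⟩ := homotopy_ap F h
  exact (NQ.htpy mA mB h' q' p' hq' hp').symm

/-- the descents of the lifts of homotopy inverse maps -/
theorem HI.htpy_comp (F : Rep.{u} R H ⥤ Rep.{u} R G) {A B : SR R H} {X X' : Cx R H} (nA : NQ A X)
    (nB : NQ B X') {Y Y' : Cx R G} (mA : NQ (SR.ap F A) Y) (mB : NQ (SR.ap F B) Y')
    (f : Cx.Hom X X') (g : Cx.Hom X' X) (hfg : Cx.Htpy (g.comp f) (Cx.Hom.id X))
    (P : A ⟶ B) (Q : B ⟶ A) (hP : ∀ m a, nB.φ m (ev P m a) = f.f (nA.φ m a))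
    (hQ : ∀ m a, nA.φ m (ev Q m a) = g.f (nB.φ m a)) (f' : Cx.Hom Y Y') (g' : Cx.Hom Y' Y)
    (hf' : ∀ m a, f'.f (mA.φ m a) =
      mB.φ m (ev (((SimplicialObject.whiskering _ _).obj F).map P) m a))
    (hg' : ∀ m a, g'.f (mB.φ m a) =
      mA.φ m (ev (((SimplicialObject.whiskering _ _).obj F).map Q) m a)) :
    Cx.Htpy (g'.comp f') (Cx.Hom.id Y) := by
  apply htpy_inv F nA nA mA mA (P := P ≫ Q) (Q := 𝟙 A) (g.comp f) (Cx.Hom.id X) _ _ hfg
  · intro m a
    rw [Functor.map_comp]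
    show g'.f (f'.f (mA.φ m a)) = _
    rw [hf', hg']
    exact congrArg (mA.φ m) (ev_comp _ _ m a).symm
  · intro m a
    have e : ((SimplicialObject.whiskering (Rep.{u} R H) (Rep.{u} R G)).obj F).map (𝟙 A) =
        𝟙 (SR.ap F A) := CategoryTheory.Functor.map_id _ A
    have e2 : ev (((SimplicialObject.whiskering (Rep.{u} R H) (Rep.{u} R G)).obj F).map (𝟙 A)) m a
        = a := by
      rw [e]
      exact ev_id _ m a
    exact congrArg (mA.φ m) e2.symm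
  · intro m a
    rw [ev_comp, hQ, hP]
    rfl
  · intro m a
    rw [ev_id]
    rfl

theorem retr_inv (F : Rep.{u} R H ⥤ Rep.{u} R G) {A B : SR R H} {X X' : Cx R H} (nA : NQ A X)
    (nB : NQ B X') {Y Y' : Cx R G} (mA : NQ (SR.ap F A) Y) (mB : NQ (SR.ap F B) Y')
    (h : Cx.Retr X X') : Cx.Retr Y Y' := by
  obtain ⟨f, g, hfg⟩ := h
  obtain ⟨P, hP⟩ := NQ.lift nA nB f
  obtain ⟨Q, hQ⟩ := NQ.lift nB nA g
  obtain ⟨f', hf'⟩ := NQ.ind mA mB (((SimplicialObject.whiskering _ _).obj F).map P)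
  obtain ⟨g', hg'⟩ := NQ.ind mB mA (((SimplicialObject.whiskering _ _).obj F).map Q)
  exact ⟨f', g', HI.htpy_comp F nA nB mA mB f g hfg P Q hP hQ f' g' hf' hg'⟩

theorem heq_inv (F : Rep.{u} R H ⥤ Rep.{u} R G) {A B : SR R H} {X X' : Cx R H} (nA : NQ A X)
    (nB : NQ B X') {Y Y' : Cx R G} (mA : NQ (SR.ap F A) Y) (mB : NQ (SR.ap F B) Y')
    (h : Cx.Heq X X') : Cx.Heq Y Y' := by
  obtain ⟨f, g, hfg, hgf⟩ := h
  obtain ⟨P, hP⟩ := NQ.lift nA nB f
  obtain ⟨Q, hQ⟩ := NQ.lift nB nA g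
  obtain ⟨f', hf'⟩ := NQ.ind mA mB (((SimplicialObject.whiskering _ _).obj F).map P)
  obtain ⟨g', hg'⟩ := NQ.ind mB mA (((SimplicialObject.whiskering _ _).obj F).map Q)
  exact ⟨f', g', HI.htpy_comp F nA nB mA mB f g hfg P Q hP hQ f' g' hf' hg',
    HI.htpy_comp F nB nA mB mA g f hgf Q P hQ hP g' f' hg' hf'⟩

end PicInd
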