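import Mathlib

/-!
# Finite bisets with free right action
-/

set_option linter.unusedVariables false
set_option linter.unusedSectionVars false

namespace PicInd

/-- A finite `(G,H)`-biset on which `H` acts freely on the right: `l g u = g u`, `r u h = u h`. -/
structure RFB (G H : Type) [Group G] [Group H] where
  U : Type
  [fin : Finite U]
  l : G → U → U
  r : U → H → U
  l_one : ∀ u, l 1 u = u
  l_mul : ∀ g g' u, l (g * g') u = l g (l g' u)
  r_one : ∀ u, r u 1 = u
  r_mul : ∀ u h h', r u (h * h') = r (r u h) h'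
  lr : ∀ g u h, l g (r u h) = r (l g u) h
  free : ∀ u h, r u h = u → h = 1

attribute [instance] RFB.fin

namespace RFB

variable {G H K : Type} [Group G] [Group H] [Group K]

/-- Isomorphism of bisets. -/
def Iso (U V : RFB G H) : Prop :=
  ∃ e : U.U ≃ V.U, (∀ g u, e (U.l g u) = V.l g (e u)) ∧ (∀ u h, e (U.r u h) = V.r (e u) h)

/-- The disjoint union of two bisets. -/
def sum (U V : RFB G H) : RFB G H where
  U := U.U ⊕ V.U
  l g := Sum.map (U.l g) (V.l g)
  r u h := Sum.map (fun x => U.r x h) (fun x => V.r x h) u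
  l_one := by rintro (u | u) <;> simp [U.l_one, V.l_one]
  l_mul := by rintro g g' (u | u) <;> simp [U.l_mul, V.l_mul]
  r_one := by rintro (u | u) <;> simp [U.r_one, V.r_one]
  r_mul := by rintro (u | u) h h' <;> simp [U.r_mul, V.r_mul]
  lr := by rintro g (u | u) h <;> simp [U.lr, V.lr]
  free := by
    rintro (u | u) h hh
    · exact U.free u h (by simpa using hh)
    · exact V.free u h (by simpa using hh)

/-- The empty biset. -/
def empty (G H : Type) [Group G] [Group H] : RFB G H where
  U := Empty
  l g u := u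
  r u h := u
  l_one := by rintro ⟨⟩
  l_mul := by rintro g g' ⟨⟩
  r_one := by rintro ⟨⟩
  r_mul := by rintro ⟨⟩
  lr := by rintro g ⟨⟩
  free := by rintro ⟨⟩

/-- The biset `H` attached to a homomorphism `α : G → H`, with `g x h = α(g) x h`. -/
def ofHom [Finite H] (α : G →* H) : RFB G H where
  U := H
  l g x := α g * x
  r x h := x * h
  l_one x := by simp
  l_mul g g' x := by simp [mul_assoc]
  r_one x := by simp
  r_mul x h h' := by simp [mul_assoc]
  lr g x h := by simp [mul_assoc]
  free x h e := by simpa using e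

/-- The biset `G` attached to an injective homomorphism `β : H → G` (induction), with
`g x h = g x β(h)`. -/
def ofInj [Finite G] (β : H →* G) (hβ : Function.Injective β) : RFB G H where
  U := G
  l g x := g * x
  r x h := x * β h
  l_one x := by simp
  l_mul g g' x := by simp [mul_assoc]
  r_one x := by simp
  r_mul x h h' := by simp [mul_assoc]
  lr g x h := by simp [mul_assoc]
  free x h e := by
    apply hβ
    rw [map_one]
    exact mul_left_cancel (a := x) (by simpa using e)

/-- The equivalence relation on `U × V` whose classes form the composite `U ×_H V`. -/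
def compSetoid (U : RFB G H) (V : RFB H K) : Setoid (U.U × V.U) where
  r p q := ∃ h : H, q.1 = U.r p.1 h ∧ p.2 = V.l h q.2
  iseqv := {
    refl := fun p => ⟨1, (U.r_one _).symm, (V.l_one _).symm⟩
    symm := by
      rintro ⟨u, v⟩ ⟨u', v'⟩ ⟨h, h1, h2⟩
      simp only at h1 h2
      refine ⟨h⁻¹, ?_, ?_⟩
      · simp only [h1, ← U.r_mul, mul_inv_cancel, U.r_one]
      · simp only [h2, ← V.l_mul, inv_mul_cancel, V.l_one]
    trans := by
      rintro ⟨u, v⟩ ⟨u', v'⟩ ⟨u'', v''⟩ ⟨h, h1, h2⟩ ⟨k, h3, h4⟩
      simp only at h1 h2 h3 h4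
      refine ⟨h * k, ?_, ?_⟩
      · simp only [h3, h1, U.r_mul]
      · simp only [h2, h4, V.l_mul] }

/-- The composite biset `U ×_H V`. -/
def comp (U : RFB G H) (V : RFB H K) : RFB G K where
  U := Quotient (compSetoid U V)
  l g := Quotient.map' (s₁ := compSetoid U V) (s₂ := compSetoid U V) (fun p => (U.l g p.1, p.2))
    (by
      rintro ⟨u, v⟩ ⟨u', v'⟩ ⟨h, h1, h2⟩
      exact ⟨h, by simp only at h1 ⊢; rw [h1, U.lr], h2⟩)
  r x k := Quotient.map' (s₁ := compSetoid U V) (s₂ := compSetoid U V)
    (fun p => (p.1, V.r p.2 k))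
    (by
      rintro ⟨u, v⟩ ⟨u', v'⟩ ⟨h, h1, h2⟩
      exact ⟨h, h1, by simp only at h2 ⊢; rw [h2, V.lr]⟩) x
  l_one := by
    rintro ⟨u, v⟩
    exact congrArg (Quotient.mk (compSetoid U V)) (by simp [U.l_one])
  l_mul := by
    rintro g g' ⟨u, v⟩
    exact congrArg (Quotient.mk (compSetoid U V)) (by simp [U.l_mul])
  r_one := by
    rintro ⟨u, v⟩
    exact congrArg (Quotient.mk (compSetoid U V)) (by simp [V.r_one])
  r_mul := by
    rintro ⟨u, v⟩ h h'
    exact congrArg (Quotient.mk (compSetoid U V)) (by simp [V.r_mul])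
  lr := by
    rintro g ⟨u, v⟩ h
    rfl
  free := by
    rintro ⟨u, v⟩ k hk
    obtain ⟨h, h1, h2⟩ := Quotient.exact (s := compSetoid U V) hk
    simp only at h1 h2
    have : h = 1 := U.free _ _ h1.symm
    subst this
    rw [V.l_one] at h2
    exact V.free _ _ h2

end RFB

end PicInd
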