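import Mathlib
import Pool.Agent.Lib_MP_8744b5_al.Biset
import Pool.Agent.Lib_MP_8744b5_al.Simp

/-!
# Wreath data of bisets and the tensor induction functor on representations
-/

set_option linter.unusedVariables false
set_option linter.unusedSectionVars false

open CategoryTheory TensorProduct Opposite Simplicial

namespace PicInd

universe u

/-- A `G`-set `S` with a cocycle `c : G × S → H`; the same as a homomorphism from `G` to the wreath
product of `H` with the symmetric group of `S`. -/
structure Dat (G H : Type) [Group G] [Group H] where
  S : Type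
  [fin : Finite S]
  act : G →* Equiv.Perm S
  c : G → S → H
  c_mul : ∀ g g' s, c (g * g') s = c g (act g' s) * c g' s

attribute [instance] Dat.fin

namespace Dat

variable {G H K : Type} [Group G] [Group H] [Group K]

lemma c_one (D : Dat G H) (s : D.S) : D.c 1 s = 1 := by
  have := D.c_mul 1 1 s
  simpa using this

/-- the right-free biset `U` is realised by the data `D` -/
def Real (D : Dat G H) (U : RFB G H) : Prop :=
  ∃ e : D.S → U.U, Function.Bijective (fun p : D.S × H => U.r (e p.1) p.2) ∧
    ∀ g s, U.l g (e s) = U.r (e (D.act g s)) (D.c g s)

/-- equivalence of data -/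
def Equiv (D D' : Dat G H) : Prop :=
  ∃ (θ : D.S ≃ D'.S) (γ : D.S → H), (∀ g s, θ (D.act g s) = D'.act g (θ s)) ∧
    ∀ g s, D'.c g (θ s) * γ s = γ (D.act g s) * D.c g s

/-- disjoint union -/
def sum (D E : Dat G H) : Dat G H where
  S := D.S ⊕ E.S
  act := {
    toFun := fun g => Equiv.sumCongr (D.act g) (E.act g)
    map_one' := by ext s; rcases s with s | s <;> simp
    map_mul' := by intro g g'; ext s; rcases s with s | s <;> simp }
  c g := Sum.elim (D.c g) (E.c g)
  c_mul := by
    rintro g g' (s | s)
    · exact D.c_mul g g' s
    · exact E.c_mul g g' s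

/-- composite data -/
def comp (D : Dat G H) (E : Dat H K) : Dat G K where
  S := D.S × E.S
  act := {
    toFun := fun g =>
      { toFun := fun p => (D.act g p.1, E.act (D.c g p.1) p.2)
        invFun := fun p => (D.act g⁻¹ p.1, E.act (D.c g⁻¹ p.1) p.2)
        left_inv := by
          rintro ⟨s, t⟩
          ext
          · simp
          · simp only
            rw [← Equiv.Perm.mul_apply, ← map_mul, ← D.c_mul]
            simp [D.c_one]
        right_inv := by
          rintro ⟨s, t⟩
          ext
          · simp
          · simp only
            rw [← Equiv.Perm.mul_apply, ← map_mul, ← D.c_mul]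
            simp [D.c_one] }
    map_one' := by ext p <;> simp [D.c_one]
    map_mul' := by intro g g'; ext p <;> simp [D.c_mul] }
  c g p := E.c (D.c g p.1) p.2
  c_mul := by
    rintro g g' ⟨s, t⟩
    simp only [D.c_mul, E.c_mul]
    rfl

/-- the data of a homomorphism of groups -/
def ofHom (α : G →* H) : Dat G H where
  S := Unit
  act := 1
  c g _ := α g
  c_mul := by intro g g' s; simp

variable {R : Type u} [CommRing R]

/-- the tensor induction of a representation of `H` -/
noncomputable def rep (D : Dat G H) {M : Type u} [AddCommGroup M] [Module R M]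
    (τ : Representation R H M) : Representation R G (PiTensorProduct R (fun _ : D.S => M)) where
  toFun g := (PiTensorProduct.reindex R (fun _ : D.S => M) (D.act g)).toLinearMap ∘ₗ
    PiTensorProduct.map (fun s => τ (D.c g s))
  map_one' := by
    apply PiTensorProduct.ext
    ext v
    simp [D.c_one]
    rfl
  map_mul' := by
    intro g g'
    apply PiTensorProduct.ext
    ext v
    simp [D.c_mul]
    congr 1
    funext i
    have h1 : (Equiv.symm (D.act g * D.act g')) i = (Equiv.symm (D.act g')) ((Equiv.symm (D.act g)) i) :=
      rfl
    rw [h1, Equiv.apply_symm_apply]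

lemma rep_tprod (D : Dat G H) {M : Type u} [AddCommGroup M] [Module R M]
    (τ : Representation R H M) (g : G) (v : D.S → M) :
    D.rep τ g (PiTensorProduct.tprod R v) =
      PiTensorProduct.tprod R (fun s => τ (D.c g ((D.act g).symm s)) (v ((D.act g).symm s))) := by
  simp [rep]

/-- the tensor induction functor -/
noncomputable def T (D : Dat G H) : Rep.{u} R H ⥤ Rep.{u} R G where
  obj W := Rep.of (D.rep W.ρ)
  map f := Rep.ofHom ⟨PiTensorProduct.map (fun _ => f.hom.toLinearMap), fun g => by
    apply PiTensorProduct.ext
    ext v
    simp only [LinearMap.compMultilinearMap_apply, LinearMap.comp_apply, rep_tprod,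
      PiTensorProduct.map_tprod]
    congr 1
    funext s
    exact Rep.hom_comm_apply f _ _⟩
  map_id W := by
    apply Rep.hom_ext
    apply Representation.IntertwiningMap.ext
    apply PiTensorProduct.ext
    ext v
    simp
  map_comp f g := by
    apply Rep.hom_ext
    apply Representation.IntertwiningMap.ext
    apply PiTensorProduct.ext
    ext v
    simp

end Dat

/-- restriction functor along a homomorphism -/
noncomputable def resF {G H : Type} [Group G] [Group H] {R : Type u} [CommRing R] (α : G →* H) :
    Rep.{u} R H ⥤ Rep.{u} R G where
  obj W := Rep.of (W.ρ.comp α)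
  map f := Rep.ofHom ⟨f.hom.toLinearMap, fun g => by
    ext v
    exact Rep.hom_comm_apply f (α g) v⟩
  map_id W := rfl
  map_comp f g := rfl

end PicInd
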