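import Mathlib
import Pool.Agent.Lib_MP_8744b5_al.TFun

/-! Piece LC5: empty `S`. -/

set_option linter.unusedVariables false

open CategoryTheory TensorProduct Opposite Simplicial

namespace PicInd

universe u

variable {R : Type u} [CommRing R] {G H : Type} [Group G] [Group H]

namespace LC

/-- the identification of an empty tensor product with `R` -/
noncomputable def emE (D : Dat G H) [IsEmpty D.S] (M : Type u) [AddCommGroup M] [Module R M] :
    PiTensorProduct R (fun _ : D.S => M) ≃ₗ[R] R :=
  PiTensorProduct.isEmptyEquiv D.S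

theorem emE_tprod (D : Dat G H) [IsEmpty D.S] (M : Type u) [AddCommGroup M] [Module R M]
    (v : D.S → M) : emE (R := R) D M (PiTensorProduct.tprod R v) = 1 := by
  unfold emE
  simp

theorem emE_map (D : Dat G H) [IsEmpty D.S] {W W' : Rep.{u} R H} (f : W ⟶ W')
    (a : PiTensorProduct R (fun _ : D.S => W.V)) :
    emE (R := R) D W'.V ((D.T.map f).hom.toLinearMap a) = emE (R := R) D W.V a := by
  have h : (emE (R := R) D W'.V).toLinearMap ∘ₗ
      PiTensorProduct.map (fun _ : D.S => f.hom.toLinearMap) =
      (emE (R := R) D W.V).toLinearMap := by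
    apply PiTensorProduct.ext
    ext v
    simp only [LinearMap.compMultilinearMap_apply, LinearMap.comp_apply,
      LinearEquiv.coe_coe, PiTensorProduct.map_tprod]
    rw [emE_tprod, emE_tprod]
  exact LinearMap.congr_fun h a

theorem emE_rep (D : Dat G H) [IsEmpty D.S] {M : Type u} [AddCommGroup M] [Module R M]
    (τ : Representation R H M) (g : G) (a : PiTensorProduct R (fun _ : D.S => M)) :
    emE (R := R) D M (D.rep τ g a) = emE (R := R) D M a := by
  have h : (emE (R := R) D M).toLinearMap ∘ₗ (D.rep τ g) =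
      (emE (R := R) D M).toLinearMap := by
    apply PiTensorProduct.ext
    ext v
    simp only [LinearMap.compMultilinearMap_apply, LinearMap.comp_apply,
      LinearEquiv.coe_coe]
    rw [Dat.rep_tprod, emE_tprod, emE_tprod]
  exact LinearMap.congr_fun h a

/-- for empty `S` the functor `T_D` is constant with value `R` -/
theorem empty_NQ (D : Dat G H) [IsEmpty D.S] (A : SR R H) :
    Nonempty (NQ (SR.ap D.T A) (Cx.one R G)) := by
  have hfa : ∀ (m : ℕ) (i : Fin (m + 2)) (a : (SR.ap D.T A).V (m + 1)),
      emE (R := R) D (A.V m) ((SR.ap D.T A).fa m i a) = emE (R := R) D (A.V (m + 1)) a :=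
    fun m i a => emE_map D (A.δ i) a
  have hdg : ∀ (m : ℕ) (i : Fin (m + 1)) (a : (SR.ap D.T A).V m),
      emE (R := R) D (A.V (m + 1)) ((SR.ap D.T A).dg m i a) = emE (R := R) D (A.V m) a :=
    fun m i a => emE_map D (A.σ i) a
  refine ⟨{
    φ := fun m => match m with
      | 0 => (emE (R := R) D (A.V 0)).toLinearMap
      | Nat.succ n => 0
    φ_ρ := ?_
    φ_π := ?_
    surj := ?_
    ker := ?_
    comm := ?_
    nonneg := ?_ }⟩
  · intro m g a
    cases m with
    | zero => exact emE_rep D (A.ρ 0) g a
    | succ n =>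
      change (0 : R) = (Cx.one R G).ρ g (0 : R)
      exact (map_zero ((Cx.one R G).ρ g)).symm
  · intro m a
    cases m with
    | zero =>
      change (if ((0 : ℕ) : ℤ) = 0 then LinearMap.id else 0 : R →ₗ[R] R) _ = _
      rw [if_pos (by simp)]
      rfl
    | succ n =>
      change (Cx.one R G).π _ (0 : R) = (0 : R)
      exact map_zero ((Cx.one R G).π _)
  · intro m x hx
    cases m with
    | zero => exact ⟨(emE (R := R) D (A.V 0)).symm x, LinearEquiv.apply_symm_apply _ _⟩
    | succ n =>
      refine ⟨0, ?_⟩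
      have h1 : (if ((n + 1 : ℕ) : ℤ) = 0 then LinearMap.id else 0 : R →ₗ[R] R) x = x := hx
      rw [if_neg (by omega)] at h1
      exact h1
  · intro m a
    cases m with
    | zero =>
      change emE (R := R) D (A.V 0) a = 0 ↔ a ∈ (⊥ : Submodule R _)
      rw [Submodule.mem_bot]
      exact (emE (R := R) D (A.V 0)).map_eq_zero_iff
    | succ n =>
      constructor
      · intro _
        change a ∈ (⨆ i : Fin (n + 1), LinearMap.range ((SR.ap D.T A).dg n i))
        apply Submodule.mem_iSup_of_mem (0 : Fin (n + 1))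
        refine ⟨(emE (R := R) D (A.V n)).symm (emE (R := R) D (A.V (n + 1)) a), ?_⟩
        apply (emE (R := R) D (A.V (n + 1))).injective
        rw [hdg n 0, LinearEquiv.apply_symm_apply]
      · intro _
        rfl
  · intro m a
    cases m with
    | zero =>
      change emE (R := R) D (A.V 0) ((SR.ap D.T A).bd 0 a) = (0 : R)
      have h1 : (SR.ap D.T A).bd 0 a = (SR.ap D.T A).fa 0 0 a - (SR.ap D.T A).fa 0 1 a := by
        unfold SR.bd
        rw [Fin.sum_univ_two]
        simp [sub_eq_add_neg]
      rw [h1]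
      have h2 := hfa 0 0 a
      have h3 := hfa 0 1 a
      have h4 : emE (R := R) D (A.V 0) ((SR.ap D.T A).fa 0 0 a - (SR.ap D.T A).fa 0 1 a) =
          emE (R := R) D (A.V 0) ((SR.ap D.T A).fa 0 0 a) -
          emE (R := R) D (A.V 0) ((SR.ap D.T A).fa 0 1 a) :=
        map_sub (emE (R := R) D (A.V 0)) _ _
      rw [h4, h2, h3, sub_self]
    | succ n => rfl
  · intro i hi x
    change (if i = 0 then LinearMap.id else 0 : R →ₗ[R] R) x = 0
    rw [if_neg (by omega)]
    rfl

end LC

end PicInd
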