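import Mathlib
import Pool.Agent.Lib_MP_8744b5_al.Base

/-! Piece LC1: the complex of chains of proper nonempty subsets of a finite set `S` (reduced chains
of the sphere `(S^1)^{∧ S}`) and its dual. -/

set_option linter.unusedVariables false
set_option linter.unusedSectionVars false

open TensorProduct

namespace PicInd

universe u

variable {R : Type u} [CommRing R] {G : Type} [Group G]

/-- Chains of proper nonempty subsets of `S`. -/
def Ch (S : Type) [Fintype S] [DecidableEq S] : Type :=
  {C : Finset (Finset S) // (∀ F ∈ C, F.Nonempty ∧ F ≠ Finset.univ) ∧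
    ∀ F ∈ C, ∀ F' ∈ C, F ⊆ F' ∨ F' ⊆ F}

namespace LC

variable {S : Type} [Fintype S] [DecidableEq S]

instance : DecidableEq (Ch S) := by unfold Ch; infer_instance
instance : Finite (Ch S) := by unfold Ch; infer_instance

/-- remove one subset -/
def era (C : Ch S) (F : Finset S) : Ch S :=
  ⟨C.1.erase F, fun E hE => C.2.1 E (Finset.mem_of_mem_erase hE), fun E hE E' hE' =>
    C.2.2 E (Finset.mem_of_mem_erase hE) E' (Finset.mem_of_mem_erase hE')⟩

/-- `F` can be inserted into the chain `C` -/
def Ins (C : Ch S) (F : Finset S) : Prop :=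
  F ∉ C.1 ∧ F.Nonempty ∧ F ≠ Finset.univ ∧ ∀ E ∈ C.1, E ⊆ F ∨ F ⊆ E

instance (C : Ch S) (F : Finset S) : Decidable (Ins C F) := by unfold Ins; infer_instance

/-- insert one subset -/
def ins (C : Ch S) (F : Finset S) (h : Ins C F) : Ch S :=
  ⟨insert F C.1, by
    intro E hE
    rcases Finset.mem_insert.1 hE with rfl | hE
    · exact ⟨h.2.1, h.2.2.1⟩
    · exact C.2.1 E hE, by
    intro E hE E' hE'
    rcases Finset.mem_insert.1 hE with h1 | h1
    · rcases Finset.mem_insert.1 hE' with h2 | h2
      · rw [h1, h2]; exact Or.inl subset_rfl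
      · rw [h1]; exact (h.2.2.2 E' h2).symm
    · rcases Finset.mem_insert.1 hE' with h2 | h2
      · rw [h2]; exact h.2.2.2 E h1
      · exact C.2.2 E h1 E' h2⟩

/-- the number of elements of `C` strictly contained in `F` -/
def pos (C : Ch S) (F : Finset S) : ℕ := (C.1.filter fun E => E ⊂ F).card

/-- the action of permutations -/
def actCh (e : Equiv.Perm S) (C : Ch S) : Ch S :=
  ⟨C.1.image (fun F => F.map e.toEmbedding), by
    intro F hF
    obtain ⟨E, hE, rfl⟩ := Finset.mem_image.1 hF
    obtain ⟨h1, h2⟩ := C.2.1 E hE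
    refine ⟨Finset.map_nonempty.2 h1, fun h => h2 ?_⟩
    apply Finset.map_injective e.toEmbedding
    rw [h, Finset.map_univ_equiv], by
    intro F hF F' hF'
    obtain ⟨E, hE, rfl⟩ := Finset.mem_image.1 hF
    obtain ⟨E', hE', rfl⟩ := Finset.mem_image.1 hF'
    rcases C.2.2 E hE E' hE' with h | h
    · exact Or.inl (Finset.map_subset_map.2 h)
    · exact Or.inr (Finset.map_subset_map.2 h)⟩

theorem map_one_perm (F : Finset S) : F.map (1 : Equiv.Perm S).toEmbedding = F := by
  ext x
  rw [Finset.mem_map_equiv]
  exact Iff.rfl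

theorem map_mul_perm (e e' : Equiv.Perm S) (F : Finset S) :
    F.map (e * e').toEmbedding = (F.map e'.toEmbedding).map e.toEmbedding := by
  rw [Finset.map_map]
  rfl

theorem actCh_one (C : Ch S) : actCh 1 C = C := by
  apply Subtype.ext
  change C.1.image (fun F => F.map (1 : Equiv.Perm S).toEmbedding) = C.1
  simp only [map_one_perm]
  exact Finset.image_id

theorem actCh_mul (e e' : Equiv.Perm S) (C : Ch S) :
    actCh (e * e') C = actCh e (actCh e' C) := by
  apply Subtype.ext
  change C.1.image (fun F => F.map (e * e').toEmbedding) =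
    (C.1.image (fun F => F.map e'.toEmbedding)).image (fun F => F.map e.toEmbedding)
  rw [Finset.image_image]
  simp only [map_mul_perm]
  rfl

/-- the action of `G` on chains -/
@[reducible] def mulAct (act : G →* Equiv.Perm S) : MulAction G (Ch S) where
  smul g C := actCh (act g) C
  one_smul C := by
    change actCh (act 1) C = C
    rw [map_one, actCh_one]
  mul_smul g h C := by
    change actCh (act (g * h)) C = actCh (act g) (actCh (act h) C)
    rw [map_mul, actCh_mul]

/-- the differential: remove `F` with the sign `(-1)^(pos F + 1)` -/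
noncomputable def dL (R : Type u) [CommRing R] (S : Type) [Fintype S] [DecidableEq S] :
    (Ch S →₀ R) →ₗ[R] (Ch S →₀ R) :=
  Finsupp.lsum R (fun C => ∑ F ∈ C.1, ((-1 : ℤ) ^ (pos C F + 1)) • Finsupp.lsingle (era C F))

/-- the dual differential: insert `F` with the sign `(-1)^(|C| + pos F)` -/
noncomputable def dL' (R : Type u) [CommRing R] (S : Type) [Fintype S] [DecidableEq S] :
    (Ch S →₀ R) →ₗ[R] (Ch S →₀ R) :=
  Finsupp.lsum R (fun C => ∑ F : Finset S, if h : Ins C F then
    ((-1 : ℤ) ^ (C.1.card + pos C F)) • Finsupp.lsingle (ins C F h) else 0)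

/-- the projections, for a degree function -/
noncomputable def prD (R : Type u) [CommRing R] {ι : Type} (deg : ι → ℤ) (n : ℤ) :
    (ι →₀ R) →ₗ[R] (ι →₀ R) :=
  Finsupp.lsum R (fun C => if deg C = n then Finsupp.lsingle C else 0)

section lemmas

theorem card_era {C : Ch S} {F : Finset S} (h : F ∈ C.1) :
    (era C F).1.card + 1 = C.1.card := by
  change (C.1.erase F).card + 1 = C.1.card
  exact Finset.card_erase_add_one h

theorem card_ins {C : Ch S} {F : Finset S} (h : Ins C F) :
    (ins C F h).1.card = C.1.card + 1 := by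
  change (insert F C.1).card = C.1.card + 1
  exact Finset.card_insert_of_notMem h.1

theorem card_actCh (e : Equiv.Perm S) (C : Ch S) : (actCh e C).1.card = C.1.card := by
  change (C.1.image (fun F => F.map e.toEmbedding)).card = C.1.card
  exact Finset.card_image_of_injective _ (Finset.map_injective _)

theorem pos_actCh (e : Equiv.Perm S) (C : Ch S) (F : Finset S) :
    pos (actCh e C) (F.map e.toEmbedding) = pos C F := by
  change ((C.1.image (fun F => F.map e.toEmbedding)).filter
    fun E => E ⊂ F.map e.toEmbedding).card = (C.1.filter fun E => E ⊂ F).card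
  rw [Finset.filter_image, Finset.card_image_of_injective _ (Finset.map_injective _)]
  congr 1
  apply Finset.filter_congr
  intro E _
  exact Finset.map_ssubset_map

theorem era_actCh (e : Equiv.Perm S) (C : Ch S) (F : Finset S) :
    era (actCh e C) (F.map e.toEmbedding) = actCh e (era C F) := by
  apply Subtype.ext
  change (C.1.image (fun F => F.map e.toEmbedding)).erase (F.map e.toEmbedding) =
    (C.1.erase F).image (fun F => F.map e.toEmbedding)
  exact (Finset.image_erase (Finset.map_injective e.toEmbedding) C.1 F).symm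

theorem Ins_actCh (e : Equiv.Perm S) (C : Ch S) (F : Finset S) :
    Ins (actCh e C) (F.map e.toEmbedding) ↔ Ins C F := by
  unfold Ins
  refine and_congr ?_ (and_congr ?_ (and_congr ?_ ?_))
  · change ¬ (F.map e.toEmbedding ∈ C.1.image (fun F => F.map e.toEmbedding)) ↔ ¬ (F ∈ C.1)
    refine not_congr ?_
    constructor
    · intro h
      obtain ⟨E, hE, h1⟩ := Finset.mem_image.1 h
      rw [Finset.map_injective e.toEmbedding h1] at hE
      exact hE
    · intro h
      exact Finset.mem_image.2 ⟨F, h, rfl⟩
  · exact Finset.map_nonempty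
  · refine not_congr ?_
    constructor
    · intro h
      apply Finset.map_injective e.toEmbedding
      rw [h, Finset.map_univ_equiv]
    · intro h
      rw [h, Finset.map_univ_equiv]
  · constructor
    · intro h E hE
      have := h (E.map e.toEmbedding) (Finset.mem_image.2 ⟨E, hE, rfl⟩)
      rwa [Finset.map_subset_map, Finset.map_subset_map] at this
    · intro h E hE
      obtain ⟨E, hE', rfl⟩ := Finset.mem_image.1 hE
      rw [Finset.map_subset_map, Finset.map_subset_map]
      exact h E hE'

theorem ins_actCh (e : Equiv.Perm S) (C : Ch S) (F : Finset S)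
    (h : Ins (actCh e C) (F.map e.toEmbedding)) (h' : Ins C F) :
    ins (actCh e C) (F.map e.toEmbedding) h = actCh e (ins C F h') := by
  apply Subtype.ext
  change insert (F.map e.toEmbedding) (C.1.image (fun F => F.map e.toEmbedding)) =
    (insert F C.1).image (fun F => F.map e.toEmbedding)
  rw [Finset.image_insert]

theorem prD_single {ι : Type} (deg : ι → ℤ) (n : ℤ) (C : ι) (r : R) :
    prD R deg n (Finsupp.single C r) = if deg C = n then Finsupp.single C r else 0 := by
  unfold prD
  rw [Finsupp.lsum_single]
  split_ifs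
  · rfl
  · rfl

theorem dL_single (C : Ch S) (r : R) : dL R S (Finsupp.single C r) =
    ∑ F ∈ C.1, ((-1 : ℤ) ^ (pos C F + 1)) • Finsupp.single (era C F) r := by
  unfold dL
  rw [Finsupp.lsum_single, LinearMap.sum_apply]
  rfl

theorem dL'_single (C : Ch S) (r : R) : dL' R S (Finsupp.single C r) =
    ∑ F : Finset S, if h : Ins C F then
      ((-1 : ℤ) ^ (C.1.card + pos C F)) • Finsupp.single (ins C F h) r else 0 := by
  unfold dL'
  rw [Finsupp.lsum_single, LinearMap.sum_apply]
  refine Finset.sum_congr rfl fun F _ => ?_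
  split_ifs
  · rfl
  · rfl

theorem prD_self {ι : Type} (deg : ι → ℤ) (n : ℤ) (x : ι →₀ R) :
    prD R deg n (prD R deg n x) = prD R deg n x := by
  induction x using Finsupp.induction_linear with
  | zero => simp
  | add f g hf hg => simp only [map_add, hf, hg]
  | single C r =>
    rw [prD_single]
    split_ifs with h
    · rw [prD_single, if_pos h]
    · rw [map_zero]

theorem prD_ne {ι : Type} (deg : ι → ℤ) (n m : ℤ) (hnm : n ≠ m) (x : ι →₀ R) :
    prD R deg n (prD R deg m x) = 0 := by
  induction x using Finsupp.induction_linear with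
  | zero => simp
  | add f g hf hg => simp only [map_add, hf, hg, add_zero]
  | single C r =>
    rw [prD_single]
    split_ifs with h
    · rw [prD_single, if_neg (by rw [h]; exact Ne.symm hnm)]
    · rw [map_zero]

theorem prD_zero {ι : Type} (deg : ι → ℤ) (s : Finset ℤ) (hs : ∀ C, deg C ∈ s) (n : ℤ)
    (hn : n ∉ s) (x : ι →₀ R) : prD R deg n x = 0 := by
  induction x using Finsupp.induction_linear with
  | zero => simp
  | add f g hf hg => simp only [map_add, hf, hg, add_zero]
  | single C r =>
    rw [prD_single, if_neg]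
    intro h
    exact hn (h ▸ hs C)

theorem prD_sum {ι : Type} (deg : ι → ℤ) (s : Finset ℤ) (hs : ∀ C, deg C ∈ s) (x : ι →₀ R) :
    ∑ n ∈ s, prD R deg n x = x := by
  induction x using Finsupp.induction_linear with
  | zero => simp
  | add f g hf hg => simp only [map_add, Finset.sum_add_distrib, hf, hg]
  | single C r =>
    simp only [prD_single]
    rw [Finset.sum_ite_eq, if_pos (hs C)]

theorem prD_map {ι : Type} (deg : ι → ℤ) (f : ι → ι) (hf : ∀ C, deg (f C) = deg C) (n : ℤ)
    (x : ι →₀ R) : prD R deg n (Finsupp.lmapDomain R R f x) =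
      Finsupp.lmapDomain R R f (prD R deg n x) := by
  induction x using Finsupp.induction_linear with
  | zero => simp
  | add f g hf hg => simp only [map_add, hf, hg]
  | single C r =>
    rw [Finsupp.lmapDomain_apply, Finsupp.mapDomain_single, prD_single, prD_single, hf C]
    split_ifs
    · rw [Finsupp.lmapDomain_apply, Finsupp.mapDomain_single]
    · rw [map_zero]

theorem card_le (C : Ch S) : C.1.card ≤ (Finset.univ : Finset (Finset S)).card :=
  Finset.card_le_card (Finset.subset_univ _)

theorem mem_s (C : Ch S) : (C.1.card : ℤ) + 1 ∈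
    (Finset.range ((Finset.univ : Finset (Finset S)).card + 2)).map Nat.castEmbedding := by
  rw [Finset.mem_map]
  refine ⟨C.1.card + 1, ?_, ?_⟩
  · rw [Finset.mem_range]
    have := card_le C
    omega
  · simp

theorem mem_s' (C : Ch S) : -((C.1.card : ℤ) + 1) ∈
    ((Finset.range ((Finset.univ : Finset (Finset S)).card + 2)).map Nat.castEmbedding).map
    (Equiv.neg ℤ).toEmbedding := by
  rw [Finset.mem_map]
  exact ⟨(C.1.card : ℤ) + 1, mem_s C, rfl⟩

theorem pos_era_of_ssubset {C : Ch S} {F F' : Finset S} (hF : F ∈ C.1) (h : F ⊂ F') :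
    pos C F' = pos (era C F) F' + 1 := by
  unfold pos
  have e : (C.1.erase F).filter (fun E => E ⊂ F') = (C.1.filter fun E => E ⊂ F').erase F := by
    ext E
    simp only [Finset.mem_filter, Finset.mem_erase]
    tauto
  change (C.1.filter fun E => E ⊂ F').card = ((C.1.erase F).filter fun E => E ⊂ F').card + 1
  rw [e, Finset.card_erase_add_one]
  exact Finset.mem_filter.2 ⟨hF, h⟩

theorem pos_era_of_not {C : Ch S} {F F' : Finset S} (h : ¬ F ⊂ F') :
    pos (era C F) F' = pos C F' := by
  unfold pos
  change ((C.1.erase F).filter fun E => E ⊂ F').card = (C.1.filter fun E => E ⊂ F').card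
  congr 1
  ext E
  simp only [Finset.mem_filter, Finset.mem_erase]
  constructor
  · rintro ⟨⟨_, h1⟩, h2⟩
    exact ⟨h1, h2⟩
  · rintro ⟨h1, h2⟩
    refine ⟨⟨?_, h1⟩, h2⟩
    rintro rfl
    exact h h2

theorem pos_ins_of_ssubset {C : Ch S} {F F' : Finset S} (hF : Ins C F) (h : F ⊂ F') :
    pos (ins C F hF) F' = pos C F' + 1 := by
  unfold pos
  change ((insert F C.1).filter fun E => E ⊂ F').card = (C.1.filter fun E => E ⊂ F').card + 1
  rw [Finset.filter_insert, if_pos h, Finset.card_insert_of_notMem]
  intro h1
  exact hF.1 (Finset.mem_filter.1 h1).1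

theorem pos_ins_of_not {C : Ch S} {F F' : Finset S} (hF : Ins C F) (h : ¬ F ⊂ F') :
    pos (ins C F hF) F' = pos C F' := by
  unfold pos
  change ((insert F C.1).filter fun E => E ⊂ F').card = (C.1.filter fun E => E ⊂ F').card
  rw [Finset.filter_insert, if_neg h]

theorem ssubset_or {C : Ch S} {F F' : Finset S} (hF : F ∈ C.1) (hF' : F' ∈ C.1) (hne : F ≠ F') :
    F ⊂ F' ∨ F' ⊂ F := by
  rcases C.2.2 F hF F' hF' with h | h
  · exact Or.inl (lt_of_le_of_ne h hne)
  · exact Or.inr (lt_of_le_of_ne h (Ne.symm hne))

/-- the sign rule for removing two elements, one order -/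
theorem sign_era {C : Ch S} {F F' : Finset S} (hF : F ∈ C.1) (hF' : F' ∈ C.1) (h : F ⊂ F') :
    (-1 : ℤ) ^ (pos C F + 1) * (-1 : ℤ) ^ (pos (era C F) F' + 1) +
      (-1 : ℤ) ^ (pos C F' + 1) * (-1 : ℤ) ^ (pos (era C F') F + 1) = 0 := by
  have h1 := pos_era_of_ssubset hF h
  have h2 : pos (era C F') F = pos C F := pos_era_of_not (fun h' => (lt_asymm h h'))
  rw [h1, h2]
  ring

theorem sign_ins {C : Ch S} {F F' : Finset S} (hF : Ins C F) (hF' : Ins C F') (h : F ⊂ F') :
    (-1 : ℤ) ^ (C.1.card + pos C F) *
        (-1 : ℤ) ^ ((ins C F hF).1.card + pos (ins C F hF) F') +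
      (-1 : ℤ) ^ (C.1.card + pos C F') *
        (-1 : ℤ) ^ ((ins C F' hF').1.card + pos (ins C F' hF') F) = 0 := by
  have h1 := pos_ins_of_ssubset hF h
  have h2 : pos (ins C F' hF') F = pos C F := pos_ins_of_not hF' (fun h' => (lt_asymm h h'))
  rw [h1, h2, card_ins, card_ins]
  ring

theorem dL_dL (x : Ch S →₀ R) : dL R S (dL R S x) = 0 := by
  induction x using Finsupp.induction_linear with
  | zero => simp
  | add f g hf hg => simp only [map_add, hf, hg, add_zero]
  | single C r =>
    rw [dL_single, map_sum]
    simp only [map_zsmul, dL_single, Finset.smul_sum, smul_smul]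
    have hs : ∀ F ∈ C.1, ∑ F' ∈ (era C F).1,
        ((-1 : ℤ) ^ (pos C F + 1) * (-1 : ℤ) ^ (pos (era C F) F' + 1)) •
          (Finsupp.single (era (era C F) F') r : Ch S →₀ R) =
        ∑ F' ∈ C.1, if F = F' then 0 else
          ((-1 : ℤ) ^ (pos C F + 1) * (-1 : ℤ) ^ (pos (era C F) F' + 1)) •
          (Finsupp.single (era (era C F) F') r : Ch S →₀ R) := by
      intro F hF
      have e : (era C F).1 = C.1.erase F := rfl
      rw [e, ← Finset.add_sum_erase C.1 _ hF, if_pos rfl, zero_add]
      refine Finset.sum_congr rfl fun F' hF' => ?_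
      rw [if_neg]
      exact (Finset.ne_of_mem_erase hF').symm
    rw [Finset.sum_congr rfl hs, ← Finset.sum_product']
    refine Finset.sum_involution (fun p _ => (p.2, p.1)) ?_ ?_ ?_ ?_
    · rintro ⟨F, F'⟩ hp
      obtain ⟨hF, hF'⟩ := Finset.mem_product.1 hp
      dsimp only at hF hF' ⊢
      by_cases h : F = F'
      · rw [if_pos h, if_pos h.symm, add_zero]
      · rw [if_neg h, if_neg (Ne.symm h)]
        have e : era (era C F') F = era (era C F) F' := by
          apply Subtype.ext
          exact Finset.erase_right_comm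
        rw [e, ← add_smul]
        rcases ssubset_or hF hF' h with h1 | h1
        · rw [sign_era hF hF' h1, zero_smul]
        · rw [add_comm, sign_era hF' hF h1, zero_smul]
    · rintro ⟨F, F'⟩ hp h1 h2
      simp only [Prod.mk.injEq] at h2
      apply h1
      dsimp only
      rw [if_pos h2.2]
    · rintro ⟨F, F'⟩ hp
      obtain ⟨hF, hF'⟩ := Finset.mem_product.1 hp
      exact Finset.mem_product.2 ⟨hF', hF⟩
    · rintro ⟨F, F'⟩ hp
      rfl

theorem ins_swap {C : Ch S} {F F' : Finset S} (h : Ins C F) (h' : Ins (ins C F h) F') :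
    ∃ h2 : Ins C F', Ins (ins C F' h2) F := by
  have hne : F' ≠ F := by
    rintro rfl
    exact h'.1 (Finset.mem_insert_self _ _)
  have h2 : Ins C F' := ⟨fun hm => h'.1 (Finset.mem_insert_of_mem hm), h'.2.1, h'.2.2.1,
    fun E hE => h'.2.2.2 E (Finset.mem_insert_of_mem hE)⟩
  refine ⟨h2, ?_, h.2.1, h.2.2.1, ?_⟩
  · intro hm
    rcases Finset.mem_insert.1 hm with h3 | h3
    · exact hne h3.symm
    · exact h.1 h3
  · intro E hE
    rcases Finset.mem_insert.1 hE with h3 | h3
    · rw [h3]
      exact (h'.2.2.2 F (Finset.mem_insert_self _ _)).symm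
    · exact h.2.2.2 E h3

theorem ins_ssubset_or {C : Ch S} {F F' : Finset S} (h : Ins C F) (h' : Ins (ins C F h) F') :
    F ⊂ F' ∨ F' ⊂ F := by
  have hne : F ≠ F' := by
    rintro rfl
    exact h'.1 (Finset.mem_insert_self _ _)
  rcases h'.2.2.2 F (Finset.mem_insert_self _ _) with h3 | h3
  · exact Or.inl (lt_of_le_of_ne h3 hne)
  · exact Or.inr (lt_of_le_of_ne h3 (Ne.symm hne))

theorem dL'_dL' (x : Ch S →₀ R) : dL' R S (dL' R S x) = 0 := by
  induction x using Finsupp.induction_linear with
  | zero => simp
  | add f g hf hg => simp only [map_add, hf, hg, add_zero]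
  | single C r =>
    rw [dL'_single, map_sum]
    have hs : ∀ F : Finset S, dL' R S (if h : Ins C F then
        ((-1 : ℤ) ^ (C.1.card + pos C F)) • Finsupp.single (ins C F h) r else 0) =
        ∑ F' : Finset S, if h : Ins C F then (if h' : Ins (ins C F h) F' then
          ((-1 : ℤ) ^ (C.1.card + pos C F) *
            (-1 : ℤ) ^ ((ins C F h).1.card + pos (ins C F h) F')) •
            (Finsupp.single (ins (ins C F h) F' h') r : Ch S →₀ R) else 0) else 0 := by
      intro F
      by_cases h : Ins C F
      · simp only [dif_pos h]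
        rw [map_zsmul, dL'_single, Finset.smul_sum]
        refine Finset.sum_congr rfl fun F' _ => ?_
        split_ifs
        · rw [smul_smul]
        · rw [smul_zero]
      · simp only [dif_neg h, map_zero, Finset.sum_const_zero]
    simp only [hs]
    rw [← Finset.sum_product']
    refine Finset.sum_involution (fun p _ => (p.2, p.1)) ?_ ?_ ?_ ?_
    · rintro ⟨F, F'⟩ hp
      dsimp only
      by_cases h : ∃ h : Ins C F, Ins (ins C F h) F'
      · obtain ⟨h, h'⟩ := h
        obtain ⟨h2, h2'⟩ := ins_swap h h'
        rw [dif_pos h, dif_pos h', dif_pos h2, dif_pos h2']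
        have e : ins (ins C F' h2) F h2' = ins (ins C F h) F' h' := by
          apply Subtype.ext
          exact Finset.insert_comm _ _ _
        rw [e, ← add_smul]
        rcases ins_ssubset_or h h' with h1 | h1
        · rw [sign_ins h h2 h1, zero_smul]
        · rw [add_comm, sign_ins h2 h h1, zero_smul]
      · have hn : ¬ ∃ h : Ins C F', Ins (ins C F' h) F := by
          rintro ⟨h1, h2⟩
          exact h (ins_swap h1 h2)
        have e1 : ∀ (A B : Finset S), (¬ ∃ h : Ins C A, Ins (ins C A h) B) →
            (if h : Ins C A then (if h' : Ins (ins C A h) B then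
              ((-1 : ℤ) ^ (C.1.card + pos C A) *
                (-1 : ℤ) ^ ((ins C A h).1.card + pos (ins C A h) B)) •
                (Finsupp.single (ins (ins C A h) B h') r : Ch S →₀ R) else 0) else 0) = 0 := by
          intro A B hAB
          split_ifs with h1 h2
          · exact absurd ⟨h1, h2⟩ hAB
          · rfl
          · rfl
        rw [e1 F F' h, e1 F' F hn, add_zero]
    · rintro ⟨F, F'⟩ hp h1 h2
      simp only [Prod.mk.injEq] at h2
      apply h1
      dsimp only
      obtain ⟨rfl, _⟩ := h2
      split_ifs with h3 h4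
      · exact absurd (Finset.mem_insert_self _ _) h4.1
      · rfl
      · rfl
    · rintro ⟨F, F'⟩ hp
      exact Finset.mem_product.2 ⟨Finset.mem_univ _, Finset.mem_univ _⟩
    · rintro ⟨F, F'⟩ hp
      rfl

theorem dL_map (e : Equiv.Perm S) (x : Ch S →₀ R) :
    dL R S (Finsupp.lmapDomain R R (actCh e) x) =
      Finsupp.lmapDomain R R (actCh e) (dL R S x) := by
  induction x using Finsupp.induction_linear with
  | zero => simp
  | add f g hf hg => simp only [map_add, hf, hg]
  | single C r =>
    rw [dL_single, map_sum, Finsupp.lmapDomain_apply, Finsupp.mapDomain_single, dL_single]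
    change ∑ F ∈ C.1.image (fun F => F.map e.toEmbedding),
      ((-1 : ℤ) ^ (pos (actCh e C) F + 1)) • Finsupp.single (era (actCh e C) F) r = _
    rw [Finset.sum_image (fun A _ B _ h => Finset.map_injective _ h)]
    refine Finset.sum_congr rfl fun F hF => ?_
    rw [map_zsmul, Finsupp.lmapDomain_apply, Finsupp.mapDomain_single, pos_actCh, era_actCh]

theorem dL'_map (e : Equiv.Perm S) (x : Ch S →₀ R) :
    dL' R S (Finsupp.lmapDomain R R (actCh e) x) =
      Finsupp.lmapDomain R R (actCh e) (dL' R S x) := by
  induction x using Finsupp.induction_linear with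
  | zero => simp
  | add f g hf hg => simp only [map_add, hf, hg]
  | single C r =>
    rw [dL'_single, map_sum, Finsupp.lmapDomain_apply, Finsupp.mapDomain_single, dL'_single]
    symm
    refine Fintype.sum_equiv e.finsetCongr _ _ fun F => ?_
    have hF : e.finsetCongr F = F.map e.toEmbedding := rfl
    rw [hF]
    by_cases h : Ins C F
    · have h' := (Ins_actCh e C F).2 h
      rw [dif_pos h, dif_pos h', map_zsmul, Finsupp.lmapDomain_apply, Finsupp.mapDomain_single,
        card_actCh, pos_actCh, ins_actCh e C F h' h]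
    · have h' : ¬ Ins (actCh e C) (F.map e.toEmbedding) := fun h1 => h ((Ins_actCh e C F).1 h1)
      rw [dif_neg h, dif_neg h', map_zero]

theorem prD_dL (n : ℤ) (x : Ch S →₀ R) :
    prD R (fun C : Ch S => (C.1.card : ℤ) + 1) n (dL R S x) =
      dL R S (prD R (fun C : Ch S => (C.1.card : ℤ) + 1) (n + 1) x) := by
  induction x using Finsupp.induction_linear with
  | zero => simp
  | add f g hf hg => simp only [map_add, hf, hg]
  | single C r =>
    rw [dL_single, map_sum, prD_single]
    by_cases h : (C.1.card : ℤ) + 1 = n + 1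
    · rw [if_pos h, dL_single]
      refine Finset.sum_congr rfl fun F hF => ?_
      rw [map_zsmul, prD_single, if_pos]
      have := card_era hF
      omega
    · rw [if_neg h, map_zero]
      refine Finset.sum_eq_zero fun F hF => ?_
      rw [map_zsmul, prD_single, if_neg, smul_zero]
      have := card_era hF
      omega

theorem prD_dL' (n : ℤ) (x : Ch S →₀ R) :
    prD R (fun C : Ch S => -((C.1.card : ℤ) + 1)) n (dL' R S x) =
      dL' R S (prD R (fun C : Ch S => -((C.1.card : ℤ) + 1)) (n + 1) x) := by
  induction x using Finsupp.induction_linear with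
  | zero => simp
  | add f g hf hg => simp only [map_add, hf, hg]
  | single C r =>
    rw [dL'_single, map_sum, prD_single]
    by_cases h : -((C.1.card : ℤ) + 1) = n + 1
    · rw [if_pos h, dL'_single]
      refine Finset.sum_congr rfl fun F _ => ?_
      split_ifs with hF
      · rw [map_zsmul, prD_single, if_pos]
        have := card_ins hF
        omega
      · rw [map_zero]
    · rw [if_neg h, map_zero]
      refine Finset.sum_eq_zero fun F _ => ?_
      split_ifs with hF
      · rw [map_zsmul, prD_single, if_neg, smul_zero]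
        have := card_ins hF
        omega
      · rw [map_zero]

theorem lmap_one : Finsupp.lmapDomain R R (actCh (1 : Equiv.Perm S)) = LinearMap.id := by
  have : actCh (1 : Equiv.Perm S) = id := funext actCh_one
  rw [this, Finsupp.lmapDomain_id]

theorem lmap_mul (e e' : Equiv.Perm S) : Finsupp.lmapDomain R R (actCh (e * e')) =
    Finsupp.lmapDomain R R (actCh e) ∘ₗ Finsupp.lmapDomain R R (actCh e') := by
  have : actCh (e * e') = actCh e ∘ actCh e' := funext (actCh_mul e e')
  rw [this, Finsupp.lmapDomain_comp]

end lemmas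

/-- The chain complex of `(S^1)^{∧ S}`: the chain `C` has degree `|C| + 1`. -/
noncomputable def LC (R : Type u) [CommRing R] (act : G →* Equiv.Perm S) : Cx R G where
  V := Ch S →₀ R
  ρ := {
    toFun := fun g => Finsupp.lmapDomain R R (actCh (act g))
    map_one' := by rw [map_one, lmap_one]; rfl
    map_mul' := fun g h => by rw [map_mul, lmap_mul]; rfl }
  d := dL R S
  π := prD R (fun C : Ch S => (C.1.card : ℤ) + 1)
  s := (Finset.range ((Finset.univ : Finset (Finset S)).card + 2)).map Nat.castEmbedding
  ax := {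
    π_zero := fun i hi x => prD_zero _ _ mem_s i hi x
    π_sum := fun x => prD_sum _ _ mem_s x
    π_self := fun i x => prD_self _ i x
    π_ne := fun i j h x => prD_ne _ i j h x
    π_d := fun i x => prD_dL i x
    d_d := fun x => dL_dL x
    π_ρ := fun g i x => prD_map _ _ (fun C => by rw [card_actCh]) i x
    d_ρ := fun g x => dL_map (act g) x }

/-- The dual complex: the chain `C` has degree `-(|C| + 1)`. -/
noncomputable def LD (R : Type u) [CommRing R] (act : G →* Equiv.Perm S) : Cx R G where
  V := Ch S →₀ R
  ρ := {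
    toFun := fun g => Finsupp.lmapDomain R R (actCh (act g))
    map_one' := by rw [map_one, lmap_one]; rfl
    map_mul' := fun g h => by rw [map_mul, lmap_mul]; rfl }
  d := dL' R S
  π := prD R (fun C : Ch S => -((C.1.card : ℤ) + 1))
  s := ((Finset.range ((Finset.univ : Finset (Finset S)).card + 2)).map Nat.castEmbedding).map
    (Equiv.neg ℤ).toEmbedding
  ax := {
    π_zero := fun i hi x => prD_zero _ _ mem_s' i hi x
    π_sum := fun x => prD_sum _ _ mem_s' x
    π_self := fun i x => prD_self _ i x
    π_ne := fun i j h x => prD_ne _ i j h x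
    π_d := fun i x => prD_dL' i x
    d_d := fun x => dL'_dL' x
    π_ρ := fun g i x => prD_map _ _ (fun C => by rw [card_actCh]) i x
    d_ρ := fun g x => dL'_map (act g) x }

theorem LC_isPerm (act : G →* Equiv.Perm S) : Cx.IsPerm (LC R act) := by
  refine ⟨Ch S, inferInstance, mulAct act, Finsupp.basisSingleOne,
    fun C => (C.1.card : ℤ) + 1, fun g C => ?_, fun C => ?_⟩
  · change Finsupp.lmapDomain R R (actCh (act g)) (Finsupp.basisSingleOne C) =
      Finsupp.basisSingleOne (actCh (act g) C)
    rw [Finsupp.coe_basisSingleOne, Finsupp.lmapDomain_apply, Finsupp.mapDomain_single]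
  · change prD R (fun C : Ch S => (C.1.card : ℤ) + 1) _ (Finsupp.basisSingleOne C) =
      Finsupp.basisSingleOne C
    rw [Finsupp.coe_basisSingleOne, prD_single, if_pos rfl]

theorem LD_isPerm (act : G →* Equiv.Perm S) : Cx.IsPerm (LD R act) := by
  refine ⟨Ch S, inferInstance, mulAct act, Finsupp.basisSingleOne,
    fun C => -((C.1.card : ℤ) + 1), fun g C => ?_, fun C => ?_⟩
  · change Finsupp.lmapDomain R R (actCh (act g)) (Finsupp.basisSingleOne C) =
      Finsupp.basisSingleOne (actCh (act g) C)
    rw [Finsupp.coe_basisSingleOne, Finsupp.lmapDomain_apply, Finsupp.mapDomain_single]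
  · change prD R (fun C : Ch S => -((C.1.card : ℤ) + 1)) _ (Finsupp.basisSingleOne C) =
      Finsupp.basisSingleOne C
    rw [Finsupp.coe_basisSingleOne, prD_single, if_pos rfl]

end LC

end PicInd
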