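import Mathlib
import Pool.Agent.Lib_MP_8744b5_al.LCDef

/-! Piece LC2: the matching on pairs of chains (pure combinatorics; checked by computer for
`|S| ≤ 4`). -/

set_option linter.unusedVariables false

namespace PicInd

namespace LC

variable {S : Type} [Fintype S] [DecidableEq S]

/-- `T`: the smallest element of the chain `E`, or `univ` -/
def tT (E : Ch S) : Finset S := E.1.inf id

/-- `K`: the smallest element of the chain `C` meeting `T`, or `univ` -/
def tK (C E : Ch S) : Finset S := (C.1.filter fun F => ¬ Disjoint F (tT E)).inf id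

/-- `K \ T` -/
def tE (C E : Ch S) : Finset S := tK C E \ tT E

/-- upper pairs of the first kind: `K \ T` is nonempty and in `C` -/
def A1 (C E : Ch S) : Prop := (tE C E).Nonempty ∧ tE C E ∈ C.1
/-- lower pairs of the first kind: `K \ T` is nonempty and not in `C` -/
def B1 (C E : Ch S) : Prop := (tE C E).Nonempty ∧ tE C E ∉ C.1
/-- upper pairs of the second kind: `K ⊆ T`, `K ≠ univ`, `K ∉ E` -/
def A2 (C E : Ch S) : Prop := tE C E = ∅ ∧ tK C E ≠ Finset.univ ∧ tK C E ∉ E.1
/-- lower pairs of the second kind: `K ⊆ T`, `K ≠ univ`, `K ∈ E` -/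
def B2 (C E : Ch S) : Prop := tE C E = ∅ ∧ tK C E ≠ Finset.univ ∧ tK C E ∈ E.1

/-- the empty chain -/
def nil : Ch S := ⟨∅, by simp, by simp⟩

/-! ### Auxiliary facts on `T` and `K` -/

lemma chain_inf (A : Finset (Finset S)) (hA : ∀ F ∈ A, ∀ F' ∈ A, F ⊆ F' ∨ F' ⊆ F)
    (hne : A.Nonempty) : A.inf id ∈ A := by
  obtain ⟨X, hX, hmin⟩ := A.exists_min_image Finset.card hne
  have h1 : ∀ F ∈ A, X ⊆ F := by
    intro F hF
    rcases hA X hX F hF with h | h
    · exact h
    · exact (Finset.eq_of_subset_of_card_le h (hmin F hF)).symm.subset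
  have h2 : A.inf id = X := by
    apply le_antisymm
    · exact Finset.inf_le (f := id) hX
    · exact Finset.le_inf (fun F hF => h1 F hF)
  rw [h2]; exact hX

lemma tT_le {E : Ch S} {F : Finset S} (hF : F ∈ E.1) : tT E ⊆ F :=
  Finset.inf_le (f := id) hF

lemma tT_spec (E : Ch S) : tT E ∈ E.1 ∨ (E.1 = ∅ ∧ tT E = Finset.univ) := by
  rcases Finset.eq_empty_or_nonempty E.1 with h | h
  · right
    refine ⟨h, ?_⟩
    unfold tT
    rw [h]
    exact Finset.inf_empty
  · left
    exact chain_inf E.1 E.2.2 h

lemma tT_eq {E : Ch S} {X : Finset S} (hX : X ∈ E.1) (h : ∀ F ∈ E.1, X ⊆ F) : tT E = X := by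
  apply le_antisymm
  · exact tT_le hX
  · exact Finset.le_inf (fun F hF => h F hF)

lemma tK_le {C E : Ch S} {F : Finset S} (hF : F ∈ C.1) (h : ¬ Disjoint F (tT E)) :
    tK C E ⊆ F :=
  Finset.inf_le (f := id) (Finset.mem_filter.2 ⟨hF, h⟩)

lemma tK_spec (C E : Ch S) : (tK C E ∈ C.1 ∧ ¬ Disjoint (tK C E) (tT E)) ∨
    ((∀ F ∈ C.1, Disjoint F (tT E)) ∧ tK C E = Finset.univ) := by
  rcases Finset.eq_empty_or_nonempty (C.1.filter fun F => ¬ Disjoint F (tT E)) with h | h
  · right
    refine ⟨?_, ?_⟩
    · intro F hF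
      by_contra hd
      have : F ∈ (C.1.filter fun F => ¬ Disjoint F (tT E)) := Finset.mem_filter.2 ⟨hF, hd⟩
      rw [h] at this
      exact absurd this (Finset.notMem_empty F)
    · unfold tK
      rw [h]
      exact Finset.inf_empty
  · left
    have := chain_inf (C.1.filter fun F => ¬ Disjoint F (tT E))
      (fun F hF F' hF' => C.2.2 F (Finset.mem_filter.1 hF).1 F' (Finset.mem_filter.1 hF').1) h
    exact Finset.mem_filter.1 this

lemma tK_eq {C E : Ch S} {X : Finset S} (hX : X ∈ C.1) (hd : ¬ Disjoint X (tT E))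
    (h : ∀ F ∈ C.1, ¬ Disjoint F (tT E) → X ⊆ F) : tK C E = X := by
  apply le_antisymm
  · exact tK_le hX hd
  · exact Finset.le_inf (fun F hF => h F (Finset.mem_filter.1 hF).1 (Finset.mem_filter.1 hF).2)

lemma tK_univ {C E : Ch S} (h : ∀ F ∈ C.1, Disjoint F (tT E)) : tK C E = Finset.univ := by
  rcases tK_spec C E with h1 | h1
  · exact absurd (h _ h1.1) h1.2
  · exact h1.2

lemma tK_mem_of_ne {C E : Ch S} (h : tK C E ≠ Finset.univ) :
    tK C E ∈ C.1 ∧ ¬ Disjoint (tK C E) (tT E) := by
  rcases tK_spec C E with h1 | h1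
  · exact h1
  · exact absurd h1.2 h

lemma tT_nonempty {E : Ch S} (hS : (Finset.univ : Finset S).Nonempty) : (tT E).Nonempty := by
  rcases tT_spec E with h | h
  · exact (E.2.1 _ h).1
  · rw [h.2]; exact hS

lemma univ_ne_of_nonempty {F : Finset S} (h : F.Nonempty) :
    (Finset.univ : Finset S).Nonempty := by
  obtain ⟨x, _⟩ := h
  exact ⟨x, Finset.mem_univ x⟩

lemma disj_sub_K {C E : Ch S} {F : Finset S} (hF : F ∈ C.1) (h : Disjoint F (tT E)) :
    F ⊆ tK C E := by
  rcases tK_spec C E with h1 | h1
  · rcases C.2.2 F hF _ h1.1 with h2 | h2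
    · exact h2
    · exact absurd (Finset.disjoint_of_subset_left h2 h) h1.2
  · rw [h1.2]; exact Finset.subset_univ F

lemma disj_sub_E {C E : Ch S} {F : Finset S} (hF : F ∈ C.1) (h : Disjoint F (tT E)) :
    F ⊆ tE C E := by
  unfold tE
  rw [Finset.subset_sdiff]
  exact ⟨disj_sub_K hF h, h⟩

lemma tE_disj (C E : Ch S) : Disjoint (tE C E) (tT E) := Finset.sdiff_disjoint

lemma tE_sub (C E : Ch S) : tE C E ⊆ tK C E := Finset.sdiff_subset

lemma tK_sub_tT {C E : Ch S} (h : tE C E = ∅) : tK C E ⊆ tT E :=
  Finset.sdiff_eq_empty_iff_subset.1 h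

/-- In the second kind, `K` is the smallest element of `C`. -/
lemma K_min {C E : Ch S} (h : tE C E = ∅) {F : Finset S} (hF : F ∈ C.1) : tK C E ⊆ F := by
  by_cases hd : Disjoint F (tT E)
  · have := disj_sub_E hF hd
    rw [h] at this
    exact absurd (Finset.subset_empty.1 this) (C.2.1 F hF).1.ne_empty
  · exact tK_le hF hd

lemma tK_congr {C C' E E' : Ch S} (h : (C.1.filter fun F => ¬ Disjoint F (tT E)) =
    (C'.1.filter fun F => ¬ Disjoint F (tT E'))) : tK C E = tK C' E' := by
  unfold tK
  rw [h]

lemma tK_era {C E : Ch S} {F : Finset S} (hF : F ≠ tK C E) : tK (era C F) E = tK C E := by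
  rcases tK_spec C E with h | h
  · refine tK_eq (Finset.mem_erase.2 ⟨fun e => hF e.symm, h.1⟩) h.2 ?_
    intro G hG hd
    exact tK_le (Finset.mem_of_mem_erase hG) hd
  · rw [h.2]
    exact tK_univ (fun G hG => h.1 G (Finset.mem_of_mem_erase hG))

lemma tK_ins {C E : Ch S} {F : Finset S} (hI : Ins C F) (hF : Disjoint F (tT E)) :
    tK (ins C F hI) E = tK C E := by
  rcases tK_spec C E with h | h
  · refine tK_eq (Finset.mem_insert_of_mem h.1) h.2 ?_
    intro G hG hd
    rcases Finset.mem_insert.1 hG with h1 | h1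
    · rw [h1] at hd; exact absurd hF hd
    · exact tK_le h1 hd
  · rw [h.2]
    refine tK_univ (fun G hG => ?_)
    rcases Finset.mem_insert.1 hG with h1 | h1
    · rw [h1]; exact hF
    · exact h.1 G h1

theorem cases5 (C E : Ch S) : A1 C E ∨ B1 C E ∨ A2 C E ∨ B2 C E ∨ (C = nil ∧ E = nil) := by
  rcases Finset.eq_empty_or_nonempty (tE C E) with h | h
  · right; right
    by_cases hK : tK C E = Finset.univ
    · right; right
      have hT : tT E = Finset.univ := by
        have := tK_sub_tT h
        rw [hK] at this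
        exact Finset.univ_subset_iff.1 this
      have hE : E.1 = ∅ := by
        rcases tT_spec E with h1 | h1
        · exact absurd hT (E.2.1 _ h1).2
        · exact h1.1
      have hC : C.1 = ∅ := by
        rcases tK_spec C E with h1 | h1
        · exact absurd hK (C.2.1 _ h1.1).2
        · rw [Finset.eq_empty_iff_forall_notMem]
          intro F hF
          have h2 := h1.1 F hF
          rw [hT] at h2
          have h3 : F = ∅ := by
            rw [Finset.eq_empty_iff_forall_notMem]
            intro x hx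
            exact (Finset.disjoint_left.1 h2 hx) (Finset.mem_univ x)
          exact (C.2.1 F hF).1.ne_empty h3
      exact ⟨Subtype.ext hC, Subtype.ext hE⟩
    · by_cases hE : tK C E ∈ E.1
      · right; left; exact ⟨h, hK, hE⟩
      · left; exact ⟨h, hK, hE⟩
  · by_cases hC : tE C E ∈ C.1
    · left; exact ⟨h, hC⟩
    · right; left; exact ⟨h, hC⟩

theorem not_nil [Nonempty S] : ¬ A1 (nil : Ch S) nil ∧ ¬ B1 (nil : Ch S) nil ∧
    ¬ A2 (nil : Ch S) nil ∧ ¬ B2 (nil : Ch S) nil := by
  have hT : tT (nil : Ch S) = Finset.univ := by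
    unfold tT nil
    exact Finset.inf_empty
  have hK : tK (nil : Ch S) nil = Finset.univ := tK_univ (fun F hF => absurd hF (Finset.notMem_empty F))
  have hE : tE (nil : Ch S) nil = ∅ := by
    unfold tE
    rw [hT, hK]
    exact Finset.sdiff_self _
  refine ⟨?_, ?_, ?_, ?_⟩
  · intro h
    have := h.1
    rw [hE] at this
    exact absurd this Finset.not_nonempty_empty
  · intro h
    have := h.1
    rw [hE] at this
    exact absurd this Finset.not_nonempty_empty
  · intro h
    exact h.2.1 hK
  · intro h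
    exact h.2.1 hK

theorem B1_ins {C E : Ch S} (h : B1 C E) : Ins C (tE C E) := by
  refine ⟨h.2, h.1, ?_, ?_⟩
  · intro hu
    obtain ⟨x, hx⟩ := tT_nonempty (E := E) (univ_ne_of_nonempty h.1)
    have h1 : x ∈ tE C E := by rw [hu]; exact Finset.mem_univ x
    exact (Finset.disjoint_left.1 (tE_disj C E) h1) hx
  · intro F hF
    by_cases hd : Disjoint F (tT E)
    · left; exact disj_sub_E hF hd
    · right; exact (tE_sub C E).trans (tK_le hF hd)

theorem A2_ins {C E : Ch S} (h : A2 C E) : Ins E (tK C E) := by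
  have hK := tK_mem_of_ne h.2.1
  refine ⟨h.2.2, (C.2.1 _ hK.1).1, h.2.1, ?_⟩
  intro F hF
  right
  exact (tK_sub_tT h.1).trans (tT_le hF)

/-- removing or inserting `K \ T` does not change `K` and `T` -/
theorem A1_era {C E : Ch S} (h : A1 C E) :
    B1 (era C (tE C E)) E ∧ tE (era C (tE C E)) E = tE C E := by
  have hne : tE C E ≠ tK C E := by
    intro he
    rcases tK_spec C E with h1 | h1
    · apply h1.2
      rw [← he]
      exact tE_disj C E
    · have h2 := (C.2.1 _ h.2).2
      rw [he] at h2
      exact h2 h1.2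
  have h1 : tK (era C (tE C E)) E = tK C E := tK_era hne
  have h2 : tE (era C (tE C E)) E = tE C E := by
    unfold tE
    unfold tE at h1
    rw [h1]
  refine ⟨⟨?_, ?_⟩, h2⟩
  · rw [h2]; exact h.1
  · rw [h2]; exact Finset.notMem_erase _ _

theorem B1_ins' {C E : Ch S} (h : B1 C E) :
    A1 (ins C (tE C E) (B1_ins h)) E ∧ tE (ins C (tE C E) (B1_ins h)) E = tE C E := by
  have h1 : tK (ins C (tE C E) (B1_ins h)) E = tK C E := tK_ins (B1_ins h) (tE_disj C E)
  have h2 : tE (ins C (tE C E) (B1_ins h)) E = tE C E := by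
    change tK (ins C (tE C E) (B1_ins h)) E \ tT E = tE C E
    rw [h1]
    rfl
  refine ⟨⟨?_, ?_⟩, h2⟩
  · rw [h2]; exact h.1
  · rw [h2]; exact Finset.mem_insert_self _ _

/-- if `K` is the smallest element of `C`, contained in `T'`, it is also the `K'` of `T'` -/
lemma tK_of_min {C E' : Ch S} {X : Finset S} (hX : X ∈ C.1) (hmin : ∀ F ∈ C.1, X ⊆ F)
    (hT : X ⊆ tT E') : tK C E' = X := by
  refine tK_eq hX ?_ (fun F hF _ => hmin F hF)
  intro hd
  obtain ⟨x, hx⟩ := (C.2.1 X hX).1
  exact (Finset.disjoint_left.1 hd hx) (hT hx)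

theorem B2_era {C E : Ch S} (h : B2 C E) :
    A2 C (era E (tK C E)) ∧ tK C (era E (tK C E)) = tK C E := by
  have hK := tK_mem_of_ne h.2.1
  have hmin : ∀ F ∈ C.1, tK C E ⊆ F := fun F hF => K_min h.1 hF
  have hT : tK C E ⊆ tT (era E (tK C E)) := by
    rcases tT_spec (era E (tK C E)) with h1 | h1
    · exact (tK_sub_tT h.1).trans (tT_le (Finset.mem_of_mem_erase h1))
    · rw [h1.2]; exact Finset.subset_univ _
  have h1 : tK C (era E (tK C E)) = tK C E := tK_of_min hK.1 hmin hT
  refine ⟨⟨?_, ?_, ?_⟩, h1⟩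
  · change tK C (era E (tK C E)) \ tT (era E (tK C E)) = ∅
    rw [h1]
    exact Finset.sdiff_eq_empty_iff_subset.2 hT
  · rw [h1]; exact h.2.1
  · rw [h1]; exact Finset.notMem_erase _ _

theorem A2_ins' {C E : Ch S} (h : A2 C E) :
    B2 C (ins E (tK C E) (A2_ins h)) ∧ tK C (ins E (tK C E) (A2_ins h)) = tK C E := by
  have hK := tK_mem_of_ne h.2.1
  have hmin : ∀ F ∈ C.1, tK C E ⊆ F := fun F hF => K_min h.1 hF
  have hT : tT (ins E (tK C E) (A2_ins h)) = tK C E := by
    refine tT_eq (Finset.mem_insert_self _ _) ?_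
    intro F hF
    rcases Finset.mem_insert.1 hF with h1 | h1
    · rw [h1]
    · exact (tK_sub_tT h.1).trans (tT_le h1)
  have h1 : tK C (ins E (tK C E) (A2_ins h)) = tK C E :=
    tK_of_min hK.1 hmin (by rw [hT])
  refine ⟨⟨?_, ?_, ?_⟩, h1⟩
  · change tK C (ins E (tK C E) (A2_ins h)) \ tT (ins E (tK C E) (A2_ins h)) = ∅
    rw [h1, hT]
    exact Finset.sdiff_self _
  · rw [h1]; exact h.2.1
  · rw [h1]; exact Finset.mem_insert_self _ _

open Classical in
/-- the measure, on upper pairs -/
noncomputable def meas (C E : Ch S) : ℕ :=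
  if A2 C E then (Fintype.card S + 1) * (Fintype.card S + 2) * (1 + C.1.card)
  else (tT E).card * (Fintype.card S + 2) +
    (Fintype.card S + 1 - (C.1.filter fun F => Disjoint F (tT E)).card)

lemma not_A2_of_A1 {C E : Ch S} (h : A1 C E) : ¬ A2 C E := by
  intro h2
  have := h.1
  rw [h2.1] at this
  exact absurd this Finset.not_nonempty_empty

lemma meas_A2 {C E : Ch S} (h : A2 C E) :
    meas C E = (Fintype.card S + 1) * (Fintype.card S + 2) * (1 + C.1.card) := by
  unfold meas
  rw [if_pos h]

lemma meas_A1 {C E : Ch S} (h : A1 C E) :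
    meas C E = (tT E).card * (Fintype.card S + 2) +
      (Fintype.card S + 1 - (C.1.filter fun F => Disjoint F (tT E)).card) := by
  unfold meas
  rw [if_neg (not_A2_of_A1 h)]

lemma meas_A1_lt {C E : Ch S} (h : A1 C E) :
    meas C E < (Fintype.card S + 1) * (Fintype.card S + 2) := by
  rw [meas_A1 h]
  have h1 : (tT E).card ≤ Fintype.card S := Finset.card_le_univ _
  have h2 : (tT E).card * (Fintype.card S + 2) ≤ Fintype.card S * (Fintype.card S + 2) :=
    Nat.mul_le_mul_right _ h1
  have h3 : (Fintype.card S + 1) * (Fintype.card S + 2) =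
      Fintype.card S * (Fintype.card S + 2) + (Fintype.card S + 2) := by ring
  omega

lemma meas_A1_lt_A2 {C E C' E' : Ch S} (h : A1 C E) (h' : A2 C' E') : meas C E < meas C' E' := by
  refine lt_of_lt_of_le (meas_A1_lt h) ?_
  rw [meas_A2 h']
  exact Nat.le_mul_of_pos_right _ (by omega)

/-- a chain of subsets has at most `|S| + 1` elements -/
lemma chain_card (A : Finset (Finset S)) (hA : ∀ F ∈ A, ∀ F' ∈ A, F ⊆ F' ∨ F' ⊆ F) :
    A.card ≤ Fintype.card S + 1 := by
  have h1 : A.card = (A.image Finset.card).card := by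
    rw [Finset.card_image_of_injOn]
    intro F hF F' hF' he
    rcases hA F hF F' hF' with h | h
    · exact Finset.eq_of_subset_of_card_le h (le_of_eq he.symm)
    · exact (Finset.eq_of_subset_of_card_le h (le_of_eq he)).symm
  rw [h1]
  have h2 : A.image Finset.card ⊆ Finset.range (Fintype.card S + 1) := by
    intro n hn
    obtain ⟨F, hF, rfl⟩ := Finset.mem_image.1 hn
    exact Finset.mem_range.2 (Nat.lt_succ_of_le (Finset.card_le_univ F))
  have h3 := Finset.card_le_card h2
  rw [Finset.card_range] at h3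
  exact h3

/-- Removing from `C` an element different from the matched one: a resulting lower pair of the first
kind has an upper partner of smaller measure. -/
theorem meas_era_B1 {C E : Ch S} (h : A1 C E ∨ A2 C E) {F : Finset S} (hF : F ∈ C.1)
    (hne : ¬ (A1 C E ∧ F = tE C E)) (hB : B1 (era C F) E) :
    meas (ins (era C F) (tE (era C F) E) (B1_ins hB)) E < meas C E := by
  rcases h with h | h
  · have hFE : F ≠ tE C E := fun e => hne ⟨h, e⟩
    have hFK : F = tK C E := by
      by_contra hc
      have h1 : tK (era C F) E = tK C E := tK_era hc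
      have h2 : tE (era C F) E = tE C E := by
        unfold tE
        rw [h1]
      apply hB.2
      rw [h2]
      exact Finset.mem_erase.2 ⟨fun e => hFE e.symm, h.2⟩
    have hFd : ¬ Disjoint F (tT E) := by
      rcases tK_spec C E with h1 | h1
      · rw [hFK]; exact h1.2
      · exact absurd (hFK.trans h1.2) (C.2.1 F hF).2
    rw [meas_A1 (B1_ins' hB).1, meas_A1 h]
    have h1 : ((ins (era C F) (tE (era C F) E) (B1_ins hB)).1.filter
        fun G => Disjoint G (tT E)).card =
        (C.1.filter fun G => Disjoint G (tT E)).card + 1 := by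
      have h2 : ((ins (era C F) (tE (era C F) E) (B1_ins hB)).1.filter
          fun G => Disjoint G (tT E)) =
          insert (tE (era C F) E) (C.1.filter fun G => Disjoint G (tT E)) := by
        ext G
        rw [Finset.mem_filter, Finset.mem_insert, Finset.mem_filter]
        constructor
        · rintro ⟨h3, h4⟩
          rcases Finset.mem_insert.1 h3 with h5 | h5
          · left; exact h5
          · right; exact ⟨Finset.mem_of_mem_erase h5, h4⟩
        · rintro (h3 | ⟨h3, h4⟩)
          · rw [h3]; exact ⟨Finset.mem_insert_self _ _, tE_disj _ _⟩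
          · refine ⟨Finset.mem_insert_of_mem (Finset.mem_erase.2 ⟨?_, h3⟩), h4⟩
            intro e
            rw [e] at h4
            exact hFd h4
      rw [h2, Finset.card_insert_of_notMem]
      intro h3
      have h4 := (Finset.mem_filter.1 h3)
      apply hB.2
      refine Finset.mem_erase.2 ⟨?_, h4.1⟩
      intro e
      rw [e] at h4
      exact hFd h4.2
    have h5 : ((ins (era C F) (tE (era C F) E) (B1_ins hB)).1.filter
        fun G => Disjoint G (tT E)).card ≤ Fintype.card S + 1 := by
      apply chain_card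
      intro G hG G' hG'
      exact (ins (era C F) (tE (era C F) E) (B1_ins hB)).2.2 G (Finset.mem_filter.1 hG).1 G'
        (Finset.mem_filter.1 hG').1
    omega
  · exact meas_A1_lt_A2 (B1_ins' hB).1 h

theorem meas_era_B2 {C E : Ch S} (h : A1 C E ∨ A2 C E) {F : Finset S} (hF : F ∈ C.1)
    (hB : B2 (era C F) E) :
    meas (era C F) (era E (tK (era C F) E)) < meas C E := by
  have hK := tK_mem_of_ne hB.2.1
  have hKC : tK (era C F) E ∈ C.1 := Finset.mem_of_mem_erase hK.1
  have h1 : tE C E = ∅ := by
    apply Finset.sdiff_eq_empty_iff_subset.2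
    exact (tK_le hKC hK.2).trans (tK_sub_tT hB.1)
  have h2 : A2 C E := by
    rcases h with h | h
    · have := h.1
      rw [h1] at this
      exact absurd this Finset.not_nonempty_empty
    · exact h
  rw [meas_A2 (B2_era hB).1, meas_A2 h2]
  have h3 : (era C F).1.card < C.1.card := Finset.card_erase_lt_of_mem hF
  apply Nat.mul_lt_mul_of_pos_left
  · omega
  · positivity

/-- Inserting into `E` an element different from the matched one. -/
theorem meas_ins_B1 {C E : Ch S} (h : A1 C E ∨ A2 C E) {F : Finset S} (hF : Ins E F)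
    (hB : B1 C (ins E F hF)) :
    meas (ins C (tE C (ins E F hF)) (B1_ins hB)) (ins E F hF) < meas C E := by
  rcases h with h | h
  · have hA := (B1_ins' hB).1
    rw [meas_A1 hA, meas_A1 h]
    have hT : (tT (ins E F hF)).card < (tT E).card := by
      apply Finset.card_lt_card
      rw [Finset.ssubset_iff_subset_ne]
      constructor
      · rcases tT_spec E with h1 | h1
        · exact tT_le (Finset.mem_insert_of_mem h1)
        · rw [h1.2]; exact Finset.subset_univ _
      · intro he
        have h1 : tK C (ins E F hF) = tK C E := by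
          unfold tK
          rw [he]
        have h2 : tE C (ins E F hF) = tE C E := by
          unfold tE
          rw [h1, he]
        apply hB.2
        rw [h2]
        exact h.2
    have h2 : ((tT (ins E F hF)).card + 1) * (Fintype.card S + 2) ≤
        (tT E).card * (Fintype.card S + 2) := Nat.mul_le_mul_right _ hT
    have h3 : ((tT (ins E F hF)).card + 1) * (Fintype.card S + 2) =
      (tT (ins E F hF)).card * (Fintype.card S + 2) + (Fintype.card S + 2) := by ring
    omega
  · exact meas_A1_lt_A2 (B1_ins' hB).1 h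

/-- a lower pair of the second kind obtained by inserting into `E` is the matched one -/
theorem ins_B2 {C E : Ch S} (h : A1 C E ∨ A2 C E) {F : Finset S} (hF : Ins E F)
    (hB : B2 C (ins E F hF)) : A2 C E ∧ F = tK C E := by
  have hK := tK_mem_of_ne hB.2.1
  have hmin : ∀ G ∈ C.1, tK C (ins E F hF) ⊆ G := fun G hG => K_min hB.1 hG
  have hTs : tT (ins E F hF) ⊆ tT E := by
    rcases tT_spec E with h1 | h1
    · exact tT_le (Finset.mem_insert_of_mem h1)
    · rw [h1.2]; exact Finset.subset_univ _
  have hKT : tK C E = tK C (ins E F hF) :=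
    tK_of_min hK.1 hmin ((tK_sub_tT hB.1).trans hTs)
  have hE : tE C E = ∅ := by
    apply Finset.sdiff_eq_empty_iff_subset.2
    rw [hKT]
    exact (tK_sub_tT hB.1).trans hTs
  have h2 : A2 C E := by
    rcases h with h | h
    · have := h.1
      rw [hE] at this
      exact absurd this Finset.not_nonempty_empty
    · exact h
  refine ⟨h2, ?_⟩
  rcases Finset.mem_insert.1 hB.2.2 with h3 | h3
  · rw [hKT]; exact h3.symm
  · rw [← hKT] at h3
    exact absurd h3 h2.2.2

end LC

end PicInd
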