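import Mathlib
import Pool.Agent.Lib_MP_8744b5_al.LCMatch
import Pool.Agent.Lib_MP_8744b5_al.Gauss

/-! Piece LC3: `LC ⊗ LD` is homotopy equivalent to `R`. -/

set_option linter.unusedVariables false

open TensorProduct

namespace PicInd

universe u

variable {R : Type u} [CommRing R] {G : Type} [Group G]

namespace Cx

/-- a map is equivariant and homogeneous if it is so on a homogeneous permuted basis -/
theorem HE_of_basis (W Y : Cx R G) {ι : Type} (b : Module.Basis ι R W.V) (act : G → ι → ι)
    (deg : ι → ℤ) (hact : ∀ g i, W.ρ g (b i) = b (act g i))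
    (hdeg : ∀ n i, W.π n (b i) = if deg i = n then b i else 0)
    (k : ℤ) (f : W.V →ₗ[R] Y.V) (h1 : ∀ g i, f (b (act g i)) = Y.ρ g (f (b i)))
    (h2 : ∀ i, Y.π (deg i + k) (f (b i)) = f (b i)) : HE W Y k f := by
  constructor
  · intro g x
    have : f ∘ₗ W.ρ g = Y.ρ g ∘ₗ f := by
      apply b.ext
      intro i
      rw [LinearMap.comp_apply, LinearMap.comp_apply, hact, h1]
    exact LinearMap.congr_fun this x
  · intro n x
    have : f ∘ₗ W.π n = Y.π (n + k) ∘ₗ f := by
      apply b.ext
      intro i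
      rw [LinearMap.comp_apply, LinearMap.comp_apply, hdeg]
      split_ifs with h
      · rw [← h, h2]
      · rw [map_zero, ← h2 i, Y.π_ne _ _ (by intro h'; apply h; linarith)]
    exact LinearMap.congr_fun this x

/-- Algebraic Morse theory for a complex with a permuted homogeneous basis and an equivariant
acyclic matching with a single critical element. -/
theorem morse (W Z : Cx R G) {ι : Type} (b : Module.Basis ι R W.V) (act : G → ι → ι)
    (deg : ι → ℤ) (hact : ∀ g i, W.ρ g (b i) = b (act g i))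
    (hdeg : ∀ n i, W.π n (b i) = if deg i = n then b i else 0)
    (A B C : ι → Prop) (μ ν : ι → ι) (c : ι → ℤ) (meas : ι → ℕ) (M : ℕ)
    (hM : ∀ i, meas i < M)
    (cov : ∀ i, A i ∨ B i ∨ C i) (nAB : ∀ i, A i → ¬ B i) (nAC : ∀ i, A i → ¬ C i)
    (nBC : ∀ i, B i → ¬ C i)
    (actA : ∀ g i, A (act g i) ↔ A i) (actB : ∀ g i, B (act g i) ↔ B i)
    (actC : ∀ g i, C (act g i) ↔ C i)
    (hμ : ∀ i, A i → B (μ i) ∧ ν (μ i) = i) (hν : ∀ i, B i → A (ν i) ∧ μ (ν i) = i)
    (actμ : ∀ g i, A i → μ (act g i) = act g (μ i))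
    (actν : ∀ g i, B i → ν (act g i) = act g (ν i))
    (degμ : ∀ i, A i → deg (μ i) = deg i - 1)
    (hc : ∀ i, c i * c i = 1) (actc : ∀ g i, A i → c (act g i) = c i)
    (hd : ∀ i, A i → W.d (b i) - c i • b (μ i) ∈
      Submodule.span R {x | ∃ j, x = b j ∧ (B j → meas (ν j) < meas i)})
    (p : Hom W Z) (q : Z.V →ₗ[R] W.V) (hq : HE Z W 0 q) (pA : ∀ i, A i → p.f (b i) = 0)
    (pq : ∀ z, p.f (q z) = z) (qp : ∀ i, C i → q (p.f (b i)) = b i) : Heq W Z := by
  classical
  set eA : W.V →ₗ[R] W.V := b.constr R (fun i => if A i then b i else 0) with heA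
  set eB : W.V →ₗ[R] W.V := b.constr R (fun i => if B i then b i else 0) with heB
  set eC : W.V →ₗ[R] W.V := b.constr R (fun i => if C i then b i else 0) with heC
  set u' : W.V →ₗ[R] W.V := b.constr R (fun i => if A i then c i • b (μ i) else 0) with hu'
  set s : W.V →ₗ[R] W.V := b.constr R (fun i => if B i then c (ν i) • b (ν i) else 0) with hs'
  have vA : ∀ i, eA (b i) = if A i then b i else 0 := fun i => by
    rw [heA, Module.Basis.constr_basis]
  have vB : ∀ i, eB (b i) = if B i then b i else 0 := fun i => by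
    rw [heB, Module.Basis.constr_basis]
  have vC : ∀ i, eC (b i) = if C i then b i else 0 := fun i => by
    rw [heC, Module.Basis.constr_basis]
  have vu : ∀ i, u' (b i) = if A i then c i • b (μ i) else 0 := fun i => by
    rw [hu', Module.Basis.constr_basis]
  have vs : ∀ i, s (b i) = if B i then c (ν i) • b (ν i) else 0 := fun i => by
    rw [hs', Module.Basis.constr_basis]
  have ext2 : ∀ {N : Type u} [AddCommGroup N] [Module R N] (f g : W.V →ₗ[R] N),
      (∀ i, f (b i) = g (b i)) → ∀ x, f x = g x := fun f g h x =>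
    LinearMap.congr_fun (b.ext h) x
  have hself : ∀ i, W.π (deg i) (b i) = b i := fun i => by rw [hdeg, if_pos rfl]
  -- equivariance and degrees
  have HA : HE W W 0 eA := by
    refine HE_of_basis W W b act deg hact hdeg 0 eA (fun g i => ?_) (fun i => ?_)
    · rw [vA, vA, ← hact]
      by_cases h : A i
      · rw [if_pos h, if_pos ((actA g i).2 h)]
      · rw [if_neg h, if_neg (fun h' => h ((actA g i).1 h')), map_zero]
    · rw [vA, add_zero]
      split_ifs
      · exact hself i
      · rw [map_zero]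
  have HB : HE W W 0 eB := by
    refine HE_of_basis W W b act deg hact hdeg 0 eB (fun g i => ?_) (fun i => ?_)
    · rw [vB, vB, ← hact]
      by_cases h : B i
      · rw [if_pos h, if_pos ((actB g i).2 h)]
      · rw [if_neg h, if_neg (fun h' => h ((actB g i).1 h')), map_zero]
    · rw [vB, add_zero]
      split_ifs
      · exact hself i
      · rw [map_zero]
  have HC : HE W W 0 eC := by
    refine HE_of_basis W W b act deg hact hdeg 0 eC (fun g i => ?_) (fun i => ?_)
    · rw [vC, vC, ← hact]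
      by_cases h : C i
      · rw [if_pos h, if_pos ((actC g i).2 h)]
      · rw [if_neg h, if_neg (fun h' => h ((actC g i).1 h')), map_zero]
    · rw [vC, add_zero]
      split_ifs
      · exact hself i
      · rw [map_zero]
  have Hu : HE W W (-1) u' := by
    refine HE_of_basis W W b act deg hact hdeg (-1) u' (fun g i => ?_) (fun i => ?_)
    · rw [vu, vu]
      by_cases h : A i
      · rw [if_pos h, if_pos ((actA g i).2 h), actμ g i h, actc g i h, map_zsmul, hact]
      · rw [if_neg h, if_neg (fun h' => h ((actA g i).1 h')), map_zero]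
    · rw [vu]
      split_ifs with h
      · rw [map_zsmul, hdeg, if_pos (by rw [degμ i h]; ring)]
      · rw [map_zero]
  have Hs : HE W W 1 s := by
    refine HE_of_basis W W b act deg hact hdeg 1 s (fun g i => ?_) (fun i => ?_)
    · rw [vs, vs]
      by_cases h : B i
      · rw [if_pos h, if_pos ((actB g i).2 h), actν g i h, actc g _ (hν i h).1, map_zsmul, hact]
      · rw [if_neg h, if_neg (fun h' => h ((actB g i).1 h')), map_zero]
    · rw [vs]
      split_ifs with h
      · rw [map_zsmul, hdeg, if_pos]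
        have h1 := degμ (ν i) (hν i h).1
        rw [(hν i h).2] at h1
        linarith
      · rw [map_zero]
  have AA : ∀ x, eA (eA x) = eA x := ext2 (eA ∘ₗ eA) eA (fun i => by
    rw [LinearMap.comp_apply, vA]; split_ifs with h
    · rw [vA, if_pos h]
    · rw [map_zero])
  have BB : ∀ x, eB (eB x) = eB x := ext2 (eB ∘ₗ eB) eB (fun i => by
    rw [LinearMap.comp_apply, vB]; split_ifs with h
    · rw [vB, if_pos h]
    · rw [map_zero])
  have CC : ∀ x, eC (eC x) = eC x := ext2 (eC ∘ₗ eC) eC (fun i => by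
    rw [LinearMap.comp_apply, vC]; split_ifs with h
    · rw [vC, if_pos h]
    · rw [map_zero])
  have AB : ∀ x, eA (eB x) = 0 := ext2 (eA ∘ₗ eB) 0 (fun i => by
    rw [LinearMap.comp_apply, vB]; split_ifs with h
    · rw [vA, if_neg (fun h' => nAB i h' h)]; rfl
    · rw [map_zero]; rfl)
  have BA : ∀ x, eB (eA x) = 0 := ext2 (eB ∘ₗ eA) 0 (fun i => by
    rw [LinearMap.comp_apply, vA]; split_ifs with h
    · rw [vB, if_neg (nAB i h)]; rfl
    · rw [map_zero]; rfl)
  have AC : ∀ x, eA (eC x) = 0 := ext2 (eA ∘ₗ eC) 0 (fun i => by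
    rw [LinearMap.comp_apply, vC]; split_ifs with h
    · rw [vA, if_neg (fun h' => nAC i h' h)]; rfl
    · rw [map_zero]; rfl)
  have CA : ∀ x, eC (eA x) = 0 := ext2 (eC ∘ₗ eA) 0 (fun i => by
    rw [LinearMap.comp_apply, vA]; split_ifs with h
    · rw [vC, if_neg (nAC i h)]; rfl
    · rw [map_zero]; rfl)
  have BC : ∀ x, eB (eC x) = 0 := ext2 (eB ∘ₗ eC) 0 (fun i => by
    rw [LinearMap.comp_apply, vC]; split_ifs with h
    · rw [vB, if_neg (fun h' => nBC i h' h)]; rfl
    · rw [map_zero]; rfl)
  have CB : ∀ x, eC (eB x) = 0 := ext2 (eC ∘ₗ eB) 0 (fun i => by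
    rw [LinearMap.comp_apply, vB]; split_ifs with h
    · rw [vC, if_neg (nBC i h)]; rfl
    · rw [map_zero]; rfl)
  have us : ∀ x, u' (s x) = eB x := ext2 (u' ∘ₗ s) eB (fun i => by
    rw [LinearMap.comp_apply, vs, vB]; split_ifs with h
    · rw [map_zsmul, vu, if_pos (hν i h).1, (hν i h).2, smul_smul, hc, one_smul]
    · rw [map_zero])
  have su : ∀ x, s (u' x) = eA x := ext2 (s ∘ₗ u') eA (fun i => by
    rw [LinearMap.comp_apply, vu, vA]; split_ifs with h
    · rw [map_zsmul, vs, if_pos (hμ i h).1, (hμ i h).2, smul_smul, hc, one_smul]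
    · rw [map_zero])
  have sA : ∀ x, eA (s x) = s x := ext2 (eA ∘ₗ s) s (fun i => by
    rw [LinearMap.comp_apply, vs]; split_ifs with h
    · rw [map_zsmul, vA, if_pos (hν i h).1]
    · rw [map_zero])
  have sB : ∀ x, s (eB x) = s x := ext2 (s ∘ₗ eB) s (fun i => by
    rw [LinearMap.comp_apply, vB, vs]; split_ifs with h
    · rw [vs, if_pos h]
    · rw [map_zero])
  have uB : ∀ x, eB (u' x) = u' x := ext2 (eB ∘ₗ u') u' (fun i => by
    rw [LinearMap.comp_apply, vu]; split_ifs with h
    · rw [map_zsmul, vB, if_pos (hμ i h).1]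
    · rw [map_zero])
  have uA : ∀ x, u' (eA x) = u' x := ext2 (u' ∘ₗ eA) u' (fun i => by
    rw [LinearMap.comp_apply, vA, vu]; split_ifs with h
    · rw [vu, if_pos h]
    · rw [map_zero])
  have sum : ∀ x, eA x + eB x + eC x = x :=
    ext2 (eA + eB + eC) LinearMap.id (fun i => by
      rw [LinearMap.add_apply, LinearMap.add_apply, vA, vB, vC, LinearMap.id_apply]
      rcases cov i with h | h | h
      · rw [if_pos h, if_neg (nAB i h), if_neg (nAC i h), add_zero, add_zero]
      · rw [if_pos h, if_neg (fun h' => nAB i h' h), if_neg (nBC i h), add_zero, zero_add]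
      · rw [if_pos h, if_neg (fun h' => nAC i h' h), if_neg (fun h' => nBC i h' h), add_zero,
          zero_add])
  -- nilpotence
  set T : W.V →ₗ[R] W.V := s ∘ₗ (eB ∘ₗ W.d ∘ₗ eA - u') with hT
  let F : ℕ → Submodule R W.V := fun n => Submodule.span R {x | ∃ j, x = b j ∧ meas j < n}
  have hTb : ∀ i, T (b i) ∈ F (meas i) := by
    intro i
    rw [hT, LinearMap.comp_apply, LinearMap.sub_apply, LinearMap.comp_apply,
      LinearMap.comp_apply, vA]
    by_cases h : A i
    · rw [if_pos h]
      have e1 : eB (W.d (b i)) - u' (b i) = eB (W.d (b i) - c i • b (μ i)) := by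
        rw [map_sub, map_zsmul, vB, if_pos (hμ i h).1, vu, if_pos h]
      rw [e1]
      have h2 := hd i h
      refine Submodule.span_induction (p := fun x _ => s (eB x) ∈ F (meas i)) ?_ ?_ ?_ ?_ h2
      · rintro x ⟨j, rfl, hj⟩
        rw [vB]
        split_ifs with hB
        · rw [vs, if_pos hB]
          exact zsmul_mem (Submodule.subset_span (s := {x | ∃ k, x = b k ∧ meas k < meas i})
            ⟨ν j, rfl, hj hB⟩) _
        · rw [map_zero]; exact Submodule.zero_mem _
      · rw [map_zero, map_zero]; exact Submodule.zero_mem _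
      · intro x y _ _ hx hy
        rw [map_add, map_add]
        exact Submodule.add_mem _ hx hy
      · intro a x _ hx
        rw [map_smul, map_smul]
        exact Submodule.smul_mem _ a hx
    · rw [if_neg h, map_zero, map_zero, vu, if_neg h, sub_zero, map_zero]
      exact Submodule.zero_mem _
  have hTF : ∀ n x, x ∈ F (n + 1) → T x ∈ F n := by
    intro n x hx
    refine Submodule.span_induction (p := fun x _ => T x ∈ F n) ?_ ?_ ?_ ?_ hx
    · rintro x ⟨j, rfl, hj⟩
      refine Submodule.span_mono ?_ (hTb j)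
      rintro x ⟨k, rfl, hk⟩
      exact ⟨k, rfl, by omega⟩
    · rw [map_zero]; exact Submodule.zero_mem _
    · intro x y _ _ hx hy
      rw [map_add]
      exact Submodule.add_mem _ hx hy
    · intro a x _ hx
      rw [map_smul]
      exact Submodule.smul_mem _ a hx
  have hF0 : F 0 = ⊥ := by
    rw [eq_bot_iff]
    refine Submodule.span_le.2 ?_
    rintro x ⟨j, rfl, hj⟩
    omega
  have hpow : ∀ n x, x ∈ F n → (T ^ n) x = 0 := by
    intro n
    induction n with
    | zero =>
      intro x hx
      rw [hF0] at hx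
      rw [pow_zero, (Submodule.mem_bot R).1 hx, map_zero]
    | succ n ih =>
      intro x hx
      rw [pow_succ, Module.End.mul_apply]
      exact ih _ (hTF n x hx)
  have hFM : ∀ x, x ∈ F M := by
    intro x
    have : (⊤ : Submodule R W.V) ≤ F M := by
      rw [← b.span_eq]
      refine Submodule.span_mono ?_
      rintro x ⟨i, rfl⟩
      exact ⟨i, rfl, hM i⟩
    exact this Submodule.mem_top
  obtain ⟨θ, hθ, θA, θB, k1, k2⟩ := gauss1 W eA eB u' s HA HB Hu Hs AA BB AB BA us su sA sB uB uA
    M (fun x => hpow M x (hFM x))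
  refine gauss2 W Z eA eB eC HA HB HC sum AA BB CC AB BA AC CA BC CB θ hθ θA θB k1 k2 p q hq
    ?_ pq ?_
  · exact ext2 (p.f ∘ₗ eA) 0 (fun i => by
      rw [LinearMap.comp_apply, vA]; split_ifs with h
      · rw [pA i h]; rfl
      · rw [map_zero]; rfl)
  · exact ext2 (q ∘ₗ p.f ∘ₗ eC) eC (fun i => by
      rw [LinearMap.comp_apply, LinearMap.comp_apply, vC]; split_ifs with h
      · rw [qp i h]
      · rw [map_zero, map_zero])

end Cx

namespace LC

variable {S : Type} [Fintype S] [DecidableEq S]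

theorem Ch_ext' {C C' : Ch S} (h : C.1 = C'.1) : C = C' := Subtype.ext h

theorem era_ins {C : Ch S} {F : Finset S} (h : Ins C F) : era (ins C F h) F = C :=
  Ch_ext' (Finset.erase_insert h.1)

theorem ins_era {C : Ch S} {F : Finset S} (h : Ins (era C F) F) (hF : F ∈ C.1) :
    ins (era C F) F h = C :=
  Ch_ext' (Finset.insert_erase hF)

theorem Ins_era {C : Ch S} {F : Finset S} (hF : F ∈ C.1) : Ins (era C F) F :=
  ⟨Finset.notMem_erase F C.1, (C.2.1 F hF).1, (C.2.1 F hF).2, fun E hE =>
    C.2.2 E (Finset.mem_of_mem_erase hE) F hF⟩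

theorem ins_congr {C C' : Ch S} {F F' : Finset S} (h : Ins C F) (h' : Ins C' F') (e : C = C')
    (e' : F = F') : ins C F h = ins C' F' h' := by
  subst e; subst e'; rfl

theorem pos_ins {C : Ch S} {F : Finset S} (h : Ins C F) : pos (ins C F h) F = pos C F := by
  unfold pos ins
  congr 1
  ext E
  simp only [Finset.mem_filter, Finset.mem_insert]
  constructor
  · rintro ⟨rfl | hE, h2⟩
    · exact absurd h2 (fun h => h.2 subset_rfl)
    · exact ⟨hE, h2⟩
  · rintro ⟨hE, h2⟩
    exact ⟨Or.inr hE, h2⟩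

/-! ### the action -/

/-- the permutation of the subsets -/
def mp (e : Equiv.Perm S) (F : Finset S) : Finset S := F.map e.toEmbedding

omit [Fintype S] [DecidableEq S] in
theorem mem_mp (e : Equiv.Perm S) (F : Finset S) (s : S) : s ∈ mp e F ↔ e.symm s ∈ F := by
  unfold mp
  rw [Finset.mem_map]
  constructor
  · rintro ⟨a, ha, rfl⟩
    simpa using ha
  · intro h
    exact ⟨e.symm s, h, by simp⟩

omit [Fintype S] [DecidableEq S] in
theorem mp_inj (e : Equiv.Perm S) {F F' : Finset S} (h : mp e F = mp e F') : F = F' :=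
  Finset.map_injective e.toEmbedding h

theorem actCh_val (e : Equiv.Perm S) (C : Ch S) : (actCh e C).1 = C.1.image (mp e) := rfl

theorem mem_actCh (e : Equiv.Perm S) (C : Ch S) (F : Finset S) :
    mp e F ∈ (actCh e C).1 ↔ F ∈ C.1 := by
  rw [actCh_val, Finset.mem_image]
  constructor
  · rintro ⟨F', h, h'⟩
    rw [← mp_inj e h']
    exact h
  · intro h
    exact ⟨F, h, rfl⟩

theorem actCh_inj (e : Equiv.Perm S) {C C' : Ch S} (h : actCh e C = actCh e C') : C = C' := by
  apply Ch_ext'
  have h1 : C.1.image (mp e) = C'.1.image (mp e) := congrArg Subtype.val h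
  exact Finset.image_injective (fun F F' => mp_inj e) h1

omit [Fintype S] [DecidableEq S] in
theorem mp_ssub (e : Equiv.Perm S) (F F' : Finset S) : mp e F ⊂ mp e F' ↔ F ⊂ F' :=
  Finset.map_ssubset_map

omit [DecidableEq S] in
theorem mp_univ (e : Equiv.Perm S) (F : Finset S) : mp e F = Finset.univ ↔ F = Finset.univ := by
  constructor
  · intro h
    apply mp_inj e
    rw [h]
    ext s
    simp [mem_mp]
  · rintro rfl
    ext s
    simp [mem_mp]

omit [Fintype S] [DecidableEq S] in
theorem mp_nonempty (e : Equiv.Perm S) (F : Finset S) : (mp e F).Nonempty ↔ F.Nonempty :=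
  Finset.map_nonempty

omit [Fintype S] [DecidableEq S] in
theorem mp_empty (e : Equiv.Perm S) (F : Finset S) : mp e F = ∅ ↔ F = ∅ :=
  Finset.map_eq_empty

theorem mem_tT (E : Ch S) (s : S) : s ∈ tT E ↔ ∀ F ∈ E.1, s ∈ F := by
  unfold tT
  rw [Finset.mem_inf]
  rfl

theorem mem_tK (C E : Ch S) (s : S) : s ∈ tK C E ↔ ∀ F ∈ C.1, ¬ Disjoint F (tT E) → s ∈ F := by
  unfold tK
  rw [Finset.mem_inf]
  simp only [Finset.mem_filter, id]
  exact ⟨fun h F h1 h2 => h F ⟨h1, h2⟩, fun h F h1 => h F h1.1 h1.2⟩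

theorem tT_act (e : Equiv.Perm S) (E : Ch S) : tT (actCh e E) = mp e (tT E) := by
  ext s
  rw [mem_tT, mem_mp, mem_tT]
  constructor
  · intro h F hF
    have := h (mp e F) ((mem_actCh e E F).2 hF)
    exact (mem_mp e F s).1 this
  · intro h F hF
    rw [actCh_val, Finset.mem_image] at hF
    obtain ⟨F', h1, rfl⟩ := hF
    exact (mem_mp e F' s).2 (h F' h1)

omit [Fintype S] [DecidableEq S] in
theorem disj_mp (e : Equiv.Perm S) (F F' : Finset S) :
    Disjoint (mp e F) (mp e F') ↔ Disjoint F F' :=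
  Finset.disjoint_map e.toEmbedding

theorem tK_act (e : Equiv.Perm S) (C E : Ch S) : tK (actCh e C) (actCh e E) = mp e (tK C E) := by
  ext s
  rw [mem_tK, mem_mp, mem_tK]
  constructor
  · intro h F hF hd
    have := h (mp e F) ((mem_actCh e C F).2 hF) (by rw [tT_act, disj_mp]; exact hd)
    exact (mem_mp e F s).1 this
  · intro h F hF hd
    rw [actCh_val, Finset.mem_image] at hF
    obtain ⟨F', h1, rfl⟩ := hF
    rw [tT_act, disj_mp] at hd
    exact (mem_mp e F' s).2 (h F' h1 hd)

theorem tE_act (e : Equiv.Perm S) (C E : Ch S) : tE (actCh e C) (actCh e E) = mp e (tE C E) := by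
  unfold tE
  rw [tK_act, tT_act]
  ext s
  simp only [Finset.mem_sdiff, mem_mp]

theorem A1_act (e : Equiv.Perm S) (C E : Ch S) : A1 (actCh e C) (actCh e E) ↔ A1 C E := by
  unfold A1
  rw [tE_act, mp_nonempty, mem_actCh]

theorem B1_act (e : Equiv.Perm S) (C E : Ch S) : B1 (actCh e C) (actCh e E) ↔ B1 C E := by
  unfold B1
  rw [tE_act, mp_nonempty, mem_actCh]

theorem A2_act (e : Equiv.Perm S) (C E : Ch S) : A2 (actCh e C) (actCh e E) ↔ A2 C E := by
  unfold A2
  rw [tE_act, tK_act, mp_empty, ne_eq, mp_univ, mem_actCh]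

theorem B2_act (e : Equiv.Perm S) (C E : Ch S) : B2 (actCh e C) (actCh e E) ↔ B2 C E := by
  unfold B2
  rw [tE_act, tK_act, mp_empty, ne_eq, mp_univ, mem_actCh]

theorem era_act (e : Equiv.Perm S) (C : Ch S) (F : Finset S) :
    era (actCh e C) (mp e F) = actCh e (era C F) := by
  apply Ch_ext'
  show (C.1.image (mp e)).erase (mp e F) = (C.1.erase F).image (mp e)
  rw [Finset.image_erase (fun F F' => mp_inj e)]

theorem ins_act (e : Equiv.Perm S) (C : Ch S) (F : Finset S) (h : Ins C F)
    (h' : Ins (actCh e C) (mp e F)) : ins (actCh e C) (mp e F) h' = actCh e (ins C F h) := by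
  apply Ch_ext'
  show insert (mp e F) (C.1.image (mp e)) = (insert F C.1).image (mp e)
  rw [Finset.image_insert]

theorem pos_act (e : Equiv.Perm S) (C : Ch S) (F : Finset S) :
    pos (actCh e C) (mp e F) = pos C F := by
  unfold pos
  have : (actCh e C).1.filter (fun E => E ⊂ mp e F) =
      (C.1.filter (fun E => E ⊂ F)).image (mp e) := by
    ext E
    rw [actCh_val]
    simp only [Finset.mem_filter, Finset.mem_image]
    constructor
    · rintro ⟨⟨E', h1, rfl⟩, h2⟩
      exact ⟨E', ⟨h1, (mp_ssub e E' F).1 h2⟩, rfl⟩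
    · rintro ⟨E', ⟨h1, h2⟩, rfl⟩
      exact ⟨⟨E', h1, rfl⟩, (mp_ssub e E' F).2 h2⟩
  rw [this, Finset.card_image_of_injective _ (fun F F' => mp_inj e)]

theorem card_act (e : Equiv.Perm S) (C : Ch S) : (actCh e C).1.card = C.1.card := by
  rw [actCh_val, Finset.card_image_of_injective _ (fun F F' => mp_inj e)]

theorem actCh_nil (e : Equiv.Perm S) : actCh e (nil : Ch S) = nil := by
  apply Ch_ext'
  rw [actCh_val]
  rfl

/-! ### the matching -/

open Classical in
/-- partner of an upper pair -/
noncomputable def mu (p : Ch S × Ch S) : Ch S × Ch S :=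
  if A1 p.1 p.2 then (era p.1 (tE p.1 p.2), p.2)
  else if h : A2 p.1 p.2 then (p.1, ins p.2 (tK p.1 p.2) (A2_ins h)) else p

open Classical in
/-- partner of a lower pair -/
noncomputable def nu (p : Ch S × Ch S) : Ch S × Ch S :=
  if h : B1 p.1 p.2 then (ins p.1 (tE p.1 p.2) (B1_ins h), p.2)
  else if B2 p.1 p.2 then (p.1, era p.2 (tK p.1 p.2)) else p

/-- the sign of the removal -/
def sg1 (C : Ch S) (F : Finset S) : ℤ := (-1) ^ (pos C F + 1)

/-- the sign of the insertion -/
def sg2 (C E : Ch S) (F : Finset S) : ℤ := eps ((C.1.card : ℤ) + 1) * (-1) ^ (E.1.card + pos E F)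

open Classical in
/-- the incidence number of an upper pair with its partner -/
noncomputable def cc (p : Ch S × Ch S) : ℤ :=
  if A1 p.1 p.2 then sg1 p.1 (tE p.1 p.2) else sg2 p.1 p.2 (tK p.1 p.2)

theorem mu_A1 {C E : Ch S} (h : A1 C E) : mu (C, E) = (era C (tE C E), E) := by
  unfold mu; exact if_pos h

theorem mu_A2 {C E : Ch S} (h : A2 C E) :
    mu (C, E) = (C, ins E (tK C E) (A2_ins h)) := by
  have h1 : ¬ A1 C E := fun h' => by
    have h2 := h'.1
    rw [h.1] at h2
    exact Finset.not_nonempty_empty h2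
  unfold mu
  rw [if_neg h1, dif_pos h]

theorem nu_B1 {C E : Ch S} (h : B1 C E) : nu (C, E) = (ins C (tE C E) (B1_ins h), E) := by
  unfold nu; exact dif_pos h

theorem nu_B2 {C E : Ch S} (h : B2 C E) : nu (C, E) = (C, era E (tK C E)) := by
  have h1 : ¬ B1 C E := fun h' => by
    have h2 := h'.1
    rw [h.1] at h2
    exact Finset.not_nonempty_empty h2
  unfold nu
  rw [dif_neg h1, if_pos h]

theorem sg1_sq (C : Ch S) (F : Finset S) : sg1 C F * sg1 C F = 1 := by
  unfold sg1
  rw [← mul_pow]; norm_num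

theorem sg2_sq (C E : Ch S) (F : Finset S) : sg2 C E F * sg2 C E F = 1 := by
  unfold sg2
  have : eps ((C.1.card : ℤ) + 1) * (-1) ^ (E.1.card + pos E F) *
      (eps ((C.1.card : ℤ) + 1) * (-1) ^ (E.1.card + pos E F)) =
      (eps ((C.1.card : ℤ) + 1) * eps ((C.1.card : ℤ) + 1)) *
        ((-1) ^ (E.1.card + pos E F) * (-1) ^ (E.1.card + pos E F)) := by ring
  rw [this, eps_mul_self, ← mul_pow]; norm_num

/-- the minimum of a nonempty chain -/
theorem tT_mem {C : Ch S} (h : C.1.Nonempty) : tT C ∈ C.1 := by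
  obtain ⟨F, hF, hmin⟩ := C.1.exists_minimal h
  have : tT C = F := by
    ext s
    rw [mem_tT]
    constructor
    · intro h'; exact h' F hF
    · intro hs F' hF'
      rcases C.2.2 F hF F' hF' with h1 | h1
      · exact h1 hs
      · exact hmin hF' h1 hs
  rw [this]; exact hF

theorem tK_self (C : Ch S) : tK C C = tT C := by
  ext s
  rw [mem_tK, mem_tT]
  constructor
  · intro h F hF
    apply h F hF
    rw [Finset.disjoint_left]
    push Not
    have hne : C.1.Nonempty := ⟨F, hF⟩
    obtain ⟨x, hx⟩ := (C.2.1 _ (tT_mem hne)).1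
    exact ⟨x, (mem_tT C x).1 hx F hF, hx⟩
  · intro h F hF _
    exact h F hF

theorem not_A_self (C : Ch S) : ¬ (A1 C C ∨ A2 C C) := by
  have h0 : tE C C = ∅ := by
    unfold tE; rw [tK_self]; exact Finset.sdiff_self _
  rintro (h | h)
  · have := h.1
    rw [h0] at this
    exact Finset.not_nonempty_empty this
  · by_cases hC : C.1.Nonempty
    · apply h.2.2
      rw [tK_self]
      exact tT_mem hC
    · apply h.2.1
      rw [tK_self]
      ext s
      rw [mem_tT]
      simp only [Finset.mem_univ, iff_true]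
      intro F hF
      exact absurd ⟨F, hF⟩ hC

/-! ### the basis -/

/-- the basis of the tensor product -/
noncomputable def bb (R : Type u) [CommRing R] (act : G →* Equiv.Perm S) :
    Module.Basis (Ch S × Ch S) R ((LC R act).tensor (LD R act)).V :=
  Module.Basis.tensorProduct (Finsupp.basisSingleOne (R := R) (ι := Ch S))
    (Finsupp.basisSingleOne (R := R) (ι := Ch S))

theorem bb_apply (act : G →* Equiv.Perm S) (C E : Ch S) :
    bb R act (C, E) = (Finsupp.single C (1 : R) : Ch S →₀ R) ⊗ₜ[R]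
      (Finsupp.single E (1 : R) : Ch S →₀ R) := by
  have h := Module.Basis.tensorProduct_apply (Finsupp.basisSingleOne (R := R) (ι := Ch S))
    (Finsupp.basisSingleOne (R := R) (ι := Ch S)) C E
  rw [Finsupp.coe_basisSingleOne] at h
  exact h

theorem pi_LC (act : G →* Equiv.Perm S) (n : ℤ) (C : Ch S) :
    (LC R act).π n (Finsupp.single C (1 : R) : Ch S →₀ R) =
      if (C.1.card : ℤ) + 1 = n then (Finsupp.single C (1 : R) : Ch S →₀ R) else 0 := by
  show prD R (fun C : Ch S => (C.1.card : ℤ) + 1) n (Finsupp.single C (1 : R)) = _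
  unfold prD
  rw [Finsupp.lsum_single]
  split_ifs <;> rfl

theorem pi_LD (act : G →* Equiv.Perm S) (n : ℤ) (C : Ch S) :
    (LD R act).π n (Finsupp.single C (1 : R) : Ch S →₀ R) =
      if -((C.1.card : ℤ) + 1) = n then (Finsupp.single C (1 : R) : Ch S →₀ R) else 0 := by
  show prD R (fun C : Ch S => -((C.1.card : ℤ) + 1)) n (Finsupp.single C (1 : R)) = _
  unfold prD
  rw [Finsupp.lsum_single]
  split_ifs <;> rfl

theorem d_LC (act : G →* Equiv.Perm S) (C : Ch S) :
    (LC R act).d (Finsupp.single C (1 : R) : Ch S →₀ R) =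
      ∑ F ∈ C.1, sg1 C F • (Finsupp.single (era C F) (1 : R) : Ch S →₀ R) := by
  show dL R S (Finsupp.single C (1 : R)) = _
  unfold dL
  rw [Finsupp.lsum_single, LinearMap.sum_apply]
  rfl

theorem d_LD (act : G →* Equiv.Perm S) (C : Ch S) :
    (LD R act).d (Finsupp.single C (1 : R) : Ch S →₀ R) =
      ∑ F : Finset S, if h : Ins C F then
        ((-1 : ℤ) ^ (C.1.card + pos C F)) • (Finsupp.single (ins C F h) (1 : R) : Ch S →₀ R)
        else 0 := by
  show dL' R S (Finsupp.single C (1 : R)) = _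
  unfold dL'
  rw [Finsupp.lsum_single, LinearMap.sum_apply]
  refine Finset.sum_congr rfl (fun F _ => ?_)
  split_ifs <;> rfl

theorem sgn_LC (act : G →* Equiv.Perm S) (C : Ch S) :
    (LC R act).sgn (Finsupp.single C (1 : R) : Ch S →₀ R) =
      eps ((C.1.card : ℤ) + 1) • (Finsupp.single C (1 : R) : Ch S →₀ R) := by
  have h := (LC R act).sgn_π ((C.1.card : ℤ) + 1) (Finsupp.single C (1 : R) : Ch S →₀ R)
  rw [pi_LC, if_pos rfl] at h
  exact h

theorem bb_ρ (act : G →* Equiv.Perm S) (g : G) (C E : Ch S) :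
    ((LC R act).tensor (LD R act)).ρ g (bb R act (C, E)) =
      bb R act (actCh (act g) C, actCh (act g) E) := by
  rw [bb_apply, bb_apply]
  have h1 : (LC R act).ρ g (Finsupp.single C (1 : R) : Ch S →₀ R) =
      (Finsupp.single (actCh (act g) C) (1 : R) : Ch S →₀ R) := Finsupp.mapDomain_single
  have h2 : (LD R act).ρ g (Finsupp.single E (1 : R) : Ch S →₀ R) =
      (Finsupp.single (actCh (act g) E) (1 : R) : Ch S →₀ R) := Finsupp.mapDomain_single
  exact (TensorProduct.map_tmul ((LC R act).ρ g) ((LD R act).ρ g) _ _).trans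
    (congrArg₂ (fun a b => a ⊗ₜ[R] b) h1 h2)

theorem bb_π (act : G →* Equiv.Perm S) (n : ℤ) (C E : Ch S) :
    ((LC R act).tensor (LD R act)).π n (bb R act (C, E)) =
      if (C.1.card : ℤ) - E.1.card = n then bb R act (C, E) else 0 := by
  rw [bb_apply]
  have h := Cx.tπ_tmul (LC R act) (LD R act) n ((C.1.card : ℤ) + 1) (-((E.1.card : ℤ) + 1))
    (Finsupp.single C (1 : R) : Ch S →₀ R) (Finsupp.single E (1 : R) : Ch S →₀ R)
  rw [pi_LC, pi_LD, if_pos rfl, if_pos rfl] at h
  have e : (C.1.card : ℤ) + 1 + -((E.1.card : ℤ) + 1) = (C.1.card : ℤ) - E.1.card := by ring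
  rw [e] at h
  exact h

theorem tsum1 {M N α : Type*} [AddCommGroup M] [AddCommGroup N] [Module R M] [Module R N]
    (s : Finset α) (c : α → ℤ) (x : α → M) (y : N) :
    (∑ a ∈ s, c a • x a) ⊗ₜ[R] y = ∑ a ∈ s, c a • (x a ⊗ₜ[R] y) := by
  rw [TensorProduct.sum_tmul]
  refine Finset.sum_congr rfl (fun a _ => ?_)
  exact (TensorProduct.smul_tmul' (c a) (x a) y).symm

theorem tsum2 {M N α : Type*} [AddCommGroup M] [AddCommGroup N] [Module R M] [Module R N]
    (s : Finset α) (k : ℤ) (P : α → Prop) [DecidablePred P] (c : α → ℤ) (y : ∀ a, P a → N)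
    (x : M) : (eps k • x) ⊗ₜ[R] (∑ a ∈ s, if h : P a then c a • y a h else 0) =
      ∑ a ∈ s, if h : P a then (eps k * c a) • (x ⊗ₜ[R] y a h) else 0 := by
  rw [TensorProduct.tmul_sum]
  refine Finset.sum_congr rfl (fun a _ => ?_)
  split_ifs with h
  · rw [mul_smul, Cx.eps_tmul]
    congr 1
    exact TensorProduct.tmul_smul _ _ _
  · exact TensorProduct.tmul_zero _ _

theorem bb_d (act : G →* Equiv.Perm S) (C E : Ch S) :
    ((LC R act).tensor (LD R act)).d (bb R act (C, E)) =
      ∑ F ∈ C.1, sg1 C F • bb R act (era C F, E) +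
      ∑ F : Finset S, if h : Ins E F then sg2 C E F • bb R act (C, ins E F h) else 0 := by
  rw [bb_apply]
  have h := Cx.td_tmul (LC R act) (LD R act) (Finsupp.single C (1 : R) : Ch S →₀ R)
    (Finsupp.single E (1 : R) : Ch S →₀ R)
  rw [d_LC, d_LD, sgn_LC] at h
  refine h.trans ?_
  simp only [bb_apply]
  exact congrArg₂ (· + ·) (tsum1 _ _ _ _) (tsum2 _ _ _ _ _ _)

theorem eps_nat (n : ℕ) : eps (n : ℤ) = (-1) ^ n := by
  induction n with
  | zero => simp [eps_zero]
  | succ n ih => rw [Nat.cast_succ, eps_succ, ih, pow_succ]; ring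

theorem sg12 (C E : Ch S) (F : Finset S) (hF : F ∈ C.1) (hE : era C F = E) :
    sg1 C F + sg2 C E F = 0 := by
  subst hE
  have h1 : pos C F = pos (era C F) F := by
    have := pos_ins (Ins_era hF)
    rw [ins_era (Ins_era hF) hF] at this
    exact this
  have h2 : C.1.card = (era C F).1.card + 1 := (Finset.card_erase_add_one hF).symm
  unfold sg1 sg2
  rw [← h1]
  have h3 : eps ((C.1.card : ℤ) + 1) = (-1) ^ ((era C F).1.card) := by
    rw [eps_succ, h2, Nat.cast_succ, eps_succ, neg_neg, eps_nat]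
  rw [h3]
  generalize (era C F).1.card = e
  generalize pos C F = k
  have h4 : ((-1 : ℤ) ^ e * (-1) ^ e) = 1 := by rw [← mul_pow]; norm_num
  rw [pow_add, pow_add]
  linear_combination ((-1 : ℤ) ^ k) * h4

/-- the measure of the partner of a lower pair obtained by a removal -/
theorem step1 {C E : Ch S} (h : A1 C E ∨ A2 C E) {F : Finset S} (hF : F ∈ C.1)
    (hne : ¬ (A1 C E ∧ F = tE C E)) (hB : B1 (era C F) E ∨ B2 (era C F) E) :
    meas (nu (era C F, E)).1 (nu (era C F, E)).2 < meas C E := by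
  rcases hB with hB | hB
  · rw [nu_B1 hB]
    exact meas_era_B1 h hF hne hB
  · rw [nu_B2 hB]
    exact meas_era_B2 h hF hB

/-- the measure of the partner of a lower pair obtained by an insertion -/
theorem step2 {C E : Ch S} (h : A1 C E ∨ A2 C E) {F : Finset S} (hF : Ins E F)
    (hne : ¬ (A2 C E ∧ F = tK C E)) (hB : B1 C (ins E F hF) ∨ B2 C (ins E F hF)) :
    meas (nu (C, ins E F hF)).1 (nu (C, ins E F hF)).2 < meas C E := by
  rcases hB with hB | hB
  · rw [nu_B1 hB]
    exact meas_ins_B1 h hF hB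
  · exact absurd (ins_B2 h hF hB) hne

theorem excl_A {C E : Ch S} (h : A1 C E) (h' : tE C E = ∅) : False := by
  have := h.1
  rw [h'] at this
  exact Finset.not_nonempty_empty this

theorem excl_B {C E : Ch S} (h : B1 C E) (h' : tE C E = ∅) : False := by
  have := h.1
  rw [h'] at this
  exact Finset.not_nonempty_empty this

/-- Apply `gauss1` and `gauss2` to `W = LC ⊗ LD` with the matching of LCMatch and
`p (C ⊗ E) = δ_{C,E}`, `q 1 = nil ⊗ nil`. -/
theorem LC_LD [Nonempty S] (act : G →* Equiv.Perm S) :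
    Cx.Heq ((LC R act).tensor (LD R act)) (Cx.one R G) := by
  classical
  have hfin := Fintype.ofFinite (Ch S × Ch S)
  -- the augmentation
  let pf : ((LC R act).tensor (LD R act)).V →ₗ[R] R :=
    (bb R act).constr R (fun i => if i.1 = i.2 then (1 : R) else 0)
  have hpf : ∀ C E : Ch S, pf (bb R act (C, E)) = if C = E then (1 : R) else 0 := fun C E =>
    (bb R act).constr_basis R (fun i => if i.1 = i.2 then (1 : R) else 0) (C, E)
  have hpd : ∀ C E : Ch S, pf (((LC R act).tensor (LD R act)).d (bb R act (C, E))) = 0 := by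
    intro C E
    rw [bb_d, map_add, map_sum, map_sum]
    have e1 : ∀ F ∈ C.1, pf (sg1 C F • bb R act (era C F, E)) =
        if era C F = E then ((sg1 C F : ℤ) : R) else 0 := by
      intro F _
      rw [map_zsmul, hpf]
      split_ifs <;> simp
    have e2 : ∀ F ∈ (Finset.univ : Finset (Finset S)),
        pf (if h : Ins E F then sg2 C E F • bb R act (C, ins E F h) else 0) =
        if (F ∈ C.1 ∧ era C F = E) then ((sg2 C E F : ℤ) : R) else 0 := by
      intro F _
      by_cases h : Ins E F
      · rw [dif_pos h, map_zsmul, hpf]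
        by_cases h' : C = ins E F h
        · have h2 : F ∈ C.1 ∧ era C F = E := by
            constructor
            · rw [h']; exact Finset.mem_insert_self _ _
            · rw [h']; exact era_ins h
          rw [if_pos h', if_pos h2]
          simp
        · have h2 : ¬ (F ∈ C.1 ∧ era C F = E) := by
            rintro ⟨k1, k2⟩
            apply h'
            rw [← ins_era (Ins_era k1) k1]
            exact ins_congr _ _ k2 rfl
          rw [if_neg h', if_neg h2, smul_zero]
      · rw [dif_neg h, map_zero, if_neg]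
        rintro ⟨k1, k2⟩
        apply h
        rw [← k2]
        exact Ins_era k1
    rw [Finset.sum_congr rfl e1, Finset.sum_congr rfl e2]
    have e3 : ∑ F : Finset S, (if (F ∈ C.1 ∧ era C F = E) then ((sg2 C E F : ℤ) : R) else 0) =
        ∑ F ∈ C.1, if era C F = E then ((sg2 C E F : ℤ) : R) else 0 := by
      rw [← Finset.sum_subset (Finset.subset_univ C.1)]
      · refine Finset.sum_congr rfl (fun F hF => ?_)
        by_cases h : era C F = E
        · rw [if_pos h, if_pos ⟨hF, h⟩]
        · rw [if_neg h, if_neg (fun h' => h h'.2)]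
      · intro F _ hF
        rw [if_neg (fun h' => hF h'.1)]
    rw [e3, ← Finset.sum_add_distrib]
    apply Finset.sum_eq_zero
    intro F hF
    split_ifs with h
    · rw [← Int.cast_add, sg12 C E F hF h, Int.cast_zero]
    · rw [add_zero]
  have extb : ∀ {N : Type u} [AddCommGroup N] [Module R N]
      (f g : ((LC R act).tensor (LD R act)).V →ₗ[R] N),
      (∀ C E : Ch S, f (bb R act (C, E)) = g (bb R act (C, E))) → ∀ x, f x = g x :=
    fun f g h x => LinearMap.congr_fun ((bb R act).ext (fun i => h i.1 i.2)) x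
  let p : Cx.Hom ((LC R act).tensor (LD R act)) (Cx.one R G) :=
    { f := pf
      f_ρ := fun g => by
        refine extb (pf ∘ₗ ((LC R act).tensor (LD R act)).ρ g) pf (fun C E => ?_)
        rw [LinearMap.comp_apply, bb_ρ, hpf, hpf]
        by_cases h : C = E
        · rw [if_pos h, if_pos (by rw [h])]
        · rw [if_neg h, if_neg (fun h' => h (actCh_inj _ h'))]
      f_π := fun n => by
        refine extb (pf ∘ₗ ((LC R act).tensor (LD R act)).π n) ((Cx.one R G).π n ∘ₗ pf)
          (fun C E => ?_)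
        show pf (((LC R act).tensor (LD R act)).π n (bb R act (C, E))) =
          (if n = 0 then LinearMap.id else (0 : R →ₗ[R] R)) (pf (bb R act (C, E)))
        rw [bb_π, hpf]
        by_cases h : C = E
        · subst h
          rw [if_pos rfl, sub_self]
          by_cases hn : n = 0
          · rw [if_pos hn.symm, if_pos hn, hpf, if_pos rfl]; rfl
          · rw [if_neg (fun h => hn h.symm), if_neg hn, map_zero]; rfl
        · rw [if_neg h, map_zero]
          split_ifs
          · rw [hpf, if_neg h]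
          · rw [map_zero]
      f_d := fun x => by
        show pf _ = 0
        exact extb (pf ∘ₗ ((LC R act).tensor (LD R act)).d) 0 (fun C E => hpd C E) x }
  let q : (Cx.one R G).V →ₗ[R] ((LC R act).tensor (LD R act)).V :=
    LinearMap.toSpanSingleton R _ (bb R act (nil, nil))
  have hq : ∀ r : R, q r = r • bb R act (nil, nil) := fun r => rfl
  refine Cx.morse ((LC R act).tensor (LD R act)) (Cx.one R G) (bb R act)
    (fun g i => (actCh (act g) i.1, actCh (act g) i.2))
    (fun i => (i.1.1.card : ℤ) - i.2.1.card) (fun g i => bb_ρ act g i.1 i.2)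
    (fun n i => bb_π act n i.1 i.2)
    (fun i => A1 i.1 i.2 ∨ A2 i.1 i.2) (fun i => B1 i.1 i.2 ∨ B2 i.1 i.2)
    (fun i => i.1 = nil ∧ i.2 = nil) mu nu cc (fun i => meas i.1 i.2)
    (Finset.univ.sup (fun i : Ch S × Ch S => meas i.1 i.2) + 1)
    (fun i => Nat.lt_succ_of_le (Finset.le_sup (f := fun i : Ch S × Ch S => meas i.1 i.2)
      (Finset.mem_univ i))) ?_ ?_ ?_ ?_ ?_ ?_ ?_ ?_ ?_ ?_ ?_ ?_ ?_ ?_ ?_ p q ?_ ?_ ?_ ?_
  · -- covering
    rintro ⟨C, E⟩
    rcases cases5 C E with h | h | h | h | h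
    · exact Or.inl (Or.inl h)
    · exact Or.inr (Or.inl (Or.inl h))
    · exact Or.inl (Or.inr h)
    · exact Or.inr (Or.inl (Or.inr h))
    · exact Or.inr (Or.inr h)
  · rintro ⟨C, E⟩ (h | h) (h' | h')
    · exact h'.2 h.2
    · exact excl_A h h'.1
    · exact excl_B h' h.1
    · exact h.2.2 h'.2.2
  · rintro ⟨C, E⟩ h ⟨h1, h2⟩
    dsimp only at h h1 h2
    subst h1; subst h2
    rcases h with h | h
    · exact not_nil.1 h
    · exact not_nil.2.2.1 h
  · rintro ⟨C, E⟩ h ⟨h1, h2⟩
    dsimp only at h h1 h2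
    subst h1; subst h2
    rcases h with h | h
    · exact not_nil.2.1 h
    · exact not_nil.2.2.2 h
  · rintro g ⟨C, E⟩
    dsimp only
    rw [A1_act, A2_act]
  · rintro g ⟨C, E⟩
    dsimp only
    rw [B1_act, B2_act]
  · rintro g ⟨C, E⟩
    dsimp only
    constructor
    · rintro ⟨h1, h2⟩
      rw [← actCh_nil (act g)] at h1 h2
      exact ⟨actCh_inj _ h1, actCh_inj _ h2⟩
    · rintro ⟨rfl, rfl⟩
      exact ⟨actCh_nil _, actCh_nil _⟩
  · rintro ⟨C, E⟩ (h | h)
    · rw [mu_A1 h]
      have h1 := A1_era h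
      refine ⟨Or.inl h1.1, ?_⟩
      rw [nu_B1 h1.1]
      refine Prod.ext ?_ rfl
      dsimp only
      exact (ins_congr _ _ rfl h1.2).trans (ins_era (Ins_era h.2) h.2)
    · rw [mu_A2 h]
      have h1 := A2_ins' h
      refine ⟨Or.inr h1.1, ?_⟩
      rw [nu_B2 h1.1]
      refine Prod.ext rfl ?_
      dsimp only
      rw [h1.2]
      exact era_ins _
  · rintro ⟨C, E⟩ (h | h)
    · rw [nu_B1 h]
      have h1 := B1_ins' h
      refine ⟨Or.inl h1.1, ?_⟩
      rw [mu_A1 h1.1]
      refine Prod.ext ?_ rfl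
      dsimp only
      rw [h1.2]
      exact era_ins _
    · rw [nu_B2 h]
      have h1 := B2_era h
      refine ⟨Or.inr h1.1, ?_⟩
      rw [mu_A2 h1.1]
      refine Prod.ext rfl ?_
      dsimp only
      exact (ins_congr _ _ rfl h1.2).trans (ins_era (Ins_era h.2.2) h.2.2)
  · rintro g ⟨C, E⟩ (h | h)
    · dsimp only
      rw [mu_A1 h, mu_A1 ((A1_act (act g) C E).2 h)]
      dsimp only
      refine Prod.ext ?_ rfl
      dsimp only
      rw [tE_act, era_act]
    · dsimp only
      rw [mu_A2 h, mu_A2 ((A2_act (act g) C E).2 h)]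
      dsimp only
      refine Prod.ext rfl ?_
      dsimp only
      have h2 : Ins (actCh (act g) E) (mp (act g) (tK C E)) := by
        have := A2_ins ((A2_act (act g) C E).2 h)
        rw [tK_act] at this
        exact this
      rw [← ins_act (act g) E (tK C E) (A2_ins h) h2]
      exact ins_congr _ _ rfl (tK_act _ _ _)
  · rintro g ⟨C, E⟩ (h | h)
    · dsimp only
      rw [nu_B1 h, nu_B1 ((B1_act (act g) C E).2 h)]
      dsimp only
      refine Prod.ext ?_ rfl
      dsimp only
      have h2 : Ins (actCh (act g) C) (mp (act g) (tE C E)) := by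
        have := B1_ins ((B1_act (act g) C E).2 h)
        rw [tE_act] at this
        exact this
      rw [← ins_act (act g) C (tE C E) (B1_ins h) h2]
      exact ins_congr _ _ rfl (tE_act _ _ _)
    · dsimp only
      rw [nu_B2 h, nu_B2 ((B2_act (act g) C E).2 h)]
      dsimp only
      refine Prod.ext rfl ?_
      dsimp only
      rw [tK_act, era_act]
  · rintro ⟨C, E⟩ (h | h)
    · rw [mu_A1 h]
      have h1 : ((era C (tE C E)).1.card : ℤ) + 1 = C.1.card := by
        exact_mod_cast Finset.card_erase_add_one h.2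
      dsimp only
      linarith
    · rw [mu_A2 h]
      have h1 : ((ins E (tK C E) (A2_ins h)).1.card : ℤ) = E.1.card + 1 := by
        exact_mod_cast Finset.card_insert_of_notMem (A2_ins h).1
      dsimp only
      linarith
  · rintro ⟨C, E⟩
    unfold cc
    split_ifs
    · exact sg1_sq _ _
    · exact sg2_sq _ _ _
  · rintro g ⟨C, E⟩ h
    unfold cc
    dsimp only
    by_cases h1 : A1 C E
    · rw [if_pos h1, if_pos ((A1_act _ _ _).2 h1), tE_act]
      unfold sg1
      rw [pos_act]
    · rw [if_neg h1, if_neg (fun h' => h1 ((A1_act _ _ _).1 h')), tK_act]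
      unfold sg2
      rw [pos_act, card_act, card_act]
  · -- the differential
    rintro ⟨C, E⟩ h
    dsimp only at h ⊢
    rw [bb_d]
    have m1 : ∀ F ∈ C.1, ¬ (A1 C E ∧ F = tE C E) →
        sg1 C F • bb R act (era C F, E) ∈ Submodule.span R
          {x | ∃ j, x = bb R act j ∧ ((B1 j.1 j.2 ∨ B2 j.1 j.2) →
            meas (nu j).1 (nu j).2 < meas C E)} := by
      intro F hF hne
      exact zsmul_mem (Submodule.subset_span (s := {x | ∃ j, x = bb R act j ∧
        ((B1 j.1 j.2 ∨ B2 j.1 j.2) → meas (nu j).1 (nu j).2 < meas C E)})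
        ⟨(era C F, E), rfl, fun hB => step1 h hF hne hB⟩) _
    have m2 : ∀ F : Finset S, ¬ (A2 C E ∧ F = tK C E) →
        (if h : Ins E F then sg2 C E F • bb R act (C, ins E F h) else 0) ∈ Submodule.span R
          {x | ∃ j, x = bb R act j ∧ ((B1 j.1 j.2 ∨ B2 j.1 j.2) →
            meas (nu j).1 (nu j).2 < meas C E)} := by
      intro F hne
      by_cases hF : Ins E F
      · rw [dif_pos hF]
        exact zsmul_mem (Submodule.subset_span (s := {x | ∃ j, x = bb R act j ∧
          ((B1 j.1 j.2 ∨ B2 j.1 j.2) → meas (nu j).1 (nu j).2 < meas C E)})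
          ⟨(C, ins E F hF), rfl, fun hB => step2 h hF hne hB⟩) _
      · rw [dif_neg hF]; exact Submodule.zero_mem _
    rcases h with h | h
    · rw [mu_A1 h]
      have e : cc (C, E) = sg1 C (tE C E) := if_pos h
      rw [e, ← Finset.add_sum_erase C.1 _ h.2, add_assoc, add_sub_cancel_left]
      refine Submodule.add_mem _ (Submodule.sum_mem _ (fun F hF => ?_))
        (Submodule.sum_mem _ (fun F _ => ?_))
      · exact m1 F (Finset.mem_of_mem_erase hF) (fun h' => (Finset.ne_of_mem_erase hF) h'.2)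
      · exact m2 F (fun h' => excl_A h h'.1.1)
    · rw [mu_A2 h]
      have hn : ¬ A1 C E := fun h' => excl_A h' h.1
      have e : cc (C, E) = sg2 C E (tK C E) := if_neg hn
      rw [e, ← Finset.add_sum_erase Finset.univ _ (Finset.mem_univ (tK C E)),
        dif_pos (A2_ins h), add_comm (sg2 C E (tK C E) • _), ← add_assoc, add_sub_cancel_right]
      refine Submodule.add_mem _ (Submodule.sum_mem _ (fun F hF => ?_))
        (Submodule.sum_mem _ (fun F hF => ?_))
      · exact m1 F hF (fun h' => hn h'.1)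
      · exact m2 F (fun h' => (Finset.ne_of_mem_erase hF) h'.2)
  · -- q
    constructor
    · intro g (x : R)
      show x • bb R act (nil, nil) =
        ((LC R act).tensor (LD R act)).ρ g (x • bb R act (nil, nil))
      rw [map_smul, bb_ρ, actCh_nil]
    · intro n (x : R)
      show ((if n = 0 then LinearMap.id else (0 : R →ₗ[R] R)) x) • bb R act (nil, nil) =
        ((LC R act).tensor (LD R act)).π (n + 0) (x • bb R act (nil, nil))
      rw [map_smul, bb_π, sub_self, add_zero]
      by_cases hn : n = 0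
      · rw [if_pos hn, if_pos hn.symm]; rfl
      · rw [if_neg hn, if_neg (fun h => hn h.symm), smul_zero]
        exact zero_smul R _
  · rintro ⟨C, E⟩ h
    show pf _ = 0
    rw [hpf, if_neg]
    rintro rfl
    exact not_A_self C h
  · intro (z : R)
    show pf (z • bb R act (nil, nil)) = z
    rw [map_smul, hpf, if_pos rfl]
    exact mul_one z
  · rintro ⟨C, E⟩ ⟨h1, h2⟩
    dsimp only at h1 h2
    subst h1; subst h2
    show q (pf _) = _
    rw [hpf, if_pos rfl, hq, one_smul]

end LC

end PicInd
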