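import Mathlib
import Pool.Agent.Lib_MP_8744b5_al.LCDef
import Pool.Agent.Lib_MP_8744b5_al.GamNQ
import Pool.Agent.Lib_MP_8744b5_al.TFun

/-! Piece LC4: the normalised complex of `T_D(Γ(R[1]))` is `LC`. -/

set_option linter.unusedVariables false

open CategoryTheory TensorProduct Opposite Simplicial

namespace PicInd

universe u

variable {R : Type u} [CommRing R] {G H : Type} [Group G] [Group H]

set_option linter.unusedSectionVars false

namespace LC

section comb

variable {S : Type} [Fintype S] [DecidableEq S]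

theorem Ch_ext {C C' : Ch S} (h : C.1 = C'.1) : C = C' := Subtype.ext h

/-- the sublevel sets -/
def lev {m : ℕ} (f : S → Fin m) (k : ℕ) : Finset S := Finset.univ.filter fun s => (f s : ℕ) < k

theorem mem_lev {m : ℕ} (f : S → Fin m) (k : ℕ) (s : S) : s ∈ lev f k ↔ (f s : ℕ) < k := by
  simp [lev]

theorem lev_ssub {m : ℕ} {f : S → Fin m} (hf : Function.Surjective f) {i j : ℕ} (hij : i < j)
    (hj : j ≤ m) : lev f i ⊂ lev f j := by
  rw [Finset.ssubset_iff_of_subset]
  · obtain ⟨s, hs⟩ := hf ⟨i, by omega⟩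
    refine ⟨s, (mem_lev f j s).2 ?_, fun h => ?_⟩
    · rw [hs]; exact hij
    · have := (mem_lev f i s).1 h
      rw [hs] at this
      exact lt_irrefl _ this
  · intro s hs
    rw [mem_lev] at hs ⊢
    omega

theorem lev_inj {m : ℕ} {f : S → Fin m} (hf : Function.Surjective f) {i j : ℕ} (hi : i ≤ m)
    (hj : j ≤ m) (h : lev f i = lev f j) : i = j := by
  rcases lt_trichotomy i j with h1 | h1 | h1
  · exact absurd h (lev_ssub hf h1 hj).ne
  · exact h1
  · exact absurd h.symm (lev_ssub hf h1 hi).ne

/-- the chain of a surjection -/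
def chn {m : ℕ} (f : S → Fin m) (hf : Function.Surjective f) : Ch S :=
  ⟨(Finset.Ioo 0 m).image (lev f), by
    intro F hF
    obtain ⟨k, hk, rfl⟩ := Finset.mem_image.1 hF
    rw [Finset.mem_Ioo] at hk
    constructor
    · obtain ⟨s, hs⟩ := hf ⟨0, by omega⟩
      exact ⟨s, (mem_lev f k s).2 (by rw [hs]; exact hk.1)⟩
    · intro h
      obtain ⟨s, hs⟩ := hf ⟨k, hk.2⟩
      have : s ∈ lev f k := by rw [h]; exact Finset.mem_univ s
      rw [mem_lev, hs] at this
      exact lt_irrefl _ this, by
    intro F hF F' hF'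
    obtain ⟨k, hk, rfl⟩ := Finset.mem_image.1 hF
    obtain ⟨k', hk', rfl⟩ := Finset.mem_image.1 hF'
    rcases le_total k k' with h | h
    · left; intro s hs; rw [mem_lev] at hs ⊢; omega
    · right; intro s hs; rw [mem_lev] at hs ⊢; omega⟩

theorem injOn_lev {m : ℕ} {f : S → Fin m} (hf : Function.Surjective f) :
    Set.InjOn (lev f) (Finset.Ioo 0 m) := by
  intro i hi j hj h
  simp only [Finset.coe_Ioo, Set.mem_Ioo] at hi hj
  exact lev_inj hf (by omega) (by omega) h

theorem card_chn {m : ℕ} (f : S → Fin m) (hf : Function.Surjective f) :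
    (chn f hf).1.card = m - 1 := by
  show ((Finset.Ioo 0 m).image (lev f)).card = m - 1
  rw [Finset.card_image_of_injOn (injOn_lev hf), Nat.card_Ioo]
  omega

theorem pos_chn {m : ℕ} (f : S → Fin m) (hf : Function.Surjective f) {k : ℕ} (h0 : 0 < k)
    (hk : k < m) : pos (chn f hf) (lev f k) = k - 1 := by
  show (((Finset.Ioo 0 m).image (lev f)).filter fun E => E ⊂ lev f k).card = k - 1
  have h1 : ((Finset.Ioo 0 m).image (lev f)).filter (fun E => E ⊂ lev f k) =
      (Finset.Ioo 0 k).image (lev f) := by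
    ext E
    simp only [Finset.mem_filter, Finset.mem_image, Finset.mem_Ioo]
    constructor
    · rintro ⟨⟨i, hi, rfl⟩, h⟩
      refine ⟨i, ⟨hi.1, ?_⟩, rfl⟩
      by_contra hcon
      push Not at hcon
      rcases hcon.lt_or_eq with h2 | h2
      · exact absurd (h.trans (lev_ssub hf h2 hi.2.le)) (ssubset_irrefl _)
      · rw [h2] at h; exact absurd h (ssubset_irrefl _)
    · rintro ⟨i, hi, rfl⟩
      exact ⟨⟨i, ⟨hi.1, by omega⟩, rfl⟩, lev_ssub hf hi.2 hk.le⟩
  rw [h1, Finset.card_image_of_injOn, Nat.card_Ioo]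
  · omega
  · intro i hi j hj h
    simp only [Finset.coe_Ioo, Set.mem_Ioo] at hi hj
    exact lev_inj hf (by omega) (by omega) h

theorem lev_merge {m : ℕ} (f : S → Fin (m + 1)) (i : Fin m) (k : ℕ) :
    lev (fun s => i.predAbove (f s)) k = if k ≤ i then lev f k else lev f (k + 1) := by
  ext s
  rw [mem_lev]
  have h1 : ((i.predAbove (f s) : Fin m) : ℕ) = if (f s : ℕ) ≤ i then (f s : ℕ) else (f s : ℕ) - 1 := by
    unfold Fin.predAbove
    split_ifs with h2 h3 h3
    · rw [Fin.lt_def] at h2
      simp only [Fin.val_castSucc] at h2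
      omega
    · simp
    · simp
    · rw [Fin.lt_def] at h2
      simp only [Fin.val_castSucc] at h2
      omega
  rw [h1]
  split_ifs with h2 h3 h3 <;> rw [mem_lev] <;> omega

theorem surj_merge {m : ℕ} {f : S → Fin (m + 1)} (hf : Function.Surjective f) (i : Fin m) :
    Function.Surjective (fun s => i.predAbove (f s)) :=
  (Fin.predAbove_surjective i).comp hf

theorem era_chn {m : ℕ} (f : S → Fin (m + 1)) (hf : Function.Surjective f) (i : Fin m) :
    era (chn f hf) (lev f (i + 1)) = chn (fun s => i.predAbove (f s)) (surj_merge hf i) := by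
  apply Ch_ext
  show ((Finset.Ioo 0 (m + 1)).image (lev f)).erase (lev f (i + 1)) =
    (Finset.Ioo 0 m).image (lev (fun s => i.predAbove (f s)))
  ext E
  simp only [Finset.mem_erase, Finset.mem_image, Finset.mem_Ioo]
  constructor
  · rintro ⟨hne, k, hk, rfl⟩
    have hki : k ≠ i + 1 := fun h => hne (by rw [h])
    by_cases h : k ≤ i
    · exact ⟨k, by have := i.2; omega, by rw [lev_merge, if_pos h]⟩
    · refine ⟨k - 1, by omega, ?_⟩
      rw [lev_merge, if_neg (by omega)]
      congr 1; omega
  · rintro ⟨k, hk, rfl⟩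
    rw [lev_merge]
    split_ifs with h
    · refine ⟨fun h' => ?_, k, by omega, rfl⟩
      have := lev_inj hf (by omega) (by have := i.2; omega) h'
      omega
    · refine ⟨fun h' => ?_, k + 1, by omega, rfl⟩
      have := lev_inj hf (by omega) (by have := i.2; omega) h'
      omega

/-- the function of a chain -/
def fn {m : ℕ} (C : Ch S) (h : C.1.card + 1 = m) (s : S) : Fin m :=
  ⟨(C.1.filter fun F => s ∉ F).card, by
    have := Finset.card_filter_le C.1 (fun F => s ∉ F)
    omega⟩

theorem lev_fn {m : ℕ} (C : Ch S) (h : C.1.card + 1 = m) (E : Finset S) (hE : E ∈ C.1) :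
    lev (fn C h) (pos C E + 1) = E := by
  ext s
  rw [mem_lev]
  show (C.1.filter fun F => s ∉ F).card < pos C E + 1 ↔ s ∈ E
  constructor
  · intro h1
    by_contra h2
    have h3 : insert E (C.1.filter fun F => F ⊂ E) ⊆ C.1.filter fun F => s ∉ F := by
      intro F hF
      rcases Finset.mem_insert.1 hF with rfl | hF
      · exact Finset.mem_filter.2 ⟨hE, h2⟩
      · rw [Finset.mem_filter] at hF
        exact Finset.mem_filter.2 ⟨hF.1, fun h4 => h2 (hF.2.1 h4)⟩
    have h4 := Finset.card_le_card h3
    rw [Finset.card_insert_of_notMem (by simp)] at h4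
    unfold pos at h1
    omega
  · intro h1
    have h3 : (C.1.filter fun F => s ∉ F) ⊆ C.1.filter fun F => F ⊂ E := by
      intro F hF
      rw [Finset.mem_filter] at hF ⊢
      refine ⟨hF.1, ?_⟩
      rcases C.2.2 F hF.1 E hE with h4 | h4
      · exact Finset.ssubset_iff_subset_ne.2 ⟨h4, fun h5 => hF.2 (h5 ▸ h1)⟩
      · exact absurd (h4 h1) hF.2
    have h4 := Finset.card_le_card h3
    unfold pos
    omega

theorem image_lev_fn {m : ℕ} (C : Ch S) (h : C.1.card + 1 = m) :
    C.1 = (Finset.Ioo 0 m).image (lev (fn C h)) := by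
  apply Finset.eq_of_subset_of_card_le
  · intro E hE
    refine Finset.mem_image.2 ⟨pos C E + 1, ?_, lev_fn C h E hE⟩
    have h1 : pos C E < C.1.card := by
      apply Finset.card_lt_card
      rw [Finset.ssubset_iff_of_subset (Finset.filter_subset _ _)]
      exact ⟨E, hE, by simp⟩
    rw [Finset.mem_Ioo]
    omega
  · refine Finset.card_image_le.trans ?_
    rw [Nat.card_Ioo]
    omega

theorem surj_fn [Nonempty S] {m : ℕ} (C : Ch S) (h : C.1.card + 1 = m) :
    Function.Surjective (fn C h) := by
  have himg := image_lev_fn C h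
  have hinj : Set.InjOn (lev (fn C h)) (Finset.Ioo 0 m) := by
    rw [← Finset.card_image_iff, ← himg, Nat.card_Ioo]
    omega
  have hmem : ∀ k, 0 < k → k < m → lev (fn C h) k ∈ C.1 := by
    intro k h1 h2
    rw [himg]
    exact Finset.mem_image.2 ⟨k, Finset.mem_Ioo.2 ⟨h1, h2⟩, rfl⟩
  intro j
  by_contra hcon
  push Not at hcon
  have heq : lev (fn C h) j = lev (fn C h) (j + 1) := by
    ext s
    rw [mem_lev, mem_lev]
    have : ((fn C h s : Fin m) : ℕ) ≠ j := fun h' => hcon s (Fin.ext h')
    omega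
  rcases Nat.eq_zero_or_pos j.1 with h0 | h0
  · by_cases h1 : 1 < m
    · have h2 := (C.2.1 _ (hmem 1 one_pos h1)).1
      rw [h0] at heq
      rw [zero_add] at heq
      rw [← heq] at h2
      obtain ⟨s, hs⟩ := h2
      rw [mem_lev] at hs
      omega
    · obtain ⟨s⟩ := ‹Nonempty S›
      apply hcon s
      apply Fin.ext
      have := (fn C h s).2
      omega
  · by_cases h1 : j.1 + 1 < m
    · have := hinj (by simp; omega) (by simp; omega) heq
      omega
    · have h2 := (C.2.1 _ (hmem j h0 j.2)).2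
      apply h2
      rw [heq]
      ext s
      rw [mem_lev]
      have := (fn C h s).2
      simp
      omega

theorem chn_fn [Nonempty S] {m : ℕ} (C : Ch S) (h : C.1.card + 1 = m) :
    chn (fn C h) (surj_fn C h) = C := Ch_ext (image_lev_fn C h).symm

theorem fn_chn [Nonempty S] {m : ℕ} (f : S → Fin m) (hf : Function.Surjective f)
    (h : (chn f hf).1.card + 1 = m) : fn (chn f hf) h = f := by
  funext s
  apply Fin.ext
  show (((Finset.Ioo 0 m).image (lev f)).filter fun F => s ∉ F).card = f s
  have h1 : ((Finset.Ioo 0 m).image (lev f)).filter (fun F => s ∉ F) =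
      (Finset.Ioo 0 ((f s : ℕ) + 1)).image (lev f) := by
    ext E
    simp only [Finset.mem_filter, Finset.mem_image, Finset.mem_Ioo]
    constructor
    · rintro ⟨⟨i, hi, rfl⟩, h2⟩
      rw [mem_lev] at h2
      exact ⟨i, by omega, rfl⟩
    · rintro ⟨i, hi, rfl⟩
      rw [mem_lev]
      have := (f s).2
      exact ⟨⟨i, by omega, rfl⟩, by omega⟩
  rw [h1, Finset.card_image_of_injOn, Nat.card_Ioo]
  · omega
  · intro i hi j hj h'
    simp only [Finset.coe_Ioo, Set.mem_Ioo] at hi hj
    have := (f s).2
    exact lev_inj hf (by omega) (by omega) h'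

theorem act_chn {m : ℕ} (e : Equiv.Perm S) (f : S → Fin m) (hf : Function.Surjective f) :
    actCh e (chn f hf) = chn (fun s => f (e.symm s)) (hf.comp e.symm.surjective) := by
  apply Ch_ext
  show ((Finset.Ioo 0 m).image (lev f)).image (fun F => F.map e.toEmbedding) =
    (Finset.Ioo 0 m).image (lev (fun s => f (e.symm s)))
  rw [Finset.image_image]
  apply Finset.image_congr
  intro k _
  ext s
  simp [lev, Finset.mem_map_equiv]

end comb

section alg

theorem ap_fa (D : Dat G H) (B : SR R H) (m : ℕ) (i : Fin (m + 2)) (v : D.S → B.V (m + 1)) :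
    (SR.ap D.T B).fa m i (PiTensorProduct.tprod R v) =
      PiTensorProduct.tprod R (fun s => B.fa m i (v s)) :=
  PiTensorProduct.map_tprod _ _

theorem ap_dg (D : Dat G H) (B : SR R H) (m : ℕ) (i : Fin (m + 1)) (v : D.S → B.V m) :
    (SR.ap D.T B).dg m i (PiTensorProduct.tprod R v) =
      PiTensorProduct.tprod R (fun s => B.dg m i (v s)) :=
  PiTensorProduct.map_tprod _ _

theorem ap_ρ (D : Dat G H) (B : SR R H) (m : ℕ) (g : G) (v : D.S → B.V m) :
    (SR.ap D.T B).ρ m g (PiTensorProduct.tprod R v) =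
      PiTensorProduct.tprod R (fun s => B.ρ m (D.c g ((D.act g).symm s)) (v ((D.act g).symm s))) :=
  D.rep_tprod _ _ _

variable (R H) in
/-- the simplicial circle -/
noncomputable abbrev SphB : SR R H := gam (Cx.sph R H 1)

variable (R H) in
/-- the basis vectors -/
noncomputable def uv (m : ℕ) (j : Fin m) : (SphB R H).V m := Gam.inn (Cx.sph R H 1) m {j} (1 : R)

theorem inn_ne (m : ℕ) (σ : Finset (Fin m)) (h : σ.card ≠ 1) (x : (Cx.sph R H 1).V) :
    Gam.inn (Cx.sph R H 1) m σ x = 0 := by
  rw [← Gam.inn_π]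
  have : (Cx.sph R H 1).π σ.card x = 0 := by
    have h' : ((σ.card : ℕ) : ℤ) ≠ 1 := by exact_mod_cast h
    show (if ((σ.card : ℕ) : ℤ) = 1 then (LinearMap.id : R →ₗ[R] R) else 0) x = 0
    rw [if_neg h']
    rfl
  rw [this, map_zero]

theorem pi_one (j : ℕ) (h : j = 1) (x : (Cx.sph R H 1).V) : (Cx.sph R H 1).π (j : ℤ) x = x := by
  subst h
  show (if ((1 : ℕ) : ℤ) = 1 then (LinearMap.id : R →ₗ[R] R) else 0) x = x
  rw [if_pos (by norm_num)]
  rfl

theorem inn_single (m : ℕ) (j : Fin m) (r : R) :
    Gam.inn (Cx.sph R H 1) m {j} (show (Cx.sph R H 1).V from r) = r • uv R H m j := by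
  unfold uv
  rw [← map_smul]
  congr 1
  exact (mul_one r).symm

variable (R H) in
/-- coordinates -/
noncomputable def uE (m : ℕ) : (SphB R H).V m ≃ₗ[R] (Fin m → R) where
  toFun a j := Gam.evv (Cx.sph R H 1) m {j} a
  map_add' a b := by funext j; exact map_add _ a b
  map_smul' r a := by funext j; exact map_smul _ r a
  invFun g := ∑ j, g j • uv R H m j
  left_inv a := by
    conv_rhs => rw [← Gam.sum_inn_evv (Cx.sph R H 1) m a]
    rw [← Finset.sum_subset (Finset.subset_univ (Finset.univ.image (fun j : Fin m => ({j} : Finset (Fin m)))))]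
    · rw [Finset.sum_image (fun j _ k _ h => Finset.singleton_injective h)]
      refine Finset.sum_congr rfl fun j _ => ?_
      rw [← inn_single]
    · intro σ _ hσ
      apply inn_ne
      intro hc
      obtain ⟨j, rfl⟩ := Finset.card_eq_one.1 hc
      exact hσ (Finset.mem_image.2 ⟨j, Finset.mem_univ _, rfl⟩)
  right_inv g := by
    funext j
    show Gam.evv (Cx.sph R H 1) m {j} (∑ k, g k • uv R H m k) = g j
    rw [map_sum, Finset.sum_eq_single j]
    · unfold uv
      rw [map_smul, Gam.evv_inn, pi_one _ (Finset.card_singleton j)]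
      exact mul_one (g j)
    · intro k _ hk
      unfold uv
      rw [map_smul, Gam.evv_inn_ne]
      · exact smul_zero _
      · intro h
        exact hk (Finset.singleton_injective h).symm
    · intro h
      exact absurd (Finset.mem_univ _) h

variable (R H) in
/-- basis of the simplicial circle -/
noncomputable def ub (m : ℕ) : Module.Basis (Fin m) R ((SphB R H).V m) :=
  Module.Basis.ofEquivFun (uE R H m)

theorem ub_apply (m : ℕ) (j : Fin m) : ub R H m j = uv R H m j := by
  unfold ub
  rw [Module.Basis.coe_ofEquivFun]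
  show ∑ k, (Pi.single j (1 : R) : Fin m → R) k • uv R H m k = _
  rw [Finset.sum_eq_single j]
  · simp
  · intro k _ hk
    rw [Pi.single_eq_of_ne hk, zero_smul]
  · intro h
    exact absurd (Finset.mem_univ _) h

theorem ρ_uv (m : ℕ) (h : H) (j : Fin m) : (SphB R H).ρ m h (uv R H m j) = uv R H m j := by
  unfold uv
  rw [← Gam.inn_ρ]
  rfl

theorem dg_uv (m : ℕ) (i : Fin (m + 1)) (j : Fin m) :
    (SphB R H).dg m i (uv R H m j) = uv R H (m + 1) (i.succAbove j) := by
  unfold uv
  rw [Gam.dg_inn, Finset.map_singleton]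
  rfl

theorem fa_zero_uv (m : ℕ) : (SphB R H).fa m 0 (uv R H (m + 1) 0) = 0 := by
  unfold uv
  rw [Gam.fa_zero_inn_mem _ _ _ (by simp)]
  have : (Cx.sph R H 1).d ((Cx.sph R H 1).π (({0} : Finset (Fin (m + 1))).card) (1 : R)) = 0 := rfl
  rw [this, map_zero]

theorem fa_last_uv (m : ℕ) :
    (SphB R H).fa m (Fin.last (m + 1)) (uv R H (m + 1) (Fin.last m)) = 0 := by
  unfold uv
  rw [Gam.fa_last_inn_mem _ _ _ (by simp)]

theorem fa_mid_uv (m : ℕ) (i : Fin m) (j : Fin (m + 1)) :
    (SphB R H).fa m i.succ.castSucc (uv R H (m + 1) j) = uv R H m (i.predAbove j) := by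
  unfold uv
  rw [Gam.fa_mid_inn_not_mem, Finset.image_singleton]
  rintro ⟨h1, h2⟩
  rw [Finset.mem_singleton] at h1 h2
  have := h1.trans h2.symm
  rw [Fin.ext_iff] at this
  simp at this

variable (R) in
/-- the basis of the tensor power -/
noncomputable def eb (D : Dat G H) (m : ℕ) :
    Module.Basis (D.S → Fin m) R ((SR.ap D.T (SphB R H)).V m) :=
  Basis.piTensorProduct (fun _ : D.S => ub R H m)

theorem eb_apply (D : Dat G H) (m : ℕ) (f : D.S → Fin m) :
    eb R D m f = PiTensorProduct.tprod R (fun s => uv R H m (f s)) :=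
  (Basis.piTensorProduct_apply (fun _ : D.S => ub R H m) f).trans
    (congrArg _ (funext fun s => ub_apply m (f s)))

theorem ρ_eb (D : Dat G H) (m : ℕ) (g : G) (f : D.S → Fin m) :
    (SR.ap D.T (SphB R H)).ρ m g (eb R D m f) = eb R D m (fun s => f ((D.act g).symm s)) := by
  rw [eb_apply, eb_apply, ap_ρ]
  simp only [ρ_uv]

theorem dg_eb (D : Dat G H) (m : ℕ) (i : Fin (m + 1)) (f : D.S → Fin m) :
    (SR.ap D.T (SphB R H)).dg m i (eb R D m f) = eb R D (m + 1) (fun s => i.succAbove (f s)) := by
  rw [eb_apply, eb_apply, ap_dg]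
  simp only [dg_uv]

theorem fa_mid_eb (D : Dat G H) (m : ℕ) (i : Fin m) (f : D.S → Fin (m + 1)) :
    (SR.ap D.T (SphB R H)).fa m i.succ.castSucc (eb R D (m + 1) f) =
      eb R D m (fun s => i.predAbove (f s)) := by
  rw [eb_apply, eb_apply, ap_fa]
  simp only [fa_mid_uv]

theorem fa_zero_eb (D : Dat G H) (m : ℕ) (f : D.S → Fin (m + 1)) (hf : Function.Surjective f) :
    (SR.ap D.T (SphB R H)).fa m 0 (eb R D (m + 1) f) = 0 := by
  rw [eb_apply, ap_fa]
  obtain ⟨s, hs⟩ := hf 0
  exact (PiTensorProduct.tprod R).map_coord_zero s (by rw [hs, fa_zero_uv])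

theorem fa_last_eb (D : Dat G H) (m : ℕ) (f : D.S → Fin (m + 1)) (hf : Function.Surjective f) :
    (SR.ap D.T (SphB R H)).fa m (Fin.last (m + 1)) (eb R D (m + 1) f) = 0 := by
  rw [eb_apply, ap_fa]
  obtain ⟨s, hs⟩ := hf (Fin.last m)
  exact (PiTensorProduct.tprod R).map_coord_zero s (by rw [hs, fa_last_uv])

/-- basis vectors of non-surjective maps are degenerate -/
theorem eb_mem_Deg (D : Dat G H) [Nonempty D.S] (m : ℕ) (f : D.S → Fin m)
    (hf : ¬ Function.Surjective f) : eb R D m f ∈ (SR.ap D.T (SphB R H)).Deg m := by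
  cases m with
  | zero =>
    obtain ⟨s⟩ := ‹Nonempty D.S›
    exact (f s).elim0
  | succ n =>
    unfold Function.Surjective at hf
    push Not at hf
    obtain ⟨i, hi⟩ := hf
    have h1 : ∀ s, ∃ j, i.succAbove j = f s := fun s => Fin.exists_succAbove_eq (hi s)
    choose g hg using h1
    have h2 : eb R D (n + 1) f = (SR.ap D.T (SphB R H)).dg n i (eb R D n g) := by
      rw [dg_eb]
      congr 1
      funext s
      exact (hg s).symm
    rw [h2]
    exact Submodule.mem_iSup_of_mem (p := fun i : Fin (n + 1) =>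
      LinearMap.range ((SR.ap D.T (SphB R H)).dg n i)) i ⟨_, rfl⟩

variable (D : Dat G H) [Fintype D.S] [DecidableEq D.S]

open Classical in
variable (R) in
/-- the quotient map -/
noncomputable def phi (m : ℕ) : (SR.ap D.T (SphB R H)).V m →ₗ[R] (Ch D.S →₀ R) :=
  (eb R D m).constr R (fun f => if h : Function.Surjective f then
    Finsupp.single (chn f h) (1 : R) else 0)

theorem phi_surj {m : ℕ} (f : D.S → Fin m) (h : Function.Surjective f) :
    phi R D m (eb R D m f) = Finsupp.single (chn f h) (1 : R) := by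
  unfold phi
  rw [Module.Basis.constr_basis, dif_pos h]

theorem phi_not_surj {m : ℕ} (f : D.S → Fin m) (h : ¬ Function.Surjective f) :
    phi R D m (eb R D m f) = 0 := by
  unfold phi
  rw [Module.Basis.constr_basis, dif_neg h]

open Classical in
variable (R) in
/-- the section -/
noncomputable def psi (m : ℕ) : (Ch D.S →₀ R) →ₗ[R] (SR.ap D.T (SphB R H)).V m :=
  Finsupp.lsum R (fun C : Ch D.S => if h : C.1.card + 1 = m then
    LinearMap.toSpanSingleton R _ (eb R D m (fn C h)) else 0)

theorem psi_single {m : ℕ} (C : Ch D.S) (h : C.1.card + 1 = m) :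
    psi R D m (Finsupp.single C (1 : R)) = eb R D m (fn C h) := by
  unfold psi
  rw [Finsupp.lsum_single, dif_pos h, LinearMap.toSpanSingleton_apply, one_smul]

theorem psi_single_ne {m : ℕ} (C : Ch D.S) (h : C.1.card + 1 ≠ m) :
    psi R D m (Finsupp.single C (1 : R)) = 0 := by
  unfold psi
  rw [Finsupp.lsum_single, dif_neg h]
  rfl

theorem prD_singleN {ι : Type} (deg : ι → ℤ) (n : ℤ) (C : ι) (r : R) :
    prD R deg n (Finsupp.single C r) = if deg C = n then Finsupp.single C r else 0 := by
  unfold prD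
  rw [Finsupp.lsum_single]
  split_ifs <;> rfl

theorem card_chn' [Nonempty D.S] {m : ℕ} (f : D.S → Fin m) (hf : Function.Surjective f) :
    (chn f hf).1.card + 1 = m := by
  rw [card_chn]
  obtain ⟨s⟩ := ‹Nonempty D.S›
  have := (f s).2
  omega

theorem phi_psi [Nonempty D.S] (m : ℕ) (x : Ch D.S →₀ R) :
    phi R D m (psi R D m x) = prD R (fun C : Ch D.S => (C.1.card : ℤ) + 1) m x := by
  have h : phi R D m ∘ₗ psi R D m = prD R (fun C : Ch D.S => (C.1.card : ℤ) + 1) m := by
    apply Finsupp.lhom_ext'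
    intro C
    apply LinearMap.ext_ring
    show phi R D m (psi R D m (Finsupp.single C 1)) = prD R _ m (Finsupp.single C 1)
    rw [prD_singleN]
    by_cases h1 : C.1.card + 1 = m
    · rw [psi_single D C h1, phi_surj D _ (surj_fn C h1), chn_fn, if_pos (by exact_mod_cast h1)]
    · rw [psi_single_ne D C h1, map_zero, if_neg (by exact_mod_cast h1)]
  exact LinearMap.congr_fun h x

theorem psi_phi [Nonempty D.S] (m : ℕ) (a : (SR.ap D.T (SphB R H)).V m) :
    a - psi R D m (phi R D m a) ∈ (SR.ap D.T (SphB R H)).Deg m := by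
  have h : (Submodule.mkQ ((SR.ap D.T (SphB R H)).Deg m)) ∘ₗ
      (LinearMap.id - psi R D m ∘ₗ phi R D m) = 0 := by
    apply (eb R D m).ext
    intro f
    rw [LinearMap.comp_apply, LinearMap.zero_apply, Submodule.mkQ_apply,
      Submodule.Quotient.mk_eq_zero, LinearMap.sub_apply, LinearMap.id_apply,
      LinearMap.comp_apply]
    by_cases hf : Function.Surjective f
    · rw [phi_surj D f hf, psi_single D _ (card_chn' D f hf), fn_chn, sub_self]
      exact Submodule.zero_mem _
    · rw [phi_not_surj D f hf, map_zero, sub_zero]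
      exact eb_mem_Deg D m f hf
  have h2 := LinearMap.congr_fun h a
  rw [LinearMap.comp_apply, LinearMap.zero_apply, Submodule.mkQ_apply,
      Submodule.Quotient.mk_eq_zero] at h2
  exact h2

theorem phi_Deg (m : ℕ) (a : (SR.ap D.T (SphB R H)).V m)
    (ha : a ∈ (SR.ap D.T (SphB R H)).Deg m) : phi R D m a = 0 := by
  cases m with
  | zero =>
    have : a = 0 := ha
    rw [this, map_zero]
  | succ n =>
    have h1 : (SR.ap D.T (SphB R H)).Deg (n + 1) ≤ LinearMap.ker (phi R D (n + 1)) := by
      refine iSup_le fun i => ?_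
      rintro _ ⟨b, rfl⟩
      have h2 : phi R D (n + 1) ∘ₗ (SR.ap D.T (SphB R H)).dg n i = 0 := by
        apply (eb R D n).ext
        intro f
        rw [LinearMap.comp_apply, dg_eb, LinearMap.zero_apply]
        apply phi_not_surj
        intro hs
        obtain ⟨s, hs⟩ := hs i
        exact Fin.succAbove_ne i _ hs
      exact LinearMap.congr_fun h2 b
    exact h1 ha

theorem bd_Deg {A : SR R G} (m : ℕ) (a : A.V (m + 1)) (ha : a ∈ A.Deg (m + 1)) :
    A.bd m a ∈ A.Deg m := by
  rw [← SR.PI_eq_zero_iff] at ha ⊢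
  rw [SR.PI_bd, ha, map_zero]

theorem dL_singleN {S : Type} [Fintype S] [DecidableEq S] (C : Ch S) :
    dL R S (Finsupp.single C (1 : R)) =
      ∑ F ∈ C.1, ((-1 : ℤ) ^ (pos C F + 1)) • Finsupp.single (era C F) (1 : R) := by
  unfold dL
  rw [Finsupp.lsum_single, LinearMap.sum_apply]
  rfl

theorem phi_comm [Nonempty D.S] (m : ℕ) (a : (SR.ap D.T (SphB R H)).V (m + 1)) :
    phi R D m ((SR.ap D.T (SphB R H)).bd m a) = dL R D.S (phi R D (m + 1) a) := by
  have h : phi R D m ∘ₗ (SR.ap D.T (SphB R H)).bd m = dL R D.S ∘ₗ phi R D (m + 1) := by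
    apply (eb R D (m + 1)).ext
    intro f
    rw [LinearMap.comp_apply, LinearMap.comp_apply]
    by_cases hf : Function.Surjective f
    · rw [phi_surj D f hf, dL_singleN]
      have hC : (chn f hf).1 = (Finset.univ : Finset (Fin m)).image (fun i : Fin m => lev f ((i : ℕ) + 1)) := by
        show (Finset.Ioo 0 (m + 1)).image (lev f) = _
        ext E
        simp only [Finset.mem_image, Finset.mem_Ioo, Finset.mem_univ, true_and]
        constructor
        · rintro ⟨k, hk, rfl⟩
          refine ⟨⟨k - 1, by omega⟩, ?_⟩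
          congr 1
          show k - 1 + 1 = k
          omega
        · rintro ⟨i, rfl⟩
          exact ⟨i + 1, ⟨by omega, by have := i.2; omega⟩, rfl⟩
      rw [Finset.sum_congr hC (fun _ _ => rfl), Finset.sum_image]
      · rw [SR.bd, LinearMap.sum_apply, Fin.sum_univ_succ, Fin.sum_univ_castSucc]
        simp only [LinearMap.smul_apply]
        rw [fa_zero_eb D m f hf]
        have hl : (Fin.last m).succ = Fin.last (m + 1) := rfl
        rw [hl, fa_last_eb D m f hf, smul_zero, smul_zero, zero_add, add_zero, map_sum]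
        refine Finset.sum_congr rfl fun i _ => ?_
        have hi : i.castSucc.succ = i.succ.castSucc := rfl
        rw [hi, fa_mid_eb, map_zsmul, phi_surj D _ (surj_merge hf i), era_chn,
          pos_chn f hf (by omega) (by have := i.2; omega)]
        congr 2
      · intro i _ j _ hij
        have := lev_inj hf (by have := i.2; omega) (by have := j.2; omega) hij
        apply Fin.ext
        omega
    · rw [phi_not_surj D f hf, map_zero]
      exact phi_Deg D m _ (bd_Deg m _ (eb_mem_Deg D (m + 1) f hf))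
  exact LinearMap.congr_fun h a

end alg

/-- `φ m (⨂ a_s) = ∑_f ∏_s evv {f s} (a_s) C_f`, the sum over the surjections `f : S → Fin m`, where
`C_f` is the chain of the sets `{s | f s < i}`, `0 < i < m`. The tensors `⨂ inn {f s} 1` with `f` not
surjective are degenerate. -/
theorem sphere_NQ (D : Dat G H) [Fintype D.S] [DecidableEq D.S] [Nonempty D.S] :
    Nonempty (NQ (SR.ap D.T (gam (Cx.sph R H 1))) (LC R D.act)) := by
  refine ⟨{
    φ := fun m => phi R D m
    φ_ρ := ?_
    φ_π := ?_
    surj := ?_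
    ker := ?_
    comm := fun m a => phi_comm D m a
    nonneg := ?_ }⟩
  · intro m g a
    have h : phi R D m ∘ₗ ((SR.ap D.T (SphB R H)).ρ m g) =
        Finsupp.lmapDomain R R (actCh (D.act g)) ∘ₗ phi R D m := by
      apply (eb R D m).ext
      intro f
      rw [LinearMap.comp_apply, LinearMap.comp_apply, ρ_eb]
      by_cases hf : Function.Surjective f
      · rw [phi_surj D f hf, phi_surj D (fun s => f ((D.act g).symm s)) (hf.comp (D.act g).symm.surjective), Finsupp.lmapDomain_apply,
          Finsupp.mapDomain_single, act_chn]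
      · rw [phi_not_surj D f hf, map_zero]
        apply phi_not_surj
        intro h'
        apply hf
        intro j
        obtain ⟨s, hs⟩ := h' j
        exact ⟨_, hs⟩
    exact LinearMap.congr_fun h a
  · intro m a
    have h : prD R (fun C : Ch D.S => (C.1.card : ℤ) + 1) m ∘ₗ phi R D m = phi R D m := by
      apply (eb R D m).ext
      intro f
      rw [LinearMap.comp_apply]
      by_cases hf : Function.Surjective f
      · rw [phi_surj D f hf, prD_singleN, if_pos]
        exact_mod_cast card_chn' D f hf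
      · rw [phi_not_surj D f hf, map_zero]
    exact LinearMap.congr_fun h a
  · intro m x hx
    exact ⟨psi R D m x, (phi_psi D m x).trans hx⟩
  · intro m a
    constructor
    · intro h
      have h1 := psi_phi D m a
      have h2 : phi R D m a = 0 := h
      rw [h2, map_zero, sub_zero] at h1
      exact h1
    · exact phi_Deg D m a
  · intro i hi x
    show prD R (fun C : Ch D.S => (C.1.card : ℤ) + 1) i x = 0
    have h : prD R (fun C : Ch D.S => (C.1.card : ℤ) + 1) i = 0 := by
      apply Finsupp.lhom_ext'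
      intro C
      apply LinearMap.ext_ring
      show prD R _ i (Finsupp.single C 1) = 0
      rw [prD_singleN, if_neg]
      omega
    rw [h]
    rfl

end LC

end PicInd
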