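import Mathlib
import Pool.Agent.Lib_MP_8744b5_al.SimpBase

/-! Piece NQB: existence of the normalised complex of a simplicial representation which is
degenerate in large degrees, and the converse; restriction along homomorphisms. -/

set_option linter.unusedVariables false

open CategoryTheory TensorProduct Opposite Simplicial

namespace PicInd

universe u

variable {R : Type u} [CommRing R] {G : Type} [Group G]

open SR

namespace NQB

/-- The families of elements fixed by `PI`. -/
noncomputable def nqV (A : SR R G) : Submodule R (∀ m : ℕ, A.V m) where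
  carrier := {a | ∀ m, A.PI m (a m) = a m}
  add_mem' := by
    intro a b ha hb m
    rw [Pi.add_apply, map_add, ha m, hb m]
  zero_mem' := by
    intro m
    rw [Pi.zero_apply, map_zero]
  smul_mem' := by
    intro r a ha m
    rw [Pi.smul_apply, map_smul, ha m]

theorem mem_nqV {A : SR R G} {a : ∀ m : ℕ, A.V m} : a ∈ nqV A ↔ ∀ m, A.PI m (a m) = a m := Iff.rfl

/-- the differential -/
noncomputable def dAll (A : SR R G) : (∀ m : ℕ, A.V m) →ₗ[R] (∀ m : ℕ, A.V m) :=
  LinearMap.pi fun m => A.bd m ∘ₗ LinearMap.proj (m + 1)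

theorem dAll_apply (A : SR R G) (a : ∀ m : ℕ, A.V m) (m : ℕ) :
    dAll A a m = A.bd m (a (m + 1)) := rfl

/-- the projections -/
noncomputable def pAll (A : SR R G) (i : ℤ) : (∀ m : ℕ, A.V m) →ₗ[R] (∀ m : ℕ, A.V m) :=
  LinearMap.pi fun m => if (m : ℤ) = i then LinearMap.proj m else 0

theorem pAll_apply (A : SR R G) (i : ℤ) (a : ∀ m : ℕ, A.V m) (m : ℕ) :
    pAll A i a m = if (m : ℤ) = i then a m else 0 := by
  unfold pAll
  rw [LinearMap.pi_apply]
  split_ifs <;> rfl

/-- the action -/
noncomputable def rAll (A : SR R G) (g : G) : (∀ m : ℕ, A.V m) →ₗ[R] (∀ m : ℕ, A.V m) :=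
  LinearMap.pi fun m => A.ρ m g ∘ₗ LinearMap.proj m

theorem rAll_apply (A : SR R G) (g : G) (a : ∀ m : ℕ, A.V m) (m : ℕ) :
    rAll A g a m = A.ρ m g (a m) := rfl

theorem dAll_mem (A : SR R G) : ∀ a ∈ nqV A, dAll A a ∈ nqV A := by
  intro a ha m
  rw [dAll_apply, PI_bd, ha (m + 1)]

theorem pAll_mem (A : SR R G) (i : ℤ) : ∀ a ∈ nqV A, pAll A i a ∈ nqV A := by
  intro a ha m
  rw [pAll_apply]
  split_ifs with h
  · exact ha m
  · exact map_zero _

theorem rAll_mem (A : SR R G) (g : G) : ∀ a ∈ nqV A, rAll A g a ∈ nqV A := by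
  intro a ha m
  rw [rAll_apply, PI_ρ, ha m]

/-- The normalised complex. -/
noncomputable def nqX (A : SR R G) (N : ℕ) (h : ∀ m, N ≤ m → A.Deg m = ⊤) : Cx R G where
  V := nqV A
  ρ :=
    { toFun := fun g => (rAll A g).restrict (rAll_mem A g)
      map_one' := by
        apply LinearMap.ext
        intro a
        apply Subtype.ext
        funext m
        change A.ρ m 1 (a.1 m) = a.1 m
        rw [map_one]
        rfl
      map_mul' := by
        intro g g'
        apply LinearMap.ext
        intro a
        apply Subtype.ext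
        funext m
        change A.ρ m (g * g') (a.1 m) = A.ρ m g (A.ρ m g' (a.1 m))
        rw [map_mul]
        rfl }
  d := (dAll A).restrict (dAll_mem A)
  π i := (pAll A i).restrict (pAll_mem A i)
  s := (Finset.range N).image (fun m : ℕ => (m : ℤ))
  ax := {
    π_zero := by
      intro i hi x
      apply Subtype.ext
      funext m
      change pAll A i x.1 m = 0
      rw [pAll_apply]
      split_ifs with hm
      · have hN : N ≤ m := by
          by_contra hlt
          apply hi
          rw [Finset.mem_image]
          exact ⟨m, Finset.mem_range.2 (by omega), hm⟩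
        rw [← x.2 m, PI_eq_zero_iff, h m hN]
        trivial
      · rfl
    π_sum := by
      intro x
      apply Subtype.ext
      funext m
      rw [AddSubmonoidClass.coe_finsetSum, Finset.sum_apply]
      have h1 : ∀ i : ℤ, ((((pAll A i).restrict (pAll_mem A i)) x : nqV A) : ∀ m : ℕ, A.V m) m =
          if (m : ℤ) = i then x.1 m else 0 := fun i => pAll_apply A i x.1 m
      rw [Finset.sum_congr rfl (fun i _ => h1 i), Finset.sum_ite_eq]
      split_ifs with hm
      · rfl
      · have hN : N ≤ m := by
          by_contra hlt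
          apply hm
          rw [Finset.mem_image]
          exact ⟨m, Finset.mem_range.2 (by omega), rfl⟩
        symm
        rw [← x.2 m, PI_eq_zero_iff, h m hN]
        trivial
    π_self := by
      intro i x
      apply Subtype.ext
      funext m
      change pAll A i (pAll A i x.1) m = pAll A i x.1 m
      rw [pAll_apply, pAll_apply]
      split_ifs <;> rfl
    π_ne := by
      intro i j hij x
      apply Subtype.ext
      funext m
      change pAll A i (pAll A j x.1) m = 0
      rw [pAll_apply, pAll_apply]
      split_ifs with h1 h2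
      · exact absurd (h1.symm.trans h2) hij
      · rfl
      · rfl
    π_d := by
      intro i x
      apply Subtype.ext
      funext m
      change pAll A i (dAll A x.1) m = dAll A (pAll A (i + 1) x.1) m
      rw [pAll_apply, dAll_apply, dAll_apply, pAll_apply]
      by_cases hm : (m : ℤ) = i
      · rw [if_pos hm, if_pos (by push_cast; rw [hm])]
      · rw [if_neg hm, if_neg (by push_cast; omega), map_zero]
    d_d := by
      intro x
      apply Subtype.ext
      funext m
      change A.bd m (A.bd (m + 1) (x.1 (m + 1 + 1))) = 0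
      exact bd_bd A m _
    π_ρ := by
      intro g i x
      apply Subtype.ext
      funext m
      change pAll A i (rAll A g x.1) m = rAll A g (pAll A i x.1) m
      rw [pAll_apply, rAll_apply, rAll_apply, pAll_apply]
      split_ifs
      · rfl
      · rw [map_zero]
    d_ρ := by
      intro g x
      apply Subtype.ext
      funext m
      change A.bd m (A.ρ (m + 1) g (x.1 (m + 1))) = A.ρ m g (A.bd m (x.1 (m + 1)))
      exact bd_ρ A m g _ }

theorem single_mem (A : SR R G) (m : ℕ) (a : A.V m) :
    (LinearMap.single R (fun m : ℕ => A.V m) m) (A.PI m a) ∈ nqV A := by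
  intro j
  rw [LinearMap.single_apply]
  by_cases hj : j = m
  · subst hj
    rw [Pi.single_eq_same, PI_idem]
  · rw [Pi.single_eq_of_ne hj, map_zero]

/-- the projection onto the normalised complex -/
noncomputable def phi (A : SR R G) (m : ℕ) : A.V m →ₗ[R] nqV A :=
  ((LinearMap.single R (fun m : ℕ => A.V m) m) ∘ₗ A.PI m).codRestrict (nqV A)
    (fun a => single_mem A m a)

theorem phi_same (A : SR R G) (m : ℕ) (a : A.V m) :
    ((phi A m a : nqV A) : ∀ m : ℕ, A.V m) m = A.PI m a := by
  change (Pi.single m (A.PI m a) : ∀ m : ℕ, A.V m) m = A.PI m a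
  rw [Pi.single_eq_same]

theorem phi_ne (A : SR R G) (m : ℕ) (a : A.V m) {j : ℕ} (hj : j ≠ m) :
    ((phi A m a : nqV A) : ∀ m : ℕ, A.V m) j = 0 := by
  change (Pi.single m (A.PI m a) : ∀ m : ℕ, A.V m) j = 0
  rw [Pi.single_eq_of_ne hj]

end NQB

open NQB

/-- Take `X.V` the submodule of `∀ m : Fin N, A.V m` of the `a` with `PI (a m) = a m`
(`φ m a = Pi.single m (PI a)`, differential induced by `bd`). -/
theorem exists_NQ (A : SR R G) (h : ∃ N, ∀ m, N ≤ m → A.Deg m = ⊤) :
    ∃ X : Cx R G, Nonempty (NQ A X) := by
  obtain ⟨N, hN⟩ := h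
  refine ⟨nqX A N hN, ⟨?_⟩⟩
  refine
    { φ := fun m => phi A m
      φ_ρ := ?_
      φ_π := ?_
      surj := ?_
      ker := ?_
      comm := ?_
      nonneg := ?_ }
  · intro m g a
    apply Subtype.ext
    funext j
    change (phi A m (A.ρ m g a) : ∀ m : ℕ, A.V m) j = A.ρ j g ((phi A m a : ∀ m : ℕ, A.V m) j)
    by_cases hj : j = m
    · subst hj
      rw [phi_same, phi_same, PI_ρ]
    · rw [phi_ne A m _ hj, phi_ne A m _ hj, map_zero]
  · intro m a
    apply Subtype.ext
    funext j
    change pAll A m (phi A m a).1 j = (phi A m a : ∀ m : ℕ, A.V m) j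
    rw [pAll_apply]
    split_ifs with hj
    · rfl
    · rw [phi_ne A m _ (fun h => hj (by rw [h]))]
  · intro m x hx
    refine ⟨x.1 m, ?_⟩
    apply Subtype.ext
    funext j
    have h1 := congrFun (congrArg Subtype.val hx) j
    change pAll A m x.1 j = x.1 j at h1
    change (phi A m (x.1 m) : ∀ m : ℕ, A.V m) j = x.1 j
    rw [pAll_apply] at h1
    by_cases hj : j = m
    · subst hj
      rw [phi_same]
      exact x.2 j
    · rw [phi_ne A m _ hj, ← h1, if_neg (fun h => hj (by exact_mod_cast h))]
  · intro m a
    rw [← PI_eq_zero_iff]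
    constructor
    · intro h0
      have h1 := congrFun (congrArg Subtype.val h0) m
      change (phi A m a : ∀ m : ℕ, A.V m) m = 0 at h1
      rw [phi_same] at h1
      exact h1
    · intro h0
      apply Subtype.ext
      funext j
      change (phi A m a : ∀ m : ℕ, A.V m) j = 0
      by_cases hj : j = m
      · subst hj
        rw [phi_same, h0]
      · rw [phi_ne A m _ hj]
  · intro m a
    apply Subtype.ext
    funext j
    change (phi A m (A.bd m a) : ∀ m : ℕ, A.V m) j =
      A.bd j ((phi A (m + 1) a : ∀ m : ℕ, A.V m) (j + 1))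
    by_cases hj : j = m
    · subst hj
      rw [phi_same, phi_same, PI_bd]
    · rw [phi_ne A m _ hj, phi_ne A (m + 1) _ (by omega), map_zero]
  · intro i hi x
    apply Subtype.ext
    funext j
    change pAll A i x.1 j = 0
    rw [pAll_apply, if_neg (by omega)]

theorem NQ.bounded {A : SR R G} {X : Cx R G} (n : NQ A X) : ∃ N, ∀ m, N ≤ m → A.Deg m = ⊤ := by
  refine ⟨X.s.sup Int.toNat + 1, ?_⟩
  intro m hm
  rw [eq_top_iff]
  intro a _
  rw [← n.ker, ← n.φ_π]
  apply X.π_zero
  intro hs
  have h1 : Int.toNat (m : ℤ) ≤ X.s.sup Int.toNat := Finset.le_sup hs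
  rw [Int.toNat_natCast] at h1
  omega

end PicInd
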