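import Mathlib
import Pool.Agent.Lib_MP_8744b5_al.TFun

/-! Piece T1: equivalent data give isomorphic functors
(`tprod v ↦ tprod (fun s' => τ (γ (θ⁻¹ s')) (v (θ⁻¹ s')))`), and the functor of a homomorphism. -/

set_option linter.unusedVariables false

open CategoryTheory TensorProduct Opposite Simplicial

namespace PicInd

universe u

variable {R : Type u} [CommRing R] {G H K : Type} [Group G] [Group H] [Group K]

/-- the linear automorphism given by a group element -/
noncomputable def rhoEquiv {M : Type u} [AddCommGroup M] [Module R M] (τ : Representation R H M)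
    (h : H) : M ≃ₗ[R] M :=
  LinearEquiv.ofLinearMap (τ h) (τ h⁻¹)
    (by rw [← Module.End.mul_eq_comp, ← map_mul, mul_inv_cancel, map_one]; rfl)
    (by rw [← Module.End.mul_eq_comp, ← map_mul, inv_mul_cancel, map_one]; rfl)

lemma rhoEquiv_apply {M : Type u} [AddCommGroup M] [Module R M] (τ : Representation R H M)
    (h : H) (x : M) : rhoEquiv τ h x = τ h x := rfl

/-- the linear equivalence of `T_equiv` -/
noncomputable def T1equiv {D D' : Dat G H} (θ : D.S ≃ D'.S) (γ : D.S → H)
    {M : Type u} [AddCommGroup M] [Module R M] (τ : Representation R H M) :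
    PiTensorProduct R (fun _ : D.S => M) ≃ₗ[R] PiTensorProduct R (fun _ : D'.S => M) :=
  (PiTensorProduct.congr (fun s => rhoEquiv τ (γ s))) ≪≫ₗ
    (PiTensorProduct.reindex R (fun _ : D.S => M) θ)

lemma T1equiv_tprod {D D' : Dat G H} (θ : D.S ≃ D'.S) (γ : D.S → H)
    {M : Type u} [AddCommGroup M] [Module R M] (τ : Representation R H M) (v : D.S → M) :
    T1equiv θ γ τ (PiTensorProduct.tprod R v) =
      PiTensorProduct.tprod R (fun s' => τ (γ (θ.symm s')) (v (θ.symm s'))) := by
  unfold T1equiv
  rw [LinearEquiv.trans_apply, PiTensorProduct.congr_tprod, PiTensorProduct.reindex_tprod]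
  rfl

theorem Dat.T_equiv {D D' : Dat G H} (h : D.Equiv D') :
    Nonempty ((D.T : Rep.{u} R H ⥤ Rep.{u} R G) ≅ D'.T) := by
  obtain ⟨θ, γ, h1, h2⟩ := h
  refine ⟨NatIso.ofComponents (fun W => Rep.mkIso (Representation.Equiv.mk
    (T1equiv θ γ W.ρ) ?_)) ?_⟩
  · intro g
    apply PiTensorProduct.ext
    ext v
    simp only [LinearMap.compMultilinearMap_apply, LinearMap.comp_apply, LinearEquiv.coe_coe]
    rw [Dat.rep_tprod, T1equiv_tprod, T1equiv_tprod, Dat.rep_tprod]
    congr 1
    funext s'
    obtain ⟨t, rfl⟩ := θ.surjective s'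
    obtain ⟨s, rfl⟩ := (D.act g).surjective t
    rw [Equiv.symm_apply_apply, Equiv.symm_apply_apply]
    have h3 : (D'.act g).symm (θ (D.act g s)) = θ s := by
      rw [h1, Equiv.symm_apply_apply]
    rw [h3, Equiv.symm_apply_apply]
    rw [← Module.End.mul_apply, ← Module.End.mul_apply, ← map_mul, ← map_mul, h2]
  · intro W W' f
    apply Rep.hom_ext
    apply Representation.IntertwiningMap.ext
    apply PiTensorProduct.ext
    ext v
    have h3 : ∀ (W : Rep.{u} R H) (v : D.S → W.V), T1equiv (D' := D') θ γ W.ρ
        (PiTensorProduct.tprod R v) =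
      PiTensorProduct.tprod R (fun s' => W.ρ (γ (θ.symm s')) (v (θ.symm s'))) :=
      fun W v => T1equiv_tprod θ γ W.ρ v
    change T1equiv θ γ W'.ρ (PiTensorProduct.map (fun _ => f.hom.toLinearMap)
      (PiTensorProduct.tprod R v)) = PiTensorProduct.map (fun _ => f.hom.toLinearMap)
        (T1equiv θ γ W.ρ (PiTensorProduct.tprod R v))
    rw [PiTensorProduct.map_tprod, h3, h3, PiTensorProduct.map_tprod]
    congr 1
    funext s'
    exact (Rep.hom_comm_apply f _ _).symm

theorem Dat.T_ofHom (α : G →* H) :
    Nonempty (((Dat.ofHom α).T : Rep.{u} R H ⥤ Rep.{u} R G) ≅ resF α) := by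
  have hs : ∀ (M : Type u) [AddCommGroup M] [Module R M] (v : Unit → M),
      PiTensorProduct.subsingletonEquiv (R := R) (s := fun _ : Unit => M) ()
        (PiTensorProduct.tprod R v) = v () := by
    intro M _ _ v
    exact PiTensorProduct.subsingletonEquiv_apply_tprod () v
  refine ⟨NatIso.ofComponents (fun W => Rep.mkIso (Representation.Equiv.mk
    (PiTensorProduct.subsingletonEquiv (R := R) (s := fun _ : Unit => W.V) ()) ?_)) ?_⟩
  · intro g
    apply PiTensorProduct.ext
    ext v
    simp only [LinearMap.compMultilinearMap_apply, LinearMap.comp_apply, LinearEquiv.coe_coe]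
    rw [Dat.rep_tprod]
    change PiTensorProduct.subsingletonEquiv (R := R) (s := fun _ : Unit => W.V) ()
      (PiTensorProduct.tprod R (fun s : Unit => W.ρ (α g) (v s))) = W.ρ (α g)
       (PiTensorProduct.subsingletonEquiv (R := R) (s := fun _ : Unit => W.V) ()
        (PiTensorProduct.tprod R v))
    rw [hs, hs]
  · intro W W' f
    apply Rep.hom_ext
    apply Representation.IntertwiningMap.ext
    apply PiTensorProduct.ext
    ext v
    change PiTensorProduct.subsingletonEquiv (R := R) (s := fun _ : Unit => W'.V) ()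
      (PiTensorProduct.map (fun _ => f.hom.toLinearMap)
      (PiTensorProduct.tprod R v)) = f.hom.toLinearMap
       (PiTensorProduct.subsingletonEquiv (R := R) (s := fun _ : Unit => W.V) ()
        (PiTensorProduct.tprod R v))
    rw [PiTensorProduct.map_tprod, hs, hs]

end PicInd
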