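import Mathlib
import Pool.Agent.Lib_MP_8744b5_al.TFun

/-! Piece T2: disjoint unions (`PiTensorProduct.tmulEquiv`). -/

set_option linter.unusedVariables false

open CategoryTheory TensorProduct Opposite Simplicial

namespace PicInd

universe u

variable {R : Type u} [CommRing R] {G H K : Type} [Group G] [Group H] [Group K]

namespace TSum

lemma ext_two {ι ι' : Type} {M N Z : Type u} [AddCommGroup M] [Module R M] [AddCommGroup N]
    [Module R N] [AddCommGroup Z] [Module R Z]
    {f g : (PiTensorProduct R (fun _ : ι => M)) ⊗[R] (PiTensorProduct R (fun _ : ι' => N)) →ₗ[R] Z}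
    (h : ∀ v w, f (PiTensorProduct.tprod R v ⊗ₜ PiTensorProduct.tprod R w) =
      g (PiTensorProduct.tprod R v ⊗ₜ PiTensorProduct.tprod R w)) : f = g := by
  apply TensorProduct.ext'
  intro x y
  induction x using PiTensorProduct.induction_on with
  | smul_tprod r v =>
    induction y using PiTensorProduct.induction_on with
    | smul_tprod s w =>
      rw [TensorProduct.smul_tmul_smul, map_smul, map_smul, h]
    | add a b ha hb => rw [TensorProduct.tmul_add, map_add, map_add, ha, hb]
  | add a b ha hb => rw [TensorProduct.add_tmul, map_add, map_add, ha, hb]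

/-- glue two functions -/
def glue (D E : Dat G H) {M : Type u} (v : D.S → M) (w : E.S → M) : (D.sum E).S → M := Sum.elim v w

/-- the linear isomorphism -/
noncomputable def lin (D E : Dat G H) (M : Type u) [AddCommGroup M] [Module R M] :
    (PiTensorProduct R (fun _ : D.S => M)) ⊗[R] (PiTensorProduct R (fun _ : E.S => M)) ≃ₗ[R]
      PiTensorProduct R (fun _ : (D.sum E).S => M) :=
  PiTensorProduct.tmulEquiv (ι := D.S) (ι₂ := E.S) R M

lemma lin_tprod (D E : Dat G H) (M : Type u) [AddCommGroup M] [Module R M] (v : D.S → M)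
    (w : E.S → M) : lin (R := R) D E M (PiTensorProduct.tprod R v ⊗ₜ PiTensorProduct.tprod R w) =
      PiTensorProduct.tprod R (glue D E v w) :=
  PiTensorProduct.tmulEquiv_apply (R := R) (M := M) v w

lemma lin_rep (D E : Dat G H) {M : Type u} [AddCommGroup M] [Module R M]
    (τ : Representation R H M) (g : G) :
    (lin D E M).toLinearMap ∘ₗ ((D.rep τ).tprod (E.rep τ)) g =
      (D.sum E).rep τ g ∘ₗ (lin D E M).toLinearMap := by
  apply ext_two
  intro v w
  rw [LinearMap.comp_apply, LinearMap.comp_apply, LinearEquiv.coe_coe, lin_tprod,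
    Representation.tprod_apply, TensorProduct.map_tmul, Dat.rep_tprod, Dat.rep_tprod,
    Dat.rep_tprod, lin_tprod]
  congr 1
  funext s
  rcases s with s | s <;> rfl

lemma lin_map (D E : Dat G H) {M N : Type u} [AddCommGroup M] [Module R M] [AddCommGroup N]
    [Module R N] (f : M →ₗ[R] N) :
    (lin D E N).toLinearMap ∘ₗ
      TensorProduct.map (PiTensorProduct.map (fun _ => f)) (PiTensorProduct.map (fun _ => f)) =
    PiTensorProduct.map (fun _ => f) ∘ₗ (lin D E M).toLinearMap := by
  apply ext_two
  intro v w
  rw [LinearMap.comp_apply, LinearMap.comp_apply, LinearEquiv.coe_coe, LinearEquiv.coe_coe,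
    lin_tprod, TensorProduct.map_tmul, PiTensorProduct.map_tprod, PiTensorProduct.map_tprod,
    PiTensorProduct.map_tprod, lin_tprod]
  congr 1
  funext s
  rcases s with s | s <;> rfl

/-- the natural isomorphism -/
noncomputable def natIso (D E : Dat G H) :
    tensF (C := Rep.{u} R H) D.T E.T ≅ (D.sum E).T :=
  NatIso.ofComponents (fun W => Rep.mkIso (Representation.Equiv.mk (lin D E W.V)
    (lin_rep D E W.ρ))) (by
    intro W W' f
    apply Rep.hom_ext
    apply Representation.IntertwiningMap.ext
    exact lin_map D E f.hom.toLinearMap)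

end TSum

theorem Dat.T_sum (D E : Dat G H) (A : SR R H) :
    Nonempty (SR.ap (D.sum E).T A ≅ (SR.ap D.T A).tens (SR.ap E.T A)) := by
  exact ⟨NatIso.ofComponents (fun c => (TSum.natIso D E).symm.app (A.obj c)) (by
    intro c c' f
    exact (TSum.natIso D E).inv.naturality (A.map f))⟩

end PicInd
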