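import Mathlib
import Pool.Agent.Lib_MP_8744b5_al.TFun

/-! Piece T3: composition: `⨂ s, ⨂ t, M ≃ ⨂ (s,t), M`. -/

set_option linter.unusedVariables false

open CategoryTheory TensorProduct Opposite Simplicial

namespace PicInd

universe u

variable {R : Type u} [CommRing R] {G H K : Type} [Group G] [Group H] [Group K]

namespace T3aux

/-- there is a multilinear map on families of tensors sending families of pure tensors
to pure tensors -/
theorem exists_nest (R : Type u) [CommRing R] (M : Type u) [AddCommGroup M] [Module R M]
    (T : Type) (S : Type) [Finite S] :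
    ∃ F : MultilinearMap R (fun _ : S => PiTensorProduct R (fun _ : T => M))
      (PiTensorProduct R (fun _ : S × T => M)),
      ∀ v : S → T → M, F (fun s => PiTensorProduct.tprod R (v s)) =
        PiTensorProduct.tprod R (fun p : S × T => v p.1 p.2) := by
  induction S using Finite.induction_empty_option with
  | of_equiv e ih =>
    rename_i α β
    obtain ⟨F, hF⟩ := ih
    refine ⟨(PiTensorProduct.reindex R (fun _ : α × T => M)
      (Equiv.prodCongr e (Equiv.refl T))).toLinearMap.compMultilinearMap
        (F.domDomCongr e), fun v => ?_⟩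
    rw [LinearMap.compMultilinearMap_apply, MultilinearMap.domDomCongr_apply]
    have := hF (fun s => v (e s))
    rw [this]
    rw [LinearEquiv.coe_coe, PiTensorProduct.reindex_tprod]
    congr 1
    funext p
    simp
  | h_empty =>
    refine ⟨MultilinearMap.constOfIsEmpty R _ (PiTensorProduct.tprod R fun p => p.1.elim),
      fun v => ?_⟩
    simp only [MultilinearMap.constOfIsEmpty_apply, Function.const_apply]
    congr 1
    funext p
    exact p.1.elim
  | h_option ih =>
    rename_i α _
    obtain ⟨F, hF⟩ := ih
    let b : MultilinearMap R (fun _ : PUnit.{1} => PiTensorProduct R (fun _ : T => M))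
      (PiTensorProduct R (fun _ : T => M)) :=
      MultilinearMap.ofSubsingleton R _ _ PUnit.unit LinearMap.id
    let F1 := (F.domCoprod b).domDomCongr (Equiv.optionEquivSumPUnit α).symm
    let ε : (α × T) ⊕ T ≃ Option α × T :=
      { toFun := Sum.elim (fun p => (some p.1, p.2)) (fun t => (none, t))
        invFun := fun p => match p with
          | (some a, t) => Sum.inl (a, t)
          | (none, t) => Sum.inr t
        left_inv := by rintro (⟨a, t⟩ | t) <;> rfl
        right_inv := by rintro ⟨_ | a, t⟩ <;> rfl }
    refine ⟨(PiTensorProduct.reindex R (fun _ : (α × T) ⊕ T => M) ε).toLinearMap.compMultilinearMap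
      ((PiTensorProduct.tmulEquiv R M).toLinearMap.compMultilinearMap F1), fun v => ?_⟩
    have h1 : F1 (fun s => PiTensorProduct.tprod R (v s)) =
        (PiTensorProduct.tprod R (fun p : α × T => v (some p.1) p.2)) ⊗ₜ[R]
          (PiTensorProduct.tprod R (v none)) := by
      have := hF (fun s => v (some s))
      rw [← this]
      rfl
    rw [LinearMap.compMultilinearMap_apply, LinearMap.compMultilinearMap_apply, h1]
    rw [LinearEquiv.coe_coe, LinearEquiv.coe_coe]
    rw [PiTensorProduct.tmulEquiv_apply, PiTensorProduct.reindex_tprod]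
    congr 1
    funext p
    rcases p with ⟨_ | a, t⟩ <;> rfl

/-- the product map to the nested one -/
noncomputable def toNest (R : Type u) [CommRing R] (M : Type u) [AddCommGroup M] [Module R M]
    (S T : Type) : PiTensorProduct R (fun _ : S × T => M) →ₗ[R]
      PiTensorProduct R (fun _ : S => PiTensorProduct R (fun _ : T => M)) :=
  PiTensorProduct.lift (((PiTensorProduct.tprod R).compMultilinearMap
    (N := fun (_ : S) (_ : T) => M)
    (fun _ : S => PiTensorProduct.tprod R)).domDomCongr (Equiv.sigmaEquivProd S T))

theorem toNest_tprod (M : Type u) [AddCommGroup M] [Module R M]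
    (S T : Type) (v : S × T → M) : toNest R M S T (PiTensorProduct.tprod R v) =
      PiTensorProduct.tprod R (fun s => PiTensorProduct.tprod R (fun t => v (s, t))) := by
  rw [toNest, PiTensorProduct.lift.tprod]
  rfl

/-- the nested one to the product -/
noncomputable def fromNest (R : Type u) [CommRing R] (M : Type u) [AddCommGroup M] [Module R M]
    (S T : Type) [Finite S] :
      PiTensorProduct R (fun _ : S => PiTensorProduct R (fun _ : T => M)) →ₗ[R]
      PiTensorProduct R (fun _ : S × T => M) :=
  PiTensorProduct.lift (exists_nest R M T S).choose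

theorem fromNest_tprod (M : Type u) [AddCommGroup M] [Module R M]
    (S T : Type) [Finite S] (v : S → T → M) :
    fromNest R M S T (PiTensorProduct.tprod R (fun s => PiTensorProduct.tprod R (v s))) =
      PiTensorProduct.tprod R (fun p : S × T => v p.1 p.2) := by
  rw [fromNest, PiTensorProduct.lift.tprod]
  exact (exists_nest R M T S).choose_spec v

/-- two linear maps out of the nested tensor product agreeing on nested pure tensors are equal -/
theorem nest_ext (M : Type u) [AddCommGroup M] [Module R M]
    (S T : Type) [Finite S] {E : Type*} [AddCommGroup E] [Module R E]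
    {f g : PiTensorProduct R (fun _ : S => PiTensorProduct R (fun _ : T => M)) →ₗ[R] E}
    (h : ∀ v : S → T → M, f (PiTensorProduct.tprod R (fun s => PiTensorProduct.tprod R (v s))) =
      g (PiTensorProduct.tprod R (fun s => PiTensorProduct.tprod R (v s)))) : f = g := by
  refine PiTensorProduct.ext_of_span_eq_top
    (g := fun (_ : S) (w : T → M) => PiTensorProduct.tprod R w) ?_ h
  intro i
  exact PiTensorProduct.span_tprod_eq_top

/-- the linear equivalence -/
noncomputable def nestEquiv (R : Type u) [CommRing R] (M : Type u) [AddCommGroup M] [Module R M]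
    (S T : Type) [Finite S] :
    PiTensorProduct R (fun _ : S => PiTensorProduct R (fun _ : T => M)) ≃ₗ[R]
      PiTensorProduct R (fun _ : S × T => M) :=
  LinearEquiv.ofLinearMap (fromNest R M S T) (toNest R M S T)
    (by
      apply PiTensorProduct.ext
      ext v
      simp only [LinearMap.compMultilinearMap_apply, LinearMap.comp_apply, LinearMap.id_apply]
      rw [toNest_tprod, fromNest_tprod])
    (by
      apply nest_ext
      intro v
      rw [LinearMap.comp_apply, fromNest_tprod, toNest_tprod, LinearMap.id_apply])

theorem nestEquiv_tprod (M : Type u) [AddCommGroup M] [Module R M]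
    (S T : Type) [Finite S] (v : S → T → M) :
    nestEquiv R M S T (PiTensorProduct.tprod R (fun s => PiTensorProduct.tprod R (v s))) =
      PiTensorProduct.tprod R (fun p : S × T => v p.1 p.2) :=
  fromNest_tprod M S T v

/-- the linear isomorphism for data -/
noncomputable def lin (D : Dat G H) (E : Dat H K) (M : Type u) [AddCommGroup M] [Module R M] :
    PiTensorProduct R (fun _ : D.S => PiTensorProduct R (fun _ : E.S => M)) ≃ₗ[R]
      PiTensorProduct R (fun _ : (D.comp E).S => M) :=
  nestEquiv R M D.S E.S

theorem lin_tprod (D : Dat G H) (E : Dat H K) (M : Type u) [AddCommGroup M] [Module R M]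
    (v : D.S → E.S → M) :
    lin D E M (PiTensorProduct.tprod R (fun s => PiTensorProduct.tprod R (v s))) =
      PiTensorProduct.tprod R (fun p : (D.comp E).S => v p.1 p.2) :=
  fromNest_tprod M D.S E.S v

theorem symm_act (D : Dat G H) (E : Dat H K) (g : G) (p : (D.comp E).S) :
    ((D.comp E).act g).symm p =
      (((D.act g).symm (Prod.fst (α := D.S) (β := E.S) p),
        (E.act (D.c g ((D.act g).symm (Prod.fst (α := D.S) (β := E.S) p)))).symm
          (Prod.snd (α := D.S) (β := E.S) p)) : D.S × E.S) := by
  apply ((D.comp E).act g).injective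
  rw [Equiv.apply_symm_apply]
  obtain ⟨s, t⟩ := p
  have h3 : ∀ q : D.S × E.S, (D.comp E).act g q = (D.act g q.1, E.act (D.c g q.1) q.2) :=
    fun q => rfl
  refine Eq.trans ?_ (h3 _).symm
  first
    | (simp; done)
    | (simp; rfl)

theorem lin_rep (D : Dat G H) (E : Dat H K) {M : Type u} [AddCommGroup M] [Module R M]
    (τ : Representation R K M) (g : G) :
    (lin D E M).toLinearMap ∘ₗ (D.rep (E.rep τ)) g =
      (D.comp E).rep τ g ∘ₗ (lin D E M).toLinearMap := by
  apply nest_ext
  intro v
  rw [LinearMap.comp_apply, LinearMap.comp_apply, LinearEquiv.coe_coe, lin_tprod,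
    Dat.rep_tprod, Dat.rep_tprod]
  have h1 : (fun s => E.rep τ (D.c g ((D.act g).symm s))
      (PiTensorProduct.tprod R (v ((D.act g).symm s)))) =
      fun s => PiTensorProduct.tprod R (fun t =>
        τ (E.c (D.c g ((D.act g).symm s)) ((E.act (D.c g ((D.act g).symm s))).symm t))
          (v ((D.act g).symm s) ((E.act (D.c g ((D.act g).symm s))).symm t))) := by
    funext s
    rw [Dat.rep_tprod]
  rw [h1, lin_tprod]
  congr 1
  funext p
  rw [symm_act]
  rfl

theorem lin_map (D : Dat G H) (E : Dat H K) {M N : Type u} [AddCommGroup M] [Module R M]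
    [AddCommGroup N] [Module R N] (f : M →ₗ[R] N) :
    (lin D E N).toLinearMap ∘ₗ
      PiTensorProduct.map (fun _ => (PiTensorProduct.map (fun _ => f))) =
    PiTensorProduct.map (fun _ => f) ∘ₗ (lin D E M).toLinearMap := by
  apply nest_ext
  intro v
  rw [LinearMap.comp_apply, LinearMap.comp_apply, LinearEquiv.coe_coe, LinearEquiv.coe_coe,
    lin_tprod, PiTensorProduct.map_tprod, PiTensorProduct.map_tprod]
  have h1 : (fun s => PiTensorProduct.map (fun _ => f) (PiTensorProduct.tprod R (v s))) =
      fun s : D.S => PiTensorProduct.tprod R (fun t : E.S => f (v s t)) := by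
    funext s
    rw [PiTensorProduct.map_tprod]
  rw [h1, lin_tprod]

/-- the natural isomorphism -/
noncomputable def natIso (D : Dat G H) (E : Dat H K) :
    (E.T ⋙ D.T : Rep.{u} R K ⥤ Rep.{u} R G) ≅ (D.comp E).T :=
  NatIso.ofComponents (fun W => Rep.mkIso (Representation.Equiv.mk (lin D E W.V)
    (lin_rep D E W.ρ))) (by
    intro W W' f
    apply Rep.hom_ext
    apply Representation.IntertwiningMap.ext
    exact lin_map D E f.hom.toLinearMap)

end T3aux

theorem Dat.T_comp (D : Dat G H) (E : Dat H K) :
    Nonempty ((E.T ⋙ D.T : Rep.{u} R K ⥤ Rep.{u} R G) ≅ (D.comp E).T) :=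
  ⟨T3aux.natIso D E⟩

theorem Dat.ap_comp (D : Dat G H) (E : Dat H K) (A : SR R K) :
    Nonempty (SR.ap D.T (SR.ap E.T A) ≅ SR.ap (D.comp E).T A) := by
  exact ⟨NatIso.ofComponents (fun c => (T3aux.natIso D E).app (A.obj c)) (by
    intro c c' f
    exact (T3aux.natIso D E).hom.naturality (A.map f))⟩

end PicInd
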