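import Mathlib
import Pool.Agent.Lib_MP_8744b5_al.TFun

/-! Piece T4: `T_D (A ⊗ B) ≅ T_D A ⊗ T_D B`. -/

set_option linter.unusedVariables false

open CategoryTheory TensorProduct Opposite Simplicial

namespace PicInd

universe u

variable {R : Type u} [CommRing R] {G H K : Type} [Group G] [Group H] [Group K]

/-- splitting off the variable `none` -/
noncomputable def optEquiv (R : Type u) [CommRing R] (ι : Type) (M : Type u) [AddCommGroup M]
    [Module R M] :
    (PiTensorProduct R (fun _ : ι => M)) ⊗[R] M ≃ₗ[R] PiTensorProduct R (fun _ : Option ι => M) :=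
  (TensorProduct.congr (LinearEquiv.refl R _)
    (PiTensorProduct.subsingletonEquiv (R := R) (s := fun _ : PUnit.{1} => M) PUnit.unit).symm) ≪≫ₗ
    (PiTensorProduct.tmulEquiv R M) ≪≫ₗ
    (PiTensorProduct.reindex R (fun _ : ι ⊕ PUnit.{1} => M) (Equiv.optionEquivSumPUnit ι).symm)

lemma optEquiv_tmul (ι : Type) (M : Type u) [AddCommGroup M]
    [Module R M] (a : Option ι → M) :
    optEquiv R ι M (PiTensorProduct.tprod R (fun i => a (some i)) ⊗ₜ a none) =
      PiTensorProduct.tprod R a := by
  have h1 : (PiTensorProduct.subsingletonEquiv (R := R) (s := fun _ : PUnit.{1} => M)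
      PUnit.unit).symm (a none) = PiTensorProduct.tprod R (fun _ => a none) := by
    rw [LinearEquiv.symm_apply_eq]
    rw [PiTensorProduct.subsingletonEquiv_apply_tprod]
  unfold optEquiv
  rw [LinearEquiv.trans_apply, LinearEquiv.trans_apply, TensorProduct.congr_tmul,
    LinearEquiv.refl_apply, h1, PiTensorProduct.tmulEquiv_apply, PiTensorProduct.reindex_tprod]
  congr 1
  funext o
  rcases o with _ | i <;> rfl

lemma exists_tensEquiv (R : Type u) [CommRing R] (V W : Type u) [AddCommGroup V] [AddCommGroup W]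
    [Module R V] [Module R W] (ι : Type) [Finite ι] :
    ∃ e : (PiTensorProduct R (fun _ : ι => V)) ⊗[R] (PiTensorProduct R (fun _ : ι => W)) ≃ₗ[R]
      PiTensorProduct R (fun _ : ι => V ⊗[R] W),
      ∀ (v : ι → V) (w : ι → W), e (PiTensorProduct.tprod R v ⊗ₜ PiTensorProduct.tprod R w) =
        PiTensorProduct.tprod R (fun i => v i ⊗ₜ[R] w i) := by
  induction ι using Finite.induction_empty_option with
  | @of_equiv ι ι' θ ih =>
    obtain ⟨e, he⟩ := ih
    refine ⟨(TensorProduct.congr (PiTensorProduct.reindex R (fun _ : ι => V) θ).symm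
      (PiTensorProduct.reindex R (fun _ : ι => W) θ).symm) ≪≫ₗ e ≪≫ₗ
      (PiTensorProduct.reindex R (fun _ : ι => V ⊗[R] W) θ), ?_⟩
    intro v w
    have h1 : (PiTensorProduct.reindex R (fun _ : ι => V) θ).symm (PiTensorProduct.tprod R v) =
        PiTensorProduct.tprod R (fun i => v (θ i)) := by
      rw [LinearEquiv.symm_apply_eq, PiTensorProduct.reindex_tprod]
      congr 1
      funext i
      rw [Equiv.apply_symm_apply]
    have h2 : (PiTensorProduct.reindex R (fun _ : ι => W) θ).symm (PiTensorProduct.tprod R w) =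
        PiTensorProduct.tprod R (fun i => w (θ i)) := by
      rw [LinearEquiv.symm_apply_eq, PiTensorProduct.reindex_tprod]
      congr 1
      funext i
      rw [Equiv.apply_symm_apply]
    rw [LinearEquiv.trans_apply, LinearEquiv.trans_apply, TensorProduct.congr_tmul, h1, h2, he,
      PiTensorProduct.reindex_tprod]
    congr 1
    funext i
    rw [Equiv.apply_symm_apply]
  | h_empty =>
    refine ⟨(TensorProduct.congr (PiTensorProduct.isEmptyEquiv PEmpty)
      (PiTensorProduct.isEmptyEquiv PEmpty)) ≪≫ₗ (TensorProduct.lid R R) ≪≫ₗ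
      (PiTensorProduct.isEmptyEquiv PEmpty).symm, ?_⟩
    intro v w
    rw [LinearEquiv.trans_apply, LinearEquiv.trans_apply, TensorProduct.congr_tmul,
      PiTensorProduct.isEmptyEquiv_apply_tprod, PiTensorProduct.isEmptyEquiv_apply_tprod,
      LinearEquiv.symm_apply_eq, PiTensorProduct.isEmptyEquiv_apply_tprod]
    simp
  | h_option ih =>
    rename_i ι _
    obtain ⟨e, he⟩ := ih
    refine ⟨(TensorProduct.congr (optEquiv R ι V).symm (optEquiv R ι W).symm) ≪≫ₗ
      (TensorProduct.tensorTensorTensorComm R _ _ _ _) ≪≫ₗ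
      (TensorProduct.congr e (LinearEquiv.refl R (V ⊗[R] W))) ≪≫ₗ
      (optEquiv R ι (V ⊗[R] W)), ?_⟩
    intro v w
    have h1 : (optEquiv R ι V).symm (PiTensorProduct.tprod R v) =
        (PiTensorProduct.tprod R (fun i => v (some i)) ⊗ₜ v none) := by
      rw [LinearEquiv.symm_apply_eq, optEquiv_tmul]
    have h2 : (optEquiv R ι W).symm (PiTensorProduct.tprod R w) =
        (PiTensorProduct.tprod R (fun i => w (some i)) ⊗ₜ w none) := by
      rw [LinearEquiv.symm_apply_eq, optEquiv_tmul]
    rw [LinearEquiv.trans_apply, LinearEquiv.trans_apply, LinearEquiv.trans_apply,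
      TensorProduct.congr_tmul, h1, h2, TensorProduct.tensorTensorTensorComm_tmul,
      TensorProduct.congr_tmul, he, LinearEquiv.refl_apply]
    exact optEquiv_tmul ι (V ⊗[R] W) (fun o => v o ⊗ₜ[R] w o)

/-- `(⨂ V) ⊗ (⨂ W) ≃ ⨂ (V ⊗ W)` -/
noncomputable def tensEquiv (R : Type u) [CommRing R] (V W : Type u) [AddCommGroup V]
    [AddCommGroup W] [Module R V] [Module R W] (ι : Type) [Finite ι] :
    (PiTensorProduct R (fun _ : ι => V)) ⊗[R] (PiTensorProduct R (fun _ : ι => W)) ≃ₗ[R]
      PiTensorProduct R (fun _ : ι => V ⊗[R] W) :=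
  (exists_tensEquiv R V W ι).choose

lemma tensEquiv_tmul {V W : Type u} [AddCommGroup V]
    [AddCommGroup W] [Module R V] [Module R W] {ι : Type} [Finite ι] (v : ι → V) (w : ι → W) :
    tensEquiv R V W ι (PiTensorProduct.tprod R v ⊗ₜ PiTensorProduct.tprod R w) =
        PiTensorProduct.tprod R (fun i => v i ⊗ₜ[R] w i) :=
  (exists_tensEquiv R V W ι).choose_spec v w

lemma tens_ext {V W M : Type u} [AddCommGroup V]
    [AddCommGroup W] [Module R V] [Module R W] [AddCommGroup M] [Module R M] {ι : Type}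
    {f g : (PiTensorProduct R (fun _ : ι => V)) ⊗[R] (PiTensorProduct R (fun _ : ι => W)) →ₗ[R] M}
    (h : ∀ (v : ι → V) (w : ι → W), f (PiTensorProduct.tprod R v ⊗ₜ PiTensorProduct.tprod R w) =
      g (PiTensorProduct.tprod R v ⊗ₜ PiTensorProduct.tprod R w)) : f = g := by
  apply TensorProduct.ext
  apply PiTensorProduct.ext
  ext v : 1
  apply PiTensorProduct.ext
  ext w
  exact h v w

/-- the isomorphism of representations -/
noncomputable def tensRepIso (D : Dat G H) (V W : Rep.{u} R H) :
    rtens (D.T.obj V) (D.T.obj W) ≅ D.T.obj (rtens V W) :=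
  Rep.mkIso (Representation.Equiv.mk (tensEquiv R V.V W.V D.S) (by
    intro g
    apply tens_ext
    intro v w
    simp only [LinearMap.comp_apply, LinearEquiv.coe_coe, Representation.tprod_apply,
      TensorProduct.map_tmul]
    change tensEquiv R V.V W.V D.S ((D.rep V.ρ g (PiTensorProduct.tprod R v)) ⊗ₜ
      (D.rep W.ρ g (PiTensorProduct.tprod R w))) =
      D.rep (V.ρ.tprod W.ρ) g (tensEquiv R V.V W.V D.S (PiTensorProduct.tprod R v ⊗ₜ
        PiTensorProduct.tprod R w))
    rw [Dat.rep_tprod, Dat.rep_tprod, tensEquiv_tmul, tensEquiv_tmul, Dat.rep_tprod]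
    rfl))

lemma tensRepIso_nat (D : Dat G H) {V W V' W' : Rep.{u} R H} (f : V ⟶ V') (g : W ⟶ W') :
    rtmap (D.T.map f) (D.T.map g) ≫ (tensRepIso D V' W').hom =
      (tensRepIso D V W).hom ≫ D.T.map (rtmap f g) := by
  apply Rep.hom_ext
  apply Representation.IntertwiningMap.ext
  apply tens_ext
  intro v w
  change tensEquiv R V'.V W'.V D.S
    ((PiTensorProduct.map (fun _ => f.hom.toLinearMap) (PiTensorProduct.tprod R v)) ⊗ₜ
     (PiTensorProduct.map (fun _ => g.hom.toLinearMap) (PiTensorProduct.tprod R w))) =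
     PiTensorProduct.map (fun _ => TensorProduct.map f.hom.toLinearMap g.hom.toLinearMap)
      (tensEquiv R V.V W.V D.S (PiTensorProduct.tprod R v ⊗ₜ PiTensorProduct.tprod R w))
  rw [PiTensorProduct.map_tprod, PiTensorProduct.map_tprod, tensEquiv_tmul, tensEquiv_tmul,
    PiTensorProduct.map_tprod]
  rfl

theorem Dat.T_tens (D : Dat G H) (A B : SR R H) :
    Nonempty (SR.ap D.T (A.tens B) ≅ (SR.ap D.T A).tens (SR.ap D.T B)) := by
  refine ⟨(NatIso.ofComponents (F := (SR.ap D.T A).tens (SR.ap D.T B))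
    (G := SR.ap D.T (A.tens B)) (fun c => tensRepIso D (A.obj c) (B.obj c)) ?_).symm⟩
  intro c c' f
  exact tensRepIso_nat D (A.map f) (B.map f)

end PicInd
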