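import Mathlib
import Pool.Agent.Lib_MP_8744b5_al.TFun

/-! Piece T5: the unit (constant simplicial objects), restriction along homomorphisms. -/

set_option linter.unusedVariables false

open CategoryTheory TensorProduct Opposite Simplicial

namespace PicInd

universe u

variable {R : Type u} [CommRing R] {G H K : Type} [Group G] [Group H] [Group K]

/-- the constant simplicial object on `W` -/
noncomputable def cst (W : Rep.{u} R H) : SR R H := (Functor.const SimplexCategoryᵒᵖ).obj W

lemma cst_fa (W : Rep.{u} R H) (F : Rep.{u} R H ⥤ Rep.{u} R G) (m : ℕ) (i : Fin (m + 2))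
    (x : (F.obj W).V) : (SR.ap F (cst W)).fa m i x = x := by
  have h : F.map (𝟙 W) = 𝟙 (F.obj W) := F.map_id W
  have h2 := congrArg (fun f => f.hom.toLinearMap x) h
  exact h2

lemma cst_dg (W : Rep.{u} R H) (F : Rep.{u} R H ⥤ Rep.{u} R G) (m : ℕ) (i : Fin (m + 1))
    (x : (F.obj W).V) : (SR.ap F (cst W)).dg m i x = x := by
  have h : F.map (𝟙 W) = 𝟙 (F.obj W) := F.map_id W
  have h2 := congrArg (fun f => f.hom.toLinearMap x) h
  exact h2

/-- the map of `nq_cst` -/
noncomputable def cstPhi (W : Rep.{u} R H) (F : Rep.{u} R H ⥤ Rep.{u} R G)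
    (e : (F.obj W).V ≃ₗ[R] R) : (m : ℕ) → ((SR.ap F (cst W)).V m →ₗ[R] (Cx.one R G).V) :=
  fun m => match m with
    | Nat.zero => e.toLinearMap
    | Nat.succ _ => 0

lemma one_pi_zero (x : (Cx.one R G).V) : (Cx.one R G).π ((0 : ℕ) : ℤ) x = x := by
  have : (Cx.one R G).π ((0 : ℕ) : ℤ) = LinearMap.id := by
    simp [Cx.one, Cx.sph]
    rfl
  rw [this]; rfl

lemma one_pi_ne (i : ℤ) (hi : i ≠ 0) (x : (Cx.one R G).V) : (Cx.one R G).π i x = 0 := by
  have : (Cx.one R G).π i = 0 := by
    simp [Cx.one, Cx.sph, hi]
    try rfl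
  rw [this]; rfl

lemma nq_cst (W : Rep.{u} R H) (F : Rep.{u} R H ⥤ Rep.{u} R G)
    (e : (F.obj W).V ≃ₗ[R] R) (he : ∀ g x, e ((F.obj W).ρ g x) = e x) :
    Nonempty (NQ (SR.ap F (cst W)) (Cx.one R G)) := by
  refine ⟨{
    φ := cstPhi W F e
    φ_ρ := ?_
    φ_π := ?_
    surj := ?_
    ker := ?_
    comm := ?_
    nonneg := ?_ }⟩
  · intro m g a
    cases m with
    | zero => exact he g a
    | succ n => exact (map_zero ((Cx.one R G).ρ g)).symm
  · intro m a
    cases m with
    | zero => exact one_pi_zero _
    | succ n => exact map_zero ((Cx.one R G).π ((n + 1 : ℕ) : ℤ))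
  · intro m x hx
    cases m with
    | zero => exact ⟨e.symm x, e.apply_symm_apply x⟩
    | succ n =>
      refine ⟨0, ?_⟩
      rw [one_pi_ne ((n + 1 : ℕ) : ℤ) (by omega)] at hx
      rw [← hx]; exact map_zero _
  · intro m a
    cases m with
    | zero =>
      constructor
      · intro h
        have : a = 0 := e.map_eq_zero_iff.1 h
        rw [this]; exact Submodule.zero_mem _
      · intro h
        have : a = 0 := h
        rw [this]; exact map_zero _
    | succ n =>
      constructor
      · intro _
        have h1 : a ∈ LinearMap.range ((SR.ap F (cst W)).dg n 0) := ⟨a, cst_dg W F n 0 a⟩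
        exact Submodule.mem_iSup_of_mem (0 : Fin (n + 1)) h1
      · intro _
        rfl
  · intro m a
    have hd : (Cx.one R G).d = 0 := rfl
    rw [hd, LinearMap.zero_apply]
    cases m with
    | zero =>
      have h0 : (SR.ap F (cst W)).bd 0 a = 0 := by
        rw [SR.bd, LinearMap.sum_apply, Fin.sum_univ_two]
        have e0 := cst_fa W F 0 0 a
        have e1 := cst_fa W F 0 1 a
        have f0 : ((-1 : ℤ) ^ ((0 : Fin 2) : ℕ) • (SR.ap F (cst W)).fa 0 0) a = (a : (F.obj W).V) := by
          rw [LinearMap.smul_apply]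
          erw [e0]
          simp only [Fin.val_zero, pow_zero]
          exact one_zsmul (G := (F.obj W).V) a
        have f1 : ((-1 : ℤ) ^ ((1 : Fin 2) : ℕ) • (SR.ap F (cst W)).fa 0 1) a = -(a : (F.obj W).V) := by
          rw [LinearMap.smul_apply]
          erw [e1]
          simp only [Fin.val_one, pow_one]
          exact neg_one_zsmul (G := (F.obj W).V) a
        erw [f0, f1]
        exact add_neg_cancel (G := (F.obj W).V) a
      rw [h0]
      exact map_zero _
    | succ n => rfl
  · intro i hi x
    exact one_pi_ne i (by omega) x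

/-- take for `A` the constant simplicial object `R` -/
theorem Dat.T_one (D : Dat G H) :
    ∃ A : SR R H, Nonempty (NQ A (Cx.one R H)) ∧ Nonempty (NQ (SR.ap D.T A) (Cx.one R G)) := by
  classical
  refine ⟨cst (Rep.of (Representation.trivial R H R)), ?_, ?_⟩
  · exact nq_cst (Rep.of (Representation.trivial R H R)) (𝟭 _) (LinearEquiv.refl R R)
      (fun g x => rfl)
  · have : Fintype D.S := Fintype.ofFinite _
    refine nq_cst (Rep.of (Representation.trivial R H R)) D.T
      (PiTensorProduct.constantBaseRingEquiv D.S R).toLinearEquiv ?_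
    intro g x
    have key : ((PiTensorProduct.constantBaseRingEquiv D.S R).toLinearEquiv.toLinearMap) ∘ₗ
        (D.rep (Representation.trivial R H R) g) =
        (PiTensorProduct.constantBaseRingEquiv D.S R).toLinearEquiv.toLinearMap := by
      apply PiTensorProduct.ext
      ext
      simp only [LinearMap.compMultilinearMap_apply, LinearMap.comp_apply, Dat.rep_tprod]
      simp [PiTensorProduct.constantBaseRingEquiv_tprod, Representation.trivial]
    exact LinearMap.congr_fun key x

theorem NQ.res {A : SR R H} {X : Cx R H} (n : NQ A X) (α : G →* H) :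
    Nonempty (NQ (SR.ap (resF α) A) (X.res α)) := by
  refine ⟨{
    φ := fun m => n.φ m
    φ_ρ := fun m g a => n.φ_ρ m (α g) a
    φ_π := fun m a => n.φ_π m a
    surj := fun m x hx => n.surj m x hx
    ker := ?_
    comm := ?_
    nonneg := fun i hi x => n.nonneg i hi x }⟩
  · intro m a
    have h := n.ker m a
    cases m with
    | zero => exact h
    | succ k => exact h
  · intro m a
    exact n.comm m a

end PicInd
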