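import Mathlib
import Pool.Agent.Lib_MP_8744b5_al.TFun
import Pool.Agent.Lib_MP_8744b5_al.SimpBase

/-! Piece T6: boundedness of `T_D A`. -/

set_option linter.unusedVariables false

open CategoryTheory TensorProduct Opposite Simplicial

namespace PicInd

universe u

variable {R : Type u} [CommRing R] {G H K : Type} [Group G] [Group H] [Group K]

namespace TBdd

/-- a multilinear map has values in a submodule if it has on a spanning set -/
lemma multilinear_mem {ι : Type} [Finite ι] {M P : Type u} [AddCommGroup M] [Module R M]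
    [AddCommGroup P] [Module R P] (f : MultilinearMap R (fun _ : ι => M) P) (W : Submodule R P)
    (X : Set M) (hX : Submodule.span R X = ⊤) (h : ∀ v : ι → M, (∀ s, v s ∈ X) → f v ∈ W)
    (v : ι → M) : f v ∈ W := by
  classical
  haveI := Fintype.ofFinite ι
  have key : ∀ (F : Finset ι) (v : ι → M), (∀ s, s ∉ F → v s ∈ X) → f v ∈ W := by
    intro F
    induction F using Finset.induction with
    | empty => intro v hv; exact h v (fun s => hv s (Finset.notMem_empty s))
    | insert a F ha ih =>
      intro v hv
      have h1 : ∀ y ∈ Submodule.span R X, f (Function.update v a y) ∈ W := by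
        intro y hy
        induction hy using Submodule.span_induction with
        | mem y hy =>
          apply ih
          intro s hs
          by_cases hsa : s = a
          · subst hsa; rw [Function.update_self]; exact hy
          · rw [Function.update_of_ne hsa]
            exact hv s (by simp [hsa, hs])
        | zero => rw [MultilinearMap.map_update_zero]; exact W.zero_mem
        | add x y _ _ hx hy => rw [MultilinearMap.map_update_add]; exact W.add_mem hx hy
        | smul c x _ hx => rw [MultilinearMap.map_update_smul]; exact W.smul_mem c hx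
      have h2 := h1 (v a) (by rw [hX]; exact Submodule.mem_top)
      rwa [Function.update_eq_self] at h2
  exact key Finset.univ v (fun s hs => absurd (Finset.mem_univ s) hs)

/-- the elements coming from low dimension -/
def low (A : SR R H) (N m : ℕ) : Set (A.V m) :=
  {x | ∃ (k : ℕ) (_ : k ≤ N) (η : ⦋m⦌ ⟶ ⦋k⦌) (b : A.V k), x = (A.map η.op).hom.toLinearMap b}

lemma span_low (A : SR R H) (N : ℕ) (h : ∀ m, N ≤ m → A.Deg m = ⊤) (m : ℕ) :
    Submodule.span R (low A N m) = ⊤ := by
  have small : ∀ m, m ≤ N → Submodule.span R (low A N m) = ⊤ := by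
    intro m hm
    have : low A N m = Set.univ := by
      ext x
      simp only [Set.mem_univ, iff_true]
      refine ⟨m, hm, 𝟙 _, x, ?_⟩
      rw [op_id, A.map_id]
      rfl
    rw [this, Submodule.span_univ]
  induction m with
  | zero => exact small 0 (Nat.zero_le _)
  | succ m ih =>
    by_cases hm : m + 1 ≤ N
    · exact small _ hm
    · rw [eq_top_iff, ← h (m + 1) (by omega)]
      show (⨆ i : Fin (m + 1), LinearMap.range (A.dg m i)) ≤ _
      refine iSup_le (fun i => ?_)
      rintro _ ⟨a, rfl⟩
      have ha : a ∈ Submodule.span R (low A N m) := by rw [ih]; exact Submodule.mem_top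
      have h1 := Submodule.mem_map_of_mem (f := A.dg m i) ha
      rw [Submodule.map_span] at h1
      refine Submodule.span_mono ?_ h1
      rintro _ ⟨_, ⟨k, hk, η, b, rfl⟩, rfl⟩
      refine ⟨k, hk, SimplexCategory.σ i ≫ η, b, ?_⟩
      rw [op_comp, A.map_comp]
      rfl

lemma exists_step {S : Type} [Finite S] (N n : ℕ) (hn : Nat.card S * N < n + 1) (k : S → ℕ)
    (hk : ∀ s, k s ≤ N) (η : ∀ s, ⦋n + 1⦌ ⟶ ⦋k s⦌) :
    ∃ i : Fin (n + 1), ∀ s, (η s).toOrderHom i.castSucc = (η s).toOrderHom i.succ := by
  classical
  haveI := Fintype.ofFinite S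
  by_contra hcon
  push Not at hcon
  choose s hs using hcon
  have hlt : ∀ i, (η (s i)).toOrderHom i.castSucc < (η (s i)).toOrderHom i.succ := fun i =>
    lt_of_le_of_ne ((η (s i)).toOrderHom.monotone i.castSucc_lt_succ.le) (hs i)
  have hN : ∀ i, ((η (s i)).toOrderHom i.castSucc : ℕ) < N := fun i => by
    have h1 := hlt i
    have h2 : (((η (s i)).toOrderHom i.succ : Fin (k (s i) + 1)) : ℕ) < k (s i) + 1 :=
      Fin.is_lt _
    have h3 := hk (s i)
    rw [Fin.lt_def] at h1
    omega
  have hinj : Function.Injective (fun i : Fin (n + 1) => (s i,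
      (⟨((η (s i)).toOrderHom i.castSucc : ℕ), hN i⟩ : Fin N))) := by
    have key : ∀ i j : Fin (n + 1), i < j → s i = s j →
        ((η (s i)).toOrderHom i.castSucc : ℕ) ≠ ((η (s j)).toOrderHom j.castSucc : ℕ) := by
      intro i j hij hsij heq
      have h1 := hlt i
      rw [Fin.lt_def] at h1
      have h2 : (η (s i)).toOrderHom i.succ ≤ (η (s i)).toOrderHom j.castSucc :=
        (η (s i)).toOrderHom.monotone (by
          rw [Fin.le_def]
          rw [Fin.lt_def] at hij
          simp
          omega)
      rw [Fin.le_def] at h2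
      have h3 : ((η (s i)).toOrderHom j.castSucc : ℕ) = ((η (s j)).toOrderHom j.castSucc : ℕ) := by
        rw [hsij]
      omega
    intro i j hij
    rw [Prod.mk.injEq, Fin.mk.injEq] at hij
    rcases lt_trichotomy i j with h | h | h
    · exact absurd hij.2 (key i j h hij.1)
    · exact h
    · exact absurd hij.2.symm (key j i h hij.1.symm)
  have h1 := Fintype.card_le_of_injective _ hinj
  rw [Fintype.card_fin, Fintype.card_prod, Fintype.card_fin, ← Nat.card_eq_fintype_card] at h1
  omega

end TBdd

/-- Every element of `A_m` is a sum of elements `A(η) b` with `b` in `A_k`, `k ≤ N` and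
`η : [m] → [k]`; so `(T_D A)_m` is spanned by the `⨂ A(η_s) b_s`; if `m > |S| N` then some step
`i, i+1` of `[m]` is constant for all `η_s`, hence the element is degenerate. -/
theorem Dat.T_bounded (D : Dat G H) (A : SR R H) (h : ∃ N, ∀ m, N ≤ m → A.Deg m = ⊤) :
    ∃ N, ∀ m, N ≤ m → (SR.ap D.T A).Deg m = ⊤ := by
  obtain ⟨N, h⟩ := h
  refine ⟨Nat.card D.S * N + 1, fun m hm => ?_⟩
  obtain ⟨n, rfl⟩ : ∃ n, m = n + 1 := ⟨m - 1, by omega⟩
  rw [eq_top_iff]
  intro x _
  have key : ∀ v : D.S → A.V (n + 1), (PiTensorProduct.tprod R v :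
      PiTensorProduct R (fun _ : D.S => A.V (n + 1))) ∈
      (SR.ap D.T A).Deg (n + 1) := by
    refine TBdd.multilinear_mem (PiTensorProduct.tprod R (s := fun _ : D.S => A.V (n + 1)))
      ((SR.ap D.T A).Deg (n + 1)) (TBdd.low A N (n + 1)) (TBdd.span_low A N h (n + 1)) ?_
    intro v hv
    choose k hk η b hb using hv
    obtain ⟨i, hi⟩ := TBdd.exists_step N n (by omega) k hk η
    choose θ hθ using fun s => SimplexCategory.eq_σ_comp_of_not_injective' (η s) i (hi s)
    show _ ∈ (⨆ i : Fin (n + 1), LinearMap.range ((SR.ap D.T A).dg n i))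
    refine Submodule.mem_iSup_of_mem i ?_
    refine ⟨PiTensorProduct.tprod R (fun s => (A.map (θ s).op).hom.toLinearMap (b s)), ?_⟩
    have h1 : v = fun s => A.dg n i ((A.map (θ s).op).hom.toLinearMap (b s)) := by
      funext s
      rw [hb s, hθ s, op_comp, A.map_comp]
      rfl
    rw [h1]
    exact PiTensorProduct.map_tprod (fun _ : D.S => A.dg n i) _
  induction x using PiTensorProduct.induction_on with
  | smul_tprod r v => exact Submodule.smul_mem _ r (key v)
  | add a b ha hb => exact Submodule.add_mem _ (ha trivial) (hb trivial)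

end PicInd
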