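import Mathlib
import Pool.Agent.Lib_MP_8744b5_al.TFun

/-! Piece T7: permutation representations. -/

set_option linter.unusedVariables false

open CategoryTheory TensorProduct Opposite Simplicial

namespace PicInd

universe u

variable {R : Type u} [CommRing R] {G H K : Type} [Group G] [Group H] [Group K]

/-- finitely generated permutation representations -/
def RPerm (W : Rep.{u} R G) : Prop :=
  ∃ (ι : Type) (_ : Finite ι) (_ : MulAction G ι) (b : Module.Basis ι R W.V),
    ∀ g i, W.ρ g (b i) = b (g • i)

/-- the action on functions -/
@[reducible] def Dat.funAct (D : Dat G H) (ι : Type) [MulAction H ι] : MulAction G (D.S → ι) where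
  smul g f s := D.c g ((D.act g).symm s) • f ((D.act g).symm s)
  one_smul f := by
    funext s
    change D.c 1 ((D.act 1).symm s) • f ((D.act 1).symm s) = f s
    rw [D.c_one, one_smul, map_one]
    rfl
  mul_smul g g' f := by
    funext s
    change D.c (g * g') ((D.act (g * g')).symm s) • f ((D.act (g * g')).symm s) =
      D.c g ((D.act g).symm s) • (D.c g' ((D.act g').symm ((D.act g).symm s)) •
        f ((D.act g').symm ((D.act g).symm s)))
    have h1 : (D.act (g * g')).symm s = (D.act g').symm ((D.act g).symm s) := by
      rw [map_mul]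
      rfl
    rw [h1, D.c_mul, mul_smul, Equiv.apply_symm_apply]

lemma Dat.rep_basis (D : Dat G H) {M : Type u} [AddCommGroup M] [Module R M]
    (τ : Representation R H M) {ι : Type} [MulAction H ι] (b : Module.Basis ι R M)
    (hb : ∀ g i, τ g (b i) = b (g • i)) (g : G) (f : D.S → ι) :
    D.rep τ g (Basis.piTensorProduct (fun _ : D.S => b) f) =
      Basis.piTensorProduct (fun _ : D.S => b) ((D.funAct ι).toSMul.smul g f) := by
  rw [Basis.piTensorProduct_apply, Basis.piTensorProduct_apply, D.rep_tprod]
  congr 1
  funext s
  rw [hb]
  rfl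

/-- tensor induction preserves permutation representations (`Basis.piTensorProduct`) -/
theorem RPerm.T (D : Dat G H) {W : Rep.{u} R H} (h : RPerm W) : RPerm (D.T.obj W) := by
  obtain ⟨ι, _, _, b, hb⟩ := h
  exact ⟨D.S → ι, inferInstance, D.funAct ι, Basis.piTensorProduct (fun _ => b),
    fun g f => D.rep_basis W.ρ b hb g f⟩

end PicInd
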