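import Mathlib
import Pool.Agent.Lib_MP_8744b5_al.Base

/-! Piece PERMB: summand criterion, truncation. -/

set_option linter.unusedVariables false

open TensorProduct

namespace PicInd

universe u

variable {R : Type u} [CommRing R] {G : Type} [Group G]

/-- the projection onto the span of the basis elements of degree `n` -/
noncomputable def bproj {W : Type u} [AddCommGroup W] [Module R W] {ι : Type}
    (b : Module.Basis ι R W) (deg : ι → ℤ) (n : ℤ) : W →ₗ[R] W :=
  b.constr R (fun i => if deg i = n then b i else 0)

lemma bproj_basis {W : Type u} [AddCommGroup W] [Module R W] {ι : Type}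
    (b : Module.Basis ι R W) (deg : ι → ℤ) (n : ℤ) (i : ι) :
    bproj b deg n (b i) = if deg i = n then b i else 0 := by
  rw [bproj, Module.Basis.constr_basis]

lemma bproj_zero {W : Type u} [AddCommGroup W] [Module R W] {ι : Type}
    (b : Module.Basis ι R W) (deg : ι → ℤ) (n : ℤ) (h : ∀ i, deg i ≠ n) (x : W) :
    bproj b deg n x = 0 := by
  have : bproj b deg n = 0 := by
    apply b.ext
    intro i
    rw [bproj_basis, if_neg (h i)]
    rfl
  rw [this]; rfl

namespace Cx

/-- The permutation complex given by a permutation module with a homogeneous basis and a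
differential. -/
noncomputable def mkPerm {W : Type u} [AddCommGroup W] [Module R W]
    (τ : Representation R G W) {ι : Type} [Finite ι] [MulAction G ι] (b : Module.Basis ι R W)
    (deg : ι → ℤ) (hb : ∀ g i, τ g (b i) = b (g • i)) (hdeg : ∀ (g : G) i, deg (g • i) = deg i)
    (D : W →ₗ[R] W) (hD : ∀ i x, bproj b deg i (D x) = D (bproj b deg (i + 1) x))
    (hDD : ∀ x, D (D x) = 0) (hDτ : ∀ g x, D (τ g x) = τ g (D x)) : Cx R G where
  V := W
  ρ := τ
  d := D
  π := bproj b deg
  s := by
    classical
    exact (Set.toFinite (Set.range deg)).toFinset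
  ax := {
    π_zero i hi x := by
      apply bproj_zero
      intro j hj
      apply hi
      simp only [Set.Finite.mem_toFinset, Set.mem_range]
      exact ⟨j, hj⟩
    π_sum x := by
      have : ∑ i ∈ (Set.toFinite (Set.range deg)).toFinset, bproj b deg i = LinearMap.id := by
        apply b.ext
        intro j
        rw [LinearMap.sum_apply]
        simp only [bproj_basis, LinearMap.id_apply]
        rw [Finset.sum_ite_eq, if_pos]
        simp
      have h2 := LinearMap.congr_fun this x
      rw [LinearMap.sum_apply] at h2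
      exact h2
    π_self i x := by
      have : bproj b deg i ∘ₗ bproj b deg i = bproj b deg i := by
        apply b.ext
        intro j
        rw [LinearMap.comp_apply, bproj_basis]
        split_ifs with h
        · rw [bproj_basis, if_pos h]
        · simp
      exact LinearMap.congr_fun this x
    π_ne i j hij x := by
      have : bproj b deg i ∘ₗ bproj b deg j = 0 := by
        apply b.ext
        intro l
        rw [LinearMap.comp_apply, bproj_basis]
        split_ifs with h
        · rw [bproj_basis, if_neg (by rintro rfl; exact hij h)]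
          rfl
        · simp
      exact LinearMap.congr_fun this x
    π_d := hD
    d_d := hDD
    π_ρ g i x := by
      have : bproj b deg i ∘ₗ τ g = τ g ∘ₗ bproj b deg i := by
        apply b.ext
        intro l
        rw [LinearMap.comp_apply, LinearMap.comp_apply, hb, bproj_basis, bproj_basis, hdeg]
        split_ifs with h
        · rw [hb]
        · simp
      exact LinearMap.congr_fun this x
    d_ρ := hDτ }

lemma mkPerm_isPerm {W : Type u} [AddCommGroup W] [Module R W]
    (τ : Representation R G W) {ι : Type} [Finite ι] [MulAction G ι] (b : Module.Basis ι R W)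
    (deg : ι → ℤ) (hb : ∀ g i, τ g (b i) = b (g • i)) (hdeg : ∀ (g : G) i, deg (g • i) = deg i)
    (D : W →ₗ[R] W) (hD : ∀ i x, bproj b deg i (D x) = D (bproj b deg (i + 1) x))
    (hDD : ∀ x, D (D x) = 0) (hDτ : ∀ g x, D (τ g x) = τ g (D x)) :
    IsPerm (mkPerm τ b deg hb hdeg D hD hDD hDτ) := by
  refine ⟨ι, inferInstance, inferInstance, b, deg, hb, fun i => ?_⟩
  show bproj b deg (deg i) (b i) = b i
  rw [bproj_basis, if_pos rfl]

/-- If `X.V` is (as a graded representation) a direct summand of a finite permutation module `W`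
with homogeneous basis `b`, then `X` is in `K`: the complex `W` with differential `f d h` is a
permutation complex of which `X` is a strict retract. -/
theorem inK_of_summand (X : Cx R G) {W : Type u} [AddCommGroup W] [Module R W]
    (τ : Representation R G W) {ι : Type} [Finite ι] [MulAction G ι] (b : Module.Basis ι R W)
    (deg : ι → ℤ) (hb : ∀ g i, τ g (b i) = b (g • i)) (hdeg : ∀ (g : G) i, deg (g • i) = deg i)
    (f : X.V →ₗ[R] W) (h : W →ₗ[R] X.V) (hf : ∀ g x, f (X.ρ g x) = τ g (f x))
    (hh : ∀ g w, h (τ g w) = X.ρ g (h w)) (hfh : ∀ x, h (f x) = x)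
    (hfdeg : ∀ n x i, b.repr (f (X.π n x)) i ≠ 0 → deg i = n)
    (hhdeg : ∀ i, X.π (deg i) (h (b i)) = h (b i)) : InK X := by
  classical
  -- `f` is homogeneous
  have hf1 : ∀ m n x, bproj b deg m (f (X.π n x)) = if m = n then f (X.π n x) else 0 := by
    intro m n x
    have e : f (X.π n x) = (b.repr (f (X.π n x))).sum (fun i c => c • b i) := by
      conv_lhs => rw [← b.linearCombination_repr (f (X.π n x))]
      rfl
    have e2 : bproj b deg m (f (X.π n x)) =
        (b.repr (f (X.π n x))).sum (fun i c => c • (if deg i = m then b i else 0)) := by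
      conv_lhs => rw [e]
      rw [Finsupp.sum, map_sum]
      refine Finset.sum_congr rfl fun i hi => ?_
      rw [map_smul, bproj_basis]
    rw [e2]
    by_cases hmn : m = n
    · rw [if_pos hmn]
      conv_rhs => rw [e]
      refine Finset.sum_congr rfl fun i hi => ?_
      have h1 := hfdeg n x i (by simpa using hi)
      simp only
      rw [if_pos (by rw [h1, hmn])]
    · rw [if_neg hmn]
      refine Finset.sum_eq_zero fun i hi => ?_
      have h1 := hfdeg n x i (by simpa using hi)
      simp only
      rw [if_neg (by rw [h1]; exact fun h => hmn h.symm), smul_zero]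
  have hfπ : ∀ n x, bproj b deg n (f x) = f (X.π n x) := by
    intro n x
    conv_lhs => rw [← X.π_sum x]
    rw [map_sum, map_sum]
    simp only [hf1]
    by_cases hn : n ∈ X.s
    · rw [Finset.sum_ite_eq, if_pos hn]
    · rw [Finset.sum_ite_eq, if_neg hn, X.π_zero n hn, map_zero]
  have hhπ : ∀ n w, X.π n (h w) = h (bproj b deg n w) := by
    intro n w
    have : X.π n ∘ₗ h = h ∘ₗ bproj b deg n := by
      apply b.ext
      intro i
      rw [LinearMap.comp_apply, LinearMap.comp_apply, bproj_basis, ← hhdeg i, π_π]
      split_ifs with h1 h2 h2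
      · rw [h1]
        exact hhdeg i
      · exact absurd h1.symm h2
      · exact absurd h2.symm h1
      · simp
    exact LinearMap.congr_fun this w
  let P : Cx R G := mkPerm τ b deg hb hdeg (f ∘ₗ X.d ∘ₗ h)
    (by
      intro i x
      simp only [LinearMap.comp_apply]
      rw [hfπ, X.π_d, hhπ])
    (by
      intro x
      simp only [LinearMap.comp_apply]
      rw [hfh, X.d_d, map_zero])
    (by
      intro g x
      simp only [LinearMap.comp_apply]
      rw [hh, X.d_ρ, hf])
  refine ⟨P, mkPerm_isPerm τ b deg hb hdeg _ _ _ _, ?_⟩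
  let F : Hom X P := ⟨f, hf, fun i x => (hfπ i x).symm, fun x => by
    show f (X.d x) = f (X.d (h (f x)))
    rw [hfh]⟩
  let H : Hom P X := ⟨h, hh, fun i x => (hhπ i x).symm, fun x => by
    show h (f (X.d (h x))) = X.d (h x)
    rw [hfh]⟩
  exact ⟨F, H, Htpy.of_eq fun x => hfh x⟩

/-- a non-negative complex in `K` is a retract of a non-negative permutation complex (replace the
permutation complex by its quotient by the part of negative degree) -/
theorem inK_nonneg (X : Cx R G) (hX : InK X) (hn : ∀ i : ℤ, i < 0 → ∀ x, X.π i x = 0) :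
    ∃ P : Cx R G, IsPerm P ∧ (∀ i : ℤ, i < 0 → ∀ x, P.π i x = 0) ∧ Retr X P := by
  classical
  rcases subsingleton_or_nontrivial R with hR | hR
  · -- trivial ring
    have : Subsingleton X.V := Module.subsingleton R X.V
    let act : MulAction G Empty :=
      { smul := fun _ e => e
        one_smul := fun e => e.elim
        mul_smul := fun _ _ e => e.elim }
    exact ⟨X, ⟨Empty, inferInstance, act, Module.Basis.empty X.V, fun e => e.elim,
      fun _ e => e.elim, fun e => e.elim⟩, hn, (Heq.refl X).retr⟩
  obtain ⟨P, ⟨ι, hι, hact, b, deg, hb, hdeg⟩, f, g, H, H1, H2, H3⟩ := hX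
  have hπb : ∀ n i, P.π n (b i) = if deg i = n then b i else 0 := by
    intro n i
    rw [← hdeg i, π_π]
    split_ifs with h1 h2 h2
    · rw [h1]
    · exact absurd h1.symm h2
    · exact absurd h2.symm h1
    · rfl
  have hdg : ∀ (a : G) i, deg (a • i) = deg i := by
    intro a i
    by_contra hne
    have h1 : P.π (deg i) (b (a • i)) = b (a • i) := by
      rw [← hb, P.π_ρ, hdeg]
    rw [hπb, if_neg hne] at h1
    exact b.ne_zero _ h1.symm
  let ι' := {i : ι // 0 ≤ deg i}
  let _ : MulAction G ι' :=
    { smul := fun a i => ⟨a • i.1, by rw [hdg]; exact i.2⟩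
      one_smul := fun i => Subtype.ext (one_smul G i.1)
      mul_smul := fun a c i => Subtype.ext (mul_smul a c i.1) }
  have hsm : ∀ (a : G) (i : ι'), (a • i).1 = a • i.1 := fun _ _ => rfl
  let b' : Module.Basis ι' R (ι' →₀ R) := Finsupp.basisSingleOne
  have hb' : ∀ i, b' i = Finsupp.single i 1 := fun i => by simp [b']
  let τ : Representation R G (ι' →₀ R) :=
    { toFun := fun a => Finsupp.lmapDomain R R (fun i : ι' => a • i)
      map_one' := by
        apply Finsupp.lhom_ext
        intro i r
        rw [Finsupp.lmapDomain_apply, Finsupp.mapDomain_single, one_smul]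
        rfl
      map_mul' := fun a c => by
        apply Finsupp.lhom_ext
        intro i r
        rw [Module.End.mul_apply]
        simp only [Finsupp.lmapDomain_apply, Finsupp.mapDomain_single, mul_smul] }
  have hτ : ∀ a i, τ a (b' i) = b' (a • i) := by
    intro a i
    rw [hb', hb']
    show Finsupp.lmapDomain R R (fun i : ι' => a • i) (Finsupp.single i 1) = _
    rw [Finsupp.lmapDomain_apply, Finsupp.mapDomain_single]
  let deg' : ι' → ℤ := fun i => deg i.1
  let incl : (ι' →₀ R) →ₗ[R] P.V := b'.constr R (fun i => b i.1)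
  let proj : P.V →ₗ[R] (ι' →₀ R) := b.constr R (fun i => if h : 0 ≤ deg i then b' ⟨i, h⟩ else 0)
  have hincl : ∀ i, incl (b' i) = b i.1 := fun i => by
    simp only [incl]
    rw [Module.Basis.constr_basis]
  have hproj : ∀ i, proj (b i) = if h : 0 ≤ deg i then b' ⟨i, h⟩ else 0 := fun i => by
    simp only [proj]
    rw [Module.Basis.constr_basis]
  have hpπ : ∀ n x, proj (P.π n x) = bproj b' deg' n (proj x) := by
    intro n x
    have : proj ∘ₗ P.π n = bproj b' deg' n ∘ₗ proj := by
      apply b.ext
      intro i
      rw [LinearMap.comp_apply, LinearMap.comp_apply, hπb, hproj]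
      by_cases h1 : 0 ≤ deg i
      · rw [dif_pos h1, bproj_basis]
        by_cases h2 : deg i = n
        · rw [if_pos h2, if_pos (show deg' ⟨i, h1⟩ = n from h2), hproj, dif_pos h1]
        · rw [if_neg h2, if_neg (show ¬ deg' ⟨i, h1⟩ = n from h2), map_zero]
      · rw [dif_neg h1, map_zero]
        split_ifs
        · rw [hproj, dif_neg h1]
        · rw [map_zero]
    exact LinearMap.congr_fun this x
  have hiπ : ∀ n w, P.π n (incl w) = incl (bproj b' deg' n w) := by
    intro n w
    have : P.π n ∘ₗ incl = incl ∘ₗ bproj b' deg' n := by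
      apply b'.ext
      intro i
      rw [LinearMap.comp_apply, LinearMap.comp_apply, hincl, bproj_basis, hπb]
      by_cases h2 : deg i.1 = n
      · rw [if_pos h2, if_pos (show deg' i = n from h2), hincl]
      · rw [if_neg h2, if_neg (show ¬ deg' i = n from h2), map_zero]
    exact LinearMap.congr_fun this w
  have hpρ : ∀ a x, proj (P.ρ a x) = τ a (proj x) := by
    intro a x
    have : proj ∘ₗ P.ρ a = τ a ∘ₗ proj := by
      apply b.ext
      intro i
      rw [LinearMap.comp_apply, LinearMap.comp_apply, hb, hproj, hproj]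
      by_cases h1 : 0 ≤ deg i
      · rw [dif_pos h1, dif_pos (by rw [hdg]; exact h1), hτ]
        rfl
      · rw [dif_neg h1, dif_neg (by rw [hdg]; exact h1), map_zero]
    exact LinearMap.congr_fun this x
  have hiρ : ∀ a w, incl (τ a w) = P.ρ a (incl w) := by
    intro a w
    have : incl ∘ₗ τ a = P.ρ a ∘ₗ incl := by
      apply b'.ext
      intro i
      rw [LinearMap.comp_apply, LinearMap.comp_apply, hincl, hτ, hincl, hb, hsm]
    exact LinearMap.congr_fun this w
  -- the part of negative degree
  have hz : ∀ n : ℤ, 0 ≤ n → ∀ x, P.π n (x - incl (proj x)) = 0 := by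
    intro n hn0 x
    have : P.π n ∘ₗ (LinearMap.id - incl ∘ₗ proj) = 0 := by
      apply b.ext
      intro i
      simp only [LinearMap.comp_apply, LinearMap.sub_apply, LinearMap.id_apply,
        LinearMap.zero_apply]
      rw [hproj]
      by_cases h1 : 0 ≤ deg i
      · rw [dif_pos h1, hincl, sub_self, map_zero]
      · rw [dif_neg h1, map_zero, sub_zero, hπb, if_neg (by omega)]
    exact LinearMap.congr_fun this x
  have hkill : ∀ z, (∀ n : ℤ, 0 ≤ n → P.π n z = 0) → proj (P.d z) = 0 := by
    intro z hz1
    rw [← P.π_sum (P.d z), map_sum]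
    refine Finset.sum_eq_zero fun n _ => ?_
    by_cases hn0 : 0 ≤ n
    · rw [P.π_d, hz1 (n + 1) (by omega), map_zero, map_zero]
    · rw [hpπ]
      apply bproj_zero
      intro i hi
      apply hn0
      rw [← hi]
      exact i.2
  have hg0 : ∀ z, (∀ n : ℤ, 0 ≤ n → P.π n z = 0) → g.f z = 0 := by
    intro z hz1
    apply X.ext_π
    intro n
    rw [map_zero]
    by_cases hn0 : 0 ≤ n
    · rw [← g.f_π, hz1 n hn0, map_zero]
    · exact hn n (by omega) _
  have hgz : ∀ x, g.f (incl (proj x)) = g.f x := by
    intro x
    have h1 := hg0 (x - incl (proj x)) (fun n h => hz n h x)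
    rw [map_sub, sub_eq_zero] at h1
    exact h1.symm
  have hdz : ∀ x, proj (P.d (incl (proj x))) = proj (P.d x) := by
    intro x
    have h1 := hkill (x - incl (proj x)) (fun n h => hz n h x)
    rw [map_sub, map_sub, sub_eq_zero] at h1
    exact h1.symm
  let Q : Cx R G := mkPerm τ b' deg' hτ (fun a i => hdg a i.1) (proj ∘ₗ P.d ∘ₗ incl)
    (by
      intro i x
      simp only [LinearMap.comp_apply]
      rw [← hpπ, P.π_d, hiπ])
    (by
      intro x
      simp only [LinearMap.comp_apply]
      rw [hdz, P.d_d, map_zero])
    (by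
      intro a x
      simp only [LinearMap.comp_apply]
      rw [hiρ, P.d_ρ, hpρ])
  refine ⟨Q, mkPerm_isPerm τ b' deg' hτ (fun a i => hdg a i.1) _ _ _ _, ?_, ?_⟩
  · intro i hi x
    apply bproj_zero
    intro j hj
    have := j.2
    have h3 : deg j.1 = i := hj
    omega
  · let F : Hom X Q := ⟨proj ∘ₗ f.f, fun a x => by
        show proj (f.f (X.ρ a x)) = τ a (proj (f.f x))
        rw [f.f_ρ, hpρ], fun i x => by
        show proj (f.f (X.π i x)) = bproj b' deg' i (proj (f.f x))
        rw [f.f_π, hpπ], fun x => by
        show proj (f.f (X.d x)) = proj (P.d (incl (proj (f.f x))))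
        rw [hdz, f.f_d]⟩
    let K : Hom Q X := ⟨g.f ∘ₗ incl, fun a x => by
        show g.f (incl (τ a x)) = X.ρ a (g.f (incl x))
        rw [hiρ, g.f_ρ], fun i x => by
        show g.f (incl (bproj b' deg' i x)) = X.π i (g.f (incl x))
        rw [← g.f_π, hiπ], fun x => by
        show g.f (incl (proj (P.d (incl x)))) = X.d (g.f (incl x))
        rw [hgz, g.f_d]⟩
    refine ⟨F, K, H, H1, H2, fun x => ?_⟩
    have h1 := H3 x
    show g.f (incl (proj (f.f x))) - x = _
    rw [hgz]
    exact h1

end Cx

end PicInd
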