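import Mathlib
import Pool.Agent.Lib_MP_8744b5_al.T7
import Pool.Agent.Lib_MP_8744b5_al.PermD
import Pool.Agent.Lib_MP_8744b5_al.NQ1

/-! Piece T8: levelwise permutation representations and `K`. -/

set_option linter.unusedVariables false

open CategoryTheory TensorProduct Opposite Simplicial

namespace PicInd

universe u

variable {R : Type u} [CommRing R] {G H K : Type} [Group G] [Group H] [Group K]

/-- if all `A_m` are permutation representations then the normalised complex is in `K`
(use `Cx.inK_of_summand` with `W = ⊕_{m<N} A_m`, `f = ψ`, `h = φ`) -/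
theorem NQ.inK {A : SR R G} {Y : Cx R G} (n : NQ A Y)
    (h : ∀ m : ℕ, RPerm (A.obj (op (SimplexCategory.mk m)))) : Cx.InK Y := by
  classical
  obtain ⟨ψ, hψρ, hψφ, hφψ, hPψ, hbψ⟩ := n.exists_sec
  unfold RPerm at h
  choose ι hfin hact b hb using h
  let N : ℕ := Y.s.sup Int.toNat + 1
  have hN : ∀ m : ℕ, N ≤ m → ∀ x, Y.π (m : ℤ) x = 0 := by
    intro m hm x
    apply Y.π_zero
    intro hms
    have := Finset.le_sup (f := Int.toNat) hms
    simp only [Int.toNat_natCast] at this
    omega
  haveI : ∀ m, Finite (ι m) := hfin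
  letI : ∀ m, MulAction G (ι m) := hact
  let τ : Representation R G (∀ m : Fin N, A.V m) :=
    { toFun := fun g => LinearMap.pi fun m : Fin N => (A.ρ m g) ∘ₗ LinearMap.proj m
      map_one' := by
        apply LinearMap.ext
        intro w
        funext m
        simp
      map_mul' := by
        intro g g'
        apply LinearMap.ext
        intro w
        funext m
        simp }
  have hτ : ∀ g (w : ∀ m : Fin N, A.V m) m, τ g w m = A.ρ m g (w m) := fun _ _ _ => rfl
  let f : Y.V →ₗ[R] (∀ m : Fin N, A.V m) := LinearMap.pi fun m : Fin N => ψ m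
  have hf : ∀ x m, f x m = ψ m x := fun _ _ => rfl
  let k : (∀ m : Fin N, A.V m) →ₗ[R] Y.V := ∑ m : Fin N, n.φ m ∘ₗ LinearMap.proj m
  have hk : ∀ w, k w = ∑ m : Fin N, n.φ m (w m) := by
    intro w
    simp [k, LinearMap.sum_apply]
  have hks : ∀ (m : Fin N) (a : A.V m), k (Pi.single m a) = n.φ m a := by
    intro m a
    rw [hk, Finset.sum_eq_single m]
    · rw [Pi.single_eq_same]
    · intro j _ hj
      rw [Pi.single_eq_of_ne hj, map_zero]
    · intro hh
      exact absurd (Finset.mem_univ m) hh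
  let bb : Module.Basis (Σ m : Fin N, ι m) R (∀ m : Fin N, A.V m) := Pi.basis fun m => b m
  have hbb : ∀ (m : Fin N) (i : ι m), bb ⟨m, i⟩ = Pi.single m (b m i) := by
    intro m i
    exact Pi.basis_apply _ _
  refine Cx.inK_of_summand Y τ bb (fun i => ((i.1 : ℕ) : ℤ)) ?_ ?_ f k ?_ ?_ ?_ ?_ ?_
  · rintro g ⟨m, i⟩
    rw [Sigma.smul_mk, hbb, hbb, ← hb]
    funext j
    rw [hτ]
    by_cases hj : j = m
    · subst hj
      rw [Pi.single_eq_same, Pi.single_eq_same]
    · rw [Pi.single_eq_of_ne hj, Pi.single_eq_of_ne hj, map_zero]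
  · rintro g ⟨m, i⟩
    rfl
  · intro g x
    funext m
    rw [hτ, hf, hf, hψρ]
  · intro g w
    rw [hk, hk, map_sum]
    apply Finset.sum_congr rfl
    intro m _
    rw [hτ, n.φ_ρ]
  · intro x
    rw [hk]
    simp only [hf, hφψ]
    apply Y.ext_π
    intro i
    rw [map_sum]
    simp only [Y.π_π]
    by_cases hi : i < 0
    · rw [n.nonneg i hi]
      simp
    · obtain ⟨j, rfl⟩ : ∃ j : ℕ, i = (j : ℤ) := ⟨i.toNat, by omega⟩
      by_cases hj : j < N
      · rw [Finset.sum_eq_single (⟨j, hj⟩ : Fin N)]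
        · simp
        · intro l _ hl
          rw [if_neg]
          intro hh
          apply hl
          apply Fin.ext
          simpa using hh.symm
        · intro hh
          exact absurd (Finset.mem_univ _) hh
      · rw [hN j (by omega)]
        simp
  · rintro d x ⟨m, i⟩ hne
    by_contra hd
    apply hne
    have h0 : ψ m (Y.π d x) = 0 := by
      have h1 : n.φ m (ψ m (Y.π d x)) = n.φ m 0 := by
        rw [hφψ, Y.π_ne _ _ hd, map_zero]
      have h2 := n.PI_eq h1
      rw [hPψ, map_zero] at h2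
      exact h2
    have h3 : bb.repr (f (Y.π d x)) ⟨m, i⟩ = (b m).repr (f (Y.π d x) m) i := by
      exact Pi.basis_repr _ _ _
    rw [h3, hf, h0]
    simp
  · rintro ⟨m, i⟩
    rw [hbb, hks]
    exact n.φ_π _ _

end PicInd
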