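import Mathlib
import Pool.Agent.Lib_MP_8744b5_al.T1
import Pool.Agent.Lib_MP_8744b5_al.T2
import Pool.Agent.Lib_MP_8744b5_al.T3
import Pool.Agent.Lib_MP_8744b5_al.T4
import Pool.Agent.Lib_MP_8744b5_al.T5
import Pool.Agent.Lib_MP_8744b5_al.T6
import Pool.Agent.Lib_MP_8744b5_al.T7
import Pool.Agent.Lib_MP_8744b5_al.T8
import Pool.Agent.Lib_MP_8744b5_al.NQ2
import Pool.Agent.Lib_MP_8744b5_al.EZHeq
import Pool.Agent.Lib_MP_8744b5_al.EZNQ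
import Pool.Agent.Lib_MP_8744b5_al.LCHeq
import Pool.Agent.Lib_MP_8744b5_al.LCNQ
import Pool.Agent.Lib_MP_8744b5_al.LCEmpty
import Pool.Agent.Lib_MP_8744b5_al.HtpyInv
import Pool.Agent.Lib_MP_8744b5_al.Mon2
import Pool.Agent.Lib_MP_8744b5_al.PermC

/-! Piece LT: properties of the derived tensor induction on non-negative complexes. -/

set_option linter.unusedVariables false

open CategoryTheory TensorProduct Opposite Simplicial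

namespace PicInd

universe u

variable {R : Type u} [CommRing R] {G H K : Type} [Group G] [Group H] [Group K]

theorem rtmap_comp {V W V' W' V'' W'' : Rep.{u} R G} (f : V ⟶ V') (g : W ⟶ W') (f' : V' ⟶ V'')
    (g' : W' ⟶ W'') : rtmap f g ≫ rtmap f' g' = rtmap (f ≫ f') (g ≫ g') := by
  apply Rep.hom_ext
  apply Representation.IntertwiningMap.ext
  apply TensorProduct.ext'
  intro x y
  rfl

theorem rtmap_id (V W : Rep.{u} R G) : rtmap (𝟙 V) (𝟙 W) = 𝟙 (rtens V W) := by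
  apply Rep.hom_ext
  apply Representation.IntertwiningMap.ext
  apply TensorProduct.ext'
  intro x y
  simp [rtmap, rtens]

/-- levelwise tensor products respect isomorphisms -/
theorem SR.tens_iso {A A' B B' : SR R G} (e : A ≅ A') (f : B ≅ B') :
    Nonempty (A.tens B ≅ A'.tens B') := by
  refine ⟨NatIso.ofComponents (F := tensF (C := SimplexCategoryᵒᵖ) A B)
    (G := tensF (C := SimplexCategoryᵒᵖ) A' B') (fun c =>
    { hom := rtmap (e.hom.app c) (f.hom.app c)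
      inv := rtmap (e.inv.app c) (f.inv.app c)
      hom_inv_id := by
        refine (rtmap_comp _ _ _ _).trans ?_
        have h1 : e.hom.app c ≫ e.inv.app c = 𝟙 (A.obj c) :=
          congrArg (fun t => NatTrans.app t c) e.hom_inv_id
        have h2 : f.hom.app c ≫ f.inv.app c = 𝟙 (B.obj c) :=
          congrArg (fun t => NatTrans.app t c) f.hom_inv_id
        rw [h1, h2, rtmap_id]
        rfl
      inv_hom_id := by
        refine (rtmap_comp _ _ _ _).trans ?_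
        have h1 : e.inv.app c ≫ e.hom.app c = 𝟙 (A'.obj c) :=
          congrArg (fun t => NatTrans.app t c) e.inv_hom_id
        have h2 : f.inv.app c ≫ f.hom.app c = 𝟙 (B'.obj c) :=
          congrArg (fun t => NatTrans.app t c) f.inv_hom_id
        rw [h1, h2, rtmap_id]
        rfl }) ?_⟩
  intro c c' t
  show rtmap (A.map t) (B.map t) ≫ rtmap (e.hom.app c') (f.hom.app c') =
    rtmap (e.hom.app c) (f.hom.app c) ≫ rtmap (A'.map t) (B'.map t)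
  rw [rtmap_comp, rtmap_comp, e.hom.naturality, f.hom.naturality]

theorem SR.ap_iso (F : Rep.{u} R H ⥤ Rep.{u} R G) {A A' : SR R H} (e : A ≅ A') :
    Nonempty (SR.ap F A ≅ SR.ap F A') :=
  ⟨((SimplicialObject.whiskering _ _).obj F).mapIso e⟩

/-- Eilenberg-Zilber -/
theorem eilenberg_zilber {A B : SR R G} {X Y : Cx R G} (n : NQ A X) (n' : NQ B Y) :
    ∃ Z : Cx R G, Nonempty (NQ (A.tens B) Z) ∧ Cx.Heq Z (X.tensor Y) := by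
  obtain ⟨gX, -⟩ := gam_NQ X n.nonneg
  obtain ⟨gY, -⟩ := gam_NQ Y n'.nonneg
  obtain ⟨e⟩ := NQ.isoSR gX n (Cx.Iso.of_bij (Cx.Hom.id X) Function.bijective_id)
  obtain ⟨f⟩ := NQ.isoSR gY n' (Cx.Iso.of_bij (Cx.Hom.id Y) Function.bijective_id)
  obtain ⟨g⟩ := SR.tens_iso e f
  obtain ⟨w⟩ := EZ.NQ_tens_gam X Y n.nonneg n'.nonneg
  obtain ⟨w'⟩ := NQ.of_iso w g
  exact ⟨EZ.W X Y, ⟨w'⟩, EZ.W_heq X Y n.nonneg n'.nonneg⟩

/-- `Y` is the derived tensor induction of `X` along the data `D` -/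
def LTrel (D : Dat G H) (X : Cx R H) (Y : Cx R G) : Prop :=
  ∃ A : SR R H, Nonempty (NQ A X) ∧ Nonempty (NQ (SR.ap D.T A) Y)

/-- non-negative complexes -/
def Cx.Nn (X : Cx R G) : Prop := ∀ i : ℤ, i < 0 → ∀ x, X.π i x = 0

namespace LTrel

theorem nn_left {D : Dat G H} {X : Cx R H} {Y : Cx R G} (h : LTrel D X Y) : X.Nn := by
  obtain ⟨A, ⟨n⟩, -⟩ := h
  exact n.nonneg

theorem nn_right {D : Dat G H} {X : Cx R H} {Y : Cx R G} (h : LTrel D X Y) : Y.Nn := by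
  obtain ⟨A, -, ⟨n⟩⟩ := h
  exact n.nonneg

theorem exi (D : Dat G H) {X : Cx R H} (h : X.Nn) : ∃ Y : Cx R G, LTrel D X Y := by
  obtain ⟨n, -⟩ := gam_NQ X h
  obtain ⟨Y, hY⟩ := exists_NQ (SR.ap D.T (gam X)) (D.T_bounded _ n.bounded)
  exact ⟨Y, gam X, ⟨n⟩, hY⟩

theorem heq {D : Dat G H} {X X' : Cx R H} {Y Y' : Cx R G} (h : LTrel D X Y) (h' : LTrel D X' Y')
    (e : Cx.Heq X X') : Cx.Heq Y Y' := by
  obtain ⟨A, ⟨n⟩, ⟨m⟩⟩ := h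
  obtain ⟨A', ⟨n'⟩, ⟨m'⟩⟩ := h'
  exact heq_inv D.T n n' m m' e

theorem retr {D : Dat G H} {X X' : Cx R H} {Y Y' : Cx R G} (h : LTrel D X Y) (h' : LTrel D X' Y')
    (e : Cx.Retr X X') : Cx.Retr Y Y' := by
  obtain ⟨A, ⟨n⟩, ⟨m⟩⟩ := h
  obtain ⟨A', ⟨n'⟩, ⟨m'⟩⟩ := h'
  exact retr_inv D.T n n' m m' e

theorem tensor {D : Dat G H} {X X' Z : Cx R H} {Y Y' W : Cx R G} (h : LTrel D X Y)
    (h' : LTrel D X' Y') (hZ : Cx.Heq Z (X.tensor X')) (hW : LTrel D Z W) :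
    Cx.Heq W (Y.tensor Y') := by
  obtain ⟨A, ⟨n⟩, ⟨m⟩⟩ := h
  obtain ⟨A', ⟨n'⟩, ⟨m'⟩⟩ := h'
  obtain ⟨Z0, ⟨z⟩, hz⟩ := eilenberg_zilber n n'
  obtain ⟨W0, ⟨w⟩, hw⟩ := eilenberg_zilber m m'
  obtain ⟨e⟩ := Dat.T_tens D A A'
  obtain ⟨w'⟩ := NQ.of_iso w e.symm
  have h0 : LTrel D Z0 W0 := ⟨_, ⟨z⟩, ⟨w'⟩⟩
  exact (heq hW h0 (hZ.trans hz.symm)).trans hw

theorem one {D : Dat G H} {X : Cx R H} {Y : Cx R G} (h : LTrel D X Y)
    (e : Cx.Heq X (Cx.one R H)) : Cx.Heq Y (Cx.one R G) := by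
  obtain ⟨A, h1, h2⟩ := Dat.T_one (R := R) D
  exact heq h ⟨A, h1, h2⟩ e

theorem comp {D : Dat G H} {E : Dat H K} {X X' : Cx R K} {Y Y' : Cx R H} {Z W : Cx R G}
    (h : LTrel E X Y) (hY : Cx.Heq Y Y') (h' : LTrel D Y' Z) (hX : Cx.Heq X X')
    (h'' : LTrel (D.comp E) X' W) : Cx.Heq W Z := by
  obtain ⟨A, ⟨n⟩, ⟨m⟩⟩ := h
  obtain ⟨W0, ⟨w⟩⟩ := exists_NQ (SR.ap D.T (SR.ap E.T A)) (D.T_bounded _ m.bounded)
  have h1 : LTrel D Y W0 := ⟨_, ⟨m⟩, ⟨w⟩⟩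
  obtain ⟨e⟩ := Dat.ap_comp D E A
  obtain ⟨w'⟩ := NQ.of_iso w e
  have h2 : LTrel (D.comp E) X W0 := ⟨A, ⟨n⟩, ⟨w'⟩⟩
  exact (heq h'' h2 hX.symm).trans (heq h1 h' hY)

theorem sum {D E : Dat G H} {X : Cx R H} {Y Z W : Cx R G} (h : LTrel D X Y) (h' : LTrel E X Z)
    (h'' : LTrel (D.sum E) X W) : Cx.Heq W (Y.tensor Z) := by
  obtain ⟨A, ⟨n⟩, ⟨m⟩⟩ := h
  obtain ⟨Z0, ⟨z⟩⟩ := exists_NQ (SR.ap E.T A) (E.T_bounded _ n.bounded)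
  have h1 : Cx.Heq Z0 Z := heq ⟨A, ⟨n⟩, ⟨z⟩⟩ h' (Cx.Heq.refl X)
  obtain ⟨W0, ⟨w⟩, hw⟩ := eilenberg_zilber m z
  obtain ⟨e⟩ := Dat.T_sum D E A
  obtain ⟨w'⟩ := NQ.of_iso w e.symm
  have h2 : LTrel (D.sum E) X W0 := ⟨A, ⟨n⟩, ⟨w'⟩⟩
  exact ((heq h'' h2 (Cx.Heq.refl X)).trans hw).trans (Cx.Heq.tensor (Cx.Heq.refl Y) h1)

theorem equiv {D D' : Dat G H} (e : D.Equiv D') {X : Cx R H} {Y Y' : Cx R G} (h : LTrel D X Y)
    (h' : LTrel D' X Y') : Cx.Heq Y Y' := by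
  obtain ⟨A, ⟨n⟩, ⟨m⟩⟩ := h
  obtain ⟨i⟩ := Dat.T_equiv (R := R) e
  obtain ⟨m'⟩ := NQ.of_iso m (((SimplicialObject.whiskering _ _).mapIso i).app A)
  exact heq ⟨A, ⟨n⟩, ⟨m'⟩⟩ h' (Cx.Heq.refl X)

theorem ofHom {α : G →* H} {X : Cx R H} {Y : Cx R G} (h : LTrel (Dat.ofHom α) X Y) :
    Cx.Heq Y (X.res α) := by
  obtain ⟨A, ⟨n⟩, ⟨m⟩⟩ := h
  obtain ⟨i⟩ := Dat.T_ofHom (R := R) α
  obtain ⟨m'⟩ := NQ.of_iso m (((SimplicialObject.whiskering _ _).mapIso i).app A)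
  obtain ⟨k⟩ := NQ.res n α
  exact (NQ.iso m' k).heq

theorem inK {D : Dat G H} {X : Cx R H} {Y : Cx R G} (h : LTrel D X Y) (hX : Cx.InK X) :
    Cx.InK Y := by
  obtain ⟨P, hP, hPn, hr⟩ := Cx.inK_nonneg X hX h.nn_left
  obtain ⟨n, -⟩ := gam_NQ P hPn
  obtain ⟨Q, ⟨q⟩⟩ := exists_NQ (SR.ap D.T (gam P)) (D.T_bounded _ n.bounded)
  have h1 : LTrel D P Q := ⟨_, ⟨n⟩, ⟨q⟩⟩
  have h2 : Cx.InK Q := NQ.inK q (fun m => RPerm.T D (gam_perm P hP m))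
  exact Cx.InK.of_retr (retr h h1 hr) h2

theorem sphere {D : Dat G H} {Y : Cx R G} (h : LTrel D (Cx.sph R H 1) Y) :
    ∃ Z : Cx R G, Cx.InK Z ∧ Cx.Heq (Y.tensor Z) (Cx.one R G) := by
  classical
  have hn : (Cx.sph R H 1).Nn := h.nn_left
  obtain ⟨n, -⟩ := gam_NQ (Cx.sph R H 1) hn
  rcases isEmpty_or_nonempty D.S with hS | hS
  · obtain ⟨m⟩ := LC.empty_NQ D (gam (Cx.sph R H 1))
    have e : Cx.Heq Y (Cx.one R G) := heq h ⟨_, ⟨n⟩, ⟨m⟩⟩ (Cx.Heq.refl _)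
    exact ⟨Cx.one R G, (Cx.sph_isPerm 0).inK,
      (Cx.Heq.tensor e (Cx.Heq.refl _)).trans (Cx.one_tensor _).heq⟩
  · let : Fintype D.S := Fintype.ofFinite D.S
    obtain ⟨m⟩ := LC.sphere_NQ (R := R) D
    have e : Cx.Heq Y (LC.LC R D.act) := heq h ⟨_, ⟨n⟩, ⟨m⟩⟩ (Cx.Heq.refl _)
    exact ⟨LC.LD R D.act, (LC.LD_isPerm D.act).inK,
      (Cx.Heq.tensor e (Cx.Heq.refl _)).trans (LC.LC_LD D.act)⟩

end LTrel

end PicInd
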