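import Mathlib
import Pool.Agent.Lib_MP_8744b5_al.TFun

/-! Piece BIS: realisation of right-free bisets by wreath data. -/

set_option linter.unusedVariables false

namespace PicInd

namespace Dat

variable {G H K : Type} [Group G] [Group H] [Group K]

/-- data from a system of representatives of the right orbits -/
theorem exists_real_aux (U : RFB G H) {S : Type} [Finite S] (e : S → U.U)
    (he : Function.Bijective (fun p : S × H => U.r (e p.1) p.2)) :
    ∃ D : Dat G H, D.Real U := by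
  classical
  have hinj : ∀ s s' h h', U.r (e s) h = U.r (e s') h' → s = s' ∧ h = h' := by
    intro s s' h h' hh
    have := he.1 (a₁ := (s, h)) (a₂ := (s', h')) hh
    exact ⟨congrArg Prod.fst this, congrArg Prod.snd this⟩
  have hex : ∀ (g : G) (s : S), ∃ p : S × H, U.r (e p.1) p.2 = U.l g (e s) :=
    fun g s => he.2 _
  choose a ha using hex
  have key : ∀ g g' s, (a (g * g') s).1 = (a g (a g' s).1).1 ∧
      (a (g * g') s).2 = (a g (a g' s).1).2 * (a g' s).2 := by
    intro g g' s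
    apply hinj
    rw [ha, U.l_mul, ← ha g' s, U.lr, ← ha g (a g' s).1, U.r_mul]
  have kone : ∀ s, (a 1 s).1 = s ∧ (a 1 s).2 = 1 := by
    intro s
    apply hinj
    rw [ha, U.l_one, U.r_one]
  let act : G →* Equiv.Perm S := {
    toFun := fun g =>
      { toFun := fun s => (a g s).1
        invFun := fun s => (a g⁻¹ s).1
        left_inv := by
          intro s
          have := (key g⁻¹ g s).1
          rw [inv_mul_cancel, (kone s).1] at this
          exact this.symm
        right_inv := by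
          intro s
          have := (key g g⁻¹ s).1
          rw [mul_inv_cancel, (kone s).1] at this
          exact this.symm }
    map_one' := by
      ext s
      exact (kone s).1
    map_mul' := by
      intro g g'
      ext s
      exact (key g g' s).1 }
  refine ⟨{ S := S, act := act, c := fun g s => (a g s).2, c_mul := fun g g' s => (key g g' s).2 },
    e, he, ?_⟩
  intro g s
  exact (ha g s).symm

/-- choose representatives of the right orbits -/
theorem exists_real (U : RFB G H) : ∃ D : Dat G H, D.Real U := by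
  classical
  let st : Setoid U.U := {
    r := fun u v => ∃ h : H, v = U.r u h
    iseqv := {
      refl := fun u => ⟨1, (U.r_one u).symm⟩
      symm := by
        rintro u v ⟨h, rfl⟩
        exact ⟨h⁻¹, by rw [← U.r_mul, mul_inv_cancel, U.r_one]⟩
      trans := by
        rintro u v w ⟨h, rfl⟩ ⟨k, rfl⟩
        exact ⟨h * k, by rw [U.r_mul]⟩ } }
  refine exists_real_aux U (S := Quotient st) (fun s => s.out) ⟨?_, ?_⟩
  · rintro ⟨s, h⟩ ⟨s', h'⟩ hh
    simp only at hh
    have hs : s = s' := by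
      rw [← Quotient.out_eq s, ← Quotient.out_eq s']
      apply Quotient.sound
      refine ⟨h * h'⁻¹, ?_⟩
      rw [U.r_mul, hh, ← U.r_mul, mul_inv_cancel, U.r_one]
    subst hs
    have h2 : U.r s.out (h * h'⁻¹) = s.out := by
      rw [U.r_mul, hh, ← U.r_mul, mul_inv_cancel, U.r_one]
    have h3 := U.free _ _ h2
    rw [mul_inv_eq_one] at h3
    rw [h3]
  · intro u
    obtain ⟨h, hh⟩ := Quotient.exact (s := st) (Quotient.out_eq (Quotient.mk st u))
    exact ⟨(Quotient.mk st u, h), hh.symm⟩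

theorem Real.comp {D : Dat G H} {E : Dat H K} {U : RFB G H} {V : RFB H K} (h : D.Real U)
    (h' : E.Real V) : (D.comp E).Real (U.comp V) := by
  obtain ⟨e, he, hl⟩ := h
  obtain ⟨e', he', hl'⟩ := h'
  have hinj : ∀ s s' h h', U.r (e s) h = U.r (e s') h' → s = s' ∧ h = h' := by
    intro s s' h h' hh
    have := he.1 (a₁ := (s, h)) (a₂ := (s', h')) hh
    exact ⟨congrArg Prod.fst this, congrArg Prod.snd this⟩
  have hinj' : ∀ s s' h h', V.r (e' s) h = V.r (e' s') h' → s = s' ∧ h = h' := by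
    intro s s' h h' hh
    have := he'.1 (a₁ := (s, h)) (a₂ := (s', h')) hh
    exact ⟨congrArg Prod.fst this, congrArg Prod.snd this⟩
  refine ⟨fun p => Quotient.mk (RFB.compSetoid U V) (e p.1, e' p.2), ⟨?_, ?_⟩, ?_⟩
  · rintro ⟨⟨s, t⟩, k⟩ ⟨⟨s1, t1⟩, k1⟩ hh
    obtain ⟨x, h1, h2⟩ := Quotient.exact (s := RFB.compSetoid U V) hh
    simp only at h1 h2
    have h3 : U.r (e s1) 1 = U.r (e s) x := by rw [U.r_one, h1]
    obtain ⟨rfl, rfl⟩ := hinj _ _ _ _ h3
    rw [V.l_one] at h2
    obtain ⟨rfl, rfl⟩ := hinj' _ _ _ _ h2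
    rfl
  · rintro ⟨u, v⟩
    obtain ⟨⟨s, x⟩, hs⟩ := he.2 u
    simp only at hs
    obtain ⟨⟨t, k⟩, ht⟩ := he'.2 (V.l x v)
    simp only at ht
    refine ⟨((s, t), k), ?_⟩
    apply Quotient.sound (s := RFB.compSetoid U V)
    exact ⟨x, hs.symm, ht⟩
  · rintro g ⟨s, t⟩
    apply Quotient.sound (s := RFB.compSetoid U V)
    refine ⟨(D.c g s)⁻¹, ?_, ?_⟩
    · change e (D.act g s) = U.r (U.l g (e s)) (D.c g s)⁻¹
      rw [hl, ← U.r_mul, mul_inv_cancel, U.r_one]
    · change e' t = V.l (D.c g s)⁻¹ (V.r (e' (E.act (D.c g s) t)) (E.c (D.c g s) t))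
      rw [← hl', ← V.l_mul, inv_mul_cancel, V.l_one]

theorem Real.sum {D E : Dat G H} {U V : RFB G H} (h : D.Real U) (h' : E.Real V) :
    (D.sum E).Real (U.sum V) := by
  obtain ⟨e, he, hl⟩ := h
  obtain ⟨e', he', hl'⟩ := h'
  refine ⟨Sum.map e e', ⟨?_, ?_⟩, ?_⟩
  · rintro ⟨s | s, h⟩ ⟨s' | s', h'⟩ hh
    · have h1 : U.r (e s) h = U.r (e s') h' := Sum.inl_injective hh
      have := he.1 (a₁ := (s, h)) (a₂ := (s', h')) h1
      rw [Prod.mk.injEq] at this
      obtain ⟨rfl, rfl⟩ := this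
      rfl
    · exact absurd hh (by
        intro hh
        change (Sum.inl (U.r (e s) h) : U.U ⊕ V.U) = Sum.inr (V.r (e' s') h') at hh
        exact Sum.inl_ne_inr hh)
    · exact absurd hh (by
        intro hh
        change (Sum.inr (V.r (e' s) h) : U.U ⊕ V.U) = Sum.inl (U.r (e s') h') at hh
        exact Sum.inr_ne_inl hh)
    · have h1 : V.r (e' s) h = V.r (e' s') h' := Sum.inr_injective hh
      have := he'.1 (a₁ := (s, h)) (a₂ := (s', h')) h1
      rw [Prod.mk.injEq] at this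
      obtain ⟨rfl, rfl⟩ := this
      rfl
  · rintro (u | v)
    · obtain ⟨⟨s, x⟩, hs⟩ := he.2 u
      exact ⟨(Sum.inl s, x), congrArg Sum.inl hs⟩
    · obtain ⟨⟨s, x⟩, hs⟩ := he'.2 v
      exact ⟨(Sum.inr s, x), congrArg Sum.inr hs⟩
  · rintro g (s | s)
    · exact congrArg Sum.inl (hl g s)
    · exact congrArg Sum.inr (hl' g s)

theorem Real.ofHom [Finite H] (α : G →* H) : (Dat.ofHom α).Real (RFB.ofHom α) := by
  refine ⟨fun _ => (1 : H), ⟨?_, ?_⟩, ?_⟩
  · rintro ⟨⟨⟩, h⟩ ⟨⟨⟩, h'⟩ hh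
    have h1 : (1 : H) * h = 1 * h' := hh
    rw [one_mul, one_mul] at h1
    rw [h1]
  · intro (u : H)
    exact ⟨((), u), one_mul u⟩
  · intro g s
    change α g * 1 = 1 * α g
    rw [one_mul, mul_one]

theorem Real.equiv {D D' : Dat G H} {U U' : RFB G H} (h : D.Real U) (h' : D'.Real U')
    (e : U.Iso U') : D.Equiv D' := by
  obtain ⟨f, hf, hl⟩ := h
  obtain ⟨f', hf', hl'⟩ := h'
  obtain ⟨ε, e1, e2⟩ := e
  have hinj : ∀ s s' h h', U.r (f s) h = U.r (f s') h' → s = s' ∧ h = h' := by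
    intro s s' h h' hh
    have := hf.1 (a₁ := (s, h)) (a₂ := (s', h')) hh
    exact ⟨congrArg Prod.fst this, congrArg Prod.snd this⟩
  have hinj' : ∀ s s' h h', U'.r (f' s) h = U'.r (f' s') h' → s = s' ∧ h = h' := by
    intro s s' h h' hh
    have := hf'.1 (a₁ := (s, h)) (a₂ := (s', h')) hh
    exact ⟨congrArg Prod.fst this, congrArg Prod.snd this⟩
  have hex : ∀ s : D.S, ∃ p : D'.S × H, U'.r (f' p.1) p.2 = ε (f s) := fun s => hf'.2 _
  choose a ha using hex
  have hbij : Function.Bijective (fun s => (a s).1) := by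
    constructor
    · intro s s' hs
      simp only at hs
      have h1 : ε (U.r (f s) (a s).2⁻¹) = ε (U.r (f s') (a s').2⁻¹) := by
        rw [e2, e2, ← ha, ← ha, ← U'.r_mul, ← U'.r_mul, mul_inv_cancel, mul_inv_cancel, hs]
      exact (hinj _ _ _ _ (ε.injective h1)).1
    · intro t
      obtain ⟨⟨s, x⟩, hs⟩ := hf.2 (ε.symm (f' t))
      simp only at hs
      refine ⟨s, ?_⟩
      have h1 : U'.r (f' (a s).1) ((a s).2 * x) = U'.r (f' t) 1 := by
        rw [U'.r_mul, ha, ← e2, hs, Equiv.apply_symm_apply, U'.r_one]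
      exact (hinj' _ _ _ _ h1).1
  have key : ∀ g s, (a (D.act g s)).1 = D'.act g (a s).1 ∧
      (a (D.act g s)).2 * D.c g s = D'.c g (a s).1 * (a s).2 := by
    intro g s
    apply hinj'
    rw [U'.r_mul, ha, ← e2, ← hl, e1, ← ha, U'.lr, hl', ← U'.r_mul]
  refine ⟨_root_.Equiv.ofBijective _ hbij, fun s => (a s).2, ?_, ?_⟩
  · intro g s
    exact (key g s).1
  · intro g s
    exact (key g s).2.symm

end Dat

theorem RFB.Iso.refl {G H : Type} [Group G] [Group H] (U : RFB G H) : U.Iso U :=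
  ⟨Equiv.refl _, fun _ _ => rfl, fun _ _ => rfl⟩

end PicInd
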