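import Mathlib
import Pool.Agent.Lib_MP_8744b5_al.KMon
import Pool.Agent.Lib_MP_8744b5_al.LT
import Pool.Agent.Lib_MP_8744b5_al.Reali

/-!
# Extension of the derived tensor induction to all complexes and to Picard groups
-/

set_option linter.unusedVariables false
set_option linter.unusedSectionVars false

open TensorProduct

namespace PicInd

universe u

/-! ## An algebraic lemma -/

section Ext

variable {M N : Type*} [CommMonoid M] [CommMonoid N]

/-- A homomorphism defined on a submonoid `P` of `M` extends uniquely to `M` if every element of `M`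
is moved into `P` by a power of an element `t` of `P`, where `t` is a unit of `M` and goes to a
unit. -/
theorem exists_ext (P : Submonoid M) (t : P) (t' : M) (ht : (t : M) * t' = 1)
    (hP : ∀ a : M, ∃ n : ℕ, a * (t : M) ^ n ∈ P) (φ : P →* N) (s' : N) (hs : φ t * s' = 1) :
    ∃ Φ : M →* N, ∀ a : P, Φ a = φ a := by
  classical
  choose e he using hP
  have key : ∀ (a : M) (m n : ℕ) (hm : a * (t : M) ^ m ∈ P) (hn : a * (t : M) ^ n ∈ P),
      φ ⟨_, hm⟩ * s' ^ m = φ ⟨_, hn⟩ * s' ^ n := by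
    intro a m n hm hn
    have h1 : (⟨_, hm⟩ : P) * t ^ n = ⟨_, hn⟩ * t ^ m := by
      apply Subtype.ext
      simp only [Submonoid.coe_mul, SubmonoidClass.coe_pow]
      rw [mul_assoc, mul_assoc, ← pow_add, ← pow_add, add_comm]
    have h2 : φ ⟨_, hm⟩ * φ t ^ n = φ ⟨_, hn⟩ * φ t ^ m := by
      rw [← map_pow, ← map_pow, ← map_mul, ← map_mul, h1]
    have h3 : ∀ k : ℕ, φ t ^ k * s' ^ k = 1 := fun k => by rw [← mul_pow, hs, one_pow]
    calc φ ⟨_, hm⟩ * s' ^ m = φ ⟨_, hm⟩ * s' ^ m * (φ t ^ n * s' ^ n) := by rw [h3, mul_one]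
      _ = φ ⟨_, hm⟩ * φ t ^ n * (s' ^ m * s' ^ n) := by ac_rfl
      _ = φ ⟨_, hn⟩ * φ t ^ m * (s' ^ m * s' ^ n) := by rw [h2]
      _ = φ ⟨_, hn⟩ * s' ^ n * (φ t ^ m * s' ^ m) := by ac_rfl
      _ = φ ⟨_, hn⟩ * s' ^ n := by rw [h3, mul_one]
  refine ⟨{ toFun := fun a => φ ⟨_, he a⟩ * s' ^ e a, map_one' := ?_, map_mul' := ?_ }, ?_⟩
  · have h0 : (1 : M) * (t : M) ^ 0 ∈ P := by simp
    rw [key 1 (e 1) 0 (he 1) h0, show s' ^ 0 = 1 from pow_zero _, mul_one]
    have : (⟨_, h0⟩ : P) = 1 := Subtype.ext (by simp)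
    rw [this, map_one]
  · intro a b
    have hab : a * b * (t : M) ^ (e a + e b) ∈ P := by
      have := P.mul_mem (he a) (he b)
      have e1 : a * b * (t : M) ^ (e a + e b) = a * (t : M) ^ e a * (b * (t : M) ^ e b) := by
        rw [pow_add]; ac_rfl
      rw [e1]; exact this
    rw [key (a * b) (e (a * b)) (e a + e b) (he _) hab]
    have : (⟨_, hab⟩ : P) = ⟨_, he a⟩ * ⟨_, he b⟩ := Subtype.ext (by
      simp only [Submonoid.coe_mul, pow_add]; ac_rfl)
    rw [this, map_mul, pow_add]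
    ac_rfl
  · intro a
    have h0 : (a : M) * (t : M) ^ 0 ∈ P := by simp
    change φ ⟨_, he a⟩ * s' ^ e a = φ a
    rw [key a (e a) 0 (he a) h0, show s' ^ 0 = 1 from pow_zero _, mul_one]
    congr 1
    exact Subtype.ext (by simp)

/-- two homomorphisms which agree on `P` are equal -/
theorem ext_unique (P : Submonoid M) (t : P) (t' : M) (ht : (t : M) * t' = 1)
    (hP : ∀ a : M, ∃ n : ℕ, a * (t : M) ^ n ∈ P) (Φ Ψ : M →* N)
    (h : ∀ a ∈ P, Φ a = Ψ a) : Φ = Ψ := by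
  ext a
  obtain ⟨n, hn⟩ := hP a
  have h1 := h _ hn
  have h2 := h _ t.2
  have h3 : ∀ k : ℕ, (t : M) ^ k * t' ^ k = 1 := fun k => by rw [← mul_pow, ht, one_pow]
  rw [map_mul, map_mul, map_pow, map_pow, h2] at h1
  have h4 : Ψ (t : M) ^ n * Ψ t' ^ n = 1 := by rw [← map_pow, ← map_pow, ← map_mul, h3, map_one]
  calc Φ a = Φ a * (Ψ (t : M) ^ n * Ψ t' ^ n) := by rw [h4, mul_one]
    _ = Ψ a * (Ψ (t : M) ^ n * Ψ t' ^ n) := by rw [← mul_assoc, h1, mul_assoc]
    _ = Ψ a := by rw [h4, mul_one]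

end Ext

/-! ## Non-negative complexes -/

variable {R : Type u} [CommRing R] {G H K : Type} [Group G] [Group H] [Group K]

open Cx

lemma sph_π_ne (n i : ℤ) (h : i ≠ n) (x : (sph R G n).V) : (sph R G n).π i x = 0 := by
  change (if i = n then LinearMap.id else 0 : R →ₗ[R] R) x = 0
  rw [if_neg h]; rfl

theorem sph_nn (n : ℕ) : (sph R G (n : ℤ)).Nn := fun i hi x => sph_π_ne _ _ (by omega) x

theorem tensor_nn {X Y : Cx R G} (hX : X.Nn) (hY : Y.Nn) : (X.tensor Y).Nn := by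
  intro n hn z
  have : (X.tensor Y).π n = 0 := by
    apply tensor_ext
    intro i j x y
    change tπ X Y n _ = 0
    rw [tπ_tmul]
    split_ifs with h
    · by_cases hi : i < 0
      · rw [hX i hi]; simp
      · rw [hY j (by omega)]; simp
    · rfl
  rw [this]; rfl

/-- the submonoid of the classes of non-negative complexes -/
noncomputable def KPos (R : Type u) [CommRing R] (G : Type) [Group G] : Submonoid (KMon R G) where
  carrier := {a | ∃ X hX, X.Nn ∧ a = KMon.mk X hX}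
  one_mem' := ⟨Cx.one R G, (sph_isPerm 0).inK, sph_nn 0, rfl⟩
  mul_mem' := by
    rintro a b ⟨X, hX, hX', rfl⟩ ⟨Y, hY, hY', rfl⟩
    exact ⟨X.tensor Y, hX.tensor hY, tensor_nn hX' hY', rfl⟩

/-- the class of `R[n]` -/
noncomputable def tcls (R : Type u) [CommRing R] (G : Type) [Group G] (n : ℤ) : KMon R G :=
  KMon.mk (sph R G n) (sph_isPerm n).inK

lemma tcls_mul (m n : ℤ) : tcls R G m * tcls R G n = tcls R G (m + n) :=
  KMon.mk_eq.2 (sph_tensor m n).heq

lemma tcls_zero : tcls R G 0 = 1 := rfl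

lemma tcls_pow (n : ℕ) : tcls R G 1 ^ n = tcls R G n := by
  induction n with
  | zero => simp [tcls_zero]
  | succ n ih => rw [pow_succ, ih, tcls_mul]; simp

lemma tcls_mem (n : ℕ) : tcls R G n ∈ KPos R G := ⟨_, _, sph_nn n, rfl⟩

lemma tcls_unit : tcls R G 1 * tcls R G (-1) = 1 := by rw [tcls_mul]; rfl

/-- every complex becomes non-negative after a shift -/
lemma exists_shift_mem (a : KMon R G) : ∃ n : ℕ, a * tcls R G 1 ^ n ∈ KPos R G := by
  obtain ⟨X, hX, rfl⟩ := a.exists_mk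
  refine ⟨X.s.sup Int.natAbs, ?_⟩
  rw [tcls_pow]
  refine ⟨X.tensor (sph R G _), hX.tensor (sph_isPerm _).inK, ?_, rfl⟩
  intro n hn z
  have : (X.tensor (sph R G (X.s.sup Int.natAbs : ℕ))).π n = 0 := by
    apply tensor_ext
    intro i j x y
    change tπ X _ n _ = 0
    rw [tπ_tmul]
    split_ifs with h
    · by_cases hi : i ∈ X.s
      · have h1 : i.natAbs ≤ X.s.sup Int.natAbs := Finset.le_sup (f := Int.natAbs) hi
        have h2 : j ≠ (X.s.sup Int.natAbs : ℕ) := by omega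
        rw [sph_π_ne _ _ h2]; simp
      · rw [X.π_zero i hi]; simp
    · rfl
  rw [this]; rfl

/-! ## The norm homomorphism of wreath data -/

/-- derived tensor induction on classes of non-negative complexes -/
noncomputable def nrm0 (D : Dat G H) (a : KPos R H) : KMon R G :=
  KMon.mk (LTrel.exi (R := R) D a.2.choose_spec.choose_spec.1).choose
    (LTrel.inK (LTrel.exi (R := R) D a.2.choose_spec.choose_spec.1).choose_spec
      a.2.choose_spec.choose)

lemma nrm0_eq (D : Dat G H) (X : Cx R H) (hX : InK X) (hn : X.Nn) (h : KMon.mk X hX ∈ KPos R H)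
    (Y : Cx R G) (hY : InK Y) (hXY : LTrel D X Y) :
    nrm0 D ⟨KMon.mk X hX, h⟩ = KMon.mk Y hY := by
  unfold nrm0
  apply KMon.mk_eq.2
  apply LTrel.heq (LTrel.exi (R := R) D h.choose_spec.choose_spec.1).choose_spec hXY
  exact (KMon.mk_eq.1 h.choose_spec.choose_spec.2).symm

/-- derived tensor induction is multiplicative -/
noncomputable def nrm1 (D : Dat G H) : KPos R H →* KMon R G where
  toFun := nrm0 D
  map_one' := by
    obtain ⟨Y, hY⟩ := LTrel.exi (R := R) D (sph_nn (R := R) (G := H) 0)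
    have hK : InK Y := LTrel.inK hY (sph_isPerm 0).inK
    have e := nrm0_eq D (Cx.one R H) (sph_isPerm 0).inK (sph_nn 0) (KPos R H).one_mem Y hK hY
    exact e.trans (KMon.mk_eq.2 (LTrel.one hY (Heq.refl _)))
  map_mul' := by
    rintro ⟨a, X, hX, hX', rfl⟩ ⟨b, Y, hY, hY', rfl⟩
    obtain ⟨X1, h1⟩ := LTrel.exi (R := R) D hX'
    obtain ⟨Y1, h2⟩ := LTrel.exi (R := R) D hY'
    obtain ⟨Z1, h3⟩ := LTrel.exi (R := R) D (tensor_nn hX' hY')
    have k1 := LTrel.inK h1 hX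
    have k2 := LTrel.inK h2 hY
    have k3 := LTrel.inK h3 (hX.tensor hY)
    rw [nrm0_eq D X hX hX' _ X1 k1 h1, nrm0_eq D Y hY hY' _ Y1 k2 h2]
    have e := nrm0_eq D (X.tensor Y) (hX.tensor hY) (tensor_nn hX' hY')
      ((KPos R H).mul_mem ⟨X, hX, hX', rfl⟩ ⟨Y, hY, hY', rfl⟩) Z1 k3 h3
    exact e.trans (KMon.mk_eq.2 (LTrel.tensor h1 h2 (Heq.refl _) h3))

/-- the class `R[1]` as an element of `KPos` -/
noncomputable def tpos (R : Type u) [CommRing R] (G : Type) [Group G] : KPos R G :=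
  ⟨tcls R G 1, tcls_mem 1⟩

lemma nrm1_unit (D : Dat G H) : ∃ s' : KMon R G, nrm1 D (tpos R H) * s' = 1 := by
  obtain ⟨Y, hY⟩ := LTrel.exi (R := R) D (sph_nn (R := R) (G := H) 1)
  have hK : InK Y := LTrel.inK hY (sph_isPerm 1).inK
  obtain ⟨Z, hZ, hYZ⟩ := LTrel.sphere hY
  refine ⟨KMon.mk Z hZ, ?_⟩
  have e := nrm0_eq D (sph R H 1) (sph_isPerm 1).inK (sph_nn 1) (tcls_mem 1) Y hK hY
  have e' : nrm1 D (tpos R H) = KMon.mk Y hK := e
  rw [e']
  exact KMon.mk_eq.2 hYZ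

lemma exists_nrm (D : Dat G H) : ∃ Φ : KMon R H →* KMon R G, ∀ a : KPos R H, Φ a = nrm1 D a := by
  obtain ⟨s', hs⟩ := nrm1_unit (R := R) D
  exact exists_ext (KPos R H) (tpos R H) (tcls R H (-1)) tcls_unit exists_shift_mem (nrm1 D) s' hs

/-- the norm homomorphism attached to wreath data -/
noncomputable def nrm (R : Type u) [CommRing R] (D : Dat G H) : KMon R H →* KMon R G :=
  (exists_nrm D).choose

lemma nrm_mk (D : Dat G H) (X : Cx R H) (hX : InK X) (hn : X.Nn) (Y : Cx R G) (hY : InK Y)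
    (h : LTrel D X Y) : nrm R D (KMon.mk X hX) = KMon.mk Y hY := by
  have := (exists_nrm (R := R) D).choose_spec ⟨_, ⟨X, hX, hn, rfl⟩⟩
  exact this.trans (nrm0_eq D X hX hn _ Y hY h)

lemma nrm_ext {Φ Ψ : KMon R H →* KMon R G}
    (h : ∀ (X : Cx R H) (hX : InK X), X.Nn → Φ (KMon.mk X hX) = Ψ (KMon.mk X hX)) : Φ = Ψ := by
  apply ext_unique (KPos R H) (tpos R H) (tcls R H (-1)) tcls_unit exists_shift_mem
  rintro a ⟨X, hX, hX', rfl⟩
  exact h X hX hX'

lemma nrm_equiv {D D' : Dat G H} (e : D.Equiv D') : nrm R D = nrm R D' := by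
  apply nrm_ext
  intro X hX hn
  obtain ⟨Y, h1⟩ := LTrel.exi (R := R) D hn
  obtain ⟨Y', h2⟩ := LTrel.exi (R := R) D' hn
  rw [nrm_mk D X hX hn Y (LTrel.inK h1 hX) h1, nrm_mk D' X hX hn Y' (LTrel.inK h2 hX) h2]
  exact KMon.mk_eq.2 (LTrel.equiv e h1 h2)

lemma nrm_sum (D E : Dat G H) : nrm R (D.sum E) = nrm R D * nrm R E := by
  apply nrm_ext
  intro X hX hn
  obtain ⟨Y, h1⟩ := LTrel.exi (R := R) D hn
  obtain ⟨Y', h2⟩ := LTrel.exi (R := R) E hn
  obtain ⟨Z, h3⟩ := LTrel.exi (R := R) (D.sum E) hn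
  rw [MonoidHom.mul_apply, nrm_mk D X hX hn Y (LTrel.inK h1 hX) h1,
    nrm_mk E X hX hn Y' (LTrel.inK h2 hX) h2, nrm_mk _ X hX hn Z (LTrel.inK h3 hX) h3]
  exact KMon.mk_eq.2 (LTrel.sum h1 h2 h3)

lemma nrm_comp (D : Dat G H) (E : Dat H K) : nrm R (D.comp E) = (nrm R D).comp (nrm R E) := by
  apply nrm_ext
  intro X hX hn
  obtain ⟨Y, h1⟩ := LTrel.exi (R := R) E hn
  have k1 := LTrel.inK h1 hX
  obtain ⟨Z, h2⟩ := LTrel.exi (R := R) D (LTrel.nn_right h1)
  obtain ⟨W, h3⟩ := LTrel.exi (R := R) (D.comp E) hn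
  rw [MonoidHom.comp_apply, nrm_mk E X hX hn Y k1 h1,
    nrm_mk D Y k1 (LTrel.nn_right h1) Z (LTrel.inK h2 k1) h2,
    nrm_mk _ X hX hn W (LTrel.inK h3 hX) h3]
  exact KMon.mk_eq.2 (LTrel.comp h1 (Heq.refl _) h2 (Heq.refl _) h3)

lemma nrm_ofHom (α : G →* H) : nrm R (Dat.ofHom α) = KMon.res α := by
  apply nrm_ext
  intro X hX hn
  obtain ⟨Y, h1⟩ := LTrel.exi (R := R) (Dat.ofHom α) hn
  rw [nrm_mk _ X hX hn Y (LTrel.inK h1 hX) h1, KMon.res_mk]
  exact KMon.mk_eq.2 (LTrel.ofHom h1)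

/-! ## Bisets -/

/-- the norm homomorphism of a right-free biset, on isomorphism classes -/
noncomputable def bnrm (R : Type u) [CommRing R] (U : RFB G H) : KMon R H →* KMon R G :=
  nrm R (Dat.exists_real U).choose

lemma bnrm_eq {U : RFB G H} {D : Dat G H} (h : D.Real U) : bnrm R U = nrm R D :=
  nrm_equiv (Dat.Real.equiv (Dat.exists_real U).choose_spec h (RFB.Iso.refl U))

/-- the norm homomorphism of a right-free biset, on Picard groups -/
noncomputable def pnrm (R : Type u) [CommRing R] (U : RFB G H) : PicK R H →* PicK R G :=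
  Units.map (bnrm R U)

lemma pnrm_iso {U V : RFB G H} (e : U.Iso V) : pnrm R U = pnrm R V := by
  obtain ⟨D, hD⟩ := Dat.exists_real U
  obtain ⟨E, hE⟩ := Dat.exists_real V
  rw [pnrm, pnrm, bnrm_eq hD, bnrm_eq hE, nrm_equiv (Dat.Real.equiv hD hE e)]

lemma pnrm_sum (U V : RFB G H) : pnrm R (U.sum V) = pnrm R U * pnrm R V := by
  obtain ⟨D, hD⟩ := Dat.exists_real U
  obtain ⟨E, hE⟩ := Dat.exists_real V
  rw [pnrm, pnrm, pnrm, bnrm_eq hD, bnrm_eq hE, bnrm_eq (Dat.Real.sum hD hE), nrm_sum]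
  ext x
  rfl

lemma pnrm_comp (U : RFB G H) (V : RFB H K) : pnrm R (U.comp V) = (pnrm R U).comp (pnrm R V) := by
  obtain ⟨D, hD⟩ := Dat.exists_real U
  obtain ⟨E, hE⟩ := Dat.exists_real V
  rw [pnrm, pnrm, pnrm, bnrm_eq hD, bnrm_eq hE, bnrm_eq (Dat.Real.comp hD hE), nrm_comp]
  ext x
  rfl

lemma pnrm_ofHom [Finite H] (α : G →* H) : pnrm R (RFB.ofHom α) = PicK.res α := by
  rw [pnrm, bnrm_eq (Dat.Real.ofHom α), nrm_ofHom]
  rfl

lemma pnrm_empty : pnrm R (RFB.empty G H) = 1 := by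
  haveI h1 : IsEmpty (RFB.empty G H).U := inferInstanceAs (IsEmpty Empty)
  haveI h2 : IsEmpty ((RFB.empty G H).sum (RFB.empty G H)).U :=
    inferInstanceAs (IsEmpty (Empty ⊕ Empty))
  have e : RFB.Iso ((RFB.empty G H).sum (RFB.empty G H)) (RFB.empty G H) :=
    ⟨Equiv.equivOfIsEmpty _ _, fun g u => h2.elim u, fun u h => h2.elim u⟩
  have h := pnrm_iso (R := R) e
  rw [pnrm_sum] at h
  exact mul_eq_left.1 h

end PicInd
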