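import Mathlib
import Pool.Agent.Lib_MP_8744b5_al.EZW
import Pool.Agent.Lib_MP_8744b5_al.GamNQ

/-! Piece EZ4: the word complex is the normalised complex of `Γ(X) ⊗ Γ(Y)`. -/

set_option linter.unusedVariables false

open CategoryTheory TensorProduct Opposite Simplicial

namespace PicInd

universe u

variable {R : Type u} [CommRing R] {G : Type} [Group G]

namespace EZ

open Letter Gam

local instance fintypeLetter : Fintype Letter := ⟨{H, V, D}, by intro x; cases x <;> simp⟩

/-- positions of the horizontal or diagonal letters -/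
def SH {m : ℕ} (f : Fin m → Letter) : Finset (Fin m) :=
  Finset.univ.filter fun i => isH (f i) = true

/-- positions of the vertical or diagonal letters -/
def SV {m : ℕ} (f : Fin m → Letter) : Finset (Fin m) :=
  Finset.univ.filter fun i => isV (f i) = true

lemma mem_SH {m : ℕ} (f : Fin m → Letter) (i : Fin m) : i ∈ SH f ↔ isH (f i) = true := by
  simp [SH]

lemma mem_SV {m : ℕ} (f : Fin m → Letter) (i : Fin m) : i ∈ SV f ↔ isV (f i) = true := by
  simp [SV]

/-- the word of a pair of subsets -/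
def wd {m : ℕ} (σ τ : Finset (Fin m)) (i : Fin m) : Letter :=
  if i ∈ σ then (if i ∈ τ then D else H) else V

lemma SH_wd {m : ℕ} {σ τ : Finset (Fin m)} (h : σ ∪ τ = Finset.univ) : SH (wd σ τ) = σ := by
  ext i
  rw [mem_SH, wd]
  by_cases h1 : i ∈ σ <;> by_cases h2 : i ∈ τ <;> simp [h1, h2, isH]

lemma SV_wd {m : ℕ} {σ τ : Finset (Fin m)} (h : σ ∪ τ = Finset.univ) : SV (wd σ τ) = τ := by
  ext i
  have hi : i ∈ σ ∪ τ := by rw [h]; exact Finset.mem_univ i
  rw [Finset.mem_union] at hi
  rw [mem_SV, wd]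
  by_cases h1 : i ∈ σ
  · by_cases h2 : i ∈ τ <;> simp [h1, h2, isV]
  · have h2 : i ∈ τ := by tauto
    simp [h1, h2, isV]

lemma SH_union_SV {m : ℕ} (f : Fin m → Letter) : SH f ∪ SV f = Finset.univ := by
  ext i
  rw [Finset.mem_union, mem_SH, mem_SV]
  cases f i <;> simp [isH, isV]

lemma eq_of_SH_SV {m : ℕ} {f g : Fin m → Letter} (h1 : SH f = SH g) (h2 : SV f = SV g) :
    f = g := by
  funext i
  have e1 : (isH (f i) = true) ↔ (isH (g i) = true) := by rw [← mem_SH, ← mem_SH, h1]
  have e2 : (isV (f i) = true) ↔ (isV (g i) = true) := by rw [← mem_SV, ← mem_SV, h2]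
  revert e1 e2
  cases f i <;> cases g i <;> simp [isH, isV]

lemma SH_card_succ {m : ℕ} (f : Fin (m + 1) → Letter) :
    (SH f).card = (if isH (f 0) = true then 1 else 0) + (SH fun i => f i.succ).card := by
  unfold SH
  rw [Fin.card_filter_univ_succ]
  split_ifs <;> simp [add_comm]

lemma SV_card_succ {m : ℕ} (f : Fin (m + 1) → Letter) :
    (SV f).card = (if isV (f 0) = true then 1 else 0) + (SV fun i => f i.succ).card := by
  unfold SV
  rw [Fin.card_filter_univ_succ]
  split_ifs <;> simp [add_comm]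

lemma hc_ofFn {m : ℕ} (f : Fin m → Letter) : hc (List.ofFn f) = (SH f).card := by
  induction m with
  | zero => simp [hc, SH]
  | succ m ih => rw [List.ofFn_succ, hc, ih, SH_card_succ]

lemma vc_ofFn {m : ℕ} (f : Fin m → Letter) : vc (List.ofFn f) = (SV f).card := by
  induction m with
  | zero => simp [vc, SV]
  | succ m ih => rw [List.ofFn_succ, vc, ih, SV_card_succ]

variable (X Y : Cx R G)

/-- the map to the words -/
noncomputable def phi0 (m : ℕ) : (gam X).V m ⊗[R] (gam Y).V m →ₗ[R] Wd X Y :=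
  ∑ f : Fin m → Letter, Finsupp.lsingle (List.ofFn f) ∘ₗ
    TensorProduct.map (evv X m (SH f)) (evv Y m (SV f))

lemma phi0_apply (m : ℕ) (c : (gam X).V m ⊗[R] (gam Y).V m) :
    phi0 X Y m c = ∑ f : Fin m → Letter, Finsupp.single (List.ofFn f)
      (TensorProduct.map (evv X m (SH f)) (evv Y m (SV f)) c) := by
  simp [phi0, LinearMap.sum_apply]

lemma phi0_mem (m : ℕ) (c : (gam X).V m ⊗[R] (gam Y).V m) : phi0 X Y m c ∈ subW X Y := by
  rw [phi0_apply]
  refine Submodule.sum_mem _ fun f _ => ?_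
  refine single_mem X Y _ _ ?_
  rw [πw, hc_ofFn, vc_ofFn, ← LinearMap.comp_apply, ← TensorProduct.map_comp]
  congr 2
  · ext a
    exact π_evv X m _ a
  · ext a
    exact π_evv Y m _ a

lemma phi0_no (m : ℕ) {σ τ : Finset (Fin m)} (h : σ ∪ τ ≠ Finset.univ) (x : X.V) (y : Y.V) :
    phi0 X Y m (inn X m σ x ⊗ₜ inn Y m τ y) = 0 := by
  rw [phi0_apply]
  refine Finset.sum_eq_zero fun f _ => ?_
  rw [TensorProduct.map_tmul]
  by_cases h1 : SH f = σ
  · have h2 : SV f ≠ τ := by
      rintro rfl
      subst h1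
      exact h (SH_union_SV f)
    rw [evv_inn_ne Y m h2]; simp
  · rw [evv_inn_ne X m h1]; simp

lemma phi0_word (m : ℕ) (f : Fin m → Letter) (x : X.V) (y : Y.V) :
    phi0 X Y m (inn X m (SH f) x ⊗ₜ inn Y m (SV f) y) =
      Finsupp.single (List.ofFn f) (X.π (SH f).card x ⊗ₜ Y.π (SV f).card y) := by
  rw [phi0_apply, Finset.sum_eq_single f]
  · rw [TensorProduct.map_tmul, evv_inn, evv_inn]
  · intro g _ hg
    rw [TensorProduct.map_tmul]
    by_cases h1 : SH g = SH f
    · have h2 : SV g ≠ SV f := fun h2 => hg (eq_of_SH_SV h1 h2)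
      rw [evv_inn_ne Y m h2]; simp
    · rw [evv_inn_ne X m h1]; simp
  · intro h; exact absurd (Finset.mem_univ f) h

lemma tens_ext {m : ℕ} {Z : Type*} [AddCommGroup Z] [Module R Z]
    {f g : (gam X).V m ⊗[R] (gam Y).V m →ₗ[R] Z}
    (h : ∀ σ τ x y, f (inn X m σ x ⊗ₜ inn Y m τ y) = g (inn X m σ x ⊗ₜ inn Y m τ y)) : f = g := by
  apply TensorProduct.ext'
  intro a b
  rw [← sum_inn_evv X m a, ← sum_inn_evv Y m b]
  simp only [TensorProduct.sum_tmul, TensorProduct.tmul_sum, map_sum]
  exact Finset.sum_congr rfl fun _ _ => Finset.sum_congr rfl fun _ _ => h _ _ _ _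

lemma tens_fa (A B : SR R G) (m : ℕ) (i : Fin (m + 2)) (a : A.V (m + 1)) (b : B.V (m + 1)) :
    (A.tens B).fa m i (a ⊗ₜ[R] b) = (A.fa m i a) ⊗ₜ[R] (B.fa m i b) := rfl

lemma tens_dg (A B : SR R G) (m : ℕ) (i : Fin (m + 1)) (a : A.V m) (b : B.V m) :
    (A.tens B).dg m i (a ⊗ₜ[R] b) = (A.dg m i a) ⊗ₜ[R] (B.dg m i b) := rfl

lemma tens_ρ (A B : SR R G) (m : ℕ) (g : G) (a : A.V m) (b : B.V m) :
    (A.tens B).ρ m g (a ⊗ₜ[R] b) = (A.ρ m g a) ⊗ₜ[R] (B.ρ m g b) := rfl

lemma deg_mem (m : ℕ) {σ τ : Finset (Fin m)} (h : σ ∪ τ ≠ Finset.univ) (x : X.V) (y : Y.V) :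
    (inn X m σ x ⊗ₜ[R] inn Y m τ y : ((gam X).tens (gam Y)).V m) ∈
      ((gam X).tens (gam Y)).Deg m := by
  cases m with
  | zero => exact absurd (Subsingleton.elim _ _) h
  | succ n =>
    obtain ⟨i, hi⟩ : ∃ i, i ∉ σ ∪ τ := by
      by_contra hcon
      push Not at hcon
      exact h (Finset.eq_univ_iff_forall.mpr hcon)
    rw [Finset.mem_union, not_or] at hi
    have key : ∀ ρ : Finset (Fin (n + 1)), i ∉ ρ →
        (Finset.univ.filter fun k : Fin n => i.succAbove k ∈ ρ).map i.succAboveEmb = ρ := by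
      intro ρ hρ
      ext j
      rw [Finset.mem_map]
      constructor
      · rintro ⟨k, hk, rfl⟩
        exact (Finset.mem_filter.mp hk).2
      · intro hj
        have hne : j ≠ i := by rintro rfl; exact hρ hj
        obtain ⟨k, rfl⟩ := Fin.exists_succAbove_eq hne
        exact ⟨k, Finset.mem_filter.mpr ⟨Finset.mem_univ _, hj⟩, rfl⟩
    show _ ∈ (⨆ i : Fin (n + 1), LinearMap.range (((gam X).tens (gam Y)).dg n i))
    refine Submodule.mem_iSup_of_mem i
      ⟨inn X n (Finset.univ.filter fun k : Fin n => i.succAbove k ∈ σ) x ⊗ₜ[R]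
        inn Y n (Finset.univ.filter fun k : Fin n => i.succAbove k ∈ τ) y, ?_⟩
    rw [tens_dg, dg_inn, dg_inn, key σ hi.1, key τ hi.2]

lemma phi0_deg (m : ℕ) (c : ((gam X).tens (gam Y)).V m) (h : c ∈ ((gam X).tens (gam Y)).Deg m) :
    phi0 X Y m c = 0 := by
  cases m with
  | zero =>
    have h0 : c = 0 := h
    rw [h0]
    exact map_zero _
  | succ n =>
    have hle : (⨆ i : Fin (n + 1), LinearMap.range (((gam X).tens (gam Y)).dg n i)) ≤
        LinearMap.ker (phi0 X Y (n + 1)) := by
      refine iSup_le fun i => ?_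
      rintro _ ⟨c, rfl⟩
      have : phi0 X Y (n + 1) ∘ₗ ((gam X).tens (gam Y)).dg n i = 0 := by
        refine tens_ext X Y ?_
        intro σ τ x y
        have e := tens_dg (gam X) (gam Y) n i (inn X n σ x) (inn Y n τ y)
        rw [dg_inn, dg_inn] at e
        refine (congrArg (phi0 X Y (n + 1)) e).trans ?_
        refine (phi0_no X Y (n + 1) ?_ x y).trans rfl
        intro hcon
        have hi : i ∈ σ.map i.succAboveEmb ∪ τ.map i.succAboveEmb := by
          rw [hcon]; exact Finset.mem_univ i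
        rw [Finset.mem_union, Finset.mem_map, Finset.mem_map] at hi
        rcases hi with ⟨k, _, hk⟩ | ⟨k, _, hk⟩
        · exact Fin.succAbove_ne i k hk
        · exact Fin.succAbove_ne i k hk
      exact LinearMap.congr_fun this c
    exact hle h

/-- merging the letters `j` and `j + 1` to a diagonal letter -/
def mrg {m : ℕ} (f : Fin (m + 1) → Letter) (j : Fin m) : Fin m → Letter :=
  fun k => if k = j then D else f (j.succ.succAbove k)

/-- can the two letters be merged -/
def mgb (a b : Letter) : Prop := (a = H ∧ b = V) ∨ (a = V ∧ b = H)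

instance (a b : Letter) : Decidable (mgb a b) := by unfold mgb; infer_instance

lemma inner_ofFn {m : ℕ} (f : Fin (m + 1) → Letter) (z : X.V ⊗[R] Y.V) :
    inner X Y (List.ofFn f) z = ∑ j : Fin m, ((-1 : ℤ) ^ ((j : ℕ) + 1)) •
      (if mgb (f j.castSucc) (f j.succ) then Finsupp.single (List.ofFn (mrg f j)) z else 0) := by
  induction m with
  | zero =>
    rw [List.ofFn_succ]
    simp [inner]
  | succ m ih =>
    have e1 : List.ofFn f = f 0 :: f 1 :: List.ofFn (fun i : Fin m => f i.succ.succ) := by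
      rw [List.ofFn_succ, List.ofFn_succ]
      rfl
    have e2 : f 1 :: List.ofFn (fun i : Fin m => f i.succ.succ) =
        List.ofFn (fun i : Fin (m + 1) => f i.succ) := by
      rw [List.ofFn_succ]
      rfl
    rw [Fin.sum_univ_succ, e1, inner, e2, LinearMap.sub_apply, LinearMap.comp_apply, ih,
      map_sum, sub_eq_add_neg, ← Finset.sum_neg_distrib]
    congr 1
    · have e3 : D :: List.ofFn (fun i : Fin m => f i.succ.succ) = List.ofFn (mrg f 0) := by
        rw [List.ofFn_succ]
        congr 1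
      show _ = (-1 : ℤ) ^ (0 + 1) • (if mgb (f 0) (f 1) then _ else _)
      rw [← e3]
      cases h0 : f 0 <;> cases h1 : f 1 <;> simp [mg, mgb]
    · refine Finset.sum_congr rfl fun j _ => ?_
      have e3 : f 0 :: List.ofFn (mrg (fun i => f i.succ) j) = List.ofFn (mrg f j.succ) := by
        rw [List.ofFn_succ (f := mrg f j.succ)]
        congr 1
        congr 1
        funext k
        unfold mrg
        by_cases hk : k = j
        · subst hk; simp
        · have : k.succ ≠ j.succ := fun h => hk (Fin.succ_injective _ h)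
          rw [if_neg hk, if_neg this]
          rw [Fin.succ_succAbove_succ]
      rw [← e3]
      have e4 : ((j.succ : Fin (m + 1)) : ℕ) + 1 = ((j : ℕ) + 1) + 1 := by simp
      rw [e4, pow_succ (-1 : ℤ) ((j : ℕ) + 1), mul_neg_one, neg_smul, map_zsmul]
      congr 2
      have e5 : (fun i : Fin (m + 1) => f i.succ) j.castSucc = f j.succ.castSucc := by
        show f j.castSucc.succ = f j.succ.castSucc
        rw [Fin.succ_castSucc]
      show consL X Y (f 0) (if mgb (f j.castSucc.succ) (f j.succ.succ) then _ else _) = _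
      rw [Fin.succ_castSucc]
      split_ifs
      · simp [consL]
      · simp

lemma SH_mrg {m : ℕ} (f : Fin (m + 1) → Letter) (j : Fin m)
    (h : mgb (f j.castSucc) (f j.succ)) : (SH f).image (Fin.predAbove j) = SH (mrg f j) := by
  ext k
  rw [Finset.mem_image, mem_SH, mrg]
  by_cases hk : k = j
  · subst hk
    rw [if_pos rfl]
    refine iff_of_true ?_ rfl
    rcases h with ⟨h1, h2⟩ | ⟨h1, h2⟩
    · exact ⟨k.castSucc, by rw [mem_SH, h1]; rfl, by simp⟩
    · exact ⟨k.succ, by rw [mem_SH, h2]; rfl, by simp⟩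
  · rw [if_neg hk]
    constructor
    · rintro ⟨i, hi, rfl⟩
      rw [mem_SH] at hi
      rcases lt_or_ge j.castSucc i with h1 | h1
      · rw [Fin.predAbove_of_castSucc_lt j i h1] at hk ⊢
        rw [Fin.succAbove_of_le_castSucc, Fin.succ_pred]
        · exact hi
        · rw [Fin.le_def]
          rw [Fin.lt_def] at h1
          have : (i.pred (Fin.ne_zero_of_lt h1) : Fin m) ≠ j := hk
          have h3 : ((i.pred (Fin.ne_zero_of_lt h1) : Fin m) : ℕ) ≠ j := fun h => this (Fin.ext h)
          simp only [Fin.val_pred, Fin.val_castSucc, Fin.val_succ] at h1 h3 ⊢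
          omega
      · rw [Fin.predAbove_of_le_castSucc j i h1] at hk ⊢
        rw [Fin.succAbove_of_castSucc_lt, Fin.castSucc_castPred]
        · exact hi
        · rw [Fin.castSucc_castPred, Fin.lt_def]
          rw [Fin.le_def] at h1
          simp only [Fin.val_castSucc, Fin.val_succ] at h1 ⊢
          omega
    · intro h
      refine ⟨j.succ.succAbove k, by rw [mem_SH]; exact h, ?_⟩
      rcases lt_or_ge k j with h1 | h1
      · rw [Fin.succAbove_of_castSucc_lt, Fin.predAbove_of_le_castSucc, Fin.castPred_castSucc]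
        · exact Fin.castSucc_le_castSucc_iff.mpr h1.le
        · exact (Fin.castSucc_lt_castSucc_iff.mpr h1).trans (Fin.castSucc_lt_succ)
      · have h2 : j < k := lt_of_le_of_ne h1 (Ne.symm hk)
        rw [Fin.succAbove_of_le_castSucc, Fin.predAbove_of_castSucc_lt, Fin.pred_succ]
        · exact (Fin.castSucc_lt_castSucc_iff.mpr h2).trans (Fin.castSucc_lt_succ)
        · rw [Fin.le_def]
          rw [Fin.lt_def] at h2
          simp only [Fin.val_castSucc, Fin.val_succ]
          omega


lemma SV_mrg {m : ℕ} (f : Fin (m + 1) → Letter) (j : Fin m)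
    (h : mgb (f j.castSucc) (f j.succ)) : (SV f).image (Fin.predAbove j) = SV (mrg f j) := by
  ext k
  rw [Finset.mem_image, mem_SV, mrg]
  by_cases hk : k = j
  · subst hk
    rw [if_pos rfl]
    refine iff_of_true ?_ rfl
    rcases h with ⟨h1, h2⟩ | ⟨h1, h2⟩
    · exact ⟨k.succ, by rw [mem_SV, h2]; rfl, by simp⟩
    · exact ⟨k.castSucc, by rw [mem_SV, h1]; rfl, by simp⟩
  · rw [if_neg hk]
    constructor
    · rintro ⟨i, hi, rfl⟩
      rw [mem_SV] at hi
      rcases lt_or_ge j.castSucc i with h1 | h1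
      · rw [Fin.predAbove_of_castSucc_lt j i h1] at hk ⊢
        rw [Fin.succAbove_of_le_castSucc, Fin.succ_pred]
        · exact hi
        · rw [Fin.le_def]
          rw [Fin.lt_def] at h1
          have : (i.pred (Fin.ne_zero_of_lt h1) : Fin m) ≠ j := hk
          have h3 : ((i.pred (Fin.ne_zero_of_lt h1) : Fin m) : ℕ) ≠ j := fun h => this (Fin.ext h)
          simp only [Fin.val_pred, Fin.val_castSucc, Fin.val_succ] at h1 h3 ⊢
          omega
      · rw [Fin.predAbove_of_le_castSucc j i h1] at hk ⊢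
        rw [Fin.succAbove_of_castSucc_lt, Fin.castSucc_castPred]
        · exact hi
        · rw [Fin.castSucc_castPred, Fin.lt_def]
          rw [Fin.le_def] at h1
          simp only [Fin.val_castSucc, Fin.val_succ] at h1 ⊢
          omega
    · intro h
      refine ⟨j.succ.succAbove k, by rw [mem_SV]; exact h, ?_⟩
      rcases lt_or_ge k j with h1 | h1
      · rw [Fin.succAbove_of_castSucc_lt, Fin.predAbove_of_le_castSucc, Fin.castPred_castSucc]
        · exact Fin.castSucc_le_castSucc_iff.mpr h1.le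
        · exact (Fin.castSucc_lt_castSucc_iff.mpr h1).trans (Fin.castSucc_lt_succ)
      · have h2 : j < k := lt_of_le_of_ne h1 (Ne.symm hk)
        rw [Fin.succAbove_of_le_castSucc, Fin.predAbove_of_castSucc_lt, Fin.pred_succ]
        · exact (Fin.castSucc_lt_castSucc_iff.mpr h2).trans (Fin.castSucc_lt_succ)
        · rw [Fin.le_def]
          rw [Fin.lt_def] at h2
          simp only [Fin.val_castSucc, Fin.val_succ]
          omega

lemma card_sum {m : ℕ} (p : Letter → Bool) (f : Fin m → Letter) :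
    (Finset.univ.filter fun i => p (f i) = true).card = ∑ i, if p (f i) = true then 1 else 0 := by
  rw [Finset.card_filter]

lemma card_mrg {m : ℕ} (p : Letter → Bool) (hp : p D = true) (f : Fin (m + 1) → Letter) (j : Fin m)
    (h : (p (f j.castSucc) = true ∧ p (f j.succ) = false) ∨
      (p (f j.castSucc) = false ∧ p (f j.succ) = true)) :
    (Finset.univ.filter fun i => p (mrg f j i) = true).card =
      (Finset.univ.filter fun i => p (f i) = true).card := by
  rw [card_sum, card_sum, Fin.sum_univ_succAbove _ j.succ,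
    ← Finset.add_sum_erase Finset.univ _ (Finset.mem_univ j),
    ← Finset.add_sum_erase Finset.univ (fun i => if p (f (j.succ.succAbove i)) = true then 1 else 0)
      (Finset.mem_univ j), ← add_assoc]
  congr 1
  · have e : j.succ.succAbove j = j.castSucc := by
      rw [Fin.succAbove_of_castSucc_lt]
      exact Fin.castSucc_lt_succ
    rw [e, mrg, if_pos rfl, hp]
    rcases h with ⟨h1, h2⟩ | ⟨h1, h2⟩ <;> simp [h1, h2]
  · refine Finset.sum_congr rfl fun k hk => ?_
    rw [mrg, if_neg (Finset.ne_of_mem_erase hk)]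

lemma SH_card_mrg {m : ℕ} (f : Fin (m + 1) → Letter) (j : Fin m)
    (h : mgb (f j.castSucc) (f j.succ)) : (SH (mrg f j)).card = (SH f).card := by
  refine card_mrg isH rfl f j ?_
  rcases h with ⟨h1, h2⟩ | ⟨h1, h2⟩
  · left; rw [h1, h2]; exact ⟨rfl, rfl⟩
  · right; rw [h1, h2]; exact ⟨rfl, rfl⟩

lemma SV_card_mrg {m : ℕ} (f : Fin (m + 1) → Letter) (j : Fin m)
    (h : mgb (f j.castSucc) (f j.succ)) : (SV (mrg f j)).card = (SV f).card := by
  refine card_mrg isV rfl f j ?_
  rcases h with ⟨h1, h2⟩ | ⟨h1, h2⟩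
  · right; rw [h1, h2]; exact ⟨rfl, rfl⟩
  · left; rw [h1, h2]; exact ⟨rfl, rfl⟩

/-- inner faces -/
lemma face_mid {m : ℕ} (f : Fin (m + 1) → Letter) (j : Fin m) (x : X.V) (y : Y.V) :
    phi0 X Y m ((gam X).fa m j.succ.castSucc (inn X (m + 1) (SH f) x) ⊗ₜ
      (gam Y).fa m j.succ.castSucc (inn Y (m + 1) (SV f) y)) =
    if mgb (f j.castSucc) (f j.succ) then Finsupp.single (List.ofFn (mrg f j))
      (X.π (SH f).card x ⊗ₜ Y.π (SV f).card y) else 0 := by
  split_ifs with h
  · rw [fa_mid_inn_not_mem, fa_mid_inn_not_mem, SH_mrg f j h, SV_mrg f j h, phi0_word,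
      SH_card_mrg f j h, SV_card_mrg f j h]
    · rw [mem_SV, mem_SV]
      rcases h with ⟨h1, h2⟩ | ⟨h1, h2⟩ <;> simp [h1, h2, isV]
    · rw [mem_SH, mem_SH]
      rcases h with ⟨h1, h2⟩ | ⟨h1, h2⟩ <;> simp [h1, h2, isH]
  · have : (j.castSucc ∈ SH f ∧ j.succ ∈ SH f) ∨ (j.castSucc ∈ SV f ∧ j.succ ∈ SV f) := by
      rw [mem_SH, mem_SH, mem_SV, mem_SV]
      revert h
      unfold mgb
      cases f j.castSucc <;> cases f j.succ <;> simp [isH, isV]
    rcases this with h1 | h1
    · rw [fa_mid_inn_mem X m j _ h1]; simp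
    · rw [fa_mid_inn_mem Y m j _ h1]; simp

lemma face_last {m : ℕ} (f : Fin (m + 1) → Letter) (x : X.V) (y : Y.V) :
    phi0 X Y m ((gam X).fa m (Fin.last (m + 1)) (inn X (m + 1) (SH f) x) ⊗ₜ
      (gam Y).fa m (Fin.last (m + 1)) (inn Y (m + 1) (SV f) y)) = 0 := by
  have : Fin.last m ∈ SH f ∪ SV f := by rw [SH_union_SV]; exact Finset.mem_univ _
  rw [Finset.mem_union] at this
  rcases this with h1 | h1
  · rw [fa_last_inn_mem X m _ h1]; simp
  · rw [fa_last_inn_mem Y m _ h1]; simp

lemma tail_SH {m : ℕ} (f : Fin (m + 1) → Letter) :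
    (Finset.univ.filter fun j : Fin m => j.succ ∈ SH f) = SH fun i => f i.succ := by
  ext j
  rw [Finset.mem_filter, mem_SH, mem_SH]
  simp

lemma tail_SV {m : ℕ} (f : Fin (m + 1) → Letter) :
    (Finset.univ.filter fun j : Fin m => j.succ ∈ SV f) = SV fun i => f i.succ := by
  ext j
  rw [Finset.mem_filter, mem_SV, mem_SV]
  simp

lemma π_d_π (X : Cx R G) {a b : ℕ} (h : b = a + 1) (x : X.V) :
    X.π (a : ℤ) (X.d (X.π (b : ℤ) x)) = X.d (X.π (b : ℤ) x) := by
  subst h
  rw [X.π_d]
  push_cast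
  rw [X.π_self]

lemma face_zero {m : ℕ} (f : Fin (m + 1) → Letter) (x : X.V) (y : Y.V) :
    phi0 X Y m ((gam X).fa m 0 (inn X (m + 1) (SH f) x) ⊗ₜ
      (gam Y).fa m 0 (inn Y (m + 1) (SV f) y)) =
    Finsupp.single (List.ofFn fun i => f i.succ)
      (opL X Y (f 0) (X.π (SH f).card x ⊗ₜ Y.π (SV f).card y)) := by
  have cH := SH_card_succ f
  have cV := SV_card_succ f
  cases hf : f 0 with
  | H =>
    rw [hf] at cH cV
    have h1 : 0 ∈ SH f := by rw [mem_SH, hf]; rfl
    have h2 : 0 ∉ SV f := by rw [mem_SV, hf]; simp [isV]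
    rw [fa_zero_inn_mem X m _ h1, fa_zero_inn_not_mem Y m _ h2, tail_SH, tail_SV, phi0_word,
      π_d_π X (by rw [cH]; simp [isH, add_comm])]
    have e : (SV fun i => f i.succ).card = (SV f).card := by rw [cV]; simp [isV]
    rw [e, opL, TensorProduct.map_tmul, LinearMap.id_apply]
  | V =>
    rw [hf] at cH cV
    have h1 : 0 ∉ SH f := by rw [mem_SH, hf]; simp [isH]
    have h2 : 0 ∈ SV f := by rw [mem_SV, hf]; rfl
    rw [fa_zero_inn_not_mem X m _ h1, fa_zero_inn_mem Y m _ h2, tail_SH, tail_SV, phi0_word,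
      π_d_π Y (by rw [cV]; simp [isV, add_comm])]
    have e : (SH fun i => f i.succ).card = (SH f).card := by rw [cH]; simp [isH]
    rw [e, opL, TensorProduct.map_tmul, LinearMap.id_apply]
  | D =>
    rw [hf] at cH cV
    have h1 : 0 ∈ SH f := by rw [mem_SH, hf]; rfl
    have h2 : 0 ∈ SV f := by rw [mem_SV, hf]; rfl
    rw [fa_zero_inn_mem X m _ h1, fa_zero_inn_mem Y m _ h2, tail_SH, tail_SV, phi0_word,
      π_d_π X (by rw [cH]; simp [isH, add_comm]), π_d_π Y (by rw [cV]; simp [isV, add_comm]),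
      opL, TensorProduct.map_tmul]

lemma phi0_bd (m : ℕ) (a : (gam X).V (m + 1)) (b : (gam Y).V (m + 1)) :
    phi0 X Y m (((gam X).tens (gam Y)).bd m (a ⊗ₜ[R] b)) =
      ∑ i : Fin (m + 2), ((-1 : ℤ) ^ (i : ℕ)) •
        phi0 X Y m ((gam X).fa m i a ⊗ₜ (gam Y).fa m i b) := by
  have e : ((gam X).tens (gam Y)).bd m (a ⊗ₜ[R] b) =
      ∑ i : Fin (m + 2), ((-1 : ℤ) ^ (i : ℕ)) •
        ((gam X).fa m i a ⊗ₜ[R] (gam Y).fa m i b : (gam X).V m ⊗[R] (gam Y).V m) := by
    unfold SR.bd
    rw [LinearMap.sum_apply]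
    refine Finset.sum_congr rfl fun i _ => ?_
    rw [LinearMap.smul_apply]
    exact congrArg _ (tens_fa (gam X) (gam Y) m i a b)
  rw [e, map_sum]
  refine Finset.sum_congr rfl fun i _ => ?_
  rw [map_zsmul]

lemma dW_single (w : List Letter) (z : X.V ⊗[R] Y.V) :
    dW X Y (Finsupp.single w z) = face0 X Y w z + inner X Y w z := by
  rw [dW, Finsupp.lsum_single, LinearMap.add_apply]

lemma comm_word {m : ℕ} (f : Fin (m + 1) → Letter) (x : X.V) (y : Y.V) :
    phi0 X Y m (((gam X).tens (gam Y)).bd m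
      (inn X (m + 1) (SH f) x ⊗ₜ[R] inn Y (m + 1) (SV f) y)) =
      dW X Y (phi0 X Y (m + 1) (inn X (m + 1) (SH f) x ⊗ₜ inn Y (m + 1) (SV f) y)) := by
  rw [phi0_bd, phi0_word, dW_single, inner_ofFn, Fin.sum_univ_succ, Fin.sum_univ_castSucc]
  have h0 : ((0 : Fin (m + 2)) : ℕ) = 0 := rfl
  rw [h0, pow_zero, one_smul, face_zero, List.ofFn_succ]
  congr 1
  have hlast : (Fin.last m).succ = Fin.last (m + 1) := rfl
  rw [hlast, face_last, smul_zero, add_zero]
  refine Finset.sum_congr rfl fun j _ => ?_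
  have e : j.castSucc.succ = j.succ.castSucc := Fin.succ_castSucc j
  rw [e, face_mid]
  simp

lemma comm0 (m : ℕ) (c : ((gam X).tens (gam Y)).V (m + 1)) :
    phi0 X Y m (((gam X).tens (gam Y)).bd m c) = dW X Y (phi0 X Y (m + 1) c) := by
  have : phi0 X Y m ∘ₗ ((gam X).tens (gam Y)).bd m = dW X Y ∘ₗ phi0 X Y (m + 1) := by
    refine tens_ext X Y ?_
    intro σ τ x y
    by_cases h : σ ∪ τ = Finset.univ
    · have e1 := SH_wd h
      have e2 := SV_wd h
      have := comm_word X Y (wd σ τ) x y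
      rw [e1, e2] at this
      exact this
    · have h1 := deg_mem X Y (m + 1) h x y
      have h2 := (SR.PI_eq_zero_iff _ _ _).mpr h1
      have h3 := SR.PI_bd ((gam X).tens (gam Y)) m
        (inn X (m + 1) σ x ⊗ₜ[R] inn Y (m + 1) τ y : ((gam X).tens (gam Y)).V (m + 1))
      rw [h2, map_zero] at h3
      have h4 := (SR.PI_eq_zero_iff _ _ _).mp h3
      have h5 := phi0_deg X Y m _ h4
      refine h5.trans ?_
      show 0 = dW X Y (phi0 X Y (m + 1) (inn X (m + 1) σ x ⊗ₜ[R] inn Y (m + 1) τ y))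
      rw [phi0_no X Y (m + 1) h, map_zero]
  exact LinearMap.congr_fun this c

lemma πW_apply (n : ℤ) (v : Wd X Y) (w : List Letter) :
    (πW X Y n v) w = if (w.length : ℤ) = n then v w else 0 := by
  classical
  induction v using Finsupp.induction_linear with
  | zero => simp
  | add f g hf hg =>
    rw [map_add, Finsupp.add_apply, hf, hg, Finsupp.add_apply]
    split_ifs <;> simp
  | single w' z =>
    rw [πW, Finsupp.lsum_single]
    by_cases h : (w'.length : ℤ) = n
    · rw [if_pos h, Finsupp.lsingle_apply, Finsupp.single_apply]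
      by_cases hw : w' = w
      · subst hw; rw [if_pos h]
      · rw [if_neg hw]; simp
    · rw [if_neg h, Finsupp.single_apply]
      by_cases hw : w' = w
      · subst hw; simp [h]
      · rw [if_neg hw]; simp

lemma sum_words (m : ℕ) (v : Wd X Y) (hv : πW X Y m v = v) :
    ∑ f : Fin m → Letter, Finsupp.single (List.ofFn f) (v (List.ofFn f)) = v := by
  classical
  ext w
  rw [Finsupp.finsetSum_apply]
  by_cases h : w.length = m
  · subst h
    rw [Finset.sum_eq_single w.get]
    · rw [List.ofFn_get, Finsupp.single_apply, if_pos rfl]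
    · intro f _ hf
      rw [Finsupp.single_apply, if_neg]
      intro he
      apply hf
      apply List.ofFn_injective
      rw [he, List.ofFn_get]
    · intro h; exact absurd (Finset.mem_univ _) h
  · have : v w = 0 := by
      rw [← hv, πW_apply, if_neg]
      exact_mod_cast h
    rw [this]
    refine Finset.sum_eq_zero fun f _ => ?_
    rw [Finsupp.single_apply, if_neg]
    rintro rfl
    exact h (List.length_ofFn)

lemma phi0_map (m : ℕ) (f : Fin m → Letter) (z : X.V ⊗[R] Y.V) :
    phi0 X Y m (TensorProduct.map (inn X m (SH f)) (inn Y m (SV f)) z) =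
      Finsupp.single (List.ofFn f) (πw X Y (List.ofFn f) z) := by
  induction z using TensorProduct.induction_on with
  | zero => simp
  | tmul x y =>
    rw [TensorProduct.map_tmul, phi0_word, πw, TensorProduct.map_tmul, hc_ofFn, vc_ofFn]
  | add a b ha hb => rw [map_add, map_add, ha, hb, map_add, Finsupp.single_add]

lemma map_inn_mem (m : ℕ) {σ τ : Finset (Fin m)} (h : σ ∪ τ ≠ Finset.univ) (z : X.V ⊗[R] Y.V) :
    (TensorProduct.map (inn X m σ) (inn Y m τ) z : ((gam X).tens (gam Y)).V m) ∈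
      ((gam X).tens (gam Y)).Deg m := by
  induction z using TensorProduct.induction_on with
  | zero =>
    rw [map_zero]
    exact Submodule.zero_mem _
  | tmul x y => exact deg_mem X Y m h x y
  | add a b ha hb =>
    rw [map_add]
    exact Submodule.add_mem _ ha hb

lemma decomp (m : ℕ) (c : (gam X).V m ⊗[R] (gam Y).V m) :
    c = ∑ σ, ∑ τ, TensorProduct.map (inn X m σ) (inn Y m τ)
      (TensorProduct.map (evv X m σ) (evv Y m τ) c) := by
  induction c using TensorProduct.induction_on with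
  | zero => simp
  | tmul a b =>
    simp only [TensorProduct.map_tmul]
    simp only [← TensorProduct.tmul_sum, ← TensorProduct.sum_tmul, sum_inn_evv]
  | add a b ha hb =>
    conv_lhs => rw [ha, hb]
    simp only [map_add, Finset.sum_add_distrib]

lemma phi0_ρ (m : ℕ) (g : G) (c : (gam X).V m ⊗[R] (gam Y).V m) :
    phi0 X Y m (((gam X).tens (gam Y)).ρ m g c) = ρW X Y g (phi0 X Y m c) := by
  induction c using TensorProduct.induction_on with
  | zero =>
    refine (congrArg (phi0 X Y m) (map_zero (((gam X).tens (gam Y)).ρ m g))).trans ?_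
    refine (map_zero (phi0 X Y m)).trans ?_
    rw [map_zero, map_zero]
  | tmul a b =>
    refine (congrArg (phi0 X Y m) (tens_ρ (gam X) (gam Y) m g a b)).trans ?_
    rw [phi0_apply, phi0_apply, map_sum]
    refine Finset.sum_congr rfl fun f _ => ?_
    rw [TensorProduct.map_tmul, TensorProduct.map_tmul, evv_ρ, evv_ρ, ρW,
      Finsupp.mapRange.linearMap_apply, Finsupp.mapRange_single, Representation.tprod_apply,
      TensorProduct.map_tmul]
  | add a b ha hb =>
    refine (congrArg (phi0 X Y m) (map_add (((gam X).tens (gam Y)).ρ m g) a b)).trans ?_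
    refine (map_add (phi0 X Y m) _ _).trans ?_
    rw [map_add, map_add, ← ha, ← hb]
    rfl

lemma phi0_eq_zero (m : ℕ) (c : (gam X).V m ⊗[R] (gam Y).V m) (h : phi0 X Y m c = 0)
    (f : Fin m → Letter) : TensorProduct.map (evv X m (SH f)) (evv Y m (SV f)) c = 0 := by
  classical
  have h1 := DFunLike.congr_fun h (List.ofFn f)
  rw [phi0_apply, Finsupp.finsetSum_apply, Finset.sum_eq_single f] at h1
  · rw [Finsupp.single_apply, if_pos rfl] at h1
    exact h1
  · intro g _ hg
    rw [Finsupp.single_apply, if_neg]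
    intro he
    exact hg (List.ofFn_injective he)
  · intro h; exact absurd (Finset.mem_univ _) h

/-- `φ m (a ⊗ b) = ∑_w w ⊗ (evv σ(w) a ⊗ evv τ(w) b)`, the sum over all words `w` of length `m`,
where `σ(w)` is the set of positions with letters `H`, `D` and `τ(w)` of those with `V`, `D`.
The pairs `(σ, τ)` with `σ ∪ τ ≠ univ` give degenerate elements. -/
theorem NQ_tens_gam (X Y : Cx R G) (hX : ∀ i : ℤ, i < 0 → ∀ x, X.π i x = 0)
    (hY : ∀ i : ℤ, i < 0 → ∀ x, Y.π i x = 0) :
    Nonempty (NQ ((gam X).tens (gam Y)) (W X Y)) := by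
  refine ⟨{
    φ := fun m => LinearMap.codRestrict (subW X Y) (phi0 X Y m) (phi0_mem X Y m)
    φ_ρ := ?_
    φ_π := ?_
    surj := ?_
    ker := ?_
    comm := ?_
    nonneg := ?_ }⟩
  · intro m g a
    refine Subtype.ext ?_
    exact phi0_ρ X Y m g a
  · intro m a
    refine Subtype.ext ?_
    show πW X Y m (phi0 X Y m a) = phi0 X Y m a
    ext w
    rw [πW_apply]
    split_ifs with h
    · rfl
    · rw [phi0_apply, Finsupp.finsetSum_apply]
      symm
      refine Finset.sum_eq_zero fun f _ => ?_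
      classical
      rw [Finsupp.single_apply, if_neg]
      rintro rfl
      exact h (by rw [List.length_ofFn])
  · intro m x hx
    have hv : πW X Y m (x : subW X Y).1 = (x : subW X Y).1 := congrArg Subtype.val hx
    refine ⟨∑ f : Fin m → Letter, TensorProduct.map (inn X m (SH f)) (inn Y m (SV f))
      ((x : subW X Y).1 (List.ofFn f)), Subtype.ext ?_⟩
    show phi0 X Y m (∑ f : Fin m → Letter, TensorProduct.map (inn X m (SH f)) (inn Y m (SV f))
      ((x : subW X Y).1 (List.ofFn f))) = (x : subW X Y).1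
    rw [map_sum]
    refine Eq.trans ?_ (sum_words X Y m _ hv)
    refine Finset.sum_congr rfl fun f _ => ?_
    rw [phi0_map]
    congr 1
    exact (x : subW X Y).2 (List.ofFn f)
  · intro m a
    constructor
    · intro h
      have h0 : phi0 X Y m a = 0 := congrArg Subtype.val h
      have hd := decomp X Y m a
      rw [hd]
      refine Submodule.sum_mem _ fun σ _ => Submodule.sum_mem _ fun τ _ => ?_
      by_cases hu : σ ∪ τ = Finset.univ
      · have := phi0_eq_zero X Y m a h0 (wd σ τ)
        rw [SH_wd hu, SV_wd hu] at this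
        rw [this, map_zero]
        exact Submodule.zero_mem _
      · exact map_inn_mem X Y m hu _
    · intro h
      refine Subtype.ext ?_
      exact phi0_deg X Y m a h
  · intro m a
    refine Subtype.ext ?_
    exact comm0 X Y m a
  · intro i hi x
    refine Subtype.ext ?_
    show πW X Y i (x : subW X Y).1 = 0
    ext w
    rw [πW_apply, if_neg]
    · rfl
    · intro h; omega

end EZ

end PicInd
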